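import Pool.Agent.Lib.MP_004c47_gt.CoreC45

/-! Levels with an arbitrary cusp group: the cells and the combinatorial vanishing lemma. -/

namespace TorsW2

/-- one-cells: `t`-edges, `c`-edges and `m`-edges -/
abbrev Rw3 (G : Type) : Type := G ⊕ G ⊕ G

/-- the `t`-edge at `g` -/
def et {G : Type} (g : G) : Rw3 G := Sum.inl g

/-- the `c`-edge at `g` -/
def ec {G : Type} (g : G) : Rw3 G := Sum.inr (Sum.inl g)

/-- the `m`-edge at `g` -/
def em {G : Type} (g : G) : Rw3 G := Sum.inr (Sum.inr g)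

variable {G W Q : Type} [Group G] [AddCommGroup Q]

/-- boundary of the big two-cell with independent weights on its seven edges -/
noncomputable def cell (c t g : G) (β rh τ e1 e2 e3 e4 : Q) (r : Rw3 G) : Q :=
  (sg (ec g) r : ℤ) • β + (sg (et (g * c)) r : ℤ) • e2 - (sg (et g) r : ℤ) • e1
    + (sg (et (g * c * t)) r : ℤ) • e3
    - ((sg (et (g * t * mer c t)) r : ℤ) • e4 + (sg (em (g * t)) r : ℤ) • rh)
    + (sg (ec (g * c * t * t)) r : ℤ) • τ

/-- boundary of a square of a cusp torus -/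
noncomputable def sqr (c t g : G) (s : Q) (r : Rw3 G) : Q :=
  (sg (ec g) r : ℤ) • s + (sg (em (g * c)) r : ℤ) • s - (sg (em g) r : ℤ) • s
    - (sg (ec (g * mer c t)) r : ℤ) • s

theorem map_cell {Q' : Type} [AddCommGroup Q'] (φ : Q →+ Q') (c t g : G) (β rh τ e1 e2 e3 e4 : Q)
    (r : Rw3 G) : φ (cell c t g β rh τ e1 e2 e3 e4 r) =
      cell c t g (φ β) (φ rh) (φ τ) (φ e1) (φ e2) (φ e3) (φ e4) r := by
  simp only [cell, map_add, map_sub, map_zsmul]

theorem map_sqr {Q' : Type} [AddCommGroup Q'] (φ : Q →+ Q') (c t g : G) (s : Q) (r : Rw3 G) :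
    φ (sqr c t g s r) = sqr c t g (φ s) r := by
  simp only [sqr, map_add, map_sub, map_zsmul]

omit [Group G] in
theorem sum_sgz [Fintype G] {X : Type} (f : G → Q) (u : G → X) (y : X) (g₀ : G)
    (h : ∀ g, y = u g ↔ g = g₀) : ∑ g, (sg (u g) y : ℤ) • f g = f g₀ := by
  rw [Finset.sum_eq_single g₀]
  · simp [sg, (h g₀).2 rfl]
  · intro g _ hg
    have : y ≠ u g := fun e => hg ((h g).1 e)
    simp [sg, this]
  · simp

omit [Group G] in
theorem sum_sgz_zero [Fintype G] {X : Type} (f : G → Q) (u : G → X) (y : X)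
    (h : ∀ g, y ≠ u g) : ∑ g, (sg (u g) y : ℤ) • f g = 0 :=
  Finset.sum_eq_zero fun g _ => by simp [sg, h g]

theorem rows [Fintype G] {c t : G} {β rh τ e1 e2 e3 e4 s : G → Q}
    (H : ∀ r, ∑ g, cell c t g (β g) (rh g) (τ g) (e1 g) (e2 g) (e3 g) (e4 g) r +
      ∑ g, sqr c t g (s g) r = 0) (y : G) :
    β y + τ (y * t⁻¹ * t⁻¹ * c⁻¹) + s y - s (y * (mer c t)⁻¹) = 0 ∧
      -rh (y * t⁻¹) + s (y * c⁻¹) - s y = 0 ∧
      e2 (y * c⁻¹) - e1 y + e3 (y * t⁻¹ * c⁻¹) - e4 (y * (mer c t)⁻¹ * t⁻¹) = 0 := by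
  simp only [cell, sqr, Finset.sum_add_distrib, Finset.sum_sub_distrib] at H
  refine ⟨?_, ?_, ?_⟩
  · have := H (ec y)
    rw [sum_sgz β (fun g => ec g) _ y (by intro g; simp [ec, eq_comm]),
      sum_sgz_zero e2 (fun g => et (g * c)) _ (by simp [et, ec]),
      sum_sgz_zero e1 (fun g => et g) _ (by simp [et, ec]),
      sum_sgz_zero e3 (fun g => et (g * c * t)) _ (by simp [et, ec]),
      sum_sgz_zero e4 (fun g => et (g * t * mer c t)) _ (by simp [et, ec]),
      sum_sgz_zero rh (fun g => em (g * t)) _ (by simp [em, ec]),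
      sum_sgz τ (fun g => ec (g * c * t * t)) _ (y * t⁻¹ * t⁻¹ * c⁻¹) (by
        intro g
        simp only [ec, Sum.inr.injEq, Sum.inl.injEq]
        constructor <;> (rintro rfl; group)),
      sum_sgz s (fun g => ec g) _ y (by intro g; simp [ec, eq_comm]),
      sum_sgz_zero s (fun g => em (g * c)) _ (by simp [em, ec]),
      sum_sgz_zero s (fun g => em g) _ (by simp [em, ec]),
      sum_sgz s (fun g => ec (g * mer c t)) _ (y * (mer c t)⁻¹) (by
        intro g
        simp only [ec, Sum.inr.injEq, Sum.inl.injEq]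
        constructor <;> (rintro rfl; group))] at this
    rw [← this]
    abel
  · have := H (em y)
    rw [sum_sgz_zero β (fun g => ec g) _ (by simp [em, ec]),
      sum_sgz_zero e2 (fun g => et (g * c)) _ (by simp [et, em]),
      sum_sgz_zero e1 (fun g => et g) _ (by simp [et, em]),
      sum_sgz_zero e3 (fun g => et (g * c * t)) _ (by simp [et, em]),
      sum_sgz_zero e4 (fun g => et (g * t * mer c t)) _ (by simp [et, em]),
      sum_sgz rh (fun g => em (g * t)) _ (y * t⁻¹) (by
        intro g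
        simp only [em, Sum.inr.injEq]
        constructor <;> (rintro rfl; group)),
      sum_sgz_zero τ (fun g => ec (g * c * t * t)) _ (by simp [em, ec]),
      sum_sgz_zero s (fun g => ec g) _ (by simp [em, ec]),
      sum_sgz s (fun g => em (g * c)) _ (y * c⁻¹) (by
        intro g
        simp only [em, Sum.inr.injEq]
        constructor <;> (rintro rfl; group)),
      sum_sgz s (fun g => em g) _ y (by intro g; simp [em, eq_comm]),
      sum_sgz_zero s (fun g => ec (g * mer c t)) _ (by simp [em, ec])] at this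
    rw [← this]
    abel
  · have := H (et y)
    rw [sum_sgz_zero β (fun g => ec g) _ (by simp [et, ec]),
      sum_sgz e2 (fun g => et (g * c)) _ (y * c⁻¹) (by
        intro g
        simp only [et, Sum.inl.injEq]
        constructor <;> (rintro rfl; group)),
      sum_sgz e1 (fun g => et g) _ y (by intro g; simp [et, eq_comm]),
      sum_sgz e3 (fun g => et (g * c * t)) _ (y * t⁻¹ * c⁻¹) (by
        intro g
        simp only [et, Sum.inl.injEq]
        constructor <;> (rintro rfl; group)),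
      sum_sgz e4 (fun g => et (g * t * mer c t)) _ (y * (mer c t)⁻¹ * t⁻¹) (by
        intro g
        simp only [et, Sum.inl.injEq]
        constructor <;> (rintro rfl; group)),
      sum_sgz_zero rh (fun g => em (g * t)) _ (by simp [et, em]),
      sum_sgz_zero τ (fun g => ec (g * c * t * t)) _ (by simp [et, ec]),
      sum_sgz_zero s (fun g => ec g) _ (by simp [et, ec]),
      sum_sgz_zero s (fun g => em (g * c)) _ (by simp [et, em]),
      sum_sgz_zero s (fun g => em g) _ (by simp [et, em]),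
      sum_sgz_zero s (fun g => ec (g * mer c t)) _ (by simp [et, ec])] at this
    rw [← this]
    abel

theorem cyc_step [Finite G] {V : Type} (a y : G) (u : G → V)
    (h : ∀ k : ℕ, a ^ k ≠ 1 → u (y * a ^ k * a) = u (y * a ^ k)) : u (y * a) = u y := by
  have ho : 0 < orderOf a := orderOf_pos a
  have key : ∀ k : ℕ, k + 1 ≤ orderOf a → u (y * a ^ (k + 1)) = u (y * a) := by
    intro k
    induction k with
    | zero => intro _; simp
    | succ k ih =>
      intro hk
      rw [pow_succ, ← mul_assoc, h _ (pow_ne_one_of_lt_orderOf (by omega) (by omega)),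
        ih (by omega)]
  have := key (orderOf a - 1) (by omega)
  rw [Nat.sub_add_cancel ho, pow_orderOf_eq_one, mul_one] at this
  exact this.symm

/-- finite quotient with wall labels, a height on the labels and marked points on the cusps -/
structure Lev (c t : G) (n : ℕ) (h : G → W) (ζ : W → ZMod n) (rep : G → Prop) : Prop where
  comm : c * mer c t = mer c t * c
  h1 : ∀ g, h (g * c * t) = h g
  h2 : ∀ g, h (g * t * mer c t) = h (g * c)
  zc : ∀ g, ζ (h (g * c)) = ζ (h g) + 1
  zt : ∀ g, ζ (h (g * t)) = ζ (h g) - 1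
  pos : n ≠ 0
  one : (1 : ZMod n) ≠ 0
  cn : c ^ n = 1
  sep : ∀ g (k : ℕ), h (g * (c * c * (mer c t)⁻¹) ^ k * t⁻¹) = h (g * t⁻¹) →
    (c * c * (mer c t)⁻¹) ^ k = 1
  mark : ∀ g, ∃ u ∈ Subgroup.closure {c, mer c t}, rep (g * u)

variable {c t : G} {n : ℕ} {h : G → W} {ζ : W → ZMod n} {rep : G → Prop}

theorem Lev.ne_ht (L : Lev c t n h ζ rep) (g : G) : ζ (h (g * c)) ≠ ζ (h g) := by
  rw [L.zc]
  intro e
  exact L.one (add_eq_left.1 e)

theorem Lev.ne_lab (L : Lev c t n h ζ rep) (g : G) : h (g * c) ≠ h g :=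
  fun e => L.ne_ht g (by rw [e])

theorem comb [Finite G] (L : Lev c t n h ζ rep) (y0 : ZMod n) (bad : W → Prop)
    (hbad : ∀ a a', bad a → bad a' → a = a') {β lam rh τ s : G → Q}
    (hc : ∀ y, β y + τ (y * t⁻¹ * t⁻¹ * c⁻¹) + s y - s (y * (mer c t)⁻¹) = 0)
    (hm : ∀ y, -rh (y * t⁻¹) + s (y * c⁻¹) - s y = 0)
    (ht : ∀ y, ζ (h y) ≠ y0 →
      lam (y * c⁻¹) - rh y + τ (y * t⁻¹ * c⁻¹) - τ (y * (mer c t)⁻¹ * t⁻¹) = 0)
    (hs : ∀ g, rep g → s g = 0) (hβ : ∀ g, β g = 0)
    (hrh : ∀ g, ζ (h (g * c)) ≠ y0 → rh g = 0) (hlam : ∀ g, ζ (h g) ≠ y0 → lam g = 0)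
    (hτ : ∀ g, ζ (h g) = y0 → ¬ bad (h g) → τ g = 0) (g : G) :
    lam g = 0 ∧ rh g = 0 ∧ τ g = 0 ∧ s g = 0 := by
  have : NeZero n := ⟨L.pos⟩
  set M := mer c t with hM
  have hcM : Commute c M := L.comm
  have zt' : ∀ y, ζ (h (y * t⁻¹)) = ζ (h y) + 1 := fun y => by
    have := L.zt (y * t⁻¹)
    rw [inv_mul_cancel_right] at this
    rw [this]; ring
  have zM : ∀ y, ζ (h (y * M)) = ζ (h y) + 2 := fun y => by
    have := L.h2 (y * t⁻¹)
    rw [inv_mul_cancel_right] at this
    rw [this, L.zc, zt']; ring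
  have zM' : ∀ y, ζ (h (y * M⁻¹)) = ζ (h y) - 2 := fun y => by
    have := zM (y * M⁻¹)
    rw [inv_mul_cancel_right] at this
    rw [this]; ring
  have zcp : ∀ y (k : ℕ), ζ (h (y * c ^ k)) = ζ (h y) + k := fun y k => by
    induction k with
    | zero => simp
    | succ k ih => rw [pow_succ, ← mul_assoc, L.zc, ih]; push_cast; ring
  have zap : ∀ y (k : ℕ), ζ (h (y * (c * c * M⁻¹) ^ k)) = ζ (h y) := fun y k => by
    induction k with
    | zero => simp
    | succ k ih =>
      rw [pow_succ, ← mul_assoc, ← mul_assoc, ← mul_assoc, zM', L.zc, L.zc, ih]; ring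
  have s1 : ∀ z, ζ (h z) + 3 ≠ y0 → s (z * c) = s z := fun z hz => by
    have e := hm (z * c)
    rw [hrh _ (by rw [L.zc, zt', L.zc]; intro e; apply hz; rw [← e]; ring), neg_zero, zero_add,
      mul_inv_cancel_right, sub_eq_zero] at e
    exact e.symm
  have sc : ∀ z, s (z * c) = s z := fun z => by
    by_cases hz : ζ (h z) + 3 = y0
    · refine cyc_step c z s fun k hk => s1 _ fun e => hk ?_
      rw [zcp, add_right_comm, hz, add_eq_left, ZMod.natCast_eq_zero_iff] at e
      obtain ⟨j, rfl⟩ := e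
      rw [pow_mul, L.cn, one_pow]
    · exact s1 z hz
  have scp : ∀ z (k : ℕ), s (z * c ^ k) = s z := fun z k => by
    induction k with
    | zero => simp
    | succ k ih => rw [pow_succ, ← mul_assoc, sc, ih]
  have sa : ∀ y, s (y * (c * c * M⁻¹)) = s (y * M⁻¹) := fun y => by
    have : c * c * M⁻¹ = M⁻¹ * c * c := by
      rw [mul_assoc M⁻¹]
      exact (hcM.mul_left hcM).inv_right.eq
    rw [this, ← mul_assoc, ← mul_assoc, sc, sc]
  have s3 : ∀ y, ζ (h y) + 1 = y0 → ¬ bad (h (y * t⁻¹)) → s (y * (c * c * M⁻¹)) = s y :=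
    fun y hy hb => by
      have e0 : h (y * t⁻¹ * t⁻¹ * c⁻¹) = h (y * t⁻¹) := by
        rw [← L.h1]; congr 1; group
      have e := hc y
      rw [hβ, hτ _ (by rw [e0, zt', hy]) (by rw [e0]; exact hb), zero_add, zero_add,
        sub_eq_zero] at e
      rw [sa, e]
  have s4 : ∀ y, ζ (h y) + 1 = y0 → s (y * M⁻¹) = s y := fun y hy => by
    rw [← sa]
    by_cases hb : bad (h (y * t⁻¹))
    · exact cyc_step _ y s fun k hk => s3 _ (by rw [zap, hy]) fun hb' =>
        hk (L.sep y k (hbad _ _ hb' hb))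
    · exact s3 y hy hb
  have sM : ∀ y, s (y * M⁻¹) = s y := fun y => by
    obtain ⟨k, hk⟩ := ZMod.natCast_zmod_surjective (y0 - 1 - ζ (h y))
    have e := s4 (y * c ^ k) (by rw [zcp, hk]; ring)
    rw [mul_assoc, (hcM.pow_left k).inv_right.eq, ← mul_assoc, scp, scp] at e
    exact e
  have r0 : ∀ g, rh g = 0 := fun g => by
    have e := hm (g * t)
    have e2 := sc (g * t * c⁻¹)
    rw [inv_mul_cancel_right] at e2
    rw [mul_inv_cancel_right, ← e2, add_sub_cancel_right, neg_eq_zero] at e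
    exact e
  have t0 : ∀ g, τ g = 0 := fun g => by
    have e := hc (g * c * t * t)
    have e2 : g * c * t * t * t⁻¹ * t⁻¹ * c⁻¹ = g := by group
    rw [hβ, sM, e2, zero_add, add_sub_cancel_right] at e
    exact e
  refine ⟨?_, r0 g, t0 g, ?_⟩
  · by_cases hg : ζ (h g) = y0
    · have e := ht (g * c) (by rw [← hg]; exact L.ne_ht g)
      rw [r0, t0, t0, mul_inv_cancel_right] at e
      simpa using e
    · exact hlam g hg
  · obtain ⟨u, hu, hr⟩ := L.mark g
    rw [← hs _ hr]
    clear hr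
    induction hu using Subgroup.closure_induction generalizing g with
    | mem x hx =>
      rcases hx with rfl | rfl
      · exact (sc g).symm
      · have := sM (g * M)
        rwa [mul_inv_cancel_right] at this
    | one => rw [mul_one]
    | mul x y _ _ hx hy => rw [← mul_assoc, ← hy, ← hx]
    | inv x _ hx =>
      have := hx (g * x⁻¹)
      rw [inv_mul_cancel_right] at this
      exact this.symm

/-- the two-adic form of the vanishing lemma -/
theorem flow [Finite G] (L : Lev c t n h ζ rep) (y0 : ZMod n) (bad : W → Prop)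
    (hbad : ∀ a a', bad a → bad a' → a = a') {β lam rh τ s : G → ℚ}
    (hc : ∀ y, β y + τ (y * t⁻¹ * t⁻¹ * c⁻¹) + s y - s (y * (mer c t)⁻¹) = 0)
    (hm : ∀ y, -rh (y * t⁻¹) + s (y * c⁻¹) - s y = 0)
    (ht : ∀ y, ζ (h y) ≠ y0 →
      lam (y * c⁻¹) - rh y + τ (y * t⁻¹ * c⁻¹) - τ (y * (mer c t)⁻¹ * t⁻¹) = 0)
    (hs : ∀ g, rep g → s g = 0) (hβ : ∀ g, β g = 2 * rh g ∨ β g = 2 * lam g)
    (hrh : ∀ g, ζ (h (g * c)) ≠ y0 → rh g = 2 * τ g) (hlam : ∀ g, ζ (h g) ≠ y0 → lam g = 2 * τ g)
    (hτ : ∀ g, ζ (h g) = y0 → ¬ bad (h g) → τ g = 2 * lam g) (g : G) :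
    β g = 0 ∧ lam g = 0 ∧ rh g = 0 ∧ τ g = 0 ∧ s g = 0 := by
  have := Fintype.ofFinite G
  let f : Fin 4 × G → ℚ := fun i => ![lam, rh, τ, s] i.1 i.2
  obtain ⟨i0, -, hi0⟩ := Finset.exists_max_image Finset.univ (fun i => padicNorm 2 (f i))
    ⟨(0, 1), Finset.mem_univ _⟩
  have hz : f i0 = 0 := by
    by_contra hne
    have hpos : 0 < padicNorm 2 (f i0) :=
      lt_of_le_of_ne (padicNorm.nonneg _) (padicNorm.nonzero hne).symm
    let Λ : AddSubgroup ℚ :=
      { carrier := {x | padicNorm 2 x < padicNorm 2 (f i0)}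
        zero_mem' := by simpa using hpos
        add_mem' := fun ha hb => padicNorm.nonarchimedean.trans_lt (max_lt ha hb)
        neg_mem' := fun ha => by simpa using ha }
    let π := QuotientAddGroup.mk' Λ
    have h2 : ∀ i, π (2 * f i) = 0 := fun i => by
      refine (QuotientAddGroup.eq_zero_iff _).2 ?_
      show padicNorm 2 (2 * f i) < padicNorm 2 (f i0)
      have e1 : padicNorm 2 (2 : ℚ) = 2⁻¹ := padicNorm.padicNorm_p (p := 2) one_lt_two
      have e2 := hi0 i (Finset.mem_univ _)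
      rw [padicNorm.mul, e1]
      linarith
    have key := comb L y0 bad hbad (β := fun g => π (β g)) (lam := fun g => π (lam g))
      (rh := fun g => π (rh g)) (τ := fun g => π (τ g)) (s := fun g => π (s g))
      (fun y => by rw [← map_add, ← map_add, ← map_sub, hc, map_zero])
      (fun y => by rw [← map_neg, ← map_add, ← map_sub, hm, map_zero])
      (fun y hy => by rw [← map_sub, ← map_add, ← map_sub, ht y hy, map_zero])
      (fun g hg => by rw [hs g hg, map_zero])
      (fun g => by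
        rcases hβ g with e | e
        · rw [e]; exact h2 (1, g)
        · rw [e]; exact h2 (0, g))
      (fun g hg => by rw [hrh g hg]; exact h2 (2, g))
      (fun g hg => by rw [hlam g hg]; exact h2 (2, g))
      (fun g hg hb => by rw [hτ g hg hb]; exact h2 (0, g))
    have h3 : π (f i0) = 0 := by
      obtain ⟨i, g⟩ := i0
      fin_cases i
      · exact (key g).1
      · exact (key g).2.1
      · exact (key g).2.2.1
      · exact (key g).2.2.2
    have h4 : padicNorm 2 (f i0) < padicNorm 2 (f i0) := (QuotientAddGroup.eq_zero_iff _).1 h3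
    exact lt_irrefl _ h4
  have all : ∀ i, f i = 0 := fun i => by
    have e := hi0 i (Finset.mem_univ _)
    rw [hz, padicNorm.zero] at e
    exact padicNorm.zero_of_padicNorm_eq_zero (le_antisymm e (padicNorm.nonneg _))
  have a0 : lam g = 0 := all (0, g)
  have a1 : rh g = 0 := all (1, g)
  refine ⟨?_, a0, a1, all (2, g), all (3, g)⟩
  rcases hβ g with e | e
  · rw [e, a1, mul_zero]
  · rw [e, a0, mul_zero]

end TorsW2
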