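import Pool.Agent.Lib.MP_004c47_gt.CoreW2

/-! Small torsion in long abelian covers of a matrix of polynomials. -/

namespace TorsW2

open MvPolynomial

/-- the matrix of the abelian cover with group `A` -/
noncomputable def cov {W A J Rw : Type} [AddCommGroup A] (a : W → A)
    (D : J → Rw → MvPolynomial W ℤ) (p : A × J) (q : A × Rw) : ℤ :=
  evA a (D p.2 q.2) (q.1 - p.1)

/-- the three properties of a matrix that force small torsion -/
structure Good {J Rw W : Type} [Fintype Rw] (D : J → Rw → MvPolynomial W ℤ) : Prop where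
  deg : ∀ j ρ, (D j ρ).totalDegree ≤ 2
  mon : ∀ j, (sg j : J → ℤ) ∈
    Submodule.span ℤ (Set.range fun (ρ : Rw) (j' : J) => constantCoeff (D j' ρ))
  ann : ∃ r : MvPolynomial W ℤ, r ≠ 0 ∧ (∃ n, r.IsHomogeneous n) ∧ ∀ j : J,
    (r • sg j : J → MvPolynomial W ℤ) ∈ Submodule.span (MvPolynomial W ℤ)
      (Set.range fun (ρ : Rw) (j' : J) => D j' ρ)

theorem core_natA {G Rw W : Type} [Fintype G] [Fintype Rw] [Finite W]
    {D : G → Rw → MvPolynomial W ℤ} (L : Good D) :
    ∃ C R δ : ℕ, 1 ≤ C ∧ 1 ≤ R ∧ ∀ m k : ℕ, 0 < m → 2 ≤ k →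
      ∀ (B : Type) [AddCommGroup B] [Finite B] (b : W → B),
      Nat.card (torsCoker (cov (lab m k b) D)) ≤
        R ^ (m ^ Nat.card W * (2 * Nat.card B) * Nat.card G) *
          (C ^ (k + 1)) ^ ((m ^ Nat.card W - (m - δ) ^ Nat.card W) * (2 * Nat.card B) *
            Nat.card G) := by
  classical
  obtain ⟨r, hr0, ⟨δ, hr⟩, hrs⟩ := L.ann
  have := Fintype.ofFinite W
  choose n hn0 using fun j => (Submodule.mem_span_range_iff_exists_fun ℤ).1 (L.mon j)
  let p : G → G → MvPolynomial W ℤ := fun j j' => ∑ ρ, (C (n j ρ) : MvPolynomial W ℤ) * D j' ρ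
  have hp1 : ∀ j, p j ∈ Submodule.span (MvPolynomial W ℤ)
      (Set.range fun (ρ : Rw) (j' : G) => D j' ρ) := fun j =>
    (Submodule.mem_span_range_iff_exists_fun _).2 ⟨fun ρ => C (n j ρ), by
      funext j'
      simp [p, Finset.sum_apply]⟩
  have hp2 : ∀ j j', coeff 0 (p j j') = sg j j' := fun j j' => by
    rw [← congrFun (hn0 j) j']
    simp only [p, Finset.sum_apply, coeff_sum, constantCoeff_eq, coeff_C_mul, Pi.smul_apply,
      smul_eq_mul]
  have hp3 : ∀ j j', (p j j').totalDegree ≤ 2 := fun j j' =>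
    totalDegree_finsetSum_le fun ρ _ => (totalDegree_mul _ _).trans (by
      rw [totalDegree_C, zero_add]; exact L.deg j' ρ)
  refine ⟨1 + ∑ ρ : Rw, ∑ g, l1 (D g ρ) + ∑ j, ∑ g, l1 (p j g),
    1 + ∑ g : G, ∑ g', l1 ((r • (sg g : G → MvPolynomial W ℤ)) g'), δ, by omega, by omega, ?_⟩
  intro m k hm hk B _ _ b
  have : NeZero m := ⟨by omega⟩
  have : NeZero k := ⟨by omega⟩
  have := Fintype.ofFinite B
  set C := 1 + ∑ ρ : Rw, ∑ g, l1 (D g ρ) + ∑ j, ∑ g, l1 (p j g) with hCdef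
  set R := 1 + ∑ g : G, ∑ g', l1 ((r • (sg g : G → MvPolynomial W ℤ)) g') with hRdef
  let row : ((W → ZMod m) × ZMod k × B) × Rw → ((W → ZMod m) × ZMod k × B) × G → ℤ :=
    fun i j => cov (lab m k b) D j i
  have hrow : ∀ y ρ, row (y, ρ) = Phi (lab m k b) y fun g => D g ρ := fun y ρ => rfl
  have hn : ∀ j, nrm (row j) ≤ C := by
    rintro ⟨y, ρ⟩
    rw [hrow]
    have h1 := nrm_Phi (lab m k b) y fun g => D g ρ
    have h2 : ∑ g, l1 (D g ρ) ≤ ∑ ρ : Rw, ∑ g, l1 (D g ρ) :=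
      Finset.single_le_sum (f := fun ρ : Rw => ∑ g, l1 (D g ρ))
        (fun _ _ => Nat.zero_le _) (Finset.mem_univ ρ)
    omega
  have hmem : ∀ ρ y, Phi (lab m k b) y (fun g => D g ρ) ∈ Submodule.span ℤ (Set.range row) :=
    fun ρ y => by
      rw [← hrow]
      exact Submodule.subset_span ⟨_, rfl⟩
  have hw := card_win (W := W) (B := B) (G := G) m k
  have hind := indep (G := G) (m := m) hk b hr0 hr
  refine (tors_transpose row).trans ((tors_window row (fun x => x.1.2.1.val) k C R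
    ((m ^ Nat.card W - (m - δ) ^ Nat.card W) * (2 * Nat.card B) * Nat.card G) (by omega)
    (by omega) (fun x => (ZMod.val_lt _).le) hn ?_
    (Set.range fun i : ((W → Fin (m - δ)) × Fin 2 × B) × G =>
      Phi (lab m k b) (yI m k δ i.1) (r • sg i.2)) ?_ ?_).trans ?_)
  · rintro ⟨y, g0⟩ hy
    refine ⟨sg (y, g0) - Phi (lab m k b) y (p g0), ?_, (nrm_sg_sub _ _).trans ?_, ?_⟩
    · rw [sub_sub_cancel]
      exact Phi_mem _ _ _ hmem (hp1 g0) y
    · have h1 := nrm_Phi (lab m k b) y (p g0)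
      have h2 : ∑ g, l1 (p g0 g) ≤ ∑ j, ∑ g, l1 (p j g) :=
        Finset.single_le_sum (f := fun j => ∑ g, l1 (p j g))
          (fun _ _ => Nat.zero_le _) (Finset.mem_univ g0)
      omega
    · rintro ⟨x, g⟩ hx
      have e1 : (sg (y, g0) - Phi (lab m k b) y (p g0) : _ → ℤ) (x, g) =
          -evA (lab m k b) (p g0 g - MvPolynomial.C (coeff 0 (p g0 g))) (y - x) := by
        have e2 : (MvPolynomial.C (sg g0 g : ℤ) : MvPolynomial W ℤ) = sg g0 g := by
          unfold sg
          split_ifs <;> simp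
        have e3 : evA (lab m k b) (sg g0 g) (y - x) = sg (y, g0) (x, g) := by
          rw [evA_sg]
          exact sg_congr (by simp [eq_comm])
        rw [hp2, e2, map_sub, Pi.sub_apply, Pi.sub_apply, e3, neg_sub]
        rfl
      rw [e1, neg_ne_zero] at hx
      obtain ⟨β, hβ, h1⟩ := evA_ne _ hx
      have hβ0 : β ≠ 0 := by
        rintro rfl
        rw [mem_support_iff, coeff_sub, coeff_zero_C, sub_self] at hβ
        exact hβ rfl
      have hβ1 : β ∈ (p g0 g).support := by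
        rw [mem_support_iff, coeff_sub, coeff_C, if_neg hβ0.symm, sub_zero] at hβ
        exact mem_support_iff.2 hβ
      have hd2 : β.degree ≤ 2 := (le_totalDegree hβ1).trans (hp3 g0 g)
      have hd1 : β.degree ≠ 0 := fun h0 => hβ0 ((Finsupp.degree_eq_zero_iff β).1 h0)
      have h2 := congrArg (fun z => z.2.1) h1
      simp only [Prod.snd_sub, Prod.fst_sub, wt_snd] at h2
      simp only at hy ⊢
      have := val_of_add x.2.1 y.2.1 β.degree (by omega) (by rw [← h2]; ring)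
      omega
  · rintro _ ⟨i, rfl⟩
    refine ⟨Phi_mem _ _ _ hmem (hrs i.2) _, ?_, ?_⟩
    · have h1 := nrm_Phi (lab m k b) (yI m k δ i.1) (r • (sg i.2 : G → MvPolynomial W ℤ))
      have h2 : ∑ g', l1 ((r • (sg i.2 : G → MvPolynomial W ℤ)) g') ≤
          ∑ g : G, ∑ g', l1 ((r • (sg g : G → MvPolynomial W ℤ)) g') :=
        Finset.single_le_sum
          (f := fun g : G => ∑ g', l1 ((r • (sg g : G → MvPolynomial W ℤ)) g'))
          (fun _ _ => Nat.zero_le _) (Finset.mem_univ i.2)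
      exact h1.trans (by omega)
    · intro x hx
      obtain ⟨_, β, hβ, h1⟩ := Phi_r_ne _ _ _ _ _ hx
      have h2 := congrArg (fun z => z.2.1) h1
      simp only [Prod.snd_sub, Prod.fst_sub, wt_snd, deg_of_homog hr hβ, yI] at h2
      have h3 : x.1.2.1 = ((i.1.2.1 : ℕ) : ZMod k) := by
        push_cast at h2
        linear_combination -h2
      show x.1.2.1.val < 2
      rw [h3, ZMod.val_natCast]
      exact lt_of_le_of_lt (Nat.mod_le _ _) i.1.2.1.2
  · rw [finrank_span_eq_card hind, ← Nat.card_eq_fintype_card]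
    refine hw.trans (le_of_eq ?_)
    have h1 : (m - δ) ^ Nat.card W ≤ m ^ Nat.card W := Nat.pow_le_pow_left (Nat.sub_le _ _) _
    simp only [Nat.card_prod, Nat.card_fun, Nat.card_fin]
    rw [← add_mul, ← add_mul, Nat.add_sub_cancel' h1]
  · exact Nat.mul_le_mul_right _ (Nat.pow_le_pow_right (by omega) hw)

theorem coreA {G Rw W : Type} [Fintype G] [Fintype Rw] [Finite W]
    {D : G → Rw → MvPolynomial W ℤ} (L : Good D) (ε : ℝ) (hε : 0 < ε) :
    ∃ m k : ℕ, 0 < m ∧ 0 < k ∧ ∀ (B : Type) [AddCommGroup B] [Finite B] (b : W → B),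
      Real.log (Nat.card (torsCoker (cov (lab m k b) D))) ≤
        ε * Nat.card (((W → ZMod m) × ZMod k × B) × G) := by
  obtain ⟨C, R, δ, hC, hR, H⟩ := core_natA L
  obtain ⟨m0, hm0⟩ := exists_nat_ge (8 * (Nat.card W * δ) * Real.log C / ε)
  obtain ⟨k0, hk0⟩ := exists_nat_ge (4 * Real.log R / ε)
  refine ⟨m0 + δ + 1, k0 + 2, by omega, by omega, fun B _ _ b => ?_⟩
  have H1 := H (m0 + δ + 1) (k0 + 2) (by omega) (by omega) B b
  have hb := bern (m0 + δ + 1) δ (Nat.card W) (by omega) (by omega)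
  have hcard : Nat.card (((W → ZMod (m0 + δ + 1)) × ZMod (k0 + 2) × B) × G) =
      (m0 + δ + 1) ^ Nat.card W * ((k0 + 2) * Nat.card B) * Nat.card G := by
    simp [Nat.card_prod, Nat.card_fun]
  rw [hcard]
  generalize Nat.card (torsCoker (cov (lab (m0 + δ + 1) (k0 + 2) b) D)) = T at H1 ⊢
  have hm1 : m0 ≤ m0 + δ + 1 := by omega
  have hm2 : 0 < m0 + δ + 1 := by omega
  generalize m0 + δ + 1 = m at *
  generalize m ^ Nat.card W - (m - δ) ^ Nat.card W = E at *
  have hlC : 0 ≤ Real.log C := Real.log_natCast_nonneg C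
  have hlR : 0 ≤ Real.log R := Real.log_natCast_nonneg R
  have hC' : (0 : ℝ) < C := by exact_mod_cast hC
  have hR' : (0 : ℝ) < R := by exact_mod_cast hR
  have hm' : (0 : ℝ) < m := by exact_mod_cast hm2
  have hm1' : (m0 : ℝ) ≤ m := by exact_mod_cast hm1
  rw [div_le_iff₀ hε] at hm0 hk0
  have hP : (0 : ℝ) ≤ (m : ℝ) ^ Nat.card W := by positivity
  have hD : 8 * (E : ℝ) * Real.log C ≤ ε * (m : ℝ) ^ Nat.card W := by
    refine le_of_mul_le_mul_left ?_ hm'
    have h1 := mul_le_mul_of_nonneg_right hb hlC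
    have h2 := mul_le_mul_of_nonneg_right (hm0.trans (mul_le_mul_of_nonneg_right hm1' hε.le)) hP
    nlinarith
  rcases Nat.eq_zero_or_pos T with hT | hT
  · rw [hT, Nat.cast_zero, Real.log_zero]
    positivity
  have H2 : (T : ℝ) ≤ (R : ℝ) ^ (m ^ Nat.card W * (2 * Nat.card B) * Nat.card G) *
      ((C : ℝ) ^ (k0 + 2 + 1)) ^ (E * (2 * Nat.card B) * Nat.card G) := by exact_mod_cast H1
  have H3 := Real.log_le_log (by exact_mod_cast hT) H2
  rw [Real.log_mul (by positivity) (by positivity), Real.log_pow, Real.log_pow,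
    Real.log_pow] at H3
  refine H3.trans ?_
  push_cast
  have hN : (0 : ℝ) ≤ (Nat.card B : ℝ) * Nat.card G := by positivity
  have hk : (0 : ℝ) ≤ k0 := Nat.cast_nonneg _
  have hD0 : (0 : ℝ) ≤ (E : ℝ) * Real.log C := by positivity
  have h1 : (m : ℝ) ^ Nat.card W * 2 * Real.log R + E * 2 * ((k0 + 2 + 1) * Real.log C) ≤
      ε * ((m : ℝ) ^ Nat.card W * (k0 + 2)) := by
    have h2 := mul_le_mul_of_nonneg_left hk0 hP
    have h3 := mul_le_mul_of_nonneg_left hD (by linarith : (0 : ℝ) ≤ k0 + 2)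
    have h4 := mul_nonneg hk hD0
    have h5 := mul_nonneg hε.le hP
    nlinarith
  have h6 := mul_le_mul_of_nonneg_right h1 hN
  nlinarith

end TorsW2
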