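import Pool.Agent.Lib.MP_004c47_gt.DefsW2

/-! The torsion of the cokernel of an integer matrix and of its transpose. -/

namespace TorsW2

theorem finite_torsCoker {J X : Type} [Finite X] (row : J → X → ℤ) : Finite (torsCoker row) := by
  exact Module.finite_of_fg_torsion (torsCoker row) (Submodule.torsion_isTorsion)

theorem tors_transpose {ι κ : Type} [Finite ι] [Finite κ] (A : ι → κ → ℤ) :
    Nat.card (torsCoker fun j i => A i j) ≤ Nat.card (torsCoker A) := by
  classical
  have := Fintype.ofFinite ι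
  have := Fintype.ofFinite κ
  have := finite_torsCoker A
  set N : Submodule ℤ (κ → ℤ) := Submodule.span ℤ (Set.range A) with hN
  set N' : Submodule ℤ (ι → ℤ) := Submodule.span ℤ (Set.range fun j i => A i j) with hN'
  obtain ⟨n, snf⟩ := N.smithNormalForm (Pi.basisFun ℤ κ)
  obtain ⟨bM, bN, f, a, hsnf⟩ := snf
  have hA : ∀ i, A i ∈ N := fun i => Submodule.subset_span ⟨i, rfl⟩
  -- coordinates of the rows in the basis of `N`
  let B : ι → Fin n → ℤ := fun i l => bN.repr ⟨A i, hA i⟩ l
  have hB : ∀ i, A i = ∑ l, B i l • (bN l : κ → ℤ) := by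
    intro i
    have h := bN.sum_repr ⟨A i, hA i⟩
    have h2 := congrArg (fun z : N => (z : κ → ℤ)) h
    simp only [Submodule.coe_sum, Submodule.coe_smul] at h2
    exact h2.symm
  -- the basis of `N` in terms of the rows
  have hC' : ∀ l, ∃ c : ι → ℤ, ∑ i, c i • A i = (bN l : κ → ℤ) := fun l =>
    (Submodule.mem_span_range_iff_exists_fun ℤ).1 (bN l).2
  choose C hC using hC'
  have hCj : ∀ l j, ∑ i, C l i * A i j = (bN l : κ → ℤ) j := by
    intro l j
    have := congrFun (hC l) j
    simpa [Finset.sum_apply] using this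
  let dot : Fin n → (ι → ℤ) →ₗ[ℤ] ℤ := fun l => ∑ i, C l i • LinearMap.proj i
  have hdot : ∀ l x, dot l x = ∑ i, C l i * x i := by
    intro l x
    simp [dot, LinearMap.sum_apply]
  let Φ : (ι → ℤ) →ₗ[ℤ] (κ → ℤ) := ∑ l, (dot l).smulRight (bM (f l))
  have hΦ : ∀ x, Φ x = ∑ l, dot l x • bM (f l) := by
    intro x
    simp [Φ, LinearMap.sum_apply]
  let Ψ : (ι → ℤ) →ₗ[ℤ] (ι → ℤ) := ∑ l, (dot l).smulRight (fun i => B i l)
  have hΨ : ∀ x, Ψ x = ∑ l, dot l x • (fun i => B i l) := by
    intro x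
    simp [Ψ, LinearMap.sum_apply]
  have hΦN : N' ≤ N.comap Φ := by
    rw [hN', Submodule.span_le]
    rintro _ ⟨j, rfl⟩
    change Φ (fun i => A i j) ∈ N
    rw [hΦ]
    refine N.sum_mem fun l _ => ?_
    rw [hdot, hCj, hsnf l, Pi.smul_apply, smul_eq_mul, mul_comm, mul_smul, ← hsnf l]
    exact N.smul_mem _ (bN l).2
  have hΨN : ∀ x ∈ N', Ψ x = x := by
    intro x hx
    have : N' ≤ LinearMap.eqLocus Ψ LinearMap.id := by
      rw [hN', Submodule.span_le]
      rintro _ ⟨j, rfl⟩
      change Ψ (fun i => A i j) = fun i => A i j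
      rw [hΨ]
      funext i
      have h := congrFun (hB i) j
      rw [h]
      simp only [Finset.sum_apply, Pi.smul_apply, smul_eq_mul]
      refine Finset.sum_congr rfl fun l _ => ?_
      rw [hdot, hCj, mul_comm]
    exact this hx
  have hcoord : ∀ (d : Fin n → ℤ) l, bM.coord (f l) (∑ l', d l' • bM (f l')) = d l := by
    intro d l
    rw [map_sum, Finset.sum_eq_single l]
    · rw [map_smul, Module.Basis.coord_apply, Module.Basis.repr_self, Finsupp.single_eq_same,
        smul_eq_mul, mul_one]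
    · intro l' _ hl
      have : f l ≠ f l' := fun h => hl (f.injective h).symm
      rw [map_smul, Module.Basis.coord_apply, Module.Basis.repr_self,
        Finsupp.single_eq_of_ne this, smul_zero]
    · intro h
      exact absurd (Finset.mem_univ l) h
  have hcoord' : ∀ (d : Fin n → ℤ) l,
      bM.coord (f l) (∑ l', d l' • (bN l' : κ → ℤ)) = d l * a l := by
    intro d l
    rw [← hcoord (fun l' => d l' * a l') l]
    congr 1
    refine Finset.sum_congr rfl fun l' _ => ?_
    rw [hsnf l', mul_smul]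
  have hu : ∀ l, a l • (fun i => B i l) ∈ N' := by
    intro l
    have h1 : ∀ i, bM.coord (f l) (A i) = a l * B i l := by
      intro i
      rw [hB i, hcoord', mul_comm]
    have h2 : a l • (fun i => B i l)
        = ∑ j, bM.coord (f l) (Pi.single j 1) • (fun i => A i j) := by
      funext i
      rw [Pi.smul_apply, smul_eq_mul, ← h1 i]
      conv_lhs => rw [pi_eq_sum_univ' (A i)]
      simp only [map_sum, map_smul, smul_eq_mul, Finset.sum_apply, Pi.smul_apply]
      refine Finset.sum_congr rfl fun j _ => ?_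
      rw [mul_comm]
    rw [h2]
    exact N'.sum_mem fun j _ => N'.smul_mem _ (Submodule.subset_span ⟨j, rfl⟩)
  let Φ' : ((ι → ℤ) ⧸ N') →ₗ[ℤ] ((κ → ℤ) ⧸ N) := N'.mapQ N Φ hΦN
  let F : torsCoker (fun j i => A i j) → torsCoker A := fun x =>
    ⟨Φ' x.1, by
      obtain ⟨m, hm⟩ := x.2
      refine ⟨m, ?_⟩
      have := congrArg Φ' hm
      rw [map_zero] at this
      rw [← this]
      exact (Φ'.map_smul (m : ℤ) x.1).symm⟩
  have key : ∀ z : (ι → ℤ) ⧸ N', z ∈ Submodule.torsion ℤ ((ι → ℤ) ⧸ N') → Φ' z = 0 → z = 0 := by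
    intro z hz h0
    obtain ⟨x, rfl⟩ := N'.mkQ_surjective z
    obtain ⟨m, hm⟩ := hz
    have hm' : (m : ℤ) • x ∈ N' := by
      rw [← Submodule.Quotient.mk_eq_zero]
      exact hm
    have hx : Ψ x = x := by
      have h := hΨN _ hm'
      rw [map_smul] at h
      exact smul_right_injective _ (nonZeroDivisors.ne_zero m.2) h
    have hΦx : Φ x ∈ N := by
      rw [← Submodule.Quotient.mk_eq_zero]
      exact h0
    have hco : ∀ l, dot l x = bN.repr ⟨Φ x, hΦx⟩ l * a l := by
      intro l
      have h := bN.sum_repr ⟨Φ x, hΦx⟩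
      have h2 := congrArg (fun z : N => (z : κ → ℤ)) h
      simp only [Submodule.coe_sum, Submodule.coe_smul] at h2
      have h3 := congrArg (bM.coord (f l)) h2
      rw [hcoord'] at h3
      rw [h3, hΦ, hcoord]
    change N'.mkQ x = 0
    rw [Submodule.mkQ_apply, Submodule.Quotient.mk_eq_zero, ← hx, hΨ]
    refine N'.sum_mem fun l _ => ?_
    rw [hco l, mul_smul]
    exact N'.smul_mem _ (hu l)
  refine Nat.card_le_card_of_injective F fun x y hxy => ?_
  have h1 : Φ' x.1 = Φ' y.1 := congrArg Subtype.val hxy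
  have h2 := key (x.1 - y.1) (Submodule.sub_mem _ x.2 y.2) (by rw [map_sub, h1, sub_self])
  exact Subtype.ext (sub_eq_zero.1 h2)

end TorsW2
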