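import Pool.Agent.Lib.MP_004c47_gt.DefsW2

/-! Determinant bound for the torsion of a cokernel generated by a window. -/

namespace TorsW2

open Submodule

section Norms

variable {X : Type*} [Fintype X]

theorem win_nrm_add (u v : X → ℤ) : nrm (u + v) ≤ nrm u + nrm v := by
  unfold nrm
  rw [← Finset.sum_add_distrib]
  exact Finset.sum_le_sum fun x _ => Int.natAbs_add_le _ _

theorem win_nrm_smul (a : ℤ) (v : X → ℤ) : nrm (a • v) = a.natAbs * nrm v := by
  unfold nrm
  rw [Finset.mul_sum]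
  exact Finset.sum_congr rfl fun x _ => by simp [Int.natAbs_mul]

theorem win_nrm_sum {Y : Type*} (s : Finset Y) (f : Y → X → ℤ) :
    nrm (∑ y ∈ s, f y) ≤ ∑ y ∈ s, nrm (f y) := by
  classical
  induction s using Finset.induction_on with
  | empty => simp [nrm]
  | insert a s ha ih =>
    rw [Finset.sum_insert ha, Finset.sum_insert ha]
    exact (win_nrm_add _ _).trans (Nat.add_le_add_left ih _)

theorem win_nrm_sg (x : X) : nrm (sg x : X → ℤ) = 1 := by
  classical
  unfold nrm
  rw [Finset.sum_eq_single x]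
  · simp [sg]
  · intro y _ hy
    simp [sg, hy]
  · simp

theorem win_sum_sg (u : X → ℤ) : ∑ x, u x • (sg x : X → ℤ) = u := by
  classical
  funext y
  rw [Finset.sum_apply, Finset.sum_eq_single y]
  · simp [sg]
  · intro x _ hx
    simp [sg, Ne.symm hx]
  · simp

end Norms

theorem win_det_le {ι : Type} [Fintype ι] [DecidableEq ι] (M : Matrix ι ι ℤ) :
    M.det.natAbs ≤ ∏ j, nrm (fun i => M i j) := by
  rw [Matrix.det_apply']
  have h1 : (∑ σ : Equiv.Perm ι, ((Equiv.Perm.sign σ : ℤˣ) : ℤ) * ∏ i, M (σ i) i).natAbs ≤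
      ∑ σ : Equiv.Perm ι, ∏ i, (M (σ i) i).natAbs := by
    refine (Int.natAbs_sum_le _ _).trans (Finset.sum_le_sum fun σ _ => ?_)
    rw [Int.natAbs_mul, Int.units_natAbs, one_mul]
    exact le_of_eq (map_prod Int.natAbsHom _ _)
  refine le_trans (by simpa using h1) ?_
  unfold nrm
  rw [Finset.prod_univ_sum]
  rw [← Finset.sum_image (s := (Finset.univ : Finset (Equiv.Perm ι)))
    (g := fun σ : Equiv.Perm ι => (σ : ι → ι)) (f := fun p : ι → ι => ∏ i, (M (p i) i).natAbs)
    (fun a _ b _ h => DFunLike.coe_injective h)]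
  exact Finset.sum_le_sum_of_subset (fun p _ => by simp)

/-- rational image of an integer vector -/
def winCast (ι : Type) : (ι → ℤ) →ₗ[ℤ] (ι → ℚ) where
  toFun v := fun i => (v i : ℚ)
  map_add' u v := by funext i; simp
  map_smul' a v := by funext i; simp

theorem winCast_inj (ι : Type) : Function.Injective (winCast ι) := by
  intro u v h
  funext i
  have := congrFun h i
  simpa [winCast] using this

theorem winCast_span {ι : Type} (s : Set (ι → ℤ)) {x : ι → ℤ} (hx : x ∈ span ℤ s) :
    winCast ι x ∈ span ℚ (winCast ι '' s) := by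
  have : winCast ι x ∈ span ℤ (winCast ι '' s) := by
    rw [← Submodule.map_span]
    exact Submodule.mem_map_of_mem hx
  exact span_le_restrictScalars ℤ ℚ _ this

theorem win_hadamard {ι : Type} [Fintype ι] (S₁ S₂ : Set (ι → ℤ)) (Kk : Submodule ℤ (ι → ℤ))
    (R₁ R₂ ρ : ℕ) (h1 : 1 ≤ R₁) (h2 : 1 ≤ R₂)
    (hS1 : ∀ v ∈ S₁, v ∈ Kk ∧ nrm v ≤ R₁) (hS2 : ∀ v ∈ S₂, nrm v ≤ R₂) (hK : Kk = span ℤ S₂)
    (hρ : Fintype.card ι ≤ Module.finrank ℤ (span ℤ S₁) + ρ) :
    Finite (torsion ℤ ((ι → ℤ) ⧸ Kk)) ∧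
      Nat.card (torsion ℤ ((ι → ℤ) ⧸ Kk)) ≤ R₁ ^ Fintype.card ι * R₂ ^ ρ := by
  classical
  set c := winCast ι with hc
  obtain ⟨b₁, hb₁S, -, hb₁span, hb₁li⟩ :=
    exists_linearIndepOn_extension (K := ℚ) (v := c) (linearIndepOn_empty ℚ c)
      (Set.empty_subset S₁)
  obtain ⟨b, hbS, hb₁b, hbspan, hbli⟩ :=
    exists_linearIndepOn_extension hb₁li (Set.subset_union_left (t := S₂))
  obtain ⟨B, hBS, hbB, hBspan, hBli⟩ :=
    exists_linearIndepOn_extension hbli
      (Set.subset_union_left (t := Set.range fun i : ι => (sg i : ι → ℤ)))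
  have hBtop : ⊤ ≤ span ℚ (Set.range fun v : B => c v) := by
    intro x _
    have hx : x = ∑ i, x i • c (sg i) := by
      funext j
      rw [Finset.sum_apply, Finset.sum_eq_single j]
      · simp [hc, winCast, sg]
      · intro i _ hi
        simp [hc, winCast, sg, Ne.symm hi]
      · simp
    rw [hx, ← Set.image_eq_range]
    exact sum_mem fun i _ => smul_mem _ _ (hBspan ⟨sg i, Or.inr ⟨i, rfl⟩, rfl⟩)
  have hBfin : Finite B := hBli.linearIndependent.finite
  have hBf : B.Finite := Set.toFinite B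
  have : Fintype B := Fintype.ofFinite B
  have hBcard : Fintype.card B = Fintype.card ι := by
    have := Module.finrank_eq_card_basis (Module.Basis.mk hBli.linearIndependent hBtop)
    rw [← this, Module.finrank_fintype_fun_eq_card]
  have hbf : b.Finite := hBf.subset hbB
  have hb₁f : b₁.Finite := hbf.subset hb₁b
  -- rank of the span of `S₁`
  have hrank : Module.finrank ℤ (span ℤ S₁) ≤ hb₁f.toFinset.card := by
    let β := Module.finBasis ℤ (span ℤ S₁)
    have hli : LinearIndependent ℤ fun k => (β k : ι → ℤ) :=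
      β.linearIndependent.map' (span ℤ S₁).subtype (Submodule.ker_subtype _)
    have hli2 : LinearIndependent ℚ fun k => c (β k : ι → ℤ) :=
      (linearIndependent_algebraMap_comp_iff (R := ℤ) (S := ℚ)).2 hli
    have hsub : Set.range (fun k => c (β k : ι → ℤ)) ≤
        span ℚ ((hb₁f.toFinset.image c : Finset (ι → ℚ)) : Set (ι → ℚ)) := by
      rintro _ ⟨k, rfl⟩
      rw [Finset.coe_image, Set.Finite.coe_toFinset]
      exact span_le.2 hb₁span (winCast_span S₁ (β k).2)
    have := linearIndependent_le_span_aux' _ hli2 _ hsub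
    simp only [Fintype.card_fin, Finset.coe_sort_coe, Fintype.card_coe] at this
    exact this.trans Finset.card_image_le
  -- the full rank lattice
  let e : ι ≃ B := Fintype.equivOfCardEq hBcard.symm
  have hliZ : LinearIndependent ℤ fun i => (e i : ι → ℤ) := by
    have h0 : LinearIndependent ℚ fun i => c (e i : ι → ℤ) :=
      hBli.linearIndependent.comp e e.injective
    exact (linearIndependent_algebraMap_comp_iff (R := ℤ) (S := ℚ)).1 h0
  have hrange : (Set.range fun i => (e i : ι → ℤ)) = B := by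
    ext v
    constructor
    · rintro ⟨i, rfl⟩
      exact (e i).2
    · intro hv
      exact ⟨e.symm ⟨v, hv⟩, by simp⟩
  set L := span ℤ (Set.range fun i => (e i : ι → ℤ)) with hL
  have hidx : L.toAddSubgroup.index = ((Pi.basisFun ℤ ι).det fun i => (e i : ι → ℤ)).natAbs := by
    have := AddSubgroup.index_eq_natAbs_det (Pi.basisFun ℤ ι) L.toAddSubgroup
      (Module.Basis.span hliZ)
    rw [this]
    congr 2
    funext i
    exact congrArg Subtype.val (Module.Basis.span_apply hliZ i)
  have hidx0 : L.toAddSubgroup.index ≠ 0 := by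
    rw [hidx, Int.natAbs_ne_zero, Pi.basisFun_det_apply]
    intro h0
    exact (Matrix.linearIndependent_rows_iff_isUnit.1
      (show LinearIndependent ℚ (Matrix.of fun i => c (e i : ι → ℤ)).row from
        hBli.linearIndependent.comp e e.injective)
      |> (Matrix.isUnit_iff_isUnit_det _).1).ne_zero (by
        have := RingHom.map_det (Int.castRingHom ℚ) (Matrix.of fun i => (e i : ι → ℤ))
        rw [h0, map_zero] at this
        rw [this]
        rfl)
  have hidxle : L.toAddSubgroup.index ≤ R₁ ^ Fintype.card ι * R₂ ^ ρ := by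
    rw [hidx, Pi.basisFun_det_apply, ← Matrix.det_transpose]
    refine (win_det_le _).trans ?_
    have e1 : ∏ j, nrm (fun i => (Matrix.of fun i => (e i : ι → ℤ)).transpose i j) =
        ∏ v ∈ hBf.toFinset, nrm v := by
      rw [Finset.prod_subtype hBf.toFinset (p := fun v => v ∈ B) (by simp)]
      exact Fintype.prod_equiv e _ _ fun j => rfl
    have s1 : hb₁f.toFinset ⊆ hbf.toFinset := by simpa using hb₁b
    have s2 : hbf.toFinset ⊆ hBf.toFinset := by simpa using hbB
    rw [e1, ← Finset.prod_sdiff s2, ← Finset.prod_sdiff s1]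
    have p1 : ∏ v ∈ hBf.toFinset \ hbf.toFinset, nrm v ≤ 1 := by
      refine le_of_eq (Finset.prod_eq_one fun v hv => ?_)
      simp only [Finset.mem_sdiff, Set.Finite.mem_toFinset] at hv
      rcases hBS hv.1 with h | ⟨i, rfl⟩
      · exact absurd h hv.2
      · exact win_nrm_sg i
    have p2 : ∏ v ∈ hbf.toFinset \ hb₁f.toFinset, nrm v ≤
        R₂ ^ (hbf.toFinset \ hb₁f.toFinset).card := by
      refine Finset.prod_le_pow_card _ _ _ fun v hv => ?_
      simp only [Finset.mem_sdiff, Set.Finite.mem_toFinset] at hv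
      rcases hbS hv.1 with h | h
      · exact absurd h hv.2
      · exact hS2 v h
    have p3 : ∏ v ∈ hb₁f.toFinset, nrm v ≤ R₁ ^ hb₁f.toFinset.card :=
      Finset.prod_le_pow_card _ _ _ fun v hv => (hS1 v (hb₁S (by simpa using hv))).2
    have c1 := Finset.card_sdiff_add_card_eq_card s1
    have c2 := Finset.card_le_card s2
    have c3 : hBf.toFinset.card = Fintype.card ι := by
      rw [← hBcard, Set.Finite.card_toFinset]
    have q2 : R₂ ^ (hbf.toFinset \ hb₁f.toFinset).card ≤ R₂ ^ ρ :=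
      Nat.pow_le_pow_right h2 (by omega)
    have q3 : R₁ ^ hb₁f.toFinset.card ≤ R₁ ^ Fintype.card ι :=
      Nat.pow_le_pow_right h1 (by omega)
    calc _ ≤ 1 * (R₂ ^ ρ * R₁ ^ Fintype.card ι) :=
          Nat.mul_le_mul p1 (Nat.mul_le_mul (p2.trans q2) (p3.trans q3))
      _ = _ := by ring
  -- saturation
  set Sat := (torsion ℤ ((ι → ℤ) ⧸ Kk)).comap Kk.mkQ with hSat
  have hbK : span ℤ b ≤ Kk := by
    refine span_le.2 fun v hv => ?_
    rcases hbS hv with h | h
    · exact (hS1 v (hb₁S h)).1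
    · rw [hK]
      exact subset_span h
  have hkey : ∀ x, x ∈ Sat → x ∈ L → x ∈ Kk := by
    intro x hx hxL
    obtain ⟨⟨a, ha⟩, hax⟩ := (mem_torsion_iff _).1 hx
    have ha0 : a ≠ 0 := nonZeroDivisors.ne_zero ha
    have haK : a • x ∈ Kk := by
      rw [← Submodule.Quotient.mk_eq_zero]
      exact hax
    have hcx : c x ∈ span ℚ (c '' b) := by
      have h3 : c (a • x) ∈ span ℚ (c '' b) := by
        rw [hK] at haK
        exact span_le.2 ((Set.image_mono Set.subset_union_right).trans hbspan)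
          (winCast_span S₂ haK)
      have h4 : c x = (a : ℚ)⁻¹ • c (a • x) := by
        rw [map_smul, ← Int.cast_smul_eq_zsmul ℚ, smul_smul,
          inv_mul_cancel₀ (by exact_mod_cast ha0), one_smul]
      rw [h4]
      exact smul_mem _ _ h3
    rw [hL, hrange, ← Set.union_sdiff_cancel hbB, span_union] at hxL
    obtain ⟨x₁, hx₁, x₂, hx₂, rfl⟩ := mem_sup.1 hxL
    have h5 : c x₂ ∈ span ℚ (c '' b) := by
      have := sub_mem hcx (winCast_span b hx₁)
      rwa [map_add, add_sub_cancel_left] at this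
    have h6 : c x₂ ∈ span ℚ (c '' (B \ b)) := winCast_span _ hx₂
    have hdis : Disjoint (span ℚ (c '' b)) (span ℚ (c '' (B \ b))) := by
      have := hBli.linearIndependent.disjoint_span_image
        (s := {v : B | (v : ι → ℤ) ∈ b}) (t := {v : B | (v : ι → ℤ) ∉ b})
        (Set.disjoint_left.2 fun v h h' => h' h)
      refine this.mono (span_mono ?_) (span_mono ?_)
      · rintro _ ⟨v, hv, rfl⟩
        exact ⟨⟨v, hbB hv⟩, hv, rfl⟩
      · rintro _ ⟨v, hv, rfl⟩
        exact ⟨⟨v, hv.1⟩, hv.2, rfl⟩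
    have h7 : x₂ = 0 := winCast_inj ι (by
      rw [map_zero]
      exact (disjoint_def.1 hdis) _ h5 h6)
    rw [h7, add_zero]
    exact hbK hx₁
  let g : Sat.toAddSubgroup →+ (ι → ℤ) ⧸ Kk :=
    Kk.mkQ.toAddMonoidHom.comp Sat.toAddSubgroup.subtype
  have hgr : g.range = (torsion ℤ ((ι → ℤ) ⧸ Kk)).toAddSubgroup := by
    ext y
    constructor
    · rintro ⟨x, rfl⟩
      exact x.2
    · intro hy
      obtain ⟨x, rfl⟩ := Kk.mkQ_surjective y
      exact ⟨⟨x, hy⟩, rfl⟩
  have hdvd : Nat.card (torsion ℤ ((ι → ℤ) ⧸ Kk)) ∣ L.toAddSubgroup.index := by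
    have h8 : g.ker.index = Nat.card (torsion ℤ ((ι → ℤ) ⧸ Kk)) := by
      rw [AddSubgroup.index_ker, hgr]
      rfl
    have h9 : L.toAddSubgroup.addSubgroupOf Sat.toAddSubgroup ≤ g.ker := by
      intro x hx
      exact (Submodule.Quotient.mk_eq_zero Kk).2 (hkey x x.2 hx)
    rw [← h8]
    exact (AddSubgroup.index_dvd_of_le h9).trans
      (AddSubgroup.relIndex_dvd_index_of_normal _ _)
  refine ⟨Nat.finite_of_card_ne_zero fun h0 => hidx0 ?_,
    (Nat.le_of_dvd (Nat.pos_of_ne_zero hidx0) hdvd).trans hidxle⟩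
  rw [h0] at hdvd
  exact Nat.eq_zero_of_zero_dvd hdvd

theorem win_exists {X J : Type} [Fintype X] (row : J → X → ℤ) (ht : X → ℕ) (C : ℕ)
    (hC1 : 1 ≤ C)
    (hstep : ∀ x, 2 ≤ ht x → ∃ v : X → ℤ, sg x - v ∈ Submodule.span ℤ (Set.range row) ∧
      nrm v ≤ C ∧ ∀ y, v y ≠ 0 → ht y < ht x) (n : ℕ) :
    ∀ x, ht x = n → ∃ w : X → ℤ, (∀ y, w y ≠ 0 → ht y < 2) ∧ nrm w ≤ C ^ ht x ∧
      sg x - w ∈ Submodule.span ℤ (Set.range row) ∧ (ht x < 2 → w = sg x) := by
  induction n using Nat.strong_induction_on with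
  | _ n ih =>
    intro x hx
    by_cases h2 : ht x < 2
    · refine ⟨sg x, fun y hy => ?_, ?_, by simp, fun _ => rfl⟩
      · have : y = x := by
          by_contra h
          exact hy (by simp [sg, h])
        rwa [this]
      · rw [win_nrm_sg]
        exact Nat.one_le_pow _ _ hC1
    · obtain ⟨v, hv1, hv2, hv3⟩ := hstep x (by omega)
      have : ∀ y, ∃ w : X → ℤ, v y ≠ 0 → (∀ z, w z ≠ 0 → ht z < 2) ∧ nrm w ≤ C ^ (ht x - 1) ∧
          sg y - w ∈ Submodule.span ℤ (Set.range row) := by
        intro y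
        by_cases hy : v y = 0
        · exact ⟨0, fun h => absurd hy h⟩
        · obtain ⟨w, a1, a2, a3, -⟩ := ih (ht y) (hx ▸ hv3 y hy) y rfl
          exact ⟨w, fun _ => ⟨a1, a2.trans (Nat.pow_le_pow_right hC1
            (by have := hv3 y hy; omega)), a3⟩⟩
      choose w hw using this
      refine ⟨∑ y, v y • w y, fun z hz => ?_, ?_, ?_, fun h => absurd h h2⟩
      · rw [Finset.sum_apply] at hz
        obtain ⟨y, -, hy⟩ := Finset.exists_ne_zero_of_sum_ne_zero hz
        simp only [Pi.smul_apply, smul_eq_mul, mul_ne_zero_iff] at hy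
        exact (hw y hy.1).1 z hy.2
      · refine (win_nrm_sum _ _).trans ?_
        have : ∑ y, nrm (v y • w y) ≤ ∑ y, (v y).natAbs * C ^ (ht x - 1) := by
          refine Finset.sum_le_sum fun y _ => ?_
          rw [win_nrm_smul]
          by_cases hy : v y = 0
          · simp [hy]
          · exact Nat.mul_le_mul_left _ (hw y hy).2.1
        refine this.trans ?_
        rw [← Finset.sum_mul]
        calc _ ≤ C * C ^ (ht x - 1) := Nat.mul_le_mul_right _ hv2
          _ = C ^ ht x := by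
            rw [← pow_succ']
            congr 1
            omega
      · have e1 : sg x - ∑ y, v y • w y = (sg x - v) + ∑ y, v y • (sg y - w y) := by
          simp only [smul_sub, Finset.sum_sub_distrib, win_sum_sg]
          abel
        rw [e1]
        refine add_mem hv1 (sum_mem fun y _ => ?_)
        by_cases hy : v y = 0
        · simp [hy]
        · exact smul_mem _ _ (hw y hy).2.2

theorem tors_window {X J : Type} [Fintype X] (row : J → X → ℤ) (ht : X → ℕ) (K C R₁ ρ : ℕ)
    (hC1 : 1 ≤ C) (hR1 : 1 ≤ R₁) (hK : ∀ x, ht x ≤ K)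
    (hC : ∀ j, nrm (row j) ≤ C)
    (hstep : ∀ x, 2 ≤ ht x → ∃ v : X → ℤ, sg x - v ∈ Submodule.span ℤ (Set.range row) ∧
      nrm v ≤ C ∧ ∀ y, v y ≠ 0 → ht y < ht x)
    (S : Set (X → ℤ))
    (hS : ∀ v ∈ S, v ∈ Submodule.span ℤ (Set.range row) ∧ nrm v ≤ R₁ ∧
      ∀ y, v y ≠ 0 → ht y < 2)
    (hρ : Nat.card {x // ht x < 2} ≤ Module.finrank ℤ (Submodule.span ℤ S) + ρ) :
    Nat.card (torsCoker row) ≤ R₁ ^ Nat.card {x // ht x < 2} * (C ^ (K + 1)) ^ ρ := by
  classical
  choose w hw1 hw2 hw3 hw4 using fun x => win_exists row ht C hC1 hstep (ht x) x rfl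
  set Rel := Submodule.span ℤ (Set.range row) with hRel
  let τ : (X → ℤ) →ₗ[ℤ] (X → ℤ) := Fintype.linearCombination ℤ w
  let res : (X → ℤ) →ₗ[ℤ] ({x // ht x < 2} → ℤ) := LinearMap.funLeft ℤ ℤ Subtype.val
  have hτ : ∀ u, τ u = ∑ x, u x • w x := fun u => Fintype.linearCombination_apply ℤ w u
  have hτ1 : ∀ u, u - τ u ∈ Rel := by
    intro u
    have : u - τ u = ∑ x, u x • (sg x - w x) := by
      simp only [smul_sub, Finset.sum_sub_distrib, win_sum_sg, hτ]
    rw [this]
    exact sum_mem fun x _ => smul_mem _ _ (hw3 x)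
  have hτ2 : ∀ u y, τ u y ≠ 0 → ht y < 2 := by
    intro u z hz
    rw [hτ, Finset.sum_apply] at hz
    obtain ⟨y, -, hy⟩ := Finset.exists_ne_zero_of_sum_ne_zero hz
    simp only [Pi.smul_apply, smul_eq_mul, mul_ne_zero_iff] at hy
    exact hw1 y z hy.2
  have hτ3 : ∀ u : X → ℤ, (∀ y, u y ≠ 0 → ht y < 2) → τ u = u := by
    intro u hu
    rw [hτ]
    conv_rhs => rw [← win_sum_sg u]
    refine Finset.sum_congr rfl fun x _ => ?_
    by_cases hx : u x = 0
    · simp [hx]
    · rw [hw4 x (hu x hx)]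
  have hres0 : ∀ u : X → ℤ, (∀ y, u y ≠ 0 → ht y < 2) → res u = 0 → u = 0 := by
    intro u hu h0
    funext y
    by_contra hy
    exact hy (congrFun h0 ⟨y, hu y hy⟩)
  have hresn : ∀ u : X → ℤ, nrm (res u) ≤ nrm u := by
    intro u
    unfold nrm
    have : ∑ x : {x // ht x < 2}, (res u x).natAbs =
        ∑ x ∈ Finset.univ.filter (fun x => ht x < 2), (u x).natAbs :=
      (Finset.sum_subtype (Finset.univ.filter fun x => ht x < 2) (p := fun x => ht x < 2)
        (by simp) fun x => (u x).natAbs).symm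
    rw [this]
    exact Finset.sum_le_sum_of_subset (Finset.filter_subset _ _)
  let σ := res.comp τ
  have hmap : Rel.map σ = span ℤ (Set.range fun j => σ (row j)) := by
    rw [hRel, Submodule.map_span, ← Set.range_comp]
    rfl
  have hrank : Module.finrank ℤ (span ℤ S) ≤ Module.finrank ℤ (span ℤ (res '' S)) := by
    rw [← Submodule.map_span]
    have hsupp : ∀ u ∈ span ℤ S, ∀ y, u y ≠ 0 → ht y < 2 := by
      intro u hu y
      induction hu using span_induction with
      | mem v hv => exact (hS v hv).2.2 y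
      | zero => simp
      | add a b _ _ ha hb =>
        intro h
        by_cases h0 : a y = 0
        · exact hb (by simpa [h0] using h)
        · exact ha h0
      | smul a b _ hb =>
        intro h
        exact hb (right_ne_zero_of_mul h)
    refine LinearMap.finrank_le_finrank_of_injective
      (f := res.restrict (p := span ℤ S) (q := (span ℤ S).map res)
        fun u hu => Submodule.mem_map_of_mem hu) ?_
    rw [injective_iff_map_eq_zero]
    intro u hu
    exact Subtype.ext (hres0 u (hsupp u u.2) (congrArg Subtype.val hu))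
  obtain ⟨hfin, hle⟩ := win_hadamard (res '' S) (Set.range fun j => σ (row j)) (Rel.map σ)
    R₁ (C ^ (K + 1)) ρ hR1 (Nat.one_le_pow _ _ hC1)
    (by
      rintro _ ⟨v, hv, rfl⟩
      refine ⟨⟨v, (hS v hv).1, ?_⟩, (hresn v).trans (hS v hv).2.1⟩
      show res (τ v) = res v
      rw [hτ3 v (hS v hv).2.2])
    (by
      rintro _ ⟨j, rfl⟩
      refine (hresn (τ (row j))).trans ?_
      rw [hτ]
      refine (win_nrm_sum _ _).trans ?_
      have : ∑ y, nrm (row j y • w y) ≤ ∑ y, (row j y).natAbs * C ^ K := by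
        refine Finset.sum_le_sum fun y _ => ?_
        rw [win_nrm_smul]
        exact Nat.mul_le_mul_left _ ((hw2 y).trans (Nat.pow_le_pow_right hC1 (hK y)))
      refine this.trans ?_
      rw [← Finset.sum_mul, pow_succ']
      exact Nat.mul_le_mul_right _ (hC j))
    hmap (by rw [← Nat.card_eq_fintype_card]; omega)
  rw [← Nat.card_eq_fintype_card] at hle
  refine le_trans ?_ hle
  let q := Rel.mapQ (Rel.map σ) σ (Submodule.le_comap_map σ Rel)
  have hq : Function.Injective q := by
    rw [injective_iff_map_eq_zero]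
    intro y hy
    obtain ⟨u, rfl⟩ := Rel.mkQ_surjective y
    have h1 : σ u ∈ Rel.map σ := (Submodule.Quotient.mk_eq_zero _).1 hy
    obtain ⟨r, hr, hru⟩ := h1
    have h2 : τ (u - r) = 0 := hres0 _ (hτ2 _) (by
      show σ (u - r) = 0
      rw [map_sub, hru, sub_self])
    have h3 := hτ1 (u - r)
    rw [h2, sub_zero] at h3
    refine (Submodule.Quotient.mk_eq_zero _).2 ?_
    have := add_mem h3 hr
    rwa [sub_add_cancel] at this
  refine Nat.card_le_card_of_injective
    (fun y : torsCoker row => (⟨q y, ?_⟩ : torsion ℤ (({x // ht x < 2} → ℤ) ⧸ Rel.map σ))) ?_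
  · obtain ⟨a, ha⟩ := (mem_torsion_iff _).1 y.2
    refine (mem_torsion_iff _).2 ⟨a, ?_⟩
    have := congrArg q ha
    rw [map_zero] at this
    rw [← this]
    exact (map_smul q (a : ℤ) (y : (X → ℤ) ⧸ Rel)).symm
  · intro y y' h
    exact Subtype.ext (hq (congrArg Subtype.val h))

end TorsW2
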