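import Pool.Agent.Lib.MP_004c47_gt.CutW2
import Pool.Agent.Lib.MP_004c47_gt.WindowW2
import Pool.Agent.Lib.MP_004c47_gt.DualW2

/-! Small torsion in long abelian covers of one level. -/

namespace TorsW2

open MvPolynomial

theorem sg_congr {X Y : Type} {x y : X} {x' y' : Y} (h : y = x ↔ y' = x') :
    (sg x y : ℤ) = sg x' y' := by
  unfold sg
  by_cases h1 : y = x
  · rw [if_pos h1, if_pos (h.1 h1)]
  · rw [if_neg h1, if_neg fun h2 => h1 (h.2 h2)]

theorem sg_of_ne {X : Type} {x y : X} (h : y ≠ x) : (sg x y : ℤ) = 0 := by simp [sg, h]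

section Ev

variable {W A : Type} [AddCommGroup A] (a : W → A)

/-- image of a polynomial in the group ring of `A`, as a function on `A` -/
noncomputable def evA : MvPolynomial W ℤ →ₗ[ℤ] (A → ℤ) :=
  (basisMonomials W ℤ).constr ℤ fun β => sg (Finsupp.weight a β)

theorem evA_monomial (β : W →₀ ℕ) (n : ℤ) :
    evA a (monomial β n) = n • sg (Finsupp.weight a β) := by
  have h1 : (monomial β n : MvPolynomial W ℤ) = n • basisMonomials W ℤ β := by
    rw [coe_basisMonomials]
    simp [smul_monomial]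
  rw [h1, map_smul, evA, Module.Basis.constr_basis]

theorem evA_apply (q : MvPolynomial W ℤ) (z : A) :
    evA a q z = ∑ β ∈ q.support, coeff β q * sg (Finsupp.weight a β) z := by
  conv_lhs => rw [q.as_sum, map_sum]
  simp [evA_monomial, Finset.sum_apply]

theorem sg_sub (u v z : A) : (sg (u + v) z : ℤ) = sg u (z - v) :=
  sg_congr sub_eq_iff_eq_add.symm

theorem evA_X_mul (l : W) (q : MvPolynomial W ℤ) (z : A) :
    evA a (X l * q) z = evA a q (z - a l) := by
  induction q using MvPolynomial.induction_on' with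
  | monomial β n =>
    rw [X, monomial_mul, evA_monomial, evA_monomial, one_mul, map_add, Finsupp.weight_single,
      one_smul, add_comm]
    simp [sg_sub]
  | add p q hp hq => simp [mul_add, hp, hq]

theorem evA_sg {Y : Type} (r0 ρ : Y) (x y : A) :
    evA a (sg r0 ρ) (y - x) = sg (x, r0) (y, ρ) := by
  by_cases h : ρ = r0
  · have h1 : (sg r0 ρ : MvPolynomial W ℤ) = monomial 0 1 := by simp [sg, h]
    rw [h1, evA_monomial, one_smul, map_zero]
    exact sg_congr (by simp [h, sub_eq_zero])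
  · simp [sg, h]

theorem evA_ne {q : MvPolynomial W ℤ} {z : A} (h : evA a q z ≠ 0) :
    ∃ β ∈ q.support, z = Finsupp.weight a β := by
  rw [evA_apply] at h
  obtain ⟨β, hβ, h2⟩ := Finset.exists_ne_zero_of_sum_ne_zero h
  refine ⟨β, hβ, ?_⟩
  by_contra h3
  simp [sg, h3] at h2

/-- sum of the absolute values of the coefficients -/
noncomputable def l1 (q : MvPolynomial W ℤ) : ℕ := ∑ β ∈ q.support, (coeff β q).natAbs

theorem sum_evA_le [Fintype A] (q : MvPolynomial W ℤ) (y : A) :
    ∑ x, (evA a q (y - x)).natAbs ≤ l1 q := by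
  classical
  calc ∑ x, (evA a q (y - x)).natAbs
      ≤ ∑ x, ∑ β ∈ q.support, (coeff β q * sg (Finsupp.weight a β) (y - x)).natAbs := by
        refine Finset.sum_le_sum fun x _ => ?_
        rw [evA_apply]
        exact Int.natAbs_sum_le _ _
    _ = ∑ β ∈ q.support, ∑ x, (coeff β q * sg (Finsupp.weight a β) (y - x)).natAbs :=
        Finset.sum_comm
    _ = l1 q := by
        refine Finset.sum_congr rfl fun β _ => ?_
        rw [Finset.sum_eq_single (y - Finsupp.weight a β)]
        · simp [sg]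
        · intro x _ hx
          have : y - x ≠ Finsupp.weight a β := fun h => hx (by rw [← h]; abel)
          simp [sg, this]
        · simp

/-- the translate at `y` of a vector of polynomials, in the abelian cover -/
noncomputable def Phi {G : Type} (y : A) (p : G → MvPolynomial W ℤ) : A × G → ℤ :=
  fun x => evA a (p x.2) (y - x.1)

theorem nrm_Phi {G : Type} [Fintype A] [Fintype G] (y : A) (p : G → MvPolynomial W ℤ) :
    nrm (Phi a y p) ≤ ∑ g, l1 (p g) := by
  unfold nrm
  rw [Fintype.sum_prod_type_right]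
  exact Finset.sum_le_sum fun g _ => sum_evA_le a (p g) y

theorem Phi_mem {G J : Type} (Rel : Submodule ℤ (A × G → ℤ)) (f : J → G → MvPolynomial W ℤ)
    (hf : ∀ j y, Phi a y (f j) ∈ Rel) {p : G → MvPolynomial W ℤ}
    (hp : p ∈ Submodule.span (MvPolynomial W ℤ) (Set.range f)) (y : A) : Phi a y p ∈ Rel := by
  have hadd : ∀ (p q : G → MvPolynomial W ℤ) y, Phi a y (p + q) = Phi a y p + Phi a y q := by
    intro p q y
    funext x
    simp [Phi]
  have hsm : ∀ (q : MvPolynomial W ℤ) (p : G → MvPolynomial W ℤ), (∀ y, Phi a y p ∈ Rel) →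
      ∀ y, Phi a y (q • p) ∈ Rel := by
    intro q
    induction q using MvPolynomial.induction_on with
    | C n =>
      intro p hp y
      have : Phi a y ((C n : MvPolynomial W ℤ) • p) = n • Phi a y p := by
        funext x
        simp only [Phi, Pi.smul_apply, smul_eq_mul]
        rw [← smul_eq_C_mul, map_smul]
        simp
      rw [this]
      exact Rel.smul_mem _ (hp y)
    | add q q' h1 h2 =>
      intro p hp y
      rw [add_smul, hadd]
      exact Rel.add_mem (h1 p hp y) (h2 p hp y)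
    | mul_X q l h1 =>
      intro p hp y
      rw [mul_smul]
      refine h1 _ (fun y => ?_) y
      have : Phi a y ((X l : MvPolynomial W ℤ) • p) = Phi a (y - a l) p := by
        funext x
        simp only [Phi, Pi.smul_apply, smul_eq_mul]
        rw [evA_X_mul, sub_right_comm]
      rw [this]
      exact hp _
  induction hp using Submodule.span_induction generalizing y with
  | mem p hp => obtain ⟨j, rfl⟩ := hp; exact hf j y
  | zero =>
    have : Phi a y (0 : G → MvPolynomial W ℤ) = 0 := by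
      funext x
      simp [Phi]
    rw [this]
    exact Rel.zero_mem
  | add p q _ _ h1 h2 => rw [hadd]; exact Rel.add_mem (h1 y) (h2 y)
  | smul q p _ h1 => exact hsm q p h1 y

theorem colX_eq {G : Type} [Group G] (c t : G) (e : ℕ) (h : G → W) (y : A) (ρ : Row G c) :
    (fun p => colX c t e h a p (y, ρ)) = Phi a y fun g => colP c t e h g ρ := by
  funext ⟨x, g⟩
  simp only [Phi, colX, colP, Pi.add_apply, Pi.sub_apply, Pi.smul_apply, smul_eq_mul,
    Finset.sum_apply, map_add, map_sub, mul_add, Finset.mul_sum, map_sum, mul_assoc, evA_X_mul,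
    sub_sub, evA_sg, add_assoc]

theorem colX_step {G : Type} [Group G] (c t : G) (e : ℕ) (h : G → W) (y x : A) (g0 g : G)
    (h1 : ∀ l, y ≠ x + a l) (h2 : ∀ l l', y ≠ x + a l + a l') :
    colX c t e h a (x, g) (y, rc c g0) = sg (y, g0) (x, g) := by
  have h3 : (sg (x, rc c g) (y, rc c g0) : ℤ) = sg (y, g0) (x, g) :=
    sg_congr (by simp [rc, eq_comm])
  rw [← h3]
  simp [colX, sg, rc, rt, rm, h1, h2, Finset.sum_apply]

end Ev

theorem nrm_sg_sub {X : Type} [Fintype X] (x : X) (v : X → ℤ) : nrm (sg x - v) ≤ 1 + nrm v := by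
  classical
  have h1 : nrm (sg x : X → ℤ) = 1 := by
    unfold nrm
    rw [Finset.sum_eq_single x]
    · simp [sg]
    · intro y _ hy
      simp [sg, hy]
    · simp
  rw [← h1]
  unfold nrm
  rw [← Finset.sum_add_distrib]
  exact Finset.sum_le_sum fun y _ => Int.natAbs_sub_le _ _

theorem val_of_add {k : ℕ} [NeZero k] (z y : ZMod k) (j : ℕ) (hj : j ≤ y.val)
    (h : y = z + j) : z.val = y.val - j := by
  have h1 : z = ((y.val - j : ℕ) : ZMod k) := by
    rw [Nat.cast_sub hj, ZMod.natCast_zmod_val, h]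
    ring
  rw [h1, ZMod.val_cast_of_lt (lt_of_le_of_lt (Nat.sub_le _ _) (ZMod.val_lt y))]

theorem wt_fst {W B : Type} [AddCommGroup B] (m k : ℕ) (b : W → B) (β : W →₀ ℕ) (l : W) :
    (Finsupp.weight (lab m k b) β).1 l = (β l : ZMod m) := by
  classical
  induction β using Finsupp.induction_linear with
  | zero => simp
  | add β γ h1 h2 => simp [h1, h2]
  | single l' n =>
    rw [Finsupp.weight_single]
    by_cases h : l = l'
    · simp [lab, sg, h]
    · simp [lab, sg, h]

theorem wt_snd {W B : Type} [AddCommGroup B] (m k : ℕ) (b : W → B) (β : W →₀ ℕ) :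
    (Finsupp.weight (lab m k b) β).2.1 = (β.degree : ZMod k) := by
  induction β using Finsupp.induction_linear with
  | zero => simp
  | add β γ h1 h2 => simp [h1, h2]
  | single l' n =>
    rw [Finsupp.weight_single]
    simp [lab]

theorem deg_of_homog {W : Type} {r : MvPolynomial W ℤ} {δ : ℕ} (hr : r.IsHomogeneous δ)
    {β : W →₀ ℕ} (hβ : β ∈ r.support) : β.degree = δ := by
  by_contra h
  exact mem_support_iff.1 hβ (hr.coeff_eq_zero h)

/-- base points of the independent family -/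
def yI {W B : Type} (m k δ : ℕ) (i : (W → Fin (m - δ)) × Fin 2 × B) :
    (W → ZMod m) × ZMod k × B :=
  (fun l => ((i.1 l : ℕ) : ZMod m), ((δ + (i.2.1 : ℕ) : ℕ) : ZMod k), i.2.2)

theorem Phi_r_ne {W A G : Type} [AddCommGroup A] (a : W → A) (r : MvPolynomial W ℤ) (y : A)
    (g : G) (x : A × G) (h : Phi a y (r • sg g) x ≠ 0) :
    x.2 = g ∧ ∃ β ∈ r.support, y - x.1 = Finsupp.weight a β := by
  by_cases hg : x.2 = g
  · refine ⟨hg, evA_ne a ?_⟩
    simpa [Phi, sg, hg] using h
  · simp [Phi, sg, hg] at h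

theorem no_wrap {W B : Type} [AddCommGroup B] {m k δ : ℕ} (b : W → B) {β β' : W →₀ ℕ}
    (hβ : β.degree = δ) (hβ' : β'.degree = δ) (i i' : (W → Fin (m - δ)) × Fin 2 × B)
    (h : yI m k δ i - (yI m k δ i' - Finsupp.weight (lab m k b) β') =
      Finsupp.weight (lab m k b) β) (l : W) :
    (i.1 l : ℕ) + β' l = i'.1 l + β l := by
  have h1 := congrFun (congrArg Prod.fst h) l
  simp only [Prod.fst_sub, Pi.sub_apply, wt_fst, yI] at h1
  have h2 : (((i.1 l : ℕ) + β' l : ℕ) : ZMod m) = (((i'.1 l : ℕ) + β l : ℕ) : ZMod m) := by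
    push_cast
    rw [← h1]
    ring
  have h3 := (ZMod.natCast_eq_natCast_iff' _ _ _).1 h2
  have h4 := Finsupp.le_degree l β
  have h5 := Finsupp.le_degree l β'
  have h6 := (i.1 l).2
  have h7 := (i'.1 l).2
  rwa [Nat.mod_eq_of_lt (by omega), Nat.mod_eq_of_lt (by omega)] at h3

theorem yI_inj {W B : Type} {m k δ : ℕ} (hk : 2 ≤ k) (i i' : (W → Fin (m - δ)) × Fin 2 × B)
    (h1 : i.1 = i'.1) (h : (yI m k δ i).2 = (yI m k δ i').2) : i = i' := by
  simp only [yI, Prod.mk.injEq] at h
  obtain ⟨h2, h3⟩ := h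
  have h4 : ((i.2.1 : ℕ) : ZMod k) = ((i'.2.1 : ℕ) : ZMod k) := by
    push_cast at h2
    exact add_left_cancel h2
  have h5 := (ZMod.natCast_eq_natCast_iff' _ _ _).1 h4
  have h6 := i.2.1.2
  have h7 := i'.2.1.2
  rw [Nat.mod_eq_of_lt (by omega), Nat.mod_eq_of_lt (by omega)] at h5
  exact Prod.ext h1 (Prod.ext (Fin.ext h5) h3)

theorem indep {W B G : Type} [Finite W] [AddCommGroup B] [Finite B] [Finite G] {m k δ : ℕ}
    (hk : 2 ≤ k) (b : W → B) {r : MvPolynomial W ℤ} (hr0 : r ≠ 0) (hr : r.IsHomogeneous δ) :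
    LinearIndependent ℤ fun i : ((W → Fin (m - δ)) × Fin 2 × B) × G =>
      Phi (lab m k b) (yI m k δ i.1) (r • sg i.2) := by
  classical
  have := Fintype.ofFinite W
  have := Fintype.ofFinite B
  have := Fintype.ofFinite G
  let : LinearOrder W := LinearOrder.lift' (Fintype.equivFin W) (Fintype.equivFin W).injective
  let mo : MonomialOrder W := MonomialOrder.lex
  let U : ((W → Fin (m - δ)) × Fin 2 × B) × G → W →₀ ℕ :=
    fun i => Finsupp.equivFunOnFinite.symm fun l => (i.1.1 l : ℕ)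
  rw [Fintype.linearIndependent_iff]
  intro f hf
  by_contra hne
  push Not at hne
  obtain ⟨i0, hi0, hmin⟩ := Finset.exists_min_image (Finset.univ.filter fun i => f i ≠ 0)
    (fun i => mo.toSyn (U i)) (by obtain ⟨i, hi⟩ := hne; exact ⟨i, by simpa using hi⟩)
  have hi0' : f i0 ≠ 0 := by simpa using hi0
  set β0 := mo.degree r with hβ0
  have hc0 : coeff β0 r ≠ 0 := mo.coeff_degree_ne_zero_iff.2 hr0
  have hs0 : β0 ∈ r.support := mem_support_iff.2 hc0
  have key : ∀ i, f i ≠ 0 → ∀ β ∈ r.support,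
      yI m k δ i.1 - (yI m k δ i0.1 - Finsupp.weight (lab m k b) β0) =
        Finsupp.weight (lab m k b) β → β = β0 ∧ i.1 = i0.1 := by
    intro i hi β hβ h
    have h1 := no_wrap b (deg_of_homog hr hβ) (deg_of_homog hr hs0) i.1 i0.1 h
    have h2 : U i + β0 = U i0 + β := by
      ext l
      simpa [U] using h1 l
    have h3 : mo.toSyn (U i0) ≤ mo.toSyn (U i) := hmin i (by simpa using hi)
    have h4 : mo.toSyn β ≤ mo.toSyn β0 := mo.le_degree hβ
    have h5 := congrArg mo.toSyn h2
    rw [map_add, map_add] at h5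
    have h6 : mo.toSyn β0 ≤ mo.toSyn β := by
      have : mo.toSyn (U i0) + mo.toSyn β0 ≤ mo.toSyn (U i0) + mo.toSyn β := by
        rw [← h5]
        exact add_le_add_left h3 _
      exact le_of_add_le_add_left this
    have h7 : β = β0 := mo.toSyn.injective (le_antisymm h4 h6)
    refine ⟨h7, yI_inj hk _ _ ?_ ?_⟩
    · funext l
      have := h1 l
      rw [h7] at this
      exact Fin.ext (by omega)
    · rw [h7] at h
      have h8 : yI m k δ i.1 = yI m k δ i0.1 := by
        rw [sub_eq_iff_eq_add] at h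
        rw [h]
        abel
      rw [h8]
  have h0 := congrFun hf (yI m k δ i0.1 - Finsupp.weight (lab m k b) β0, i0.2)
  rw [Finset.sum_apply, Finset.sum_eq_single i0] at h0
  · have h1 : Phi (lab m k b) (yI m k δ i0.1) (r • sg i0.2)
        (yI m k δ i0.1 - Finsupp.weight (lab m k b) β0, i0.2) = coeff β0 r := by
      have h2 : (r • (sg i0.2 : G → MvPolynomial W ℤ)) i0.2 = r := by simp [sg]
      simp only [Phi]
      rw [h2, evA_apply, Finset.sum_eq_single β0]
      · simp [sg]
      · intro β hβ hne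
        have h3 : ¬ (yI m k δ i0.1 - (yI m k δ i0.1 - Finsupp.weight (lab m k b) β0) =
            Finsupp.weight (lab m k b) β) := fun h => hne (key i0 hi0' β hβ h).1
        simp only [sg, if_neg h3, mul_zero]
      · intro h
        exact absurd hs0 h
    rw [Pi.smul_apply, h1, smul_eq_mul, Pi.zero_apply] at h0
    exact mul_ne_zero hi0' hc0 h0
  · intro i _ hi
    by_contra h1
    rw [Pi.smul_apply, smul_eq_mul] at h1
    obtain ⟨h2, β, hβ, h3⟩ := Phi_r_ne _ _ _ _ _ (right_ne_zero_of_mul h1)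
    exact hi (Prod.ext (key i (left_ne_zero_of_mul h1) β hβ h3).2 h2.symm)
  · simp

theorem card_win {W B G : Type} [Finite W] [Finite B] [Finite G] (m k : ℕ) [NeZero m]
    [NeZero k] :
    Nat.card {x : ((W → ZMod m) × ZMod k × B) × G // x.1.2.1.val < 2} ≤
      m ^ Nat.card W * (2 * Nat.card B) * Nat.card G := by
  have h := Nat.card_le_card_of_injective
    (fun x : {x : ((W → ZMod m) × ZMod k × B) × G // x.1.2.1.val < 2} =>
      (((x.1.1.1, (⟨x.1.1.2.1.val, x.2⟩ : Fin 2), x.1.1.2.2), x.1.2) :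
        ((W → ZMod m) × Fin 2 × B) × G)) (by
      intro x x' h
      simp only [Prod.mk.injEq, Fin.mk.injEq] at h
      obtain ⟨⟨h1, h2, h3⟩, h4⟩ := h
      exact Subtype.ext (Prod.ext (Prod.ext h1 (Prod.ext (ZMod.val_injective k h2) h3)) h4))
  simpa [Nat.card_prod, Nat.card_fun] using h

theorem core_nat {G W : Type} [Group G] [Finite G] [Finite W] {c t : G} {e : ℕ} {h : G → W}
    (L : Level c t e h) :
    ∃ C R δ : ℕ, 1 ≤ C ∧ 1 ≤ R ∧ ∀ m k : ℕ, 0 < m → 2 ≤ k →
      ∀ (B : Type) [AddCommGroup B] [Finite B] (b : W → B),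
      Nat.card (torsCoker (colX c t e h (lab m k b))) ≤
        R ^ (m ^ Nat.card W * (2 * Nat.card B) * Nat.card G) *
          (C ^ (k + 1)) ^ ((m ^ Nat.card W - (m - δ) ^ Nat.card W) * (2 * Nat.card B) *
            Nat.card G) := by
  classical
  obtain ⟨r, hr0, ⟨δ, hr⟩, hrs⟩ := exists_ann L
  have := Fintype.ofFinite G
  have := Fintype.ofFinite W
  have := Fintype.ofFinite (Row G c)
  refine ⟨1 + ∑ ρ : Row G c, ∑ g, l1 (colP c t e h g ρ),
    1 + ∑ g : G, ∑ g', l1 ((r • (sg g : G → MvPolynomial W ℤ)) g'), δ, by omega, by omega, ?_⟩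
  intro m k hm hk B _ _ b
  have : NeZero m := ⟨by omega⟩
  have : NeZero k := ⟨by omega⟩
  have := Fintype.ofFinite B
  set C := 1 + ∑ ρ : Row G c, ∑ g, l1 (colP c t e h g ρ) with hCdef
  set R := 1 + ∑ g : G, ∑ g', l1 ((r • (sg g : G → MvPolynomial W ℤ)) g') with hRdef
  let row : ((W → ZMod m) × ZMod k × B) × Row G c → ((W → ZMod m) × ZMod k × B) × G → ℤ :=
    fun i j => colX c t e h (lab m k b) j i
  have hrow : ∀ y ρ, row (y, ρ) = Phi (lab m k b) y fun g => colP c t e h g ρ :=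
    fun y ρ => colX_eq _ c t e h y ρ
  have hn : ∀ j, 1 + nrm (row j) ≤ C := by
    rintro ⟨y, ρ⟩
    rw [hrow]
    have h1 := nrm_Phi (lab m k b) y fun g => colP c t e h g ρ
    have h2 : ∑ g, l1 (colP c t e h g ρ) ≤ ∑ ρ : Row G c, ∑ g, l1 (colP c t e h g ρ) :=
      Finset.single_le_sum (f := fun ρ : Row G c => ∑ g, l1 (colP c t e h g ρ))
        (fun _ _ => Nat.zero_le _) (Finset.mem_univ ρ)
    omega
  have hw := card_win (W := W) (B := B) (G := G) m k
  have hind := indep (G := G) (m := m) hk b hr0 hr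
  refine (tors_transpose row).trans ((tors_window row (fun x => x.1.2.1.val) k C R
    ((m ^ Nat.card W - (m - δ) ^ Nat.card W) * (2 * Nat.card B) * Nat.card G) (by omega)
    (by omega) (fun x => (ZMod.val_lt _).le) (fun j => by have := hn j; omega) ?_
    (Set.range fun i : ((W → Fin (m - δ)) × Fin 2 × B) × G =>
      Phi (lab m k b) (yI m k δ i.1) (r • sg i.2)) ?_ ?_).trans ?_)
  · rintro ⟨y, g0⟩ hy
    refine ⟨sg (y, g0) - row (y, rc c g0), ?_, (nrm_sg_sub _ _).trans (hn _), ?_⟩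
    · rw [sub_sub_cancel]
      exact Submodule.subset_span ⟨_, rfl⟩
    · rintro ⟨x, g⟩ hx
      by_contra hlt
      apply hx
      simp only at hy hlt
      rw [Pi.sub_apply, sub_eq_zero]
      refine (colX_step _ c t e h y x g0 g (fun l hl => hlt ?_) fun l l' hl => hlt ?_).symm
      · have := val_of_add x.2.1 y.2.1 1 (by omega) (by rw [hl]; simp [lab])
        omega
      · have := val_of_add x.2.1 y.2.1 2 hy (by rw [hl]; simp [lab]; ring)
        omega
  · rintro _ ⟨i, rfl⟩
    refine ⟨Phi_mem _ _ _ (fun ρ y => ?_) (hrs i.2) _, ?_, ?_⟩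
    · rw [← hrow]
      exact Submodule.subset_span ⟨_, rfl⟩
    · have h1 := nrm_Phi (lab m k b) (yI m k δ i.1) (r • (sg i.2 : G → MvPolynomial W ℤ))
      have h2 : ∑ g', l1 ((r • (sg i.2 : G → MvPolynomial W ℤ)) g') ≤
          ∑ g : G, ∑ g', l1 ((r • (sg g : G → MvPolynomial W ℤ)) g') :=
        Finset.single_le_sum
          (f := fun g : G => ∑ g', l1 ((r • (sg g : G → MvPolynomial W ℤ)) g'))
          (fun _ _ => Nat.zero_le _) (Finset.mem_univ i.2)
      exact h1.trans (by omega)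
    · intro x hx
      obtain ⟨_, β, hβ, h1⟩ := Phi_r_ne _ _ _ _ _ hx
      have h2 := congrArg (fun z => z.2.1) h1
      simp only [Prod.snd_sub, Prod.fst_sub, wt_snd, deg_of_homog hr hβ, yI] at h2
      have h3 : x.1.2.1 = ((i.1.2.1 : ℕ) : ZMod k) := by
        push_cast at h2
        linear_combination -h2
      show x.1.2.1.val < 2
      rw [h3, ZMod.val_natCast]
      exact lt_of_le_of_lt (Nat.mod_le _ _) i.1.2.1.2
  · rw [finrank_span_eq_card hind, ← Nat.card_eq_fintype_card]
    refine hw.trans (le_of_eq ?_)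
    have h1 : (m - δ) ^ Nat.card W ≤ m ^ Nat.card W := Nat.pow_le_pow_left (Nat.sub_le _ _) _
    simp only [Nat.card_prod, Nat.card_fun, Nat.card_fin]
    rw [← add_mul, ← add_mul, Nat.add_sub_cancel' h1]
  · exact Nat.mul_le_mul_right _ (Nat.pow_le_pow_right (by omega) hw)

theorem bern (m δ w : ℕ) (hm : 0 < m) (hδ : δ ≤ m) :
    (m : ℝ) * ((m ^ w - (m - δ) ^ w : ℕ) : ℝ) ≤ w * δ * (m : ℝ) ^ w := by
  have hm' : (0 : ℝ) < m := by exact_mod_cast hm
  have hδ' : (δ : ℝ) ≤ m := by exact_mod_cast hδ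
  rw [Nat.cast_sub (Nat.pow_le_pow_left (Nat.sub_le _ _) _)]
  push_cast [Nat.cast_sub hδ]
  have h0 : (δ : ℝ) / m ≤ 1 := (div_le_one hm').2 hδ'
  have h1 := one_add_mul_le_pow (a := -((δ : ℝ) / m)) (by linarith) w
  have h2 : ((m : ℝ) - δ) ^ w = (m : ℝ) ^ w * (1 + -((δ : ℝ) / m)) ^ w := by
    rw [← mul_pow]
    congr 1
    field_simp
    ring
  have h3 : (0 : ℝ) ≤ m * (m : ℝ) ^ w := by positivity
  have h4 := mul_le_mul_of_nonneg_left h1 h3
  have h5 : m * (m : ℝ) ^ w * (1 + w * -((δ : ℝ) / m)) =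
      m * (m : ℝ) ^ w - w * δ * (m : ℝ) ^ w := by
    field_simp
    ring
  rw [h2]
  nlinarith

theorem core {G W : Type} [Group G] [Finite G] [Finite W] {c t : G} {e : ℕ} {h : G → W}
    (L : Level c t e h) (ε : ℝ) (hε : 0 < ε) :
    ∃ m k : ℕ, 0 < m ∧ 0 < k ∧ ∀ (B : Type) [AddCommGroup B] [Finite B] (b : W → B),
      Real.log (Nat.card (torsCoker (colX c t e h (lab m k b)))) ≤
        ε * Nat.card (((W → ZMod m) × ZMod k × B) × G) := by
  obtain ⟨C, R, δ, hC, hR, H⟩ := core_nat L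
  obtain ⟨m0, hm0⟩ := exists_nat_ge (8 * (Nat.card W * δ) * Real.log C / ε)
  obtain ⟨k0, hk0⟩ := exists_nat_ge (4 * Real.log R / ε)
  refine ⟨m0 + δ + 1, k0 + 2, by omega, by omega, fun B _ _ b => ?_⟩
  have H1 := H (m0 + δ + 1) (k0 + 2) (by omega) (by omega) B b
  have hb := bern (m0 + δ + 1) δ (Nat.card W) (by omega) (by omega)
  have hcard : Nat.card (((W → ZMod (m0 + δ + 1)) × ZMod (k0 + 2) × B) × G) =
      (m0 + δ + 1) ^ Nat.card W * ((k0 + 2) * Nat.card B) * Nat.card G := by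
    simp [Nat.card_prod, Nat.card_fun]
  rw [hcard]
  generalize Nat.card (torsCoker (colX c t e h (lab (m0 + δ + 1) (k0 + 2) b))) = T at H1 ⊢
  have hm1 : m0 ≤ m0 + δ + 1 := by omega
  have hm2 : 0 < m0 + δ + 1 := by omega
  generalize m0 + δ + 1 = m at *
  generalize m ^ Nat.card W - (m - δ) ^ Nat.card W = D at *
  have hlC : 0 ≤ Real.log C := Real.log_natCast_nonneg C
  have hlR : 0 ≤ Real.log R := Real.log_natCast_nonneg R
  have hC' : (0 : ℝ) < C := by exact_mod_cast hC
  have hR' : (0 : ℝ) < R := by exact_mod_cast hR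
  have hm' : (0 : ℝ) < m := by exact_mod_cast hm2
  have hm1' : (m0 : ℝ) ≤ m := by exact_mod_cast hm1
  rw [div_le_iff₀ hε] at hm0 hk0
  have hP : (0 : ℝ) ≤ (m : ℝ) ^ Nat.card W := by positivity
  have hD : 8 * (D : ℝ) * Real.log C ≤ ε * (m : ℝ) ^ Nat.card W := by
    refine le_of_mul_le_mul_left ?_ hm'
    have h1 := mul_le_mul_of_nonneg_right hb hlC
    have h2 := mul_le_mul_of_nonneg_right (hm0.trans (mul_le_mul_of_nonneg_right hm1' hε.le)) hP
    nlinarith
  rcases Nat.eq_zero_or_pos T with hT | hT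
  · rw [hT, Nat.cast_zero, Real.log_zero]
    positivity
  have H2 : (T : ℝ) ≤ (R : ℝ) ^ (m ^ Nat.card W * (2 * Nat.card B) * Nat.card G) *
      ((C : ℝ) ^ (k0 + 2 + 1)) ^ (D * (2 * Nat.card B) * Nat.card G) := by exact_mod_cast H1
  have H3 := Real.log_le_log (by exact_mod_cast hT) H2
  rw [Real.log_mul (by positivity) (by positivity), Real.log_pow, Real.log_pow,
    Real.log_pow] at H3
  refine H3.trans ?_
  push_cast
  have hN : (0 : ℝ) ≤ (Nat.card B : ℝ) * Nat.card G := by positivity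
  have hk : (0 : ℝ) ≤ k0 := Nat.cast_nonneg _
  have hD0 : (0 : ℝ) ≤ (D : ℝ) * Real.log C := by positivity
  have h1 : (m : ℝ) ^ Nat.card W * 2 * Real.log R + D * 2 * ((k0 + 2 + 1) * Real.log C) ≤
      ε * ((m : ℝ) ^ Nat.card W * (k0 + 2)) := by
    have h2 := mul_le_mul_of_nonneg_left hk0 hP
    have h3 := mul_le_mul_of_nonneg_left hD (by linarith : (0 : ℝ) ≤ k0 + 2)
    have h4 := mul_nonneg hk hD0
    have h5 := mul_nonneg hε.le hP
    nlinarith
  have h6 := mul_le_mul_of_nonneg_right h1 hN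
  nlinarith

end TorsW2
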