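import Pool.Agent.Lib.MP_004c47_gt.CombC45

/-! The matrix of a level with flipped co-orientations has the three good properties. -/

namespace TorsW2

open MvPolynomial

theorem left_inv_eval {R ι κ : Type} [CommRing R] [Fintype ι] [Fintype κ] (ψ : R →+* ℚ)
    (A : ι → κ → R) (hA : ∀ v : κ → ℚ, (∀ i, ∑ j, ψ (A i j) * v j = 0) → v = 0) :
    ∃ D : R, D ≠ 0 ∧ ∀ j : κ, (D • sg j : κ → R) ∈ Submodule.span R (Set.range A) := by
  classical
  let B : Matrix ι κ R := Matrix.of A
  refine ⟨(B.transpose * B).det, fun h0 => ?_, fun j => ?_⟩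
  · have h1 : ((B.map ψ).transpose * B.map ψ).det = 0 := by
      rw [← Matrix.transpose_map, ← Matrix.map_mul, ← RingHom.mapMatrix_apply, ← RingHom.map_det,
        h0, map_zero]
    obtain ⟨v, hv, h2⟩ := Matrix.exists_mulVec_eq_zero_iff.2 h1
    refine hv (hA v fun i => ?_)
    have h3 : (B.map ψ).mulVec v ⬝ᵥ (B.map ψ).mulVec v = 0 := by
      rw [Matrix.dotProduct_mulVec, ← Matrix.mulVec_transpose, Matrix.mulVec_mulVec, h2,
        zero_dotProduct]
    exact congrFun (dotProduct_self_eq_zero.1 h3) i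
  · refine (Submodule.mem_span_range_iff_exists_fun R).2
      ⟨fun i => ((B.transpose * B).adjugate * B.transpose) j i, funext fun j' => ?_⟩
    have h1 := congrFun (congrFun (Matrix.adjugate_mul (B.transpose * B)) j) j'
    rw [← Matrix.mul_assoc, Matrix.mul_apply] at h1
    rw [Finset.sum_apply]
    refine h1.trans ?_
    by_cases e : j' = j
    · simp [sg, e]
    · simp [sg, e, Ne.symm e]

section CutA

variable {W : Type} (l : W)

/-- polynomials without the variable `l` -/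
noncomputable def D0 : Subring (MvPolynomial W ℤ) :=
  (rename (Subtype.val : {s // s ≠ l} → W) : MvPolynomial _ ℤ →ₐ[ℤ] _).toRingHom.range

/-- polynomials of degree at most one in the variable `l` -/
noncomputable def D1 : AddSubgroup (MvPolynomial W ℤ) where
  carrier := {w | ∃ a ∈ D0 l, ∃ b ∈ D0 l, w = a + X l * b}
  zero_mem' := ⟨0, zero_mem _, 0, zero_mem _, by simp⟩
  add_mem' := by
    rintro _ _ ⟨a, ha, b, hb, rfl⟩ ⟨a', ha', b', hb', rfl⟩
    exact ⟨a + a', add_mem ha ha', b + b', add_mem hb hb', by ring⟩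
  neg_mem' := by
    rintro _ ⟨a, ha, b, hb, rfl⟩
    exact ⟨-a, neg_mem ha, -b, neg_mem hb, by ring⟩

theorem X_mem_D0 {a : W} (ha : a ≠ l) : (X a : MvPolynomial W ℤ) ∈ D0 l :=
  ⟨X ⟨a, ha⟩, by simp⟩

theorem D0_le {w : MvPolynomial W ℤ} (hw : w ∈ D0 l) : w ∈ D1 l :=
  ⟨w, hw, 0, zero_mem _, by simp⟩

theorem D0_mul {v w : MvPolynomial W ℤ} (hv : v ∈ D0 l) (hw : w ∈ D1 l) : v * w ∈ D1 l := by
  obtain ⟨a, ha, b, hb, rfl⟩ := hw
  exact ⟨v * a, mul_mem hv ha, v * b, mul_mem hv hb, by ring⟩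

theorem X_mem_D1 (a : W) : (X a : MvPolynomial W ℤ) ∈ D1 l := by
  by_cases ha : a = l
  · exact ⟨0, zero_mem _, 1, one_mem _, by simp [ha]⟩
  · exact D0_le l (X_mem_D0 l ha)

open Classical in
/-- evaluation of all variables except `l` -/
noncomputable def Th (z : W → ℚ) : MvPolynomial W ℤ →+* Polynomial ℚ :=
  eval₂Hom (Int.castRingHom _) fun a => if a = l then Polynomial.X else Polynomial.C (z a)

theorem Th_X (z : W → ℚ) {a : W} (ha : a ≠ l) : Th l z (X a) = Polynomial.C (z a) := by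
  simp [Th, ha]

theorem Th_l (z : W → ℚ) : Th l z (X l) = Polynomial.X := by simp [Th]

theorem Th_rename (z : W → ℚ) (w : MvPolynomial {s // s ≠ l} ℤ) :
    Th l z (rename Subtype.val w) =
      Polynomial.C (eval₂Hom (Int.castRingHom ℚ) (fun a : {s // s ≠ l} => z a.1) w) := by
  induction w using MvPolynomial.induction_on with
  | C n => simp
  | add p q hp hq => simp only [map_add, hp, hq]
  | mul_X p a hp => rw [map_mul, map_mul, map_mul, map_mul, hp, rename_X, Th_X l z a.2]; simp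

theorem cutA {J Rw : Type} [Fintype J] [Fintype Rw] (D : J → Rw → MvPolynomial W ℤ) (z : W → ℚ)
    (T : J → Prop) (h1 : ∀ j ρ, D j ρ ∈ D1 l) (h0 : ∀ j ρ, ¬ T j → D j ρ ∈ D0 l)
    (hinj : ∀ F0 F1 : J → ℚ, (∀ j, ¬ T j → F1 j = 0) →
      (∀ ρ, ∑ j, ((Th l z (D j ρ)).coeff 0 * F0 j + (Th l z (D j ρ)).coeff 1 * F1 j) = 0) →
      F0 = 0 ∧ F1 = 0) :
    ∃ p : MvPolynomial {s // s ≠ l} ℤ, p ≠ 0 ∧ ∀ j : J,
      ((rename Subtype.val p : MvPolynomial W ℤ) • sg j : J → MvPolynomial W ℤ) ∈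
        Submodule.span (MvPolynomial W ℤ) (Set.range fun (ρ : Rw) (j' : J) => D j' ρ) := by
  classical
  have hd : ∀ j ρ, ∃ a b : MvPolynomial {s // s ≠ l} ℤ, (¬ T j → b = 0) ∧
      D j ρ = rename Subtype.val a + X l * rename Subtype.val b := by
    intro j ρ
    by_cases hj : T j
    · obtain ⟨_, ⟨a, rfl⟩, _, ⟨b, rfl⟩, e⟩ := h1 j ρ
      exact ⟨a, b, fun h => absurd hj h, e⟩
    · obtain ⟨a, e⟩ := h0 j ρ hj
      exact ⟨a, 0, fun _ => rfl, by rw [← e]; simp⟩
  choose a b hb hab using hd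
  let ψ := eval₂Hom (Int.castRingHom ℚ) fun a : {s // s ≠ l} => z a.1
  let A : Rw ⊕ J → J ⊕ J → MvPolynomial {s // s ≠ l} ℤ := fun i j =>
    match i, j with
    | .inl ρ, .inl g => a g ρ
    | .inl ρ, .inr g => b g ρ
    | .inr _, .inl _ => 0
    | .inr g', .inr g => if g = g' ∧ ¬ T g then 1 else 0
  obtain ⟨p, hp, hps⟩ := left_inv_eval ψ A (by
    intro v hv
    have := hinj (fun g => v (.inl g)) (fun g => v (.inr g))
      (by
        intro g hg
        have := hv (.inr g)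
        rw [Fintype.sum_sum_type, Finset.sum_eq_zero (fun _ _ => by simp [A]), zero_add,
          Finset.sum_eq_single g (fun g' _ hg' => by simp [A, hg']) (by simp)] at this
        simpa [A, hg] using this)
      (by
        intro ρ
        have := hv (.inl ρ)
        rw [Fintype.sum_sum_type, ← Finset.sum_add_distrib] at this
        rw [← this]
        refine Finset.sum_congr rfl fun j _ => ?_
        rw [hab j ρ, map_add, map_mul, Th_l, Th_rename, Th_rename]
        simp [A, ψ, Polynomial.coeff_C])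
    funext j
    cases j with
    | inl g => exact congrFun this.1 g
    | inr g => exact congrFun this.2 g)
  refine ⟨p, hp, fun g => ?_⟩
  set S := Submodule.span (MvPolynomial W ℤ) (Set.range fun (ρ : Rw) (j' : J) => D j' ρ)
  let φ : MvPolynomial {s // s ≠ l} ℤ →+* MvPolynomial W ℤ := (rename Subtype.val).toRingHom
  let K : (J ⊕ J → MvPolynomial {s // s ≠ l} ℤ) → J → MvPolynomial W ℤ := fun u g =>
    φ (u (.inl g)) + X l * φ ((if T g then 1 else 0) * u (.inr g))
  have key : ∀ u ∈ Submodule.span (MvPolynomial {s // s ≠ l} ℤ) (Set.range A), K u ∈ S := by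
    intro u hu
    induction hu using Submodule.span_induction with
    | mem x hx =>
      obtain ⟨i, rfl⟩ := hx
      cases i with
      | inl ρ =>
        refine Submodule.subset_span ⟨ρ, funext fun g => ?_⟩
        simp only [K, A]
        rw [hab g ρ]
        by_cases hg : T g
        · simp [hg, φ]
        · simp [hg, φ, hb g ρ hg]
      | inr g' =>
        have : K (A (.inr g')) = 0 := by
          funext g
          by_cases hg : T g <;> simp [K, A, hg]
        rw [this]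
        exact zero_mem _
    | zero =>
      have : K 0 = 0 := by funext g; simp [K]
      rw [this]
      exact zero_mem _
    | add x y _ _ hx hy =>
      have : K (x + y) = K x + K y := by
        funext g; simp only [K, Pi.add_apply, map_add, map_mul]; ring
      rw [this]
      exact add_mem hx hy
    | smul a x _ hx =>
      have : K (a • x) = φ a • K x := by
        funext g; simp only [K, Pi.smul_apply, smul_eq_mul, map_mul]; ring
      rw [this]
      exact S.smul_mem _ hx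
  have := key _ (hps (.inl g))
  convert this using 1
  funext g'
  by_cases hg : g' = g <;> simp [K, φ, sg, hg]

end CutA

section Mat

variable {G W : Type} [Group G]

open Classical in
/-- the weight on the starting side of a wall -/
noncomputable def lo (σ : W → Prop) (a : W) : MvPolynomial W ℤ := if σ a then 1 else X a

open Classical in
/-- the weight on the far side of a wall -/
noncomputable def hi (σ : W → Prop) (a : W) : MvPolynomial W ℤ := if σ a then X a else 1

/-- the boundary matrix: big cells and the squares at the unmarked points -/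
noncomputable def Dm (c t : G) (h : G → W) (σ : W → Prop) (rep : G → Prop) :
    G ⊕ {g // ¬ rep g} → Rw3 G → MvPolynomial W ℤ
  | .inl g => cell c t g (lo σ (h (g * c)) * lo σ (h g)) (lo σ (h (g * c)) * hi σ (h g))
      (hi σ (h (g * c)) * hi σ (h g)) (lo σ (h (g * c))) (lo σ (h g)) (hi σ (h (g * c)))
      (hi σ (h g))
  | .inr g => sqr c t g.1 1

theorem cell_mem {Q : Type} [AddCommGroup Q] (S : AddSubgroup Q) (c t g : G)
    {β rh τ e1 e2 e3 e4 : Q} (h1 : β ∈ S) (h2 : rh ∈ S) (h3 : τ ∈ S) (h4 : e1 ∈ S) (h5 : e2 ∈ S)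
    (h6 : e3 ∈ S) (h7 : e4 ∈ S) (r : Rw3 G) : cell c t g β rh τ e1 e2 e3 e4 r ∈ S :=
  add_mem (sub_mem (add_mem (sub_mem (add_mem (zsmul_mem h1 _) (zsmul_mem h5 _))
    (zsmul_mem h4 _)) (zsmul_mem h6 _)) (add_mem (zsmul_mem h7 _) (zsmul_mem h2 _)))
    (zsmul_mem h3 _)

theorem sqr_mem {Q : Type} [AddCommGroup Q] (S : AddSubgroup Q) (c t g : G) {s : Q} (h : s ∈ S)
    (r : Rw3 G) : sqr c t g s r ∈ S :=
  sub_mem (sub_mem (add_mem (zsmul_mem h _) (zsmul_mem h _)) (zsmul_mem h _)) (zsmul_mem h _)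

open Classical in
theorem rows_phi [Fintype G] {Q : Type} [AddCommGroup Q] {c t : G} {h : G → W} {σ : W → Prop}
    {rep : G → Prop} (φ : G ⊕ {g // ¬ rep g} → MvPolynomial W ℤ →+ Q)
    (H : ∀ r, ∑ j, φ j (Dm c t h σ rep j r) = 0) :
    ∃ s : G → Q, (∀ g, rep g → s g = 0) ∧ (∀ g, s g.1 = φ (.inr g) 1) ∧ ∀ r,
      ∑ g, cell c t g (φ (.inl g) (lo σ (h (g * c)) * lo σ (h g)))
        (φ (.inl g) (lo σ (h (g * c)) * hi σ (h g))) (φ (.inl g) (hi σ (h (g * c)) * hi σ (h g)))
        (φ (.inl g) (lo σ (h (g * c)))) (φ (.inl g) (lo σ (h g)))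
        (φ (.inl g) (hi σ (h (g * c)))) (φ (.inl g) (hi σ (h g))) r +
      ∑ g, sqr c t g (s g) r = 0 := by
  refine ⟨fun g => if hg : rep g then 0 else φ (.inr ⟨g, hg⟩) 1, fun g hg => dif_pos hg,
    fun g => dif_neg g.2, fun r => ?_⟩
  refine Eq.trans ?_ (H r)
  rw [Fintype.sum_sum_type]
  simp only [Dm, map_cell, map_sqr]
  congr 1
  rw [← Fintype.sum_subtype_add_sum_subtype rep, Finset.sum_eq_zero, zero_add]
  · exact Finset.sum_congr rfl fun g _ => by rw [dif_neg g.2]
  · intro g _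
    rw [dif_pos g.2]
    simp [sqr]

variable {c t : G} {n : ℕ} {h : G → W} {ζ : W → ZMod n} {rep : G → Prop}

theorem Lev.lab3 (L : Lev c t n h ζ rep) (y : G) : h (y * t⁻¹ * c⁻¹) = h y := by
  rw [← L.h1]; congr 1; group

theorem Lev.lab4 (L : Lev c t n h ζ rep) (y : G) : h (y * (mer c t)⁻¹ * t⁻¹ * c) = h y := by
  rw [← L.h2]; congr 1; group

theorem Dm_deg (σ : W → Prop) (j : G ⊕ {g // ¬ rep g}) (r : Rw3 G) :
    (Dm c t h σ rep j r).totalDegree ≤ 2 := by
  have e1 : ∀ a, (lo σ a).totalDegree ≤ 1 := fun a => by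
    unfold lo
    split_ifs <;> simp
  have e2 : ∀ a, (hi σ a).totalDegree ≤ 1 := fun a => by
    unfold hi
    split_ifs <;> simp
  have m : ∀ {v w : MvPolynomial W ℤ}, v.totalDegree ≤ 1 → w.totalDegree ≤ 1 →
      v * w ∈ (restrictTotalDegree W ℤ 2).toAddSubgroup := fun hv hw =>
    (mem_restrictTotalDegree _ _ _).2 ((totalDegree_mul _ _).trans (by omega))
  have m' : ∀ {v : MvPolynomial W ℤ}, v.totalDegree ≤ 1 →
      v ∈ (restrictTotalDegree W ℤ 2).toAddSubgroup := fun hv =>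
    (mem_restrictTotalDegree _ _ _).2 (by omega)
  refine (mem_restrictTotalDegree W 2 _).1 ?_
  cases j with
  | inl g =>
    exact cell_mem (restrictTotalDegree W ℤ 2).toAddSubgroup c t g (m (e1 _) (e1 _))
      (m (e1 _) (e2 _)) (m (e2 _) (e2 _)) (m' (e1 _)) (m' (e1 _)) (m' (e2 _)) (m' (e2 _)) r
  | inr g => exact sqr_mem (restrictTotalDegree W ℤ 2).toAddSubgroup c t g.1 (m' (by simp)) r

theorem Dm_mon [Finite G] (L : Lev c t n h ζ rep) (j : G ⊕ {g // ¬ rep g}) :
    (sg j : _ → ℤ) ∈ Submodule.span ℤ (Set.range fun (ρ : Rw3 G) (j' : G ⊕ {g // ¬ rep g}) =>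
      constantCoeff (Dm c t h (fun a => ζ a = 0) rep j' ρ)) := by
  classical
  have := Fintype.ofFinite G
  set σ : W → Prop := fun a => ζ a = 0 with hσ
  set S := Submodule.span ℤ (Set.range fun (ρ : Rw3 G) (j' : G ⊕ {g // ¬ rep g}) =>
    constantCoeff (Dm c t h σ rep j' ρ))
  let φ : G ⊕ {g // ¬ rep g} → MvPolynomial W ℤ →+ ((G ⊕ {g // ¬ rep g} → ℤ) ⧸ S) := fun j =>
    { toFun := fun w => constantCoeff w • S.mkQ (sg j)
      map_zero' := by simp
      map_add' := fun v w => by rw [map_add, add_smul] }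
  have hφ : ∀ j w, φ j w = constantCoeff w • S.mkQ (sg j) := fun _ _ => rfl
  obtain ⟨s, hs, hs', H⟩ := rows_phi (c := c) (t := t) (h := h) (σ := σ) φ (fun r => by
    simp only [hφ, ← map_smul, ← map_sum]
    refine (Submodule.Quotient.mk_eq_zero S).2 (Submodule.subset_span ⟨r, funext fun j' => ?_⟩)
    rw [Finset.sum_apply, Finset.sum_eq_single j' (fun j _ hj => by simp [sg, Ne.symm hj])
      (by simp)]
    simp [sg])
  have l0 : ∀ a, ζ a ≠ 0 → constantCoeff (lo σ a) = 0 := fun a ha => by simp [lo, hσ, ha]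
  have l1 : ∀ a, ζ a = 0 → lo σ a = 1 := fun a ha => by simp [lo, hσ, ha]
  have u0 : ∀ a, ζ a = 0 → constantCoeff (hi σ a) = 0 := fun a ha => by simp [hi, hσ, ha]
  have u1 : ∀ a, ζ a ≠ 0 → hi σ a = 1 := fun a ha => by simp [hi, hσ, ha]
  have key := comb L 0 (fun _ => False) (fun _ _ e => e.elim)
    (β := fun g => φ (.inl g) (lo σ (h (g * c)) * lo σ (h g)))
    (lam := fun g => φ (.inl g) (hi σ (h (g * c)) * lo σ (h g)))
    (rh := fun g => φ (.inl g) (lo σ (h (g * c)) * hi σ (h g)))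
    (τ := fun g => φ (.inl g) (hi σ (h (g * c)) * hi σ (h g))) (s := s)
    (fun y => (rows H y).1) (fun y => (rows H y).2.1)
    (fun y hy => by
      have e := (rows H y).2.2
      simp only [inv_mul_cancel_right, L.lab3, L.lab4, u1 _ hy, one_mul, mul_one] at e ⊢
      exact e)
    hs
    (fun g => by
      by_cases hg : ζ (h g) = 0
      · rw [hφ, map_mul, l0 _ (by rw [← hg]; exact L.ne_ht g), zero_mul, zero_smul]
      · rw [hφ, map_mul, l0 _ hg, mul_zero, zero_smul])
    (fun g hg => by rw [hφ, map_mul, l0 _ hg, zero_mul, zero_smul])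
    (fun g hg => by rw [hφ, map_mul, l0 _ hg, mul_zero, zero_smul])
    (fun g hg _ => by rw [hφ, map_mul, u0 _ hg, mul_zero, zero_smul])
  refine (Submodule.Quotient.mk_eq_zero S).1 (?_ : S.mkQ (sg j) = 0)
  cases j with
  | inl g =>
    obtain ⟨k1, k2, k3, -⟩ := key g
    by_cases hg : ζ (h g) = 0
    · have hp : ζ (h (g * c)) ≠ 0 := by rw [← hg]; exact L.ne_ht g
      simpa [hφ, u1 _ hp, l1 _ hg] using k1
    · by_cases hp : ζ (h (g * c)) = 0
      · simpa [hφ, u1 _ hg, l1 _ hp] using k2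
      · simpa [hφ, u1 _ hg, u1 _ hp] using k3
  | inr g =>
    have := (key g.1).2.2.2
    rw [hs'] at this
    simpa [hφ] using this

theorem Dm_cut [Finite G] (L : Lev c t n h ζ rep) (σ : W → Prop) (l : W) :
    ∃ p : MvPolynomial {s // s ≠ l} ℤ, p ≠ 0 ∧ ∀ j : G ⊕ {g // ¬ rep g},
      ((rename Subtype.val p : MvPolynomial W ℤ) • sg j : _ → MvPolynomial W ℤ) ∈
        Submodule.span (MvPolynomial W ℤ) (Set.range
          fun (ρ : Rw3 G) (j' : G ⊕ {g // ¬ rep g}) => Dm c t h σ rep j' ρ) := by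
  classical
  have := Fintype.ofFinite G
  have lo0 : ∀ a, a ≠ l → lo σ a ∈ D0 l := fun a ha => by
    unfold lo
    split_ifs
    exacts [one_mem _, X_mem_D0 l ha]
  have hi0 : ∀ a, a ≠ l → hi σ a ∈ D0 l := fun a ha => by
    unfold hi
    split_ifs
    exacts [X_mem_D0 l ha, one_mem _]
  have lo1 : ∀ a, lo σ a ∈ D1 l := fun a => by
    unfold lo
    split_ifs
    exacts [D0_le l (one_mem _), X_mem_D1 l a]
  have hi1 : ∀ a, hi σ a ∈ D1 l := fun a => by
    unfold hi
    split_ifs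
    exacts [X_mem_D1 l a, D0_le l (one_mem _)]
  let z : W → ℚ := fun a => if (σ a ↔ ζ a = ζ l) then 2 else 1 / 2
  refine cutA l _ z (fun j => match j with
    | .inl g => h (g * c) = l ∨ h g = l
    | .inr _ => False) ?_ ?_ ?_
  · rintro (g | g) r
    · by_cases hg : h g = l
      · have hp : h (g * c) ≠ l := fun e => L.ne_lab g (e.trans hg.symm)
        exact cell_mem _ c t g (D0_mul l (lo0 _ hp) (lo1 _)) (D0_mul l (lo0 _ hp) (hi1 _))
          (D0_mul l (hi0 _ hp) (hi1 _)) (lo1 _) (lo1 _) (hi1 _) (hi1 _) r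
      · refine cell_mem _ c t g ?_ ?_ ?_ (lo1 _) (lo1 _) (hi1 _) (hi1 _) r <;> rw [mul_comm]
        exacts [D0_mul l (lo0 _ hg) (lo1 _), D0_mul l (hi0 _ hg) (lo1 _),
          D0_mul l (hi0 _ hg) (hi1 _)]
    · exact sqr_mem _ c t g.1 (D0_le l (one_mem _)) r
  · rintro (g | g) r hT
    · obtain ⟨hp, hg⟩ := not_or.1 hT
      exact cell_mem (D0 l).toAddSubgroup c t g ((D0 l).mul_mem (lo0 _ hp) (lo0 _ hg))
        ((D0 l).mul_mem (lo0 _ hp) (hi0 _ hg)) ((D0 l).mul_mem (hi0 _ hp) (hi0 _ hg))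
        (lo0 _ hp) (lo0 _ hg)
        (hi0 _ hp) (hi0 _ hg) r
    · exact sqr_mem (D0 l).toAddSubgroup c t g.1 (one_mem (D0 l)) r
  intro F0 F1 hF1 hF
  let φ : G ⊕ {g // ¬ rep g} → MvPolynomial W ℤ →+ ℚ := fun j =>
    { toFun := fun w => (Th l z w).coeff 0 * F0 j + (Th l z w).coeff 1 * F1 j
      map_zero' := by simp
      map_add' := fun v w => by simp only [map_add, Polynomial.coeff_add]; ring }
  have hφ : ∀ j w, φ j w = (Th l z w).coeff 0 * F0 j + (Th l z w).coeff 1 * F1 j := fun _ _ => rfl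
  have φ1 : ∀ j, φ j 1 = F0 j := fun j => by simp [hφ, Polynomial.coeff_one]
  have φl : ∀ j, φ j (X l) = F1 j := fun j => by simp [hφ, Th_l]
  have φX : ∀ j a w, a ≠ l → φ j (X a * w) = z a * φ j w := fun j a w ha => by
    simp only [hφ, map_mul, Th_X l z ha, Polynomial.coeff_C_mul]
    ring
  let Lo : W → ℚ := fun a => if σ a then 1 else z a
  let Hi : W → ℚ := fun a => if σ a then z a else 1
  have φlo : ∀ j a w, a ≠ l → φ j (lo σ a * w) = Lo a * φ j w := fun j a w ha => by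
    by_cases hs : σ a <;> simp [lo, Lo, hs, φX j a w ha]
  have φhi : ∀ j a w, a ≠ l → φ j (hi σ a * w) = Hi a * φ j w := fun j a w ha => by
    by_cases hs : σ a <;> simp [hi, Hi, hs, φX j a w ha]
  have φlo' : ∀ j a w, a ≠ l → φ j (w * lo σ a) = Lo a * φ j w := fun j a w ha => by
    rw [mul_comm, φlo j a w ha]
  have φhi' : ∀ j a w, a ≠ l → φ j (w * hi σ a) = Hi a * φ j w := fun j a w ha => by
    rw [mul_comm, φhi j a w ha]
  have up : ∀ a, ζ a = ζ l → Hi a = 2 * Lo a := fun a ha => by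
    by_cases hs : σ a <;> simp [Lo, Hi, z, hs, ha]
  have dn : ∀ a, ζ a ≠ ζ l → Lo a = 2 * Hi a := fun a ha => by
    by_cases hs : σ a <;> simp [Lo, Hi, z, hs, ha]
  have Lo0 : ∀ a, Lo a ≠ 0 := fun a => by
    simp only [Lo, z]
    split_ifs <;> norm_num
  have nl : ∀ {a}, ζ a ≠ ζ l → a ≠ l := fun ha e => ha (by rw [e])
  obtain ⟨s, hs, hs', H⟩ := rows_phi (c := c) (t := t) (h := h) (σ := σ) φ hF
  have key := flow L (ζ l) (fun a => a = l) (fun _ _ e e' => e.trans e'.symm)
    (β := fun g => φ (.inl g) (lo σ (h (g * c)) * lo σ (h g)))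
    (lam := fun g => φ (.inl g) (hi σ (h (g * c)) * lo σ (h g)))
    (rh := fun g => φ (.inl g) (lo σ (h (g * c)) * hi σ (h g)))
    (τ := fun g => φ (.inl g) (hi σ (h (g * c)) * hi σ (h g))) (s := s)
    (fun y => (rows H y).1) (fun y => (rows H y).2.1)
    (fun y hy => by
      have e := (rows H y).2.2
      simp only [inv_mul_cancel_right, L.lab3, L.lab4] at e ⊢
      rw [φhi _ _ _ (nl hy), φhi' _ _ _ (nl hy), φhi' _ _ _ (nl hy), φhi _ _ _ (nl hy)]
      linear_combination Hi (h y) * e)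
    hs
    (fun g => by
      by_cases hg : ζ (h g) = ζ l
      · have hp : ζ (h (g * c)) ≠ ζ l := by rw [← hg]; exact L.ne_ht g
        right
        rw [φlo _ _ _ (nl hp), φhi _ _ _ (nl hp), dn _ hp, mul_assoc]
      · left
        rw [φlo' _ _ _ (nl hg), φhi' _ _ _ (nl hg), dn _ hg, mul_assoc])
    (fun g hg => by rw [φlo _ _ _ (nl hg), φhi _ _ _ (nl hg), dn _ hg, mul_assoc])
    (fun g hg => by rw [φlo' _ _ _ (nl hg), φhi' _ _ _ (nl hg), dn _ hg, mul_assoc])
    (fun g hg hb => by rw [φlo' _ _ _ hb, φhi' _ _ _ hb, up _ hg, mul_assoc])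
  have two : ∀ j, φ j (lo σ l) = 0 → φ j (hi σ l) = 0 → F0 j = 0 ∧ F1 j = 0 := fun j e1 e2 => by
    by_cases hs : σ l
    · simp only [lo, hi, hs, if_true, φ1, φl] at e1 e2
      exact ⟨e1, e2⟩
    · simp only [lo, hi, hs, if_false, φ1, φl] at e1 e2
      exact ⟨e2, e1⟩
  have all : ∀ j, F0 j = 0 ∧ F1 j = 0 := by
    rintro (g | g)
    · obtain ⟨k0, k1, k2, -, -⟩ := key g
      by_cases hg : h g = l
      · have hp : h (g * c) ≠ l := fun e => L.ne_lab g (e.trans hg.symm)
        rw [φlo _ _ _ hp, hg, mul_eq_zero, or_iff_right (Lo0 _)] at k0 k2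
        exact two _ k0 k2
      · rw [φlo' _ _ _ hg, mul_eq_zero, or_iff_right (Lo0 _)] at k0 k1
        by_cases hp : h (g * c) = l
        · rw [hp] at k0 k1
          exact two _ k0 k1
        · rw [← mul_one (lo σ _), φlo _ _ _ hp, mul_eq_zero, or_iff_right (Lo0 _), φ1] at k0
          exact ⟨k0, hF1 _ (not_or.2 ⟨hp, hg⟩)⟩
    · have := (key g.1).2.2.2.2
      rw [hs', φ1] at this
      exact ⟨this, hF1 _ id⟩
  exact ⟨funext fun j => (all j).1, funext fun j => (all j).2⟩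

theorem Lev.good [Fintype G] [Finite W] (L : Lev c t n h ζ rep) :
    Good (Dm c t h (fun a => ζ a = 0) rep) := by
  refine ⟨Dm_deg _, Dm_mon L, ?_⟩
  have : Nonempty W := ⟨h 1⟩
  set T := Submodule.span (MvPolynomial W ℤ) (Set.range
    fun (ρ : Rw3 G) (j' : G ⊕ {g // ¬ rep g}) => Dm c t h (fun a => ζ a = 0) rep j' ρ)
  let I : Ideal (MvPolynomial W ℤ) :=
    { carrier := {D | ∀ j, (D • sg j : G ⊕ {g // ¬ rep g} → MvPolynomial W ℤ) ∈ T}
      add_mem' := fun ha hb g => by rw [add_smul]; exact add_mem (ha g) (hb g)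
      zero_mem' := fun g => by rw [zero_smul]; exact zero_mem _
      smul_mem' := fun a b hb g => by rw [smul_assoc]; exact T.smul_mem a (hb g) }
  obtain ⟨r, hr, h0, hn⟩ := exists_homog I fun l => Dm_cut L _ l
  exact ⟨r, h0, hn, hr⟩

end Mat

end TorsW2
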