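import Pool.Agent.Lib.MP_004c47_gt.HomogW2

/-! Cutting along the walls of one label: a homogeneous annihilator. -/

namespace TorsW2

open MvPolynomial

/-- polynomials all of whose monomials have degree less than `n` -/
def Low {σ : Type} (n : ℕ) : AddSubgroup (MvPolynomial σ ℤ) where
  carrier := {p | ∀ α : σ →₀ ℕ, n ≤ α.degree → coeff α p = 0}
  zero_mem' := by intro α _; simp
  add_mem' := by
    intro p q hp hq α hα
    rw [coeff_add, hp α hα, hq α hα, add_zero]
  neg_mem' := by
    intro p hp α hα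
    rw [coeff_neg, hp α hα, neg_zero]

theorem Low.cancel {σ : Type} {n : ℕ} {s : σ} {p : MvPolynomial σ ℤ}
    (h : X s * p ∈ Low (n + 1)) : p ∈ Low n := by
  intro α hα
  have := h (Finsupp.single s 1 + α) (by rw [map_add, Finsupp.degree_single]; omega)
  rwa [coeff_X_mul] at this

theorem Low.mono {σ : Type} {n m : ℕ} {p : MvPolynomial σ ℤ} (h : p ∈ Low n) (hm : n ≤ m) :
    p ∈ Low m := fun α hα => h α (hm.trans hα)

theorem Low.eq_zero {σ : Type} {p : MvPolynomial σ ℤ} (h : p ∈ Low 0) : p = 0 := by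
  ext α
  exact h α (Nat.zero_le _)

theorem Low.exists {σ : Type} (p : MvPolynomial σ ℤ) : p ∈ Low (p.totalDegree + 1) := by
  intro α hα
  apply coeff_eq_zero_of_totalDegree_lt
  rw [Finsupp.degree_apply] at hα
  omega

section Bd

variable {G : Type} [Group G] {R : Type} [CommRing R]

/-- boundary of a two-cell with independent weights on its four corners -/
noncomputable def bd (c t : G) (e : ℕ) (g : G) (β lam rh τ : R) : Row G c → R :=
  β • (sg (rc c g) + sg (rt c (g * c)) - sg (rt c g)) + lam • sg (rt c (g * c * t))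
    - rh • (sg (rt c (g * t * mer c t)) + ∑ i ∈ Finset.range e, sg (rc c (g * t * c ^ i))
      + sg (rm c (g * t)))
    + τ • sg (rc c (g * c * t * t))

theorem bd_comb (c t : G) (e : ℕ) (g : G) (β lam rh τ β' lam' rh' τ' u v : R) (ρ : Row G c) :
    bd c t e g β lam rh τ ρ * u + bd c t e g β' lam' rh' τ' ρ * v =
      bd c t e g (β * u + β' * v) (lam * u + lam' * v) (rh * u + rh' * v) (τ * u + τ' * v) ρ := by
  simp only [bd, Pi.add_apply, Pi.sub_apply, Pi.smul_apply, smul_eq_mul]
  ring

theorem map_sg {X S : Type} [CommRing S] (φ : R →+* S) (x y : X) :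
    φ ((sg x : X → R) y) = (sg x : X → S) y := by
  unfold sg
  split_ifs <;> simp

theorem map_bd {S : Type} [CommRing S] (φ : R →+* S) (c t : G) (e : ℕ) (g : G) (β lam rh τ : R)
    (ρ : Row G c) :
    φ (bd c t e g β lam rh τ ρ) = bd c t e g (φ β) (φ lam) (φ rh) (φ τ) ρ := by
  simp only [bd, Pi.add_apply, Pi.sub_apply, Pi.smul_apply, smul_eq_mul, Finset.sum_apply,
    map_add, map_sub, map_mul, map_sum, map_sg]

omit [Group G] in
theorem sum_sg [Fintype G] {X : Type} (f : G → R) (u : G → X) (y : X) (g₀ : G)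
    (h : ∀ g, y = u g ↔ g = g₀) : ∑ g, f g * (sg (u g) : X → R) y = f g₀ := by
  rw [Finset.sum_eq_single g₀]
  · simp [sg, (h g₀).2 rfl]
  · intro g _ hg
    have : ¬ y = u g := fun hy => hg ((h g).1 hy)
    simp [sg, this]
  · simp

omit [Group G] in
theorem sum_sg_zero [Fintype G] {X : Type} (f : G → R) (u : G → X) (y : X)
    (h : ∀ g, y ≠ u g) : ∑ g, f g * (sg (u g) : X → R) y = 0 := by
  apply Finset.sum_eq_zero
  intro g _
  simp [sg, h g]

theorem bd_expand [Fintype G] (c t : G) (e : ℕ) (β lam rh τ : G → R) (ρ : Row G c) :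
    ∑ g, bd c t e g (β g) (lam g) (rh g) (τ g) ρ =
      ∑ g, β g * sg (rc c g) ρ + ∑ g, β g * sg (rt c (g * c)) ρ - ∑ g, β g * sg (rt c g) ρ
      + ∑ g, lam g * sg (rt c (g * c * t)) ρ
      - (∑ g, rh g * sg (rt c (g * t * mer c t)) ρ
        + ∑ i ∈ Finset.range e, ∑ g, rh g * sg (rc c (g * t * c ^ i)) ρ
        + ∑ g, rh g * sg (rm c (g * t)) ρ)
      + ∑ g, τ g * sg (rc c (g * c * t * t)) ρ := by
  rw [Finset.sum_comm (s := Finset.range e)]
  simp only [bd, Pi.add_apply, Pi.sub_apply, Pi.smul_apply, smul_eq_mul, Finset.sum_apply,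
    ← Finset.sum_add_distrib, ← Finset.sum_sub_distrib, mul_add, mul_sub, Finset.mul_sum]

theorem row_t [Fintype G] (c t : G) (e : ℕ) (β lam rh τ : G → R) (y : G) :
    ∑ g, bd c t e g (β g) (lam g) (rh g) (τ g) (rt c y) =
      β (y * c⁻¹) - β y + lam (y * t⁻¹ * c⁻¹) - rh (y * (mer c t)⁻¹ * t⁻¹) := by
  rw [bd_expand, sum_sg_zero β (fun g => rc c g) _ (by simp [rt, rc]),
    sum_sg β (fun g => rt c (g * c)) _ (y * c⁻¹) (by
      intro g; simp only [rt, Sum.inl.injEq]; constructor <;> (rintro rfl; group)),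
    sum_sg β (fun g => rt c g) _ y (by intro g; simp [rt, eq_comm]),
    sum_sg lam (fun g => rt c (g * c * t)) _ (y * t⁻¹ * c⁻¹) (by
      intro g; simp only [rt, Sum.inl.injEq]; constructor <;> (rintro rfl; group)),
    sum_sg rh (fun g => rt c (g * t * mer c t)) _ (y * (mer c t)⁻¹ * t⁻¹) (by
      intro g; simp only [rt, Sum.inl.injEq]; constructor <;> (rintro rfl; group)),
    Finset.sum_eq_zero (fun i _ => sum_sg_zero rh (fun g => rc c (g * t * c ^ i)) _
      (by simp [rt, rc])),
    sum_sg_zero rh (fun g => rm c (g * t)) _ (by simp [rt, rm]),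
    sum_sg_zero τ (fun g => rc c (g * c * t * t)) _ (by simp [rt, rc])]
  ring

theorem row_c [Fintype G] (c t : G) (e : ℕ) (β lam rh τ : G → R) (y : G) :
    ∑ g, bd c t e g (β g) (lam g) (rh g) (τ g) (rc c y) =
      β y - ∑ i ∈ Finset.range e, rh (y * (c ^ i)⁻¹ * t⁻¹) + τ (y * t⁻¹ * t⁻¹ * c⁻¹) := by
  rw [bd_expand, sum_sg β (fun g => rc c g) _ y (by intro g; simp [rc, eq_comm]),
    sum_sg_zero β (fun g => rt c (g * c)) _ (by simp [rt, rc]),
    sum_sg_zero β (fun g => rt c g) _ (by simp [rt, rc]),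
    sum_sg_zero lam (fun g => rt c (g * c * t)) _ (by simp [rt, rc]),
    sum_sg_zero rh (fun g => rt c (g * t * mer c t)) _ (by simp [rt, rc]),
    Finset.sum_congr rfl (fun i _ => sum_sg rh (fun g => rc c (g * t * c ^ i)) _
      (y * (c ^ i)⁻¹ * t⁻¹) (by
        intro g; simp only [rc, Sum.inr.injEq, Sum.inl.injEq]
        constructor <;> (rintro rfl; group))),
    sum_sg_zero rh (fun g => rm c (g * t)) _ (by simp [rc, rm]),
    sum_sg τ (fun g => rc c (g * c * t * t)) _ (y * t⁻¹ * t⁻¹ * c⁻¹) (by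
      intro g; simp only [rc, Sum.inr.injEq, Sum.inl.injEq]
      constructor <;> (rintro rfl; group))]
  ring

theorem row_m [Fintype G] (c t : G) (e : ℕ) (β lam rh τ : G → R) (y : G) :
    ∑ g, bd c t e g (β g) (lam g) (rh g) (τ g) (rm c y) =
      - ∑ g, rh g * sg (rm c (g * t)) (rm c y) := by
  rw [bd_expand, sum_sg_zero β (fun g => rc c g) _ (by simp [rm, rc]),
    sum_sg_zero β (fun g => rt c (g * c)) _ (by simp [rt, rm]),
    sum_sg_zero β (fun g => rt c g) _ (by simp [rt, rm]),
    sum_sg_zero lam (fun g => rt c (g * c * t)) _ (by simp [rt, rm]),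
    sum_sg_zero rh (fun g => rt c (g * t * mer c t)) _ (by simp [rt, rm]),
    Finset.sum_eq_zero (fun i _ => sum_sg_zero rh (fun g => rc c (g * t * c ^ i)) _
      (by simp [rm, rc])),
    sum_sg_zero τ (fun g => rc c (g * c * t * t)) _ (by simp [rm, rc])]
  ring

end Bd

theorem Level.ne_lab {G W : Type} [Group G] {c t : G} {e : ℕ} {h : G → W} (L : Level c t e h)
    (g : G) : h (g * c) ≠ h g :=
  fun hg => L.ne (L.sep g c (Subgroup.mem_zpowers c) hg)

/-- the cut-open boundary map is injective -/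
theorem cut_inj {G W σ : Type} [Group G] [Fintype G] {c t : G} {e : ℕ} {h : G → W}
    (L : Level c t e h) (l : W) (Z δ : W → MvPolynomial σ ℤ) (hZ : ∀ a, a ≠ l → ∃ s, Z a = X s)
    (hZl : Z l = 0) (hδ : ∀ a, a ≠ l → δ a = 0) (hδl : δ l = 1) (F0 F1 : G → MvPolynomial σ ℤ)
    (hF1 : ∀ g, h (g * c) ≠ l → h g ≠ l → F1 g = 0)
    (hF : ∀ ρ, ∑ g, (bd c t e g 1 (Z (h (g * c))) (Z (h g)) (Z (h (g * c)) * Z (h g)) ρ * F0 g +
      bd c t e g 0 (δ (h (g * c))) (δ (h g))
        (δ (h (g * c)) * Z (h g) + δ (h g) * Z (h (g * c))) ρ * F1 g) = 0) :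
    F0 = 0 ∧ F1 = 0 := by
  classical
  simp only [bd_comb, one_mul, zero_mul, add_zero] at hF
  set lam : G → MvPolynomial σ ℤ := fun g => Z (h (g * c)) * F0 g + δ (h (g * c)) * F1 g with hlam
  set rh : G → MvPolynomial σ ℤ := fun g => Z (h g) * F0 g + δ (h g) * F1 g with hrh
  set τ : G → MvPolynomial σ ℤ := fun g => Z (h (g * c)) * Z (h g) * F0 g +
    (δ (h (g * c)) * Z (h g) + δ (h g) * Z (h (g * c))) * F1 g with hτ
  have Et := fun y => (row_t c t e F0 lam rh τ y).symm.trans (hF (rt c y))
  have Ec := fun y => (row_c c t e F0 lam rh τ y).symm.trans (hF (rc c y))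
  have Em := fun y => (row_m c t e F0 lam rh τ y).symm.trans (hF (rm c y))
  have tb : ∀ g, h g ≠ l → τ g = Z (h g) * lam g := by
    intro g hg; simp only [hτ, hlam, hδ _ hg]; ring
  have ta : ∀ g, h (g * c) ≠ l → τ g = Z (h (g * c)) * rh g := by
    intro g hg; simp only [hτ, hrh, hδ _ hg]; ring
  have rb : ∀ g, h g ≠ l → rh g = Z (h g) * F0 g := by
    intro g hg; simp only [hrh, hδ _ hg]; ring
  have la : ∀ g, h (g * c) ≠ l → lam g = Z (h (g * c)) * F0 g := by
    intro g hg; simp only [hlam, hδ _ hg]; ring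
  have canc : ∀ {a n} {p : MvPolynomial σ ℤ}, a ≠ l → Z a * p ∈ Low (n + 1) → p ∈ Low n := by
    intro a n p ha hp
    obtain ⟨s, hs⟩ := hZ a ha
    rw [hs] at hp
    exact Low.cancel hp
  let V : ℕ → Prop := fun n => ∀ g, τ g ∈ Low n ∧ (h (g * c) = l → rh g ∈ Low n) ∧
    (h g = l → lam g ∈ Low n)
  have d1 : ∀ n, V (n + 1) → ∀ g, h (g * c) ≠ l → rh g ∈ Low n := by
    intro n hV g hg
    exact canc hg (ta g hg ▸ (hV g).1)
  have d2 : ∀ n, V (n + 1) → ∀ g, h g ≠ l → lam g ∈ Low n := by
    intro n hV g hg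
    exact canc hg (tb g hg ▸ (hV g).1)
  have d3 : ∀ n, V (n + 1) → ∀ g, F0 g ∈ Low n := by
    intro n hV g
    by_cases ha : h (g * c) = l
    · have hb : h g ≠ l := fun hb => L.ne_lab g (ha.trans hb.symm)
      exact canc hb (rb g hb ▸ (hV g).2.1 ha)
    · by_cases hb : h g = l
      · exact canc ha (la g ha ▸ (hV g).2.2 hb)
      · exact canc hb (rb g hb ▸ Low.mono (d1 n hV g ha) (Nat.le_succ n))
  have down : ∀ n, V (n + 1) → V n := by
    intro n hV
    have s1 : ∀ g, rh g ∈ Low n := by
      intro g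
      by_cases ha : h (g * c) = l
      · have := Em (g * t)
        rw [neg_eq_zero, ← Finset.add_sum_erase _ _ (Finset.mem_univ g)] at this
        have e1 : rh g = - ∑ x ∈ Finset.univ.erase g, rh x * sg (rm c (x * t)) (rm c (g * t)) := by
          rw [eq_neg_iff_add_eq_zero, ← this]; simp [sg]
        rw [e1]
        refine neg_mem (sum_mem fun x hx => ?_)
        by_cases hv : rm c (g * t) = rm c (x * t)
        · have hx' : h (x * c) ≠ l := by
            intro hxl
            simp only [rm, Sum.inr.injEq, QuotientGroup.eq] at hv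
            have hc : Commute (mer c t) ((g * t)⁻¹ * (x * t)) := by
              obtain ⟨k, hk⟩ := hv
              rw [← hk, L.hM]
              exact ((Commute.refl c).pow_left _).zpow_right _
            have := L.sep (g * t * mer c t) _ hv (by
              rw [mul_assoc (g * t), hc.eq, ← mul_assoc, mul_inv_cancel_left, L.h2, L.h2, ha, hxl])
            rw [inv_mul_eq_one, mul_left_inj] at this
            exact (Finset.mem_erase.1 hx).1 this.symm
          simpa [sg, hv] using d1 n hV x hx'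
        · simp [sg, hv, zero_mem]
      · exact d1 n hV g ha
    have s2 : ∀ g, τ g ∈ Low n := by
      intro g
      have := Ec (g * c * t * t)
      have e1 : τ g = ∑ i ∈ Finset.range e, rh (g * c * t * t * (c ^ i)⁻¹ * t⁻¹)
          - F0 (g * c * t * t) := by
        have e2 : g * c * t * t * t⁻¹ * t⁻¹ * c⁻¹ = g := by group
        rw [e2] at this
        linear_combination this
      rw [e1]
      exact sub_mem (sum_mem fun i _ => s1 _) (d3 n hV _)
    refine fun g => ⟨s2 g, fun _ => s1 g, fun hb => ?_⟩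
    have ha : h (g * c) ≠ l := fun ha => L.ne_lab g (ha.trans hb.symm)
    have := Et (g * c)
    have e2 : g * c * c⁻¹ = g := by group
    rw [e2] at this
    have b1 : h (g * c * t⁻¹ * c⁻¹) = h (g * c) := by
      rw [← L.h1]; congr 1; group
    have b2 : h (g * c * (mer c t)⁻¹ * t⁻¹ * c) = h (g * c) := by
      rw [← L.h2]; congr 1; group
    have e3 : lam g = rh (g * c) - τ (g * c * t⁻¹ * c⁻¹) + τ (g * c * (mer c t)⁻¹ * t⁻¹) := by
      rw [la g ha, rb _ ha, tb _ (b1 ▸ ha), ta _ (b2 ▸ ha), b1, b2]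
      linear_combination (Z (h (g * c))) * this
    rw [e3]
    exact add_mem (sub_mem (s1 _) (s2 _)) (s2 _)
  have all : ∀ n, V n → V 0 := by
    intro n
    induction n with
    | zero => exact id
    | succ n ih => exact fun hV => ih (down n hV)
  have top : V (∑ g, ((τ g).totalDegree + (rh g).totalDegree + (lam g).totalDegree) + 1) := by
    intro g
    have := Finset.single_le_sum
      (f := fun g => (τ g).totalDegree + (rh g).totalDegree + (lam g).totalDegree)
      (fun _ _ => Nat.zero_le _) (Finset.mem_univ g)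
    exact ⟨Low.mono (Low.exists _) (by omega), fun _ => Low.mono (Low.exists _) (by omega),
      fun _ => Low.mono (Low.exists _) (by omega)⟩
  have V0 := all _ top
  have V1 : V 1 := fun g => ⟨Low.mono (V0 g).1 (by omega),
    fun hg => Low.mono ((V0 g).2.1 hg) (by omega), fun hg => Low.mono ((V0 g).2.2 hg) (by omega)⟩
  have z0 : ∀ g, F0 g = 0 := fun g => Low.eq_zero (d3 0 V1 g)
  refine ⟨funext z0, funext fun g => ?_⟩
  by_cases ha : h (g * c) = l
  · have hb : h g ≠ l := fun hb => L.ne_lab g (ha.trans hb.symm)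
    have := Low.eq_zero (d2 0 V1 g hb)
    simpa [hlam, ha, hδl, z0] using this
  · by_cases hb : h g = l
    · have := Low.eq_zero (d1 0 V1 g ha)
      simpa [hrh, hb, hδl, z0] using this
    · exact hF1 g ha hb

theorem exists_ann {G W : Type} [Group G] [Finite G] [Finite W] {c t : G} {e : ℕ} {h : G → W}
    (L : Level c t e h) :
    ∃ r : MvPolynomial W ℤ, r ≠ 0 ∧ (∃ n, r.IsHomogeneous n) ∧ ∀ g : G,
      (r • sg g : G → MvPolynomial W ℤ) ∈ Submodule.span (MvPolynomial W ℤ)
        (Set.range fun (ρ : Row G c) (g' : G) => colP c t e h g' ρ) := by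
  classical
  have := Fintype.ofFinite G
  have : Nonempty W := ⟨h 1⟩
  set T := Submodule.span (MvPolynomial W ℤ)
    (Set.range fun (ρ : Row G c) (g' : G) => colP c t e h g' ρ) with hT
  let I : Ideal (MvPolynomial W ℤ) :=
    { carrier := {D | ∀ g : G, (D • sg g : G → MvPolynomial W ℤ) ∈ T}
      add_mem' := fun ha hb g => by rw [add_smul]; exact add_mem (ha g) (hb g)
      zero_mem' := fun g => by rw [zero_smul]; exact zero_mem _
      smul_mem' := fun a b hb g => by rw [smul_assoc]; exact T.smul_mem a (hb g) }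
  suffices H : ∀ l : W, ∃ p : MvPolynomial {s // s ≠ l} ℤ, p ≠ 0 ∧ rename Subtype.val p ∈ I by
    obtain ⟨r, hr, h0, hn⟩ := exists_homog I H
    exact ⟨r, h0, hn, hr⟩
  intro l
  have := Fintype.ofFinite (Row G c)
  let Z : W → MvPolynomial {s // s ≠ l} ℤ := fun a => if ha : a = l then 0 else X ⟨a, ha⟩
  let δ : W → MvPolynomial {s // s ≠ l} ℤ := fun a => if a = l then 1 else 0
  let A : Row G c ⊕ G → G ⊕ G → MvPolynomial {s // s ≠ l} ℤ := fun i j =>
    match i, j with
    | .inl ρ, .inl g => bd c t e g 1 (Z (h (g * c))) (Z (h g)) (Z (h (g * c)) * Z (h g)) ρ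
    | .inl ρ, .inr g => bd c t e g 0 (δ (h (g * c))) (δ (h g))
        (δ (h (g * c)) * Z (h g) + δ (h g) * Z (h (g * c))) ρ
    | .inr _, .inl _ => 0
    | .inr g', .inr g => if g = g' ∧ h (g * c) ≠ l ∧ h g ≠ l then 1 else 0
  obtain ⟨D, hD, hDs⟩ := exists_left_inv A (by
    intro v hv
    have := cut_inj L l Z δ (fun a ha => ⟨⟨a, ha⟩, by simp [Z, ha]⟩) (by simp [Z])
      (fun a ha => by simp [δ, ha]) (by simp [δ]) (fun g => v (.inl g)) (fun g => v (.inr g))
      (by
        intro g ha hb
        have := hv (.inr g)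
        rw [Fintype.sum_sum_type, Finset.sum_eq_zero (fun _ _ => by simp [A]), zero_add,
          Finset.sum_eq_single g (fun g' _ hg' => by simp [A, hg']) (by simp)] at this
        simpa [A, ha, hb] using this)
      (by
        intro ρ
        have := hv (.inl ρ)
        rw [Fintype.sum_sum_type, ← Finset.sum_add_distrib] at this
        exact this)
    funext j
    cases j with
    | inl g => exact congrFun this.1 g
    | inr g => exact congrFun this.2 g)
  refine ⟨D, hD, fun g => ?_⟩
  let φ : MvPolynomial {s // s ≠ l} ℤ →+* MvPolynomial W ℤ := (rename Subtype.val).toRingHom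
  let J : (G ⊕ G → MvPolynomial {s // s ≠ l} ℤ) → G → MvPolynomial W ℤ := fun u g =>
    φ (u (.inl g)) + X l * φ ((δ (h (g * c)) + δ (h g)) * u (.inr g))
  have key : ∀ u ∈ Submodule.span (MvPolynomial {s // s ≠ l} ℤ) (Set.range A), J u ∈ T := by
    intro u hu
    induction hu using Submodule.span_induction with
    | mem x hx =>
      obtain ⟨i, rfl⟩ := hx
      cases i with
      | inl ρ =>
        refine Submodule.subset_span ⟨ρ, funext fun g => ?_⟩
        have hX : ∀ a, a ≠ l → φ (Z a) = X a := by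
          intro a ha; simp [φ, Z, ha]
        have hcol : colP c t e h g ρ =
            bd c t e g 1 (X (h (g * c))) (X (h g)) (X (h (g * c)) * X (h g)) ρ := by
          simp [colP, bd]
        simp only [J, A, map_mul, map_bd, map_add, map_one, map_zero, hcol]
        rw [← mul_one (bd c t e g 1 (φ _) _ _ ρ), mul_comm (X l), mul_comm _ (bd c t e g 0 _ _ _ ρ),
          mul_assoc, bd_comb]
        by_cases ha : h (g * c) = l
        · have hb : h g ≠ l := fun hb => L.ne_lab g (ha.trans hb.symm)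
          simp [ha, hb, δ, Z, φ, mul_comm]
        · by_cases hb : h g = l
          · simp [ha, hb, δ, Z, φ, mul_comm]
          · simp [ha, hb, hX _ ha, hX _ hb, δ]
      | inr g' =>
        have : J (A (.inr g')) = 0 := by
          funext g
          simp only [J, A, δ, map_zero, zero_add, Pi.zero_apply]
          by_cases ha : h (g * c) = l
          · simp [ha]
          · by_cases hb : h g = l <;> simp [ha, hb]
        rw [this]
        exact zero_mem _
    | zero =>
      have : J 0 = 0 := by funext g; simp [J]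
      rw [this]
      exact zero_mem _
    | add x y _ _ hx hy =>
      have : J (x + y) = J x + J y := by funext g; simp only [J, Pi.add_apply, map_add, map_mul]; ring
      rw [this]
      exact add_mem hx hy
    | smul a x _ hx =>
      have : J (a • x) = φ a • J x := by
        funext g; simp only [J, Pi.smul_apply, smul_eq_mul, map_add, map_mul]; ring
      rw [this]
      exact T.smul_mem _ hx
  have := key _ (hDs (.inl g))
  convert this using 1
  funext g'
  by_cases hg : g' = g <;> simp [J, φ, sg, hg]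

end TorsW2
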