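import Mathlib

/-! Shared definitions for the normal tower with subexponential torsion growth. -/

namespace TorsW2

open MvPolynomial

/-- the second peripheral element `t⁻¹ c t² c t⁻¹` -/
def mer {K : Type*} [Group K] (c t : K) : K := t⁻¹ * c * t * t * c * t⁻¹

theorem map_mer {K L : Type*} [Group K] [Group L] (f : K →* L) (c t : K) :
    f (mer c t) = mer (f c) (f t) := by simp [mer]

/-- `Γ = ⟨c, t | [c, mer c t]⟩`, by its universal property -/
structure Pres (Γ : Type) [Group Γ] (c t : Γ) : Prop where
  gen : Subgroup.closure {c, t} = ⊤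
  comm : c * mer c t = mer c t * c
  lift : ∀ (K : Type) [Group K] (c' t' : K), c' * mer c' t' = mer c' t' * c' →
    ∃ f : Γ →* K, f c = c' ∧ f t = t'

open Classical in
/-- indicator vector of a point -/
noncomputable def sg {X R : Type*} [Zero R] [One R] (x : X) : X → R :=
  fun y => if y = x then 1 else 0

theorem sg_eq_single {X R : Type*} [Zero R] [One R] [DecidableEq X] (x : X) :
    (sg x : X → R) = Pi.single x 1 := by
  funext y
  by_cases h : y = x
  · subst h; simp [sg]
  · simp [sg, h]

/-- the sum norm of an integer vector -/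
def nrm {X : Type*} [Fintype X] (v : X → ℤ) : ℕ := ∑ x, (v x).natAbs

/-- torsion subgroup of the quotient of `X → ℤ` by the span of a family of vectors -/
abbrev torsCoker {J X : Type*} (row : J → X → ℤ) :=
  Submodule.torsion ℤ ((X → ℤ) ⧸ Submodule.span ℤ (Set.range row))

/-- one-cells: `t`-edges, `c`-edges and one extra loop for every coset of `c` -/
abbrev Row (G : Type) [Group G] (c : G) : Type := G ⊕ G ⊕ (G ⧸ Subgroup.zpowers c)

/-- the `t`-edge at `g` -/
def rt {G : Type} [Group G] (c g : G) : Row G c := Sum.inl g

/-- the `c`-edge at `g` -/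
def rc {G : Type} [Group G] (c g : G) : Row G c := Sum.inr (Sum.inl g)

/-- the extra loop at the coset of `g` -/
def rm {G : Type} [Group G] (c g : G) : Row G c :=
  Sum.inr (Sum.inr (g : G ⧸ Subgroup.zpowers c))

/-- finite quotient with wall labels -/
structure Level {G W : Type} [Group G] (c t : G) (e : ℕ) (h : G → W) : Prop where
  hM : mer c t = c ^ e
  h1 : ∀ g, h (g * c * t) = h g
  h2 : ∀ g, h (g * t * mer c t) = h (g * c)
  sep : ∀ g u, u ∈ Subgroup.zpowers c → h (g * u) = h g → u = 1
  ne : c ≠ 1

/-- boundary of the two-cell at `g` over the polynomial ring with one variable per label -/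
noncomputable def colP {G W : Type} [Group G] (c t : G) (e : ℕ) (h : G → W) (g : G) :
    Row G c → MvPolynomial W ℤ :=
  sg (rc c g) + sg (rt c (g * c)) - sg (rt c g)
    + (X (h (g * c)) : MvPolynomial W ℤ) • sg (rt c (g * c * t))
    - (X (h g) : MvPolynomial W ℤ) • (sg (rt c (g * t * mer c t))
      + ∑ i ∈ Finset.range e, sg (rc c (g * t * c ^ i)) + sg (rm c (g * t)))
    + (X (h (g * c)) * X (h g) : MvPolynomial W ℤ) • sg (rc c (g * c * t * t))

/-- boundary of the two-cell at `(x, g)` in the abelian cover with group `A` -/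
noncomputable def colX {G W A : Type} [Group G] [AddCommGroup A] (c t : G) (e : ℕ) (h : G → W)
    (a : W → A) (p : A × G) : A × Row G c → ℤ :=
  sg (p.1, rc c p.2) + sg (p.1, rt c (p.2 * c)) - sg (p.1, rt c p.2)
    + sg (p.1 + a (h (p.2 * c)), rt c (p.2 * c * t))
    - (sg (p.1 + a (h p.2), rt c (p.2 * t * mer c t))
      + ∑ i ∈ Finset.range e, sg (p.1 + a (h p.2), rc c (p.2 * t * c ^ i))
      + sg (p.1 + a (h p.2), rm c (p.2 * t)))
    + sg (p.1 + a (h (p.2 * c)) + a (h p.2), rc c (p.2 * c * t * t))

/-- the label map of the abelian covers that are used -/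
noncomputable def lab {W B : Type} (m k : ℕ) (b : W → B) (l : W) : (W → ZMod m) × ZMod k × B :=
  (sg l, 1, b l)

/-- commuting pairs of reflections (complement of the hexagon) -/
def cm (i j : Fin 6) : Bool :=
  (i, j) ∈ [(0, 2), (0, 3), (0, 4), (1, 3), (1, 4), (1, 5), (2, 4), (2, 5), (3, 5),
    (2, 0), (3, 0), (4, 0), (3, 1), (4, 1), (5, 1), (4, 2), (5, 2), (5, 3)]

/-- the symmetry of the hexagon -/
def sw : Fin 6 → Fin 6 := ![1, 0, 5, 4, 3, 2]

/-- relators of the extended reflection group -/
def wRels : Set (FreeGroup (Option (Fin 6))) :=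
  {r | (∃ a, r = FreeGroup.of a * FreeGroup.of a) ∨
    (∃ i j, cm i j = true ∧ r = FreeGroup.of (some i) * FreeGroup.of (some j) *
      (FreeGroup.of (some j) * FreeGroup.of (some i))⁻¹) ∨
    ∃ i, r = FreeGroup.of none * FreeGroup.of (some i) *
      (FreeGroup.of (some (sw i)) * FreeGroup.of none)⁻¹}

/-- the right-angled reflection group of the triangular bipyramid extended by a half turn -/
abbrev Wh : Type := PresentedGroup wRels

/-- the generators -/
def wl (a : Option (Fin 6)) : Wh := PresentedGroup.of a

theorem wl_sq (a : Option (Fin 6)) : wl a * wl a = 1 :=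
  PresentedGroup.one_of_mem (rels := wRels) (Or.inl ⟨a, rfl⟩)

theorem wl_inv (a : Option (Fin 6)) : (wl a)⁻¹ = wl a := inv_eq_of_mul_eq_one_right (wl_sq a)

theorem wl_comm (i j : Fin 6) (h : cm i j = true) :
    wl (some i) * wl (some j) = wl (some j) * wl (some i) := by
  rw [← mul_inv_eq_one]
  exact PresentedGroup.one_of_mem (rels := wRels) (Or.inr (Or.inl ⟨i, j, h, rfl⟩))

theorem wl_sw (i : Fin 6) : wl none * wl (some i) = wl (some (sw i)) * wl none := by
  rw [← mul_inv_eq_one]
  exact PresentedGroup.one_of_mem (rels := wRels) (Or.inr (Or.inr ⟨i, rfl⟩))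

theorem wlift {K : Type*} [Group K] (f : Option (Fin 6) → K) (h1 : ∀ a, f a * f a = 1)
    (h2 : ∀ i j, cm i j = true → f (some i) * f (some j) = f (some j) * f (some i))
    (h3 : ∀ i, f none * f (some i) = f (some (sw i)) * f none) :
    ∃ φ : Wh →* K, ∀ a, φ (wl a) = f a := by
  refine ⟨PresentedGroup.toGroup (f := f) ?_, fun a => PresentedGroup.toGroup.of _⟩
  rintro r (⟨a, rfl⟩ | ⟨i, j, h, rfl⟩ | ⟨i, rfl⟩)
  · simp [h1]
  · simp only [map_mul, map_inv, FreeGroup.lift_apply_of]
    rw [h2 i j h, mul_inv_cancel]
  · simp only [map_mul, map_inv, FreeGroup.lift_apply_of]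
    rw [h3 i, mul_inv_cancel]

theorem w_induction {p : Wh → Prop} (h1 : p 1) (hm : ∀ a w, p w → p (wl a * w)) (w : Wh) :
    p w := by
  have hw : w ∈ Subgroup.closure (Set.range (PresentedGroup.of : _ → Wh)) := by
    rw [PresentedGroup.closure_range_of]; trivial
  induction hw using Subgroup.closure_induction_left with
  | one => exact h1
  | mul_left x hx y _ ih => obtain ⟨a, rfl⟩ := hx; exact hm a y ih
  | inv_mul_cancel x hx y _ ih =>
    obtain ⟨a, rfl⟩ := hx
    have := hm a y ih
    rwa [← wl_inv] at this

/-- value of a word -/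
def wev (u : List (Option (Fin 6))) : Wh := (u.map wl).prod

theorem wev_append (u v : List (Option (Fin 6))) : wev (u ++ v) = wev u * wev v := by
  simp [wev]

theorem wev_cons (a : Option (Fin 6)) (u : List (Option (Fin 6))) :
    wev (a :: u) = wl a * wev u := by simp [wev]

theorem wev_reverse (u : List (Option (Fin 6))) : wev u.reverse = (wev u)⁻¹ := by
  induction u with
  | nil => simp [wev]
  | cons e u ih =>
    rw [List.reverse_cons, wev_append, ih]
    simp [wev, wl_inv]

/-- cancel a letter against a later occurrence -/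
def wcancel (a : Fin 6) : List (Fin 6) → Option (List (Fin 6))
  | [] => none
  | b :: l => if b = a then some l else if cm a b then (wcancel a l).map (b :: ·) else none

theorem wcancel_spec (a : Fin 6) (l l' : List (Fin 6)) (h : wcancel a l = some l') :
    wev (l'.map some) = wl (some a) * wev (l.map some) := by
  induction l generalizing l' with
  | nil => simp [wcancel] at h
  | cons b l ih =>
    unfold wcancel at h
    split_ifs at h with h1 h2
    · subst h1
      simp only [Option.some.injEq] at h
      subst h
      simp [wev_cons, ← mul_assoc, wl_sq]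
    · obtain ⟨m, hm, rfl⟩ := Option.map_eq_some_iff.1 h
      simp only [List.map_cons, wev_cons]
      rw [ih m hm, ← mul_assoc, ← mul_assoc, wl_comm a b h2]

/-- reduced form of a word: reflections, then possibly the half turn -/
def wnorm : List (Option (Fin 6)) → List (Fin 6) × Bool
  | [] => ([], false)
  | some a :: w => ((wcancel a (wnorm w).1).getD (a :: (wnorm w).1), (wnorm w).2)
  | none :: w => ((wnorm w).1.map sw, !(wnorm w).2)

theorem wl_none_wev (l : List (Fin 6)) :
    wl none * wev (l.map some) = wev ((l.map sw).map some) * wl none := by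
  induction l with
  | nil => simp [wev]
  | cons a l ih =>
    simp only [List.map_cons, wev_cons]
    rw [← mul_assoc, wl_sw, mul_assoc, ih, mul_assoc]

theorem wnorm_spec (w : List (Option (Fin 6))) :
    wev w = wev ((wnorm w).1.map some) * (if (wnorm w).2 then wl none else 1) := by
  induction w with
  | nil => simp [wev, wnorm]
  | cons e w ih =>
    rw [wev_cons, ih]
    cases e with
    | some a =>
      simp only [wnorm]
      rw [← mul_assoc]
      congr 1
      cases hc : wcancel a (wnorm w).1 with
      | none => simp [wev_cons]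
      | some l' => simp [wcancel_spec a _ _ hc]
    | none =>
      simp only [wnorm]
      rw [← mul_assoc, wl_none_wev, mul_assoc]
      by_cases hb : (wnorm w).2 = true <;> simp [hb, wl_sq]

/-- equality of words in `Wh`, to be discharged by `decide` -/
theorem wev_eq (u v : List (Option (Fin 6))) (h : wnorm (u ++ v.reverse) = ([], false)) :
    wev u = wev v := by
  have := wnorm_spec (u ++ v.reverse)
  rw [h, wev_append, wev_reverse] at this
  simpa [wev, mul_inv_eq_one] using this

/-- the translation `(1, 1)` of the base cusp -/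
def wc : Wh := wev [none, some 0, some 4]

/-- the element crossing the base wall -/
def wt : Wh := wev [some 2, some 0, some 1, some 4, none]

/-- the translation `(4, 0)` of the base cusp -/
def wA : Wh := wev [some 1, some 0, some 1, some 0]

/-- the translation `(0, 4)` of the base cusp -/
def wB : Wh := wev [some 3, some 4, some 3, some 4]

theorem mer_w : mer wc wt = wev [some 3, some 4, some 0, some 1] := by
  simp only [mer, wc, wt, ← wev_reverse, ← wev_append]
  apply wev_eq
  decide

theorem wA_eq : wA = wc * wc * (mer wc wt)⁻¹ := by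
  rw [mer_w]
  simp only [wA, wc, ← wev_reverse, ← wev_append]
  apply wev_eq
  decide

theorem wB_eq : wB = wc * wc * mer wc wt := by
  rw [mer_w]
  simp only [wB, wc, ← wev_append]
  apply wev_eq
  decide

theorem wc_comm : wc * mer wc wt = mer wc wt * wc := by
  rw [mer_w]
  simp only [wc, ← wev_append]
  apply wev_eq
  decide

/-- the two cusp translations have orders a power of two and a power of three modulo `N` -/
def PC (N : Subgroup Wh) : Prop := ∃ a b : ℕ, wA ^ (2 ^ a) ∈ N ∧ wB ^ (3 ^ b) ∈ N

theorem PC.inf {N N' : Subgroup Wh} (h : PC N) (h' : PC N') : PC (N ⊓ N') := by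
  obtain ⟨a, b, ha, hb⟩ := h
  obtain ⟨a', b', ha', hb'⟩ := h'
  refine ⟨a + a', b + b', ⟨?_, ?_⟩, ⟨?_, ?_⟩⟩
  · rw [pow_add, pow_mul]; exact pow_mem ha _
  · rw [pow_add, mul_comm, pow_mul]; exact pow_mem ha' _
  · rw [pow_add, pow_mul]; exact pow_mem hb _
  · rw [pow_add, mul_comm, pow_mul]; exact pow_mem hb' _

end TorsW2
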