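import Pool.Agent.Lib.MP_004c47_gt.Tower37

/-! The mapping torus group of the braid `σ₁² σ₂⁻²` and the reflection group of the regular ideal
octahedron. -/

namespace TorsTower37

open SemidirectProduct

section Presented
variable {V : Type} (adj : V → V → Prop)

/-- relators of the right-angled Coxeter group -/
def raRels : Set (FreeGroup V) :=
  {r | (∃ a, r = FreeGroup.of a * FreeGroup.of a) ∨ ∃ a b, adj a b ∧
    r = FreeGroup.of a * FreeGroup.of b * (FreeGroup.of b * FreeGroup.of a)⁻¹}

theorem ra_presented (hs : ∀ a b, adj a b → adj b a) :
    RA (PresentedGroup (raRels adj)) adj PresentedGroup.of where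
  symm := hs
  gen := PresentedGroup.closure_range_of _
  sq := fun a => PresentedGroup.one_of_mem (rels := raRels adj) (Or.inl ⟨a, rfl⟩)
  comm := fun a b h => by
    have := PresentedGroup.one_of_mem (rels := raRels adj) (Or.inr ⟨a, b, h, rfl⟩)
    rw [← mul_inv_eq_one]
    exact this
  lift := by
    intro A _ f h1 h2
    refine ⟨PresentedGroup.toGroup (f := f) ?_, fun a => PresentedGroup.toGroup.of _⟩
    rintro r (⟨a, rfl⟩ | ⟨a, b, h, rfl⟩)
    · simp [h1]
    · simp only [map_mul, map_inv, FreeGroup.lift_apply_of]
      rw [h2 a b h, mul_inv_cancel]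

end Presented

theorem RA.hom_ext {W : Type*} [Group W] {V : Type} {adj : V → V → Prop} {s : V → W}
    (h : RA W adj s) {A : Type*} [Group A] {f g : W →* A} (e : ∀ a, f (s a) = g (s a)) : f = g := by
  ext w
  induction w using h.induction with
  | h1 => simp
  | hm a w ih => rw [map_mul, map_mul, e, ih]

/-- the homomorphism from the group of order two given by an involution -/
def sgnHom {A : Type*} [Group A] (a : A) (h : a * a = 1) : ℤˣ →* A where
  toFun u := if u = 1 then 1 else a
  map_one' := by simp
  map_mul' u v := by
    rcases Int.units_eq_one_or u with rfl | rfl <;> rcases Int.units_eq_one_or v with rfl | rfl <;>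
      simp [h]

theorem sgnHom_neg {A : Type*} [Group A] (a : A) (h : a * a = 1) : sgnHom a h (-1) = a := by
  simp [sgnHom]

/-- adjacency of the faces of the octahedron -/
def adjB (a b : Fin 8) : Bool :=
  (a, b) ∈ [(0, 1), (0, 3), (0, 7), (1, 2), (1, 4), (2, 3), (2, 5), (3, 6), (4, 5), (4, 7), (5, 6),
    (6, 7), (1, 0), (3, 0), (7, 0), (2, 1), (4, 1), (3, 2), (5, 2), (6, 3), (5, 4), (7, 4), (6, 5),
    (7, 6)]

/-- the half turn of the octahedron -/
def oP : Fin 8 → Fin 8 := ![2, 3, 0, 1, 6, 7, 4, 5]

/-- the reflection group -/
abbrev Wo : Type := PresentedGroup (raRels (fun a b => adjB a b = true))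

/-- the reflections -/
abbrev so : Fin 8 → Wo := PresentedGroup.of

theorem raO : RA Wo (fun a b => adjB a b = true) so := ra_presented _ (by decide)

theorem exists_om : ∃ ω : MulAut Wo, (∀ a, ω (so a) = so (oP a)) ∧ ω * ω = 1 := by
  obtain ⟨f, hf⟩ := raO.lift Wo (fun a => so (oP a)) (fun a => raO.sq _)
    (fun a b h => raO.comm _ _ (by revert a b; decide))
  have hff : f.comp f = MonoidHom.id _ := raO.hom_ext (fun a => by
    simp only [MonoidHom.comp_apply, hf, MonoidHom.id_apply]
    congr 1
    revert a; decide)
  refine ⟨MonoidHom.toMulEquiv f f hff hff, hf, ?_⟩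
  ext w
  exact DFunLike.congr_fun hff w

/-- the half turn as an automorphism -/
noncomputable def om : MulAut Wo := exists_om.choose

theorem om_so (a : Fin 8) : om (so a) = so (oP a) := exists_om.choose_spec.1 a

theorem om_sq : om * om = 1 := exists_om.choose_spec.2

/-- the reflection group extended by the half turn -/
abbrev Eo : Type := Wo ⋊[sgnHom om om_sq] ℤˣ

/-- letters of `Eo` -/
noncomputable def eL : Option (Fin 8) → Eo
  | some i => inl (so i)
  | none => inr (-1)

/-- value of a word -/
noncomputable def evE (w : List (Option (Fin 8))) : Eo := (w.map eL).prod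

theorem evE_append (u v : List (Option (Fin 8))) : evE (u ++ v) = evE u * evE v := by
  simp [evE]

theorem eL_sq (e : Option (Fin 8)) : eL e * eL e = 1 := by
  cases e with
  | none => simp [eL, ← map_mul]
  | some i => simp [eL, ← map_mul, raO.sq]

theorem evE_reverse (u : List (Option (Fin 8))) : evE u.reverse = (evE u)⁻¹ := by
  induction u with
  | nil => simp [evE]
  | cons e u ih =>
    rw [List.reverse_cons, evE_append, ih]
    simp [evE, inv_eq_of_mul_eq_one_right (eL_sq e)]

/-- cancel a letter against a later occurrence -/
def cancel (a : Fin 8) : List (Fin 8) → Option (List (Fin 8))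
  | [] => none
  | b :: l => if b = a then some l else if adjB a b then (cancel a l).map (b :: ·) else none

theorem cancel_spec (a : Fin 8) (l l' : List (Fin 8)) (h : cancel a l = some l') :
    (l'.map so).prod = so a * (l.map so).prod := by
  induction l generalizing l' with
  | nil => simp [cancel] at h
  | cons b l ih =>
    unfold cancel at h
    split_ifs at h with h1 h2
    · subst h1
      simp only [Option.some.injEq] at h
      subst h
      simp [← mul_assoc, raO.sq]
    · obtain ⟨m, hm, rfl⟩ := Option.map_eq_some_iff.1 h
      simp only [List.map_cons, List.prod_cons]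
      rw [ih m hm, ← mul_assoc, ← mul_assoc, raO.comm a b h2]

/-- normal form computation in `Eo` -/
def normE : List (Option (Fin 8)) → List (Fin 8) × Bool
  | [] => ([], false)
  | some a :: w => ((cancel a (normE w).1).getD (a :: (normE w).1), (normE w).2)
  | none :: w => ((normE w).1.map oP, !(normE w).2)

theorem normE_spec (w : List (Option (Fin 8))) :
    evE w = inl ((normE w).1.map so).prod * inr (if (normE w).2 then -1 else 1) := by
  induction w with
  | nil => simp [evE, normE]
  | cons e w ih =>
    have : evE (e :: w) = eL e * evE w := by simp [evE]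
    rw [this, ih]
    cases e with
    | some a =>
      simp only [normE, eL]
      rw [← mul_assoc, ← map_mul]
      congr 2
      cases hc : cancel a (normE w).1 with
      | none => simp
      | some l' => simp [cancel_spec a _ _ hc]
    | none =>
      simp only [normE, eL]
      have e1 : (((normE w).1.map oP).map so).prod = om ((normE w).1.map so).prod := by
        rw [map_list_prod, List.map_map, List.map_map]
        congr 2
        funext a
        simp [om_so]
      have e2 : ∀ y, (inl (om y) : Eo) = inr (-1) * inl y * inr (-1)⁻¹ := by
        intro y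
        rw [← inl_aut, sgnHom_neg]
      rw [e1, e2]
      by_cases hb : (normE w).2 = true <;> simp [hb, mul_assoc, ← map_mul]

theorem evE_eq (u v : List (Option (Fin 8))) (h : normE (u ++ v.reverse) = ([], false)) :
    evE u = evE v := by
  have := normE_spec (u ++ v.reverse)
  rw [h, evE_append, evE_reverse] at this
  simpa [mul_inv_eq_one] using this

/-- the free group of rank three -/
abbrev F3 : Type := FreeGroup (Fin 3)

/-- letters of the free group -/
def fL (a : Fin 3 × Bool) : F3 := if a.2 then FreeGroup.of a.1 else (FreeGroup.of a.1)⁻¹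

/-- value of a word -/
def evF (u : List (Fin 3 × Bool)) : F3 := (u.map fL).prod

/-- multiplication by a letter with cancellation -/
def consR (a : Fin 3 × Bool) : List (Fin 3 × Bool) → List (Fin 3 × Bool)
  | [] => [a]
  | b :: u => if b = (a.1, !a.2) then u else a :: b :: u

theorem evF_consR (a : Fin 3 × Bool) (u : List (Fin 3 × Bool)) :
    evF (consR a u) = fL a * evF u := by
  cases u with
  | nil => simp [consR, evF]
  | cons b u =>
    rw [consR]
    split_ifs with h
    · subst h
      obtain ⟨i, c⟩ := a
      cases c <;> simp [evF, fL]
    · simp [evF]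

theorem evF_foldr (v u : List (Fin 3 × Bool)) : evF (v.foldr consR u) = evF v * evF u := by
  induction v with
  | nil => simp [evF]
  | cons a v ih => rw [List.foldr_cons, evF_consR, ih]; simp [evF, mul_assoc]

/-- formal inverse -/
def invW (u : List (Fin 3 × Bool)) : List (Fin 3 × Bool) := (u.map fun a => (a.1, !a.2)).reverse

theorem evF_invW (u : List (Fin 3 × Bool)) : evF (invW u) = (evF u)⁻¹ := by
  induction u with
  | nil => simp [invW, evF]
  | cons a u ih =>
    have : evF (invW (a :: u)) = evF (invW u) * fL (a.1, !a.2) := by simp [invW, evF]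
    rw [this, ih]
    obtain ⟨i, c⟩ := a
    cases c <;> simp [evF, fL]

/-- substitution -/
def subW (f : Fin 3 → List (Fin 3 × Bool)) : List (Fin 3 × Bool) → List (Fin 3 × Bool)
  | [] => []
  | a :: u => (if a.2 then f a.1 else invW (f a.1)).foldr consR (subW f u)

theorem evF_subW (f : Fin 3 → List (Fin 3 × Bool)) (φ : MulAut F3)
    (h : ∀ i, φ (FreeGroup.of i) = evF (f i)) (u : List (Fin 3 × Bool)) :
    evF (subW f u) = φ (evF u) := by
  induction u with
  | nil => simp [subW, evF]
  | cons a u ih =>
    have : evF (a :: u) = fL a * evF u := by simp [evF]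
    rw [subW, evF_foldr, ih, this, map_mul]
    congr 1
    obtain ⟨i, c⟩ := a
    cases c <;> simp [fL, evF_invW, h]

/-- first Artin generator -/
def sig1 : MulAut F3 :=
  MonoidHom.toMulEquiv
    (FreeGroup.lift ![.of 0 * .of 1 * (.of 0)⁻¹, .of 0, .of 2])
    (FreeGroup.lift ![.of 1, (.of 1)⁻¹ * .of 0 * .of 1, .of 2])
    (by ext i; fin_cases i <;> simp [mul_assoc]) (by ext i; fin_cases i <;> simp [mul_assoc])

/-- second Artin generator -/
def sig2 : MulAut F3 :=
  MonoidHom.toMulEquiv
    (FreeGroup.lift ![.of 0, .of 1 * .of 2 * (.of 1)⁻¹, .of 1])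
    (FreeGroup.lift ![.of 0, .of 2, (.of 2)⁻¹ * .of 1 * .of 2])
    (by ext i; fin_cases i <;> simp [mul_assoc]) (by ext i; fin_cases i <;> simp [mul_assoc])

/-- the monodromy -/
def psi : MulAut F3 := sig1 ^ 2 * sig2⁻¹ ^ 2

/-- the cocycle table -/
def tab : Option (Fin 8) → Bool × Bool → List (Option (Fin 3) × Bool)
  | some 0, (false, false) => []
  | some 0, (false, true) => []
  | some 0, (true, false) => []
  | some 0, (true, true) => []
  | some 1, (false, false) => []
  | some 1, (false, true) => []
  | some 1, (true, false) => []
  | some 1, (true, true) => []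
  | some 2, (false, false) => [(some 0, false), (none, false), (some 0, true), (some 1, true)]
  | some 2, (false, true) => [(some 0, false), (none, false), (some 0, true), (some 1, true)]
  | some 2, (true, false) => [(some 0, true), (some 1, false), (some 0, false), (none, true)]
  | some 2, (true, true) => [(some 0, true), (some 1, false), (some 0, false), (none, true)]
  | some 3, (false, false) => [(some 0, false), (some 1, false), (some 0, false), (none, true)]
  | some 3, (false, true) => [(some 0, true), (none, false), (some 0, true), (some 1, true)]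
  | some 3, (true, false) => [(some 0, false), (some 1, false), (some 0, false), (none, true)]
  | some 3, (true, true) => [(some 0, true), (none, false), (some 0, true), (some 1, true)]
  | some 4, (false, false) => [(some 1, true)]
  | some 4, (false, true) => [(some 1, true)]
  | some 4, (true, false) => [(some 1, false)]
  | some 4, (true, true) => [(some 1, false)]
  | some 5, (false, false) => [(some 1, false), (some 0, false), (some 2, false)]
  | some 5, (false, true) => [(some 2, true), (some 0, true), (some 1, true)]
  | some 5, (true, false) => [(some 0, false), (some 2, false), (some 1, false)]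
  | some 5, (true, true) => [(some 1, true), (some 2, true), (some 0, true)]
  | some 6, (false, false) => [(none, false)]
  | some 6, (false, true) => [(some 0, false), (some 1, false), (none, false), (some 0, true), (some 1, true)]
  | some 6, (true, false) => [(none, true)]
  | some 6, (true, true) => [(some 0, false), (some 2, true), (none, true), (some 2, false), (some 0, true)]
  | some 7, (false, false) => [(some 0, false), (some 2, true), (none, true)]
  | some 7, (false, true) => [(none, false), (some 2, false), (some 0, true)]
  | some 7, (true, false) => [(some 0, false), (some 2, true), (none, true)]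
  | some 7, (true, true) => [(none, false), (some 2, false), (some 0, true)]
  | none, (false, false) => [(some 0, false)]
  | none, (false, true) => [(none, false), (some 0, true), (some 1, true)]
  | none, (true, false) => [(some 1, false), (some 0, false), (none, true)]
  | none, (true, true) => [(some 0, true)]

/-- images of the generators under the monodromy -/
def psiW : Fin 3 → List (Fin 3 × Bool)
  | 0 => [(0, true), (1, true), (0, true), (1, false), (0, false)]
  | 1 => [(2, false), (0, true), (1, true), (0, false), (2, true)]
  | 2 => [(2, false), (0, true), (1, false), (0, false), (2, true), (0, true), (1, true), (0, false), (2, true)]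

/-- images of the generators under the inverse monodromy -/
def psiI : Fin 3 → List (Fin 3 × Bool)
  | 0 => [(1, true), (2, true), (1, false), (2, false), (1, false), (0, true), (1, true), (2, true), (1, true), (2, false), (1, false)]
  | 1 => [(1, true), (2, true), (1, false), (2, false), (1, false), (0, false), (1, true), (2, true), (1, true), (2, false), (1, false), (0, true), (1, true), (2, true), (1, true), (2, false), (1, false)]
  | 2 => [(1, true), (2, true), (1, false)]

theorem psi_of (i : Fin 3) : psi (FreeGroup.of i) = evF (psiW i) := by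
  have h1 : ∀ x, sig1 x = FreeGroup.lift ![.of 0 * .of 1 * (.of 0)⁻¹, .of 0, .of 2] x :=
    fun _ => rfl
  have h2 : ∀ x, sig2⁻¹ x = FreeGroup.lift ![.of 0, .of 2, (.of 2)⁻¹ * .of 1 * .of 2] x :=
    fun _ => rfl
  fin_cases i <;> simp only [psi, pow_two, MulAut.mul_apply, h1, h2] <;>
    simp [evF, psiW, fL] <;> group

theorem psi_inv_of (i : Fin 3) : psi⁻¹ (FreeGroup.of i) = evF (psiI i) := by
  rw [MulAut.inv_apply, MulEquiv.symm_apply_eq, ← evF_subW psiW psi psi_of]
  have : subW psiW (psiI i) = [(i, true)] := by revert i; decide
  rw [this]
  simp [evF, fL]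

/-- the fundamental group of the mapping torus -/
abbrev Gm : Type := F3 ⋊[zpowersHom (MulAut F3) psi] Multiplicative ℤ

/-- the stable letter -/
def tG : Gm := inr (Multiplicative.ofAdd 1)

/-- letters of `Gm` -/
def gL : Option (Fin 3) × Bool → Gm
  | (some i, b) => inl (fL (i, b))
  | (none, true) => tG
  | (none, false) => tG⁻¹

/-- value of a word -/
def evG (w : List (Option (Fin 3) × Bool)) : Gm := (w.map gL).prod

theorem evG_append (u v : List (Option (Fin 3) × Bool)) : evG (u ++ v) = evG u * evG v := by
  simp [evG]

/-- normal form computation in `Gm` -/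
def normG : List (Option (Fin 3) × Bool) → List (Fin 3 × Bool) × ℤ
  | [] => ([], 0)
  | (some i, b) :: w => (consR (i, b) (normG w).1, (normG w).2)
  | (none, true) :: w => (subW psiW (normG w).1, (normG w).2 + 1)
  | (none, false) :: w => (subW psiI (normG w).1, (normG w).2 - 1)

theorem tG_conj (x : F3) : tG * inl x = inl (psi x) * tG := by
  have : psi x = zpowersHom (MulAut F3) psi (Multiplicative.ofAdd 1) x := by simp
  rw [this, inl_aut]
  simp [tG]

theorem normG_spec (w : List (Option (Fin 3) × Bool)) :
    evG w = inl (evF (normG w).1) * tG ^ (normG w).2 := by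
  induction w with
  | nil => simp [evG, normG, evF]
  | cons e w ih =>
    have : evG (e :: w) = gL e * evG w := by simp [evG]
    rw [this, ih]
    obtain ⟨e, b⟩ := e
    cases e with
    | some i => simp only [normG, gL, evF_consR, map_mul, mul_assoc]
    | none =>
      cases b
      · simp only [normG, gL, evF_subW psiI psi⁻¹ psi_inv_of]
        have := tG_conj (psi⁻¹ (evF (normG w).1))
        rw [← MulAut.mul_apply, mul_inv_cancel, MulAut.one_apply] at this
        rw [← mul_assoc, show tG⁻¹ * inl (evF (normG w).1) =
          inl (psi⁻¹ (evF (normG w).1)) * tG⁻¹ by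
            rw [inv_mul_eq_iff_eq_mul, ← mul_assoc, this]; group]
        group
      · simp only [normG, gL, evF_subW psiW psi psi_of]
        rw [← mul_assoc, tG_conj]
        group

theorem evG_eq (u v : List (Option (Fin 3) × Bool)) (h : normG u = normG v) : evG u = evG v := by
  rw [normG_spec, normG_spec, h]

/-- generators of `Gm` as words in `Eo` -/
def genE : Option (Fin 3) → List (Option (Fin 8))
  | some 0 => [some 2, some 3, none]
  | some 1 => [some 0, some 4]
  | some 2 => [some 4, some 5, none]
  | none => [some 6, some 0]

/-- translation of words -/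
def trW : List (Option (Fin 3) × Bool) → List (Option (Fin 8))
  | [] => []
  | a :: w => (if a.2 then genE a.1 else (genE a.1).reverse) ++ trW w

/-- the fibre group in `Eo` -/
noncomputable def io0 : F3 →* Eo := FreeGroup.lift fun i => evE (genE (some i))

theorem io0_evF (u : List (Fin 3 × Bool)) :
    io0 (evF u) = evE (trW (u.map fun a => (some a.1, a.2))) := by
  induction u with
  | nil => simp [evF, evE, trW]
  | cons a u ih =>
    have : evF (a :: u) = fL a * evF u := by simp [evF]
    rw [this, map_mul, ih, List.map_cons, trW, evE_append]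
    congr 1
    obtain ⟨i, c⟩ := a
    cases c <;> simp [fL, io0, evE_reverse]

theorem io0_psi (x : F3) : io0 (psi x) = evE (genE none) * io0 x * (evE (genE none))⁻¹ := by
  have : io0.comp psi.toMonoidHom = (MulAut.conj (evE (genE none))).toMonoidHom.comp io0 := by
    apply FreeGroup.ext_hom
    intro i
    show io0 (psi (FreeGroup.of i)) = evE (genE none) * io0 (FreeGroup.of i) * (evE (genE none))⁻¹
    rw [psi_of, io0_evF, io0, FreeGroup.lift_apply_of, ← evE_reverse, ← evE_append, ← evE_append]
    apply evE_eq
    revert i; decide
  exact DFunLike.congr_fun this x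

theorem io0_zpow (k : ℤ) (x : F3) :
    io0 ((psi ^ k) x) = evE (genE none) ^ k * io0 x * (evE (genE none) ^ k)⁻¹ := by
  induction k using Int.induction_on generalizing x with
  | zero => simp
  | succ k ih => rw [zpow_add_one, MulAut.mul_apply, ih, io0_psi]; group
  | pred k ih =>
    rw [zpow_sub_one, MulAut.mul_apply, ih]
    have := io0_psi (psi⁻¹ x)
    rw [← MulAut.mul_apply, mul_inv_cancel, MulAut.one_apply] at this
    rw [this]; group

/-- the embedding of the mapping torus group -/
noncomputable def io : Gm →* Eo :=
  SemidirectProduct.lift io0 (zpowersHom Eo (evE (genE none))) (by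
    intro k
    ext1 i
    exact io0_zpow _ _)

theorem io_gL (a : Option (Fin 3) × Bool) :
    io (gL a) = evE (if a.2 then genE a.1 else (genE a.1).reverse) := by
  obtain ⟨e, b⟩ := a
  cases e <;> cases b <;> simp [gL, io, tG, io0, fL, evE_reverse]

theorem io_evG (w : List (Option (Fin 3) × Bool)) : io (evG w) = evE (trW w) := by
  induction w with
  | nil => simp [evG, evE, trW]
  | cons a w ih =>
    have : evG (a :: w) = gL a * evG w := by simp [evG]
    rw [this, map_mul, ih, trW, evE_append, io_gL]

/-- action of the letters on the four cosets -/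
def mv (e : Option (Fin 8)) (x : Bool × Bool) : Bool × Bool :=
  match e with
  | none => (!x.1, !x.2)
  | some i => if i.val % 2 = 0 then (!x.1, x.2) else (x.1, !x.2)

/-- the induced permutations -/
def piL (e : Option (Fin 8)) : Eqv (Bool × Bool) Gm :=
  cocyc (mv e) (fun x => evG (tab e x)) (by revert e; decide) (by
    intro x
    rw [← evG_append]
    apply evG_eq _ []
    revert e x; decide)

/-- running a word through the table -/
def run : List (Option (Fin 8)) → Bool × Bool → (Bool × Bool) × List (Option (Fin 3) × Bool)
  | [], x => (x, [])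
  | e :: w, x => (mv e (run w x).1, tab e (run w x).1 ++ (run w x).2)

theorem run_spec (w : List (Option (Fin 8))) (x : Bool × Bool) :
    ((w.map piL).prod).1 (x, 1) = ((run w x).1, evG (run w x).2) := by
  induction w with
  | nil => simp [run, evG]
  | cons e w ih =>
    simp only [List.map_cons, List.prod_cons, Subgroup.coe_mul, Equiv.Perm.mul_apply, ih, run,
      evG_append]
    rfl

theorem piL_eq (u v : List (Option (Fin 8)))
    (h : ∀ x, (run u x).1 = (run v x).1 ∧ normG (run u x).2 = normG (run v x).2) :
    (u.map piL).prod = (v.map piL).prod := by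
  apply Eqv.ext'
  intro x
  rw [run_spec, run_spec, (h x).1, evG_eq _ _ (h x).2]

theorem exists_rho : ∃ ρ : Eo →* Eqv (Bool × Bool) Gm, ∀ e, ρ (eL e) = piL e := by
  obtain ⟨f, hf⟩ := raO.lift _ (fun a => piL (some a)) (fun a => cocyc_sq _ _ _ _) (by
    intro a b h
    have := piL_eq [some a, some b] [some b, some a] (by revert a b; decide +kernel)
    simpa using this)
  have hsq : piL none * piL none = 1 := cocyc_sq _ _ _ _
  refine ⟨SemidirectProduct.lift f (sgnHom (piL none) hsq) ?_, ?_⟩
  · intro u
    rcases Int.units_eq_one_or u with rfl | rfl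
    · ext1; simp
    · apply raO.hom_ext
      intro a
      show f (sgnHom om om_sq (-1) (so a)) =
        sgnHom (piL none) hsq (-1) * f (so a) * (sgnHom (piL none) hsq (-1))⁻¹
      rw [sgnHom_neg, sgnHom_neg, om_so, hf, hf, eq_mul_inv_iff_mul_eq]
      have := piL_eq [some (oP a), none] [none, some a] (by revert a; decide)
      simpa using this
  · intro e
    cases e with
    | none => simp [eL, sgnHom_neg]
    | some a => simp [eL, hf]

theorem io_injective : Function.Injective io := by
  obtain ⟨ρ, hρ⟩ := exists_rho
  have hw : ∀ w, ρ (evE w) = (w.map piL).prod := by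
    intro w
    rw [evE, map_list_prod, List.map_map]
    congr 2
    funext e
    exact hρ e
  let S : Subgroup Gm :=
    { carrier := {g | (ρ (io g)).1 ((false, false), 1) = ((false, false), g)}
      one_mem' := by simp
      mul_mem' := by
        intro a b ha hb
        simp only [Set.mem_ofPred_eq, map_mul, Subgroup.coe_mul, Equiv.Perm.mul_apply] at ha hb ⊢
        rw [hb, Eqv.apply, ha]
      inv_mem' := by
        intro a ha
        simp only [Set.mem_ofPred_eq, map_inv, Subgroup.coe_inv] at ha ⊢
        rw [Equiv.Perm.inv_eq_iff_eq, Eqv.apply, ha]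
        simp }
  have gen : ∀ e, gL (e, true) ∈ S := by
    intro e
    show (ρ (io (gL (e, true)))).1 ((false, false), 1) = ((false, false), gL (e, true))
    rw [io_gL, hw, run_spec]
    have : gL (e, true) = evG [(e, true)] := by simp [evG]
    rw [this]
    refine Prod.ext ?_ (evG_eq _ _ ?_)
    · revert e; decide
    · revert e; decide
  have all : ∀ g, g ∈ S := by
    intro g
    rw [← inl_left_mul_inr_right g]
    apply mul_mem
    · induction g.left using FreeGroup.induction_on with
      | C1 => simp
      | of i => simpa [gL, fL] using gen (some i)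
      | inv_of i h => rw [map_inv]; exact inv_mem h
      | mul x y hx hy => rw [map_mul]; exact mul_mem hx hy
    · have : (inr g.right : Gm) = tG ^ (Multiplicative.toAdd g.right) := by
        rw [tG, ← map_zpow (inr : Multiplicative ℤ →* Gm), ← ofAdd_zsmul, smul_eq_mul, mul_one,
          ofAdd_toAdd]
      rw [this]
      exact zpow_mem (gen none) _
  rw [injective_iff_map_eq_one]
  intro g hg
  have : (ρ (io g)).1 ((false, false), 1) = ((false, false), g) := all g
  rw [hg] at this
  simpa using this.symm

/-- coset representatives -/
def repW (x : Bool × Bool) : List (Option (Fin 8)) :=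
  (if x.1 then [some 0] else []) ++ (if x.2 then [some 1] else [])

/-- the colour class of a coset -/
def dec (x : Bool × Bool) : ℤˣ × ℤˣ := (if x.1 then -1 else 1, if x.2 then -1 else 1)

theorem comm_le_range : ⁅(inl : Wo →* Eo).range, (inl : Wo →* Eo).range⁆ ≤ io.range := by
  obtain ⟨col, hcol⟩ := raO.lift (ℤˣ × ℤˣ) (fun a => dec (mv (some a) (false, false)))
    (by decide) (fun _ _ _ => mul_comm _ _)
  have key : ∀ w : Wo, ∃ x g, (inl w : Eo) = evE (repW x) * io g ∧ col w = dec x := by
    intro w
    induction w using raO.induction with
    | h1 => exact ⟨(false, false), 1, by simp [repW, evE], by simp [dec]; rfl⟩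
    | hm a w ih =>
      obtain ⟨x, g, h1, h2⟩ := ih
      refine ⟨mv (some a) x, evG (tab (some a) x) * g, ?_, ?_⟩
      · rw [map_mul, h1, map_mul, io_evG, ← mul_assoc, ← mul_assoc, ← evE_append]
        congr 1
        have : (inl (so a) : Eo) * evE (repW x) = evE (some a :: repW x) := by simp [evE, eL]
        rw [this]
        apply evE_eq
        clear this h1 h2
        revert a x; decide
      · rw [map_mul, hcol, h2]
        clear h1 h2
        revert a x; decide
  rw [MonoidHom.range_eq_map, ← Subgroup.map_commutator]
  rintro _ ⟨w, hw, rfl⟩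
  obtain ⟨x, g, h1, h2⟩ := key w
  have : col w = 1 := Abelianization.commutator_subset_ker col hw
  have hx : x = (false, false) := by
    rw [this] at h2
    clear h1
    revert x; decide
  refine ⟨g, ?_⟩
  rw [h1, hx]
  simp [repW, evE]

theorem main : ∃ Γ : ℕ → Subgroup Gm, (Γ 0).Normal ∧ (∀ n, (Γ n).FiniteIndex) ∧
    (∀ n, Γ (n + 1) ≤ Γ n) ∧ (∀ n, ((Γ (n + 1)).subgroupOf (Γ n)).Normal) ∧ (⨅ n, Γ n) = ⊥ ∧
    Filter.Tendsto (fun n => (Γ n).index) Filter.atTop Filter.atTop ∧
    ∀ n, ∀ a : Abelianization (Γ n), IsOfFinOrder a → a = 1 := by
  have : (inl : Wo →* Eo).range.Normal := by rw [range_inl_eq_ker_rightHom]; infer_instance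
  have : (inl : Wo →* Eo).range.FiniteIndex := by rw [range_inl_eq_ker_rightHom]; infer_instance
  have : Infinite Gm := Infinite.of_injective _ (inr_injective (N := F3))
  obtain ⟨Γ, h0, h1, h2, h3, h4, h5⟩ := tower (H0 := (inl : Wo →* Eo).range)
    ⟨Wo, inferInstance, Fin 8, inferInstance, _, _, raO, inl, inl_injective, rfl⟩
    io io_injective comm_le_range
  exact ⟨Γ, h0, h1, h2, h3, h4, index_tendsto Γ h1 h2 h4, h5⟩

end TorsTower37
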