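import Pool.Agent.Lib.MP_004c47_gt.DefsW2
import Pool.Agent.Lib.MP_004c47_gt.Octa37

/-! Two fibred groups inside the extended reflection group. -/

namespace TorsW2

open TorsTower37 SemidirectProduct

section Torus

/-- the mapping torus group of an automorphism of the free group of rank three -/
abbrev MT (φ : MulAut F3) : Type := F3 ⋊[zpowersHom (MulAut F3) φ] Multiplicative ℤ

variable (φ : MulAut F3)

/-- the stable letter -/
def mtS : MT φ := inr (Multiplicative.ofAdd 1)

/-- letters of the mapping torus group -/
def mtL : Option (Fin 3) × Bool → MT φ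
  | (some i, b) => inl (fL (i, b))
  | (none, true) => mtS φ
  | (none, false) => (mtS φ)⁻¹

/-- value of a word -/
def mtE (w : List (Option (Fin 3) × Bool)) : MT φ := (w.map (mtL φ)).prod

theorem mtE_append (u v : List (Option (Fin 3) × Bool)) :
    mtE φ (u ++ v) = mtE φ u * mtE φ v := by
  simp [mtE]

theorem mtE_single (a : Option (Fin 3) × Bool) : mtE φ [a] = mtL φ a := by simp [mtE]

/-- normal form computation -/
def mtN (pW pI : Fin 3 → List (Fin 3 × Bool)) :
    List (Option (Fin 3) × Bool) → List (Fin 3 × Bool) × ℤ
  | [] => ([], 0)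
  | (some i, b) :: w => (consR (i, b) (mtN pW pI w).1, (mtN pW pI w).2)
  | (none, true) :: w => (subW pW (mtN pW pI w).1, (mtN pW pI w).2 + 1)
  | (none, false) :: w => (subW pI (mtN pW pI w).1, (mtN pW pI w).2 - 1)

theorem mtS_conj (x : F3) : mtS φ * inl x = inl (φ x) * mtS φ := by
  have : φ x = zpowersHom (MulAut F3) φ (Multiplicative.ofAdd 1) x := by simp
  rw [this, inl_aut]
  simp [mtS]

variable {φ} {pW pI : Fin 3 → List (Fin 3 × Bool)}

theorem mtN_spec (hW : ∀ i, φ (FreeGroup.of i) = evF (pW i))
    (hI : ∀ i, φ⁻¹ (FreeGroup.of i) = evF (pI i)) (w : List (Option (Fin 3) × Bool)) :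
    mtE φ w = inl (evF (mtN pW pI w).1) * mtS φ ^ (mtN pW pI w).2 := by
  induction w with
  | nil => simp [mtE, mtN, evF]
  | cons e w ih =>
    have : mtE φ (e :: w) = mtL φ e * mtE φ w := by simp [mtE]
    rw [this, ih]
    obtain ⟨e, b⟩ := e
    cases e with
    | some i => simp only [mtN, mtL, evF_consR, map_mul, mul_assoc]
    | none =>
      cases b
      · simp only [mtN, mtL, evF_subW pI φ⁻¹ hI]
        have := mtS_conj φ (φ⁻¹ (evF (mtN pW pI w).1))
        rw [← MulAut.mul_apply, mul_inv_cancel, MulAut.one_apply] at this
        rw [← mul_assoc, show (mtS φ)⁻¹ * inl (evF (mtN pW pI w).1) =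
          inl (φ⁻¹ (evF (mtN pW pI w).1)) * (mtS φ)⁻¹ by
            rw [inv_mul_eq_iff_eq_mul, ← mul_assoc, this]; group]
        group
      · simp only [mtN, mtL, evF_subW pW φ hW]
        rw [← mul_assoc, mtS_conj]
        group

theorem mtE_eq (hW : ∀ i, φ (FreeGroup.of i) = evF (pW i))
    (hI : ∀ i, φ⁻¹ (FreeGroup.of i) = evF (pI i)) (u v : List (Option (Fin 3) × Bool))
    (h : mtN pW pI u = mtN pW pI v) : mtE φ u = mtE φ v := by
  rw [mtN_spec hW hI, mtN_spec hW hI, h]

theorem mt_lift {K : Type*} [Group K] (f : F3 →* K) (s : K)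
    (h : ∀ i, f (φ (FreeGroup.of i)) = s * f (FreeGroup.of i) * s⁻¹) :
    ∃ j : MT φ →* K, (∀ x, j (inl x) = f x) ∧ j (mtS φ) = s := by
  have h1 : ∀ x, f (φ x) = s * f x * s⁻¹ := by
    have : f.comp φ.toMonoidHom = (MulAut.conj s).toMonoidHom.comp f := by
      apply FreeGroup.ext_hom
      intro i
      exact h i
    exact fun x => DFunLike.congr_fun this x
  have h2 : ∀ (k : ℤ) (x : F3), f ((φ ^ k) x) = s ^ k * f x * (s ^ k)⁻¹ := by
    intro k
    induction k using Int.induction_on with
    | zero => simp
    | succ k ih => intro x; rw [zpow_add_one, MulAut.mul_apply, ih, h1]; group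
    | pred k ih =>
      intro x
      rw [zpow_sub_one, MulAut.mul_apply, ih]
      have := h1 (φ⁻¹ x)
      rw [← MulAut.mul_apply, mul_inv_cancel, MulAut.one_apply] at this
      rw [this]; group
  refine ⟨SemidirectProduct.lift f (zpowersHom K s) (by
    intro k
    ext1 i
    exact h2 _ _), fun x => by simp, by simp [mtS]⟩

theorem mt_top (S : Subgroup (MT φ)) (h : ∀ e, mtL φ (e, true) ∈ S) (g : MT φ) : g ∈ S := by
  rw [← inl_left_mul_inr_right g]
  apply mul_mem
  · induction g.left using FreeGroup.induction_on with
    | C1 => simp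
    | of i => simpa [mtL, fL] using h (some i)
    | inv_of i h => rw [map_inv]; exact inv_mem h
    | mul x y hx hy => rw [map_mul]; exact mul_mem hx hy
  · have : (inr g.right : MT φ) = mtS φ ^ (Multiplicative.toAdd g.right) := by
      rw [mtS, ← map_zpow (inr : Multiplicative ℤ →* MT φ), ← ofAdd_zsmul, smul_eq_mul, mul_one,
        ofAdd_toAdd]
    rw [this]
    exact zpow_mem (h none) _

/-- translation of words -/
def trH (gen : Option (Fin 3) → List (Option (Fin 6))) :
    List (Option (Fin 3) × Bool) → List (Option (Fin 6))
  | [] => []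
  | a :: w => (if a.2 then gen a.1 else (gen a.1).reverse) ++ trH gen w

theorem exists_j (hW : ∀ i, φ (FreeGroup.of i) = evF (pW i))
    (gen : Option (Fin 3) → List (Option (Fin 6)))
    (h1 : ∀ i, wnorm (trH gen ((pW i).map fun a => (some a.1, a.2)) ++
      (gen none ++ gen (some i) ++ (gen none).reverse).reverse) = ([], false)) :
    ∃ j : MT φ →* Wh, ∀ w, j (mtE φ w) = wev (trH gen w) := by
  let f : F3 →* Wh := FreeGroup.lift fun i => wev (gen (some i))
  have hf : ∀ u, f (evF u) = wev (trH gen (u.map fun a => (some a.1, a.2))) := by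
    intro u
    induction u with
    | nil => simp [evF, wev, trH]
    | cons a u ih =>
      have : evF (a :: u) = fL a * evF u := by simp [evF]
      rw [this, map_mul, ih, List.map_cons, trH, wev_append]
      congr 1
      obtain ⟨i, c⟩ := a
      cases c <;> simp [fL, f, wev_reverse]
  obtain ⟨j, hj1, hj2⟩ := mt_lift (φ := φ) f (wev (gen none)) (by
    intro i
    rw [hW, hf]
    simp only [f, FreeGroup.lift_apply_of]
    rw [← wev_reverse, ← wev_append, ← wev_append]
    exact wev_eq _ _ (h1 i))
  refine ⟨j, fun w => ?_⟩
  induction w with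
  | nil => simp [mtE, wev, trH]
  | cons a w ih =>
    have : mtE φ (a :: w) = mtL φ a * mtE φ w := by simp [mtE]
    rw [this, map_mul, ih, trH, wev_append]
    congr 1
    obtain ⟨e, b⟩ := a
    cases e <;> cases b <;> simp [mtL, hj1, hj2, fL, f, wev_reverse]

/-- running a word through a table -/
def runH {X : Type} (mv : Option (Fin 6) → X → X)
    (tab : Option (Fin 6) → X → List (Option (Fin 3) × Bool)) :
    List (Option (Fin 6)) → X → X × List (Option (Fin 3) × Bool)
  | [], x => (x, [])
  | e :: w, x => (mv e (runH mv tab w x).1, tab e (runH mv tab w x).1 ++ (runH mv tab w x).2)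

theorem embed_gen {X : Type} [Finite X] (hW : ∀ i, φ (FreeGroup.of i) = evF (pW i))
    (hI : ∀ i, φ⁻¹ (FreeGroup.of i) = evF (pI i))
    (gen : Option (Fin 3) → List (Option (Fin 6))) (o : X) (rep : X → List (Option (Fin 6)))
    (mv : Option (Fin 6) → X → X) (tab : Option (Fin 6) → X → List (Option (Fin 3) × Bool))
    (h1 : ∀ i, wnorm (trH gen ((pW i).map fun a => (some a.1, a.2)) ++
      (gen none ++ gen (some i) ++ (gen none).reverse).reverse) = ([], false))
    (h2 : ∀ e x, mv e (mv e x) = x)
    (h3 : ∀ e x, mtN pW pI (tab e (mv e x) ++ tab e x) = mtN pW pI [])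
    (h4 : ∀ i k, cm i k = true → ∀ x,
      (runH mv tab [some i, some k] x).1 = (runH mv tab [some k, some i] x).1 ∧
      mtN pW pI (runH mv tab [some i, some k] x).2 = mtN pW pI (runH mv tab [some k, some i] x).2)
    (h5 : ∀ i x,
      (runH mv tab [none, some i] x).1 = (runH mv tab [some (sw i), none] x).1 ∧
      mtN pW pI (runH mv tab [none, some i] x).2 =
        mtN pW pI (runH mv tab [some (sw i), none] x).2)
    (h6 : ∀ e, (runH mv tab (trH gen [(e, true)]) o).1 = o ∧
      mtN pW pI (runH mv tab (trH gen [(e, true)]) o).2 = mtN pW pI [(e, true)])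
    (h7 : rep o = [])
    (h8 : ∀ e x, wnorm (e :: rep x ++ (rep (mv e x) ++ trH gen (tab e x)).reverse) = ([], false))
    (h9 : ∀ x, (runH mv tab [some 1, some 0, some 1, some 0] x).1 = x)
    (h10 : ∀ x, (runH mv tab [some 3, some 4, some 3, some 4] x).1 = x) :
    ∃ j : MT φ →* Wh, (∀ w, j (mtE φ w) = wev (trH gen w)) ∧ Function.Injective j ∧
      ∃ N : Subgroup Wh, N.Normal ∧ N.FiniteIndex ∧ PC N ∧ N ≤ j.range := by
  obtain ⟨j, hj⟩ := exists_j hW gen h1
  let piL : Option (Fin 6) → Eqv X (MT φ) := fun e =>
    cocyc (mv e) (fun x => mtE φ (tab e x)) (h2 e) (by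
      intro x
      rw [← mtE_append]
      exact mtE_eq hW hI _ [] (h3 e x))
  have run_spec : ∀ (w : List (Option (Fin 6))) (x : X), ((w.map piL).prod).1 (x, 1) =
      ((runH mv tab w x).1, mtE φ (runH mv tab w x).2) := by
    intro w x
    induction w with
    | nil => simp [runH, mtE]
    | cons e w ih =>
      simp only [List.map_cons, List.prod_cons, Subgroup.coe_mul, Equiv.Perm.mul_apply, ih, runH,
        mtE_append]
      rfl
  have piL_eq : ∀ u v : List (Option (Fin 6)), (∀ x, (runH mv tab u x).1 = (runH mv tab v x).1 ∧
      mtN pW pI (runH mv tab u x).2 = mtN pW pI (runH mv tab v x).2) →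
      (u.map piL).prod = (v.map piL).prod := by
    intro u v h
    apply Eqv.ext'
    intro x
    rw [run_spec, run_spec, (h x).1, mtE_eq hW hI _ _ (h x).2]
  obtain ⟨ρ, hρ⟩ := wlift piL (fun a => cocyc_sq _ _ _ _)
    (fun i k h => by simpa using piL_eq _ _ (h4 i k h))
    (fun i => by simpa using piL_eq _ _ (h5 i))
  have hw : ∀ w, ρ (wev w) = (w.map piL).prod := by
    intro w
    rw [wev, map_list_prod, List.map_map]
    congr 2
    funext e
    exact hρ e
  refine ⟨j, hj, ?_, ?_⟩
  · let S : Subgroup (MT φ) :=
      { carrier := {g | (ρ (j g)).1 (o, 1) = (o, g)}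
        one_mem' := by simp
        mul_mem' := by
          intro a b ha hb
          simp only [Set.mem_ofPred_eq, map_mul, Subgroup.coe_mul, Equiv.Perm.mul_apply] at ha hb ⊢
          rw [hb, Eqv.apply, ha]
        inv_mem' := by
          intro a ha
          simp only [Set.mem_ofPred_eq, map_inv, Subgroup.coe_inv] at ha ⊢
          rw [Equiv.Perm.inv_eq_iff_eq, Eqv.apply, ha]
          simp }
    have all : ∀ g, g ∈ S := mt_top S (by
      intro e
      show (ρ (j (mtL φ (e, true)))).1 (o, 1) = (o, mtL φ (e, true))
      rw [← mtE_single, hj, hw, run_spec, (h6 e).1, mtE_eq hW hI _ _ (h6 e).2])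
    rw [injective_iff_map_eq_one]
    intro g hg
    have : (ρ (j g)).1 (o, 1) = (o, g) := all g
    rw [hg] at this
    simpa using this.symm
  · let pm : Option (Fin 6) → Equiv.Perm X := fun e => Function.Involutive.toPerm (mv e) (h2 e)
    have pm_run : ∀ (w : List (Option (Fin 6))) (x : X),
        (w.map pm).prod x = (runH mv tab w x).1 := by
      intro w x
      induction w with
      | nil => simp [runH]
      | cons e w ih =>
        simp only [List.map_cons, List.prod_cons, Equiv.Perm.mul_apply, ih, runH]
        rfl
    have pm_eq : ∀ u v : List (Option (Fin 6)),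
        (∀ x, (runH mv tab u x).1 = (runH mv tab v x).1) → (u.map pm).prod = (v.map pm).prod := by
      intro u v h
      apply Equiv.ext
      intro x
      rw [pm_run, pm_run, h x]
    obtain ⟨π, hπ⟩ := wlift pm (fun a => Equiv.ext fun x => h2 a x)
      (fun i k h => by simpa using pm_eq _ _ (fun x => (h4 i k h x).1))
      (fun i => by simpa using pm_eq _ _ (fun x => (h5 i x).1))
    have hπw : ∀ w, π (wev w) = (w.map pm).prod := by
      intro w
      rw [wev, map_list_prod, List.map_map]
      congr 2
      funext e
      exact hπ e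
    have key : ∀ w : Wh, ∃ g, w = wev (rep (π w o)) * j g := by
      intro w
      induction w using w_induction with
      | h1 => exact ⟨1, by simp [h7, wev]⟩
      | hm a w ih =>
        obtain ⟨g, hg⟩ := ih
        refine ⟨mtE φ (tab a (π w o)) * g, ?_⟩
        have e1 : π (wl a * w) o = mv a (π w o) := by
          rw [map_mul, hπ, Equiv.Perm.mul_apply]
          rfl
        rw [e1, map_mul, hj, ← mul_assoc, ← wev_append, ← wev_eq _ _ (h8 a (π w o)), wev_cons,
          mul_assoc, ← hg]
    refine ⟨π.ker, inferInstance, inferInstance, ⟨0, 0, ?_, ?_⟩, ?_⟩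
    · rw [pow_zero, pow_one, MonoidHom.mem_ker, wA, hπw]
      exact Equiv.ext fun x => by rw [pm_run, h9]; rfl
    · rw [pow_zero, pow_one, MonoidHom.mem_ker, wB, hπw]
      exact Equiv.ext fun x => by rw [pm_run, h10]; rfl
    · intro w hw
      obtain ⟨g, hg⟩ := key w
      rw [MonoidHom.mem_ker] at hw
      refine ⟨g, ?_⟩
      rw [hg, hw]
      simp [h7, wev]

end Torus

/-- generators of the first fibred group as words -/
def genWh : Option (Fin 3) → List (Option (Fin 6))
  | some 0 => [some 1, some 3, some 0, some 5, none]
  | some 1 => [some 2, some 1, some 4, some 2, some 1, some 5, none]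
  | some 2 => [some 2, some 0, some 1, some 4, none]
  | none => [some 1, some 3, none]

/-- coset representatives -/
def repWh : Fin 8 → List (Option (Fin 6)) :=
  ![[],
    [some 0],
    [some 1],
    [some 3],
    [some 4],
    [none],
    [some 1, some 0],
    [some 3, some 0]]

/-- action on the cosets -/
def mvWh : Option (Fin 6) → Fin 8 → Fin 8
  | some 0 => ![1, 0, 6, 7, 5, 4, 2, 3]
  | some 1 => ![2, 6, 0, 5, 7, 3, 1, 4]
  | some 2 => ![2, 6, 0, 5, 7, 3, 1, 4]
  | some 3 => ![3, 7, 5, 0, 6, 2, 4, 1]
  | some 4 => ![4, 5, 7, 6, 0, 1, 3, 2]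
  | some 5 => ![1, 0, 6, 7, 5, 4, 2, 3]
  | none => ![5, 3, 4, 1, 2, 0, 7, 6]

/-- cocycle table -/
def tabWh : Option (Fin 6) → Fin 8 → List (Option (Fin 3) × Bool)
  | some 0 => ![[],
      [],
      [(some 2, false), (some 0, false)],
      [],
      [(none, true)],
      [(none, false)],
      [(some 0, true), (some 2, true)],
      []]
  | some 1 => ![[],
      [],
      [],
      [(none, false)],
      [(some 2, false), (some 0, false), (none, true), (none, true)],
      [(none, true)],
      [],
      [(some 0, true), (some 2, true), (none, false), (none, false)]]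
  | some 2 => ![[(none, false), (some 0, true)],
      [(none, false), (some 2, false)],
      [(some 0, false), (none, true)],
      [(some 0, true), (some 1, true), (some 2, true)],
      [(none, true), (some 2, false)],
      [(some 2, false), (some 1, false), (some 0, false)],
      [(some 2, true), (none, true)],
      [(some 2, true), (none, false)]]
  | some 3 => ![[],
      [],
      [(none, false)],
      [],
      [(some 2, false), (some 0, false), (none, true), (none, true)],
      [(none, true)],
      [(some 0, true), (some 2, true), (none, false), (none, false)],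
      []]
  | some 4 => ![[],
      [(none, true)],
      [(some 2, false), (some 0, false), (none, true), (none, true)],
      [(none, false), (none, false)],
      [],
      [(none, false)],
      [(none, true), (none, true)],
      [(some 0, true), (some 2, true), (none, false), (none, false)]]
  | some 5 => ![[(some 2, false), (none, false)],
      [(none, true), (some 2, true)],
      [(some 2, false), (none, false)],
      [(some 2, false), (none, false)],
      [(some 0, false), (none, true), (none, true)],
      [(none, false), (none, false), (some 0, true)],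
      [(none, true), (some 2, true)],
      [(none, true), (some 2, true)]]
  | none => ![[],
      [(none, true)],
      [(none, false)],
      [(none, false)],
      [(none, true)],
      [],
      [(none, true)],
      [(none, false)]]

/-- generators of the second fibred group as words -/
def genGm : Option (Fin 3) → List (Option (Fin 6))
  | some 0 => [some 5, some 4, some 2, some 1]
  | some 1 => [some 4, some 3]
  | some 2 => [some 3, some 5, some 0, some 2]
  | none => [some 2, some 3, some 2, some 4]

/-- coset representatives -/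
def repGm : Fin 16 → List (Option (Fin 6)) :=
  ![[],
    [some 0],
    [some 2],
    [some 3],
    [some 5],
    [none],
    [some 2, some 0],
    [some 3, some 0],
    [some 5, some 0],
    [some 1, none],
    [some 5, none],
    [some 4, none],
    [some 2, none],
    [some 5, some 1, none],
    [some 4, some 1, none],
    [some 2, some 1, none]]

/-- action on the cosets -/
def mvGm : Option (Fin 6) → Fin 16 → Fin 16
  | some 0 => ![1, 0, 6, 7, 8, 9, 2, 3, 4, 5, 13, 14, 15, 10, 11, 12]
  | some 1 => ![1, 0, 6, 7, 8, 9, 2, 3, 4, 5, 13, 14, 15, 10, 11, 12]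
  | some 2 => ![2, 6, 0, 8, 7, 12, 1, 4, 3, 15, 14, 13, 5, 11, 10, 9]
  | some 3 => ![3, 7, 8, 0, 6, 11, 4, 1, 2, 14, 15, 5, 13, 12, 9, 10]
  | some 4 => ![3, 7, 8, 0, 6, 11, 4, 1, 2, 14, 15, 5, 13, 12, 9, 10]
  | some 5 => ![4, 8, 7, 6, 0, 10, 3, 2, 1, 13, 5, 15, 14, 9, 12, 11]
  | none => ![5, 9, 10, 11, 12, 0, 13, 14, 15, 1, 2, 3, 4, 6, 7, 8]

/-- cocycle table -/
def tabGm : Option (Fin 6) → Fin 16 → List (Option (Fin 3) × Bool)
  | some 0 => ![[],
      [],
      [],
      [],
      [(some 1, false), (none, false), (some 2, false), (some 2, false)],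
      [(none, false), (some 2, false), (some 0, true)],
      [],
      [],
      [(some 2, true), (some 2, true), (none, true), (some 1, true)],
      [(some 0, false), (some 2, true), (none, true)],
      [(some 2, false), (some 1, false), (some 0, false)],
      [(none, false), (some 2, false), (some 0, true)],
      [(none, false), (some 2, false), (some 0, true)],
      [(some 0, true), (some 1, true), (some 2, true)],
      [(some 0, false), (some 2, true), (none, true)],
      [(some 0, false), (some 2, true), (none, true)]]
  | some 1 => ![[(none, false), (some 2, false), (some 0, true)],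
      [(some 0, false), (some 2, true), (none, true)],
      [(some 2, false), (some 1, false), (some 0, false)],
      [(none, false), (some 2, false), (some 0, true)],
      [(none, false), (some 2, false), (some 0, true)],
      [],
      [(some 0, true), (some 1, true), (some 2, true)],
      [(some 0, false), (some 2, true), (none, true)],
      [(some 0, false), (some 2, true), (none, true)],
      [],
      [],
      [],
      [(some 1, false), (none, false), (some 2, false), (some 2, false)],
      [],
      [],
      [(some 2, true), (some 2, true), (none, true), (some 1, true)]]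
  | some 2 => ![[],
      [],
      [],
      [(some 2, false)],
      [(some 1, false), (none, false), (some 2, false)],
      [],
      [],
      [(some 2, true), (none, true), (some 1, true)],
      [(some 2, true)],
      [],
      [(some 1, false), (none, false), (some 2, false)],
      [(some 2, false)],
      [],
      [(some 2, true)],
      [(some 2, true), (none, true), (some 1, true)],
      []]
  | some 3 => ![[],
      [],
      [(some 1, false), (none, false), (some 2, false)],
      [],
      [(some 2, false)],
      [(some 1, false)],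
      [(some 2, true)],
      [],
      [(some 2, true), (none, true), (some 1, true)],
      [(some 1, false)],
      [(some 2, false), (some 1, false)],
      [(some 1, true)],
      [(none, false), (some 2, false)],
      [(some 2, true), (none, true)],
      [(some 1, true)],
      [(some 1, true), (some 2, true)]]
  | some 4 => ![[(some 1, false)],
      [(some 1, false)],
      [(some 2, false), (some 1, false)],
      [(some 1, true)],
      [(none, false), (some 2, false)],
      [],
      [(some 2, true), (none, true)],
      [(some 1, true)],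
      [(some 1, true), (some 2, true)],
      [],
      [(some 1, false), (none, false), (some 2, false)],
      [],
      [(some 2, false)],
      [(some 2, true)],
      [],
      [(some 2, true), (none, true), (some 1, true)]]
  | some 5 => ![[],
      [],
      [(some 1, false), (none, false), (some 2, false)],
      [(some 2, false)],
      [],
      [],
      [(some 2, true)],
      [(some 2, true), (none, true), (some 1, true)],
      [],
      [],
      [],
      [(some 2, false)],
      [(some 1, false), (none, false), (some 2, false)],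
      [],
      [(some 2, true), (none, true), (some 1, true)],
      [(some 2, true)]]
  | none => ![[],
      [],
      [],
      [],
      [],
      [],
      [],
      [],
      [],
      [],
      [],
      [],
      [],
      [],
      [],
      []]

/-- images of the generators under the monodromy of the Whitehead link -/
def whW : Fin 3 → List (Fin 3 × Bool)
  | 0 => [(0, true), (1, false), (0, false)]
  | 1 => [(0, true), (1, true), (0, true), (1, true), (2, true)]
  | 2 => [(0, true), (1, true), (2, true)]

/-- images of the generators under the inverse monodromy -/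
def whI : Fin 3 → List (Fin 3 × Bool)
  | 0 => [(0, true), (1, true), (2, false)]
  | 1 => [(2, true), (1, false), (0, false), (1, true), (2, false)]
  | 2 => [(2, true), (1, false), (2, true)]

/-- the monodromy of the Whitehead link -/
def whPsi : MulAut F3 :=
  MonoidHom.toMulEquiv (FreeGroup.lift fun i => evF (whW i)) (FreeGroup.lift fun i => evF (whI i))
    (by ext i; fin_cases i <;> simp [whW, whI, evF, fL, mul_assoc])
    (by ext i; fin_cases i <;> simp [whW, whI, evF, fL, mul_assoc])

theorem whPsi_of (i : Fin 3) : whPsi (FreeGroup.of i) = evF (whW i) :=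
  FreeGroup.lift_apply_of

theorem whPsi_inv_of (i : Fin 3) : whPsi⁻¹ (FreeGroup.of i) = evF (whI i) :=
  FreeGroup.lift_apply_of

theorem wh_pres : Pres (MT whPsi) (mtS whPsi) (inl (FreeGroup.of 2)) := by
  have hc : mtS whPsi = mtE whPsi [(none, true)] := by simp [mtE, mtL]
  have hc' : (mtS whPsi)⁻¹ = mtE whPsi [(none, false)] := by simp [mtE, mtL]
  have ht : (inl (FreeGroup.of 2) : MT whPsi) = mtE whPsi [(some 2, true)] := by
    simp [mtE, mtL, fL]
  have ht' : (inl (FreeGroup.of 2) : MT whPsi)⁻¹ = mtE whPsi [(some 2, false)] := by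
    simp [mtE, mtL, fL]
  refine ⟨?_, ?_, ?_⟩
  · rw [eq_top_iff]
    intro g _
    have mc : mtS whPsi ∈ Subgroup.closure {mtS whPsi, inl (FreeGroup.of 2)} :=
      Subgroup.subset_closure (by simp)
    have mt : (inl (FreeGroup.of 2) : MT whPsi) ∈
        Subgroup.closure {mtS whPsi, inl (FreeGroup.of 2)} :=
      Subgroup.subset_closure (by simp)
    have mw : ∀ w : List (Option (Fin 3) × Bool), (∀ a ∈ w, a.1 = none ∨ a.1 = some 2) →
        mtE whPsi w ∈ Subgroup.closure {mtS whPsi, inl (FreeGroup.of 2)} := by
      intro w hw
      refine Subgroup.list_prod_mem _ ?_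
      intro y hy
      obtain ⟨⟨e, b⟩, ha, rfl⟩ := List.mem_map.1 hy
      rcases hw _ ha with h | h <;> simp only at h <;> subst h <;> cases b
      · exact inv_mem mc
      · exact mc
      · simpa [mtL, fL] using mt
      · simpa [mtL, fL] using mt
    apply mt_top
    intro e
    rw [← mtE_single]
    rcases e with _ | e
    · exact mw _ (by simp)
    · fin_cases e
      · rw [mtE_eq whPsi_of whPsi_inv_of _ [(none, true), (none, true), (some 2, true),
          (none, false), (some 2, false), (some 2, false), (none, false)] (by decide)]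
        exact mw _ (by simp)
      · rw [mtE_eq whPsi_of whPsi_inv_of _ [(none, true), (some 2, true), (some 2, true),
          (none, true), (some 2, false), (none, false), (some 2, true), (none, false),
          (some 2, false)] (by decide)]
        exact mw _ (by simp)
      · exact mw _ (by simp)
  · rw [mer, ht', ht, hc]
    simp only [← mtE_append]
    exact mtE_eq whPsi_of whPsi_inv_of _ _ (by decide)
  · intro K _ c t h
    have hr : c * (c * c * t * c⁻¹ * t⁻¹ * t⁻¹ * c⁻¹) * c⁻¹ =
        c * c * t * c⁻¹ * t⁻¹ * t⁻¹ * c⁻¹ * t * (c * t⁻¹ * c⁻¹) := by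
      have h1 : c * mer c t * c⁻¹ = mer c t := by rw [h]; group
      have h2 : c * (c * c * t * c⁻¹ * t⁻¹ * t⁻¹ * c⁻¹) * c⁻¹ =
          c * c * (c * mer c t * c⁻¹)⁻¹ * (c * t⁻¹ * c⁻¹) := by
        rw [mer]; group
      rw [h2, h1, mer]; group
    obtain ⟨j, hj1, hj2⟩ := mt_lift (φ := whPsi) (FreeGroup.lift
      ![c * c * t * c⁻¹ * t⁻¹ * t⁻¹ * c⁻¹,
        (c * c * t * c⁻¹ * t⁻¹ * t⁻¹ * c⁻¹)⁻¹ * (c * t * c⁻¹) * t⁻¹, t]) c (by
      intro i
      rw [whPsi_of]
      fin_cases i
      · simp only [whW, evF, fL, List.map_cons, List.map_nil, List.prod_cons, List.prod_nil]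
        simp only [Fin.zero_eta, if_true, Bool.false_eq_true, if_false, map_mul, map_inv, map_one,
          FreeGroup.lift_apply_of, Matrix.cons_val_zero, Matrix.cons_val_one]
        rw [hr]; group
      · simp only [whW, evF, fL, List.map_cons, List.map_nil, List.prod_cons, List.prod_nil]
        simp only [Fin.mk_one, if_true, map_mul, map_one,
          FreeGroup.lift_apply_of, Matrix.cons_val_zero, Matrix.cons_val_one, Matrix.cons_val]
        have e : c * ((c * c * t * c⁻¹ * t⁻¹ * t⁻¹ * c⁻¹)⁻¹ * (c * t * c⁻¹) * t⁻¹) * c⁻¹ =
            (c * (c * c * t * c⁻¹ * t⁻¹ * t⁻¹ * c⁻¹) * c⁻¹)⁻¹ * (c * c * t * c⁻¹ * t⁻¹ * c⁻¹) := by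
          simp [mul_assoc]
        rw [e, hr]; simp [mul_assoc]
      · simp only [whW, evF, fL, List.map_cons, List.map_nil, List.prod_cons, List.prod_nil]
        simp only [Fin.reduceFinMk, if_true, map_mul, map_one,
          FreeGroup.lift_apply_of, Matrix.cons_val_zero, Matrix.cons_val_one, Matrix.cons_val]
        group)
    exact ⟨j, hj2, by rw [hj1]; simp⟩

theorem embed_wh : ∃ (Γ : Type) (_ : Group Γ) (c t : Γ) (j : Γ →* Wh), Pres Γ c t ∧
    Function.Injective j ∧ j c = wc ∧ j t = wt ∧
    ∃ N : Subgroup Wh, N.Normal ∧ N.FiniteIndex ∧ PC N ∧ N ≤ j.range := by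
  obtain ⟨j, h1, h2, h3⟩ := embed_gen whPsi_of whPsi_inv_of genWh 0 repWh mvWh tabWh
    (by decide +kernel) (by decide +kernel) (by decide +kernel) (by decide +kernel)
    (by decide +kernel) (by decide +kernel) rfl (by decide +kernel) (by decide +kernel)
    (by decide +kernel)
  refine ⟨MT whPsi, inferInstance, mtS whPsi, inl (FreeGroup.of 2), j, wh_pres, h2, ?_, ?_, h3⟩
  · have hc : mtS whPsi = mtE whPsi [(none, true)] := by simp [mtE, mtL]
    rw [hc, h1, wc]
    exact wev_eq _ _ (by decide)
  · have ht : (inl (FreeGroup.of 2) : MT whPsi) = mtE whPsi [(some 2, true)] := by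
      simp [mtE, mtL, fL]
    rw [ht, h1, wt]
    exact wev_eq _ _ (by decide)

theorem embed_gm : ∃ j : TorsTower37.Gm →* Wh, Function.Injective j ∧
    ∃ N : Subgroup Wh, N.Normal ∧ N.FiniteIndex ∧ PC N ∧ N ≤ j.range := by
  obtain ⟨j, -, h2, h3⟩ := embed_gen psi_of psi_inv_of genGm 0 repGm mvGm tabGm
    (by decide +kernel) (by decide +kernel) (by decide +kernel) (by decide +kernel)
    (by decide +kernel) (by decide +kernel) rfl (by decide +kernel) (by decide +kernel)
    (by decide +kernel)
  exact ⟨j, h2, h3⟩

end TorsW2
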