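import Mathlib

/-! Commuting elements of `SL₂(ℤ[i])`: a free abelian subgroup of rank two is parabolic. -/

namespace TorsW2

/-- matrices of determinant one over the Gaussian integers -/
@[ext] structure S2 where
  a : GaussianInt
  b : GaussianInt
  c : GaussianInt
  d : GaussianInt
  det : a * d - b * c = 1

namespace S2

instance : DecidableEq S2 := fun M N =>
  decidable_of_iff (M.a = N.a ∧ M.b = N.b ∧ M.c = N.c ∧ M.d = N.d) S2.ext_iff.symm

instance : Mul S2 := ⟨fun M N => ⟨M.a * N.a + M.b * N.c, M.a * N.b + M.b * N.d,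
  M.c * N.a + M.d * N.c, M.c * N.b + M.d * N.d, by
    linear_combination (N.a * N.d - N.b * N.c) * M.det + N.det⟩⟩

instance : One S2 := ⟨⟨1, 0, 0, 1, by simp⟩⟩

instance : Inv S2 := ⟨fun M => ⟨M.d, -M.b, -M.c, M.a, by linear_combination M.det⟩⟩

@[simp] theorem mul_a (M N : S2) : (M * N).a = M.a * N.a + M.b * N.c := rfl
@[simp] theorem mul_b (M N : S2) : (M * N).b = M.a * N.b + M.b * N.d := rfl
@[simp] theorem mul_c (M N : S2) : (M * N).c = M.c * N.a + M.d * N.c := rfl
@[simp] theorem mul_d (M N : S2) : (M * N).d = M.c * N.b + M.d * N.d := rfl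
@[simp] theorem one_a : (1 : S2).a = 1 := rfl
@[simp] theorem one_b : (1 : S2).b = 0 := rfl
@[simp] theorem one_c : (1 : S2).c = 0 := rfl
@[simp] theorem one_d : (1 : S2).d = 1 := rfl
@[simp] theorem inv_a (M : S2) : M⁻¹.a = M.d := rfl
@[simp] theorem inv_b (M : S2) : M⁻¹.b = -M.b := rfl
@[simp] theorem inv_c (M : S2) : M⁻¹.c = -M.c := rfl
@[simp] theorem inv_d (M : S2) : M⁻¹.d = M.a := rfl

instance : Group S2 := Group.ofLeftAxioms
  (fun M N P => by ext1 <;> simp <;> ring)
  (fun M => by ext1 <;> simp)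
  (fun M => by
    ext1 <;> simp
    · linear_combination M.det
    · ring
    · ring
    · linear_combination M.det)

/-- action on column vectors over a ring receiving the Gaussian integers -/
def app {R : Type} [CommRing R] (φ : GaussianInt →+* R) (M : S2) (e : R × R) : R × R :=
  (φ M.a * e.1 + φ M.b * e.2, φ M.c * e.1 + φ M.d * e.2)

theorem app_mul {R : Type} [CommRing R] (φ : GaussianInt →+* R) (M N : S2) (e : R × R) :
    app φ (M * N) e = app φ M (app φ N e) := by
  simp only [app, mul_a, mul_b, mul_c, mul_d, map_add, map_mul]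
  ext1 <;> ring

theorem app_one {R : Type} [CommRing R] (φ : GaussianInt →+* R) (e : R × R) :
    app φ 1 e = e := by simp [app]

theorem app_smul {R : Type} [CommRing R] (φ : GaussianInt →+* R) (M : S2) (z : R) (e : R × R) :
    app φ M (z • e) = z • app φ M e := by
  simp only [app, Prod.smul_mk, Prod.smul_fst, Prod.smul_snd, smul_eq_mul]
  ext1 <;> ring

theorem char_eq {M : S2} {e : ℂ × ℂ} (he : e ≠ 0) {ν : ℂ}
    (h : app GaussianInt.toComplex M e = ν • e) :
    ν * ν - GaussianInt.toComplex (M.a + M.d) * ν + 1 = 0 := by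
  have hd := congrArg GaussianInt.toComplex M.det
  simp only [map_sub, map_mul, map_one] at hd
  simp only [app, Prod.ext_iff, Prod.smul_fst, Prod.smul_snd, smul_eq_mul] at h
  rw [map_add]
  by_contra hne
  apply he
  ext1
  · apply mul_left_cancel₀ hne
    rw [Prod.fst_zero]
    linear_combination (GaussianInt.toComplex M.d - ν) * h.1 - GaussianInt.toComplex M.b * h.2 -
      e.1 * hd
  · apply mul_left_cancel₀ hne
    rw [Prod.snd_zero]
    linear_combination (GaussianInt.toComplex M.a - ν) * h.2 - GaussianInt.toComplex M.c * h.1 -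
      e.2 * hd

theorem eq_one_of_comm {X M : S2} (hX : (X.a + X.d) ^ 2 ≠ 4) (hc : X * M = M * X)
    (hM : M.a + M.d = 2) : M = 1 := by
  have ha := congrArg S2.a hc
  have hb := congrArg S2.b hc
  have hcc := congrArg S2.c hc
  simp only [mul_a, mul_b, mul_c] at ha hb hcc
  have dX : (X.a + X.d) ^ 2 - 4 ≠ 0 := sub_ne_zero.2 hX
  have hd : M.d = 2 - M.a := by linear_combination hM
  have det := M.det
  have b0 : M.b = 0 := by
    have : ((X.a + X.d) ^ 2 - 4) * M.b ^ 2 = 0 := by
      rw [hd] at hb det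
      linear_combination 4 * M.b ^ 2 * X.det +
        ((X.a - X.d) * M.b + X.b * (2 * M.a - 2)) * hb - 4 * X.b ^ 2 * det - 4 * X.b * M.b * ha
    simpa [dX] using this
  have c0 : M.c = 0 := by
    have : ((X.a + X.d) ^ 2 - 4) * M.c ^ 2 = 0 := by
      rw [hd] at hcc det
      linear_combination 4 * M.c ^ 2 * X.det -
        ((X.a - X.d) * M.c + X.c * (2 * M.a - 2)) * hcc - 4 * X.c ^ 2 * det + 4 * X.c * M.c * ha
    simpa [dX] using this
  have a1 : M.a = 1 := by
    have : (M.a - 1) ^ 2 = 0 := by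
      rw [hd, b0] at det
      linear_combination -det
    simpa [sub_eq_zero] using this
  ext1 <;> simp [b0, c0, a1, hd]
  norm_num

theorem exists_eigen {X H : S2} (hX : (X.a + X.d) ^ 2 ≠ 4) (hc : X * H = H * X) :
    ∃ (e : ℂ × ℂ) (l μ : ℂ), e ≠ 0 ∧ app GaussianInt.toComplex X e = l • e ∧
      app GaussianInt.toComplex H e = μ • e := by
  set φ := GaussianInt.toComplex with hφ
  have hd := congrArg φ X.det
  simp only [map_sub, map_mul, map_one] at hd
  obtain ⟨s, hs⟩ := IsAlgClosed.exists_eq_mul_self ((φ X.a + φ X.d) ^ 2 - 4)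
  have hs0 : s ≠ 0 := by
    rintro rfl
    apply hX
    apply GaussianInt.toComplex_injective
    rw [map_pow, map_add, map_ofNat]
    linear_combination hs
  set l := (φ X.a + φ X.d + s) / 2 with hl
  have hq : (l - φ X.a) * (l - φ X.d) = φ X.b * φ X.c := by
    rw [hl]; linear_combination (-1 / 4 : ℂ) * hs + hd
  have hex : ∃ e : ℂ × ℂ, e ≠ 0 ∧ app φ X e = l • e := by
    by_cases h : ((φ X.b, l - φ X.a) : ℂ × ℂ) = 0
    · refine ⟨(l - φ X.d, φ X.c), fun h' => hs0 ?_, ?_⟩
      · simp only [Prod.mk_eq_zero] at h h'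
        linear_combination h.2 + h'.1 - 2 * hl
      · simp only [app, Prod.smul_mk, smul_eq_mul]
        ext1
        · linear_combination -hq
        · ring
    · refine ⟨_, h, ?_⟩
      simp only [app, Prod.smul_mk, smul_eq_mul]
      ext1
      · ring
      · linear_combination -hq
  obtain ⟨e, he, h1⟩ := hex
  have h2 : app φ X (app φ H e) = l • app φ H e := by rw [← app_mul, hc, app_mul, h1, app_smul]
  set f := app φ H e with hf
  have hdet : e.1 * f.2 - e.2 * f.1 = 0 := by
    simp only [app, Prod.ext_iff, Prod.smul_fst, Prod.smul_snd, smul_eq_mul] at h1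
    have h3 : φ X.a * f.1 + φ X.b * f.2 = l * f.1 := congrArg Prod.fst h2
    have h4 : φ X.c * f.1 + φ X.d * f.2 = l * f.2 := congrArg Prod.snd h2
    apply mul_left_cancel₀ hs0
    linear_combination e.2 * h3 - f.2 * h1.1 + f.1 * h1.2 - e.1 * h4 -
      2 * (e.1 * f.2 - e.2 * f.1) * hl
  refine ⟨e, l, if e.1 = 0 then f.2 / e.2 else f.1 / e.1, he, h1, ?_⟩
  rw [← hf]
  clear_value f
  split_ifs with h0
  · have h3 : e.2 ≠ 0 := fun h => he (Prod.ext h0 h)
    ext1
    · rw [h0, zero_mul, zero_sub, neg_eq_zero, mul_eq_zero] at hdet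
      simp [h0, hdet.resolve_left h3]
    · simp [h3]
  · ext1
    · simp [h0]
    · simp only [Prod.smul_snd, smul_eq_mul]
      field_simp
      linear_combination hdet

theorem finite_small : {z : GaussianInt | ‖GaussianInt.toComplex z‖ ≤ 6}.Finite := by
  refine Set.Finite.subset (Set.Finite.image (fun p : ℤ × ℤ => (⟨p.1, p.2⟩ : GaussianInt))
    ((Set.finite_Icc (-6) 6).prod (Set.finite_Icc (-6) 6))) fun z hz => ?_
  have h1 := (Complex.abs_re_le_norm _).trans hz
  have h2 := (Complex.abs_im_le_norm _).trans hz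
  rw [← GaussianInt.intCast_re, abs_le] at h1
  rw [← GaussianInt.intCast_im, abs_le] at h2
  refine ⟨(z.re, z.im), ⟨⟨?_, ?_⟩, ⟨?_, ?_⟩⟩, rfl⟩
  · exact_mod_cast h1.1
  · exact_mod_cast h1.2
  · exact_mod_cast h2.1
  · exact_mod_cast h2.2

theorem infinite_small (α β : ℝ) : {z : ℤ × ℤ | |z.1 * α + z.2 * β| ≤ 1}.Infinite := by
  by_cases hα : α = 0
  · refine Set.infinite_of_injective_forall_mem (f := fun n : ℤ => (n, 0))
      (fun a b h => congrArg Prod.fst h) fun n => by simp [hα]
  · intro hfin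
    obtain ⟨N, hN⟩ := (hfin.image Prod.snd).bddAbove
    obtain ⟨n, hn⟩ := exists_nat_gt ((|(N : ℝ)| + 1) * |α|)
    obtain ⟨j, k, hk, -, h⟩ := Real.exists_int_int_abs_mul_sub_le (β / α) n.succ_pos
    have := hN ⟨((|N| + 1) * -j, (|N| + 1) * k), by
      have e : (((|N| + 1) * -j : ℤ) : ℝ) * α + (((|N| + 1) * k : ℤ) : ℝ) * β =
          (|(N : ℝ)| + 1) * α * (k * (β / α) - j) := by
        push_cast; field_simp; ring
      rw [Set.mem_ofPred_eq, e, abs_mul, abs_mul, abs_of_pos (a := |(N : ℝ)| + 1) (by positivity)]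
      calc _ ≤ (n : ℝ) * (1 / ((n.succ : ℕ) + 1)) := by gcongr
        _ ≤ 1 := by
          rw [mul_one_div, div_le_one (by positivity)]
          push_cast
          linarith, rfl⟩
    have h3 := le_abs_self N
    have h4 := abs_nonneg N
    nlinarith

/-- two independent commuting elements are parabolic -/
theorem parabolic {X H : S2} (hc : X * H = H * X)
    (hind : ∀ p q : ℤ, X ^ p * H ^ q = 1 → p = 0 ∧ q = 0) : (X.a + X.d) ^ 2 = 4 := by
  by_contra hX
  obtain ⟨e, l, μ, he, h1, h2⟩ := exists_eigen hX hc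
  have nz : ∀ {M : S2} {ν : ℂ}, app GaussianInt.toComplex M e = ν • e → ν ≠ 0 := by
    rintro M ν h rfl
    simpa using char_eq he h
  have hz : ∀ {M : S2} {ν : ℂ}, app GaussianInt.toComplex M e = ν • e → ∀ p : ℤ,
      app GaussianInt.toComplex (M ^ p) e = ν ^ p • e := by
    intro M ν h p
    induction p using Int.induction_on with
    | zero => simp [app_one]
    | succ p ih => rw [zpow_add_one, app_mul, h, app_smul, ih, smul_smul, zpow_add_one₀ (nz h),
        mul_comm]
    | pred p ih =>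
      have : app GaussianInt.toComplex M⁻¹ e = ν⁻¹ • e := by
        rw [eq_inv_smul_iff₀ (nz h), ← app_smul, ← h, ← app_mul, inv_mul_cancel, app_one]
      rw [zpow_sub_one, app_mul, this, app_smul, ih, smul_smul, zpow_sub_one₀ (nz h), mul_comm]
  have hv : ∀ z : ℤ × ℤ, app GaussianInt.toComplex (X ^ z.1 * H ^ z.2) e =
      (l ^ z.1 * μ ^ z.2) • e := fun z => by
    rw [app_mul, hz h2, app_smul, hz h1, smul_smul, mul_comm]
  have hcm : Commute X H := hc
  have inj : Function.Injective fun z : ℤ × ℤ => l ^ z.1 * μ ^ z.2 := by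
    intro z z' h
    have h0 : l ^ (z - z').1 * μ ^ (z - z').2 = 1 := by
      have := nz h1
      have := nz h2
      simp only [Prod.fst_sub, Prod.snd_sub, zpow_sub₀ (nz h1), zpow_sub₀ (nz h2)] at h ⊢
      field_simp
      exact h
    have h3 := char_eq he (hv (z - z'))
    rw [h0] at h3
    have h4 := eq_one_of_comm hX (M := X ^ (z - z').1 * H ^ (z - z').2)
      (((Commute.refl X).zpow_right _).mul_right (hcm.zpow_right _)).eq
      (GaussianInt.toComplex_injective (by rw [map_ofNat]; linear_combination -h3))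
    obtain ⟨a1, a2⟩ := hind _ _ h4
    exact sub_eq_zero.1 (Prod.ext a1 a2)
  apply infinite_small (Real.log ‖l‖) (Real.log ‖μ‖)
  refine Set.Finite.of_finite_image (f := fun z : ℤ × ℤ => l ^ z.1 * μ ^ z.2) ?_ inj.injOn
  refine Set.Finite.subset (finite_small.biUnion (t := fun t =>
    {ν : ℂ | ν * ν - GaussianInt.toComplex t * ν + 1 = 0}) fun t _ => ?_) ?_
  · have hp : (Polynomial.X * Polynomial.X - Polynomial.C (GaussianInt.toComplex t) * Polynomial.X
        + 1 : Polynomial ℂ) ≠ 0 := fun h => by simpa using congrArg (Polynomial.eval 0) h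
    refine (Polynomial.finite_setOfPred_isRoot hp).subset fun ν hν => ?_
    simpa using hν
  · rintro _ ⟨z, hz, rfl⟩
    have h3 := char_eq he (hv z)
    have h0 := nz (hv z)
    refine Set.mem_biUnion (x := (X ^ z.1 * H ^ z.2).a + (X ^ z.1 * H ^ z.2).d) ?_ h3
    set ν := l ^ z.1 * μ ^ z.2 with hν
    have hlog : |Real.log ‖ν‖| ≤ 1 := by
      rw [hν, norm_mul, norm_zpow, norm_zpow, Real.log_mul (zpow_ne_zero _ (by simpa using nz h1))
        (zpow_ne_zero _ (by simpa using nz h2)), Real.log_zpow, Real.log_zpow]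
      exact hz
    have hpos : 0 < ‖ν‖ := norm_pos_iff.2 h0
    have b1 : ‖ν‖ ≤ 3 := by
      have := (Real.log_le_iff_le_exp hpos).1 (abs_le.1 hlog).2
      linarith [Real.exp_one_lt_three]
    have b2 : ‖ν⁻¹‖ ≤ 3 := by
      have := (Real.log_le_iff_le_exp (inv_pos.2 hpos)).1
        (show Real.log ‖ν‖⁻¹ ≤ 1 by rw [Real.log_inv]; linarith [(abs_le.1 hlog).1])
      rw [norm_inv]
      linarith [Real.exp_one_lt_three]
    have e1 : GaussianInt.toComplex ((X ^ z.1 * H ^ z.2).a + (X ^ z.1 * H ^ z.2).d) = ν + ν⁻¹ := by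
      field_simp
      linear_combination -h3
    rw [Set.mem_ofPred_eq, e1]
    linarith [norm_add_le ν ν⁻¹]

end S2

end TorsW2
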