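import Pool.Agent.Lib.MP_004c47_gt.DefsW2

/-! The extended reflection group acting on Lorentz space: faithfulness, cusps and their
stabilisers. -/

namespace TorsW2

/-- action of a generator on the six wall coordinates -/
def rf : Option (Fin 6) → (Fin 6 → ℤ) → Fin 6 → ℤ
  | none, u => fun t => u (sw t)
  | some s, u => fun t => if t = s then -u s else if cm s t then u t else u t + 2 * u s

theorem rf_rf (e : Option (Fin 6)) (u : Fin 6 → ℤ) : rf e (rf e u) = u := by
  funext t
  rcases e with _ | s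
  · fin_cases t <;> simp [rf, sw]
  · simp only [rf]
    split_ifs <;> simp_all

theorem exists_Ph : ∃ Φ : Wh →* Equiv.Perm (Fin 6 → ℤ), ∀ e u, Φ (wl e) u = rf e u := by
  obtain ⟨Φ, h⟩ := wlift (fun e => Function.Involutive.toPerm (rf e) (rf_rf e))
    (fun e => by ext1 u; exact rf_rf e u)
    (fun i j hij => by
      ext u t
      fin_cases i <;> fin_cases j <;> simp [cm] at hij <;> fin_cases t <;>
        simp [rf, cm] <;> ring)
    (fun i => by
      ext u t
      fin_cases i <;> fin_cases t <;> simp [rf, cm, sw])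
  exact ⟨Φ, fun e u => by rw [h]; rfl⟩

/-- the action on wall coordinates -/
noncomputable def Ph : Wh →* Equiv.Perm (Fin 6 → ℤ) := exists_Ph.choose

theorem Ph_wl (e : Option (Fin 6)) (u : Fin 6 → ℤ) : Ph (wl e) u = rf e u :=
  exists_Ph.choose_spec e u

theorem Ph_mul (w w' : Wh) (u : Fin 6 → ℤ) : Ph (w * w') u = Ph w (Ph w' u) := by
  rw [map_mul]; rfl

theorem Ph_wev (l : List (Option (Fin 6))) (u : Fin 6 → ℤ) : Ph (wev l) u = l.foldr rf u := by
  induction l with
  | nil => simp [wev]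
  | cons e l ih => rw [wev_cons, Ph_mul, ih, Ph_wl, List.foldr_cons]

theorem Ph_lin (w : Wh) (a b : ℤ) (u u' : Fin 6 → ℤ) :
    Ph w (a • u + b • u') = a • Ph w u + b • Ph w u' := by
  induction w using w_induction with
  | h1 => simp
  | hm e w ih =>
    simp only [Ph_mul, ih, Ph_wl]
    funext t
    rcases e with _ | s
    · simp [rf]
    · simp only [rf, Pi.add_apply, Pi.smul_apply, smul_eq_mul]
      split_ifs <;> ring

theorem Ph_smul (w : Wh) (a : ℤ) (u : Fin 6 → ℤ) : Ph w (a • u) = a • Ph w u := by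
  simpa using Ph_lin w a 0 u u

/-- the centre of the chamber -/
def v1 : Fin 6 → ℤ := fun _ => 1

/-- words in which every letter moves the centre further away -/
inductive Up : List (Fin 6) → Prop
  | nil : Up []
  | cons (s : Fin 6) (l : List (Fin 6)) : Up l → 0 < Ph (wev (l.map some)) v1 s → Up (s :: l)

theorem Ph_odd (w : Wh) (t : Fin 6) : Odd (Ph w v1 t) := by
  induction w using w_induction generalizing t with
  | h1 => simp [v1]
  | hm e w ih =>
    rw [Ph_mul, Ph_wl]
    rcases e with _ | s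
    · exact ih _
    · simp only [rf]
      split_ifs
      · exact (ih s).neg
      · exact ih t
      · exact (ih t).add_even (even_two_mul _)

theorem cm_symm : ∀ s t, cm s t = cm t s := by decide

theorem Up.pos {l : List (Fin 6)} (h : Up l) : ∀ s t, s ≠ t → cm s t = false →
    0 < Ph (wev (l.map some)) v1 s + Ph (wev (l.map some)) v1 t := by
  induction h with
  | nil => intro s t _ _; simp [wev, v1]
  | cons r l _ hr ih =>
    intro s t hst hc
    have := ih s t hst hc
    simp only [List.map_cons, wev_cons, Ph_mul, Ph_wl, rf]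
    by_cases h1 : s = r
    · subst h1
      simp [hst.symm, hc]
      linarith
    · by_cases h2 : t = r
      · subst h2
        rw [cm_symm] at hc
        simp [h1, hc]
        linarith
      · simp only [h1, h2, if_false]
        split_ifs <;> linarith

theorem Up.shorten {l : List (Fin 6)} (h : Up l) : ∀ s, Ph (wev (l.map some)) v1 s < 0 →
    ∃ l', Up l' ∧ wev (l.map some) = wl (some s) * wev (l'.map some) := by
  induction h with
  | nil => intro s hs; simp [wev, v1] at hs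
  | cons r l hl hr ih =>
    intro s hs
    by_cases h1 : s = r
    · subst h1
      exact ⟨l, hl, by simp [wev_cons]⟩
    · have hc : cm r s = true := by
        by_contra hc
        have := (Up.cons r l hl hr).pos r s (Ne.symm h1) (by simpa using hc)
        simp only [List.map_cons, wev_cons, Ph_mul, Ph_wl] at this hs
        have e : rf (some r) (Ph (wev (l.map some)) v1) r = -Ph (wev (l.map some)) v1 r := by
          simp [rf]
        linarith
      simp only [List.map_cons, wev_cons, Ph_mul, Ph_wl, rf, h1, hc, if_false, if_true] at hs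
      obtain ⟨l', hl', e⟩ := ih s hs
      refine ⟨r :: l', Up.cons r l' hl' ?_, ?_⟩
      · rw [e, Ph_mul, Ph_wl] at hr
        rw [cm_symm] at hc
        simpa [rf, Ne.symm h1, hc] using hr
      · simp only [List.map_cons, wev_cons]
        rw [e, ← mul_assoc, ← mul_assoc, wl_comm r s hc]

theorem exists_up (l : List (Fin 6)) : ∃ l', Up l' ∧ wev (l.map some) = wev (l'.map some) := by
  induction l with
  | nil => exact ⟨[], Up.nil, rfl⟩
  | cons s l ih =>
    obtain ⟨l', hl', e⟩ := ih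
    rcases lt_trichotomy (Ph (wev (l'.map some)) v1 s) 0 with h | h | h
    · obtain ⟨l'', h1, h2⟩ := hl'.shorten s h
      exact ⟨l'', h1, by rw [List.map_cons, wev_cons, e, h2, ← mul_assoc, wl_sq, one_mul]⟩
    · have := Ph_odd (wev (l'.map some)) s
      rw [h] at this
      simp at this
    · exact ⟨s :: l', Up.cons s l' hl' h, by simp only [List.map_cons, wev_cons, e]⟩

theorem w_form (w : Wh) : ∃ l : List (Fin 6), w = wev (l.map some) ∨
    w = wev (l.map some) * wl none := by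
  have : ∃ u, w = wev u := by
    induction w using w_induction with
    | h1 => exact ⟨[], rfl⟩
    | hm e w ih => obtain ⟨u, rfl⟩ := ih; exact ⟨e :: u, (wev_cons _ _).symm⟩
  obtain ⟨u, rfl⟩ := this
  refine ⟨(wnorm u).1, ?_⟩
  have := wnorm_spec u
  split_ifs at this
  · exact Or.inr this
  · exact Or.inl (by simpa using this)

/-- only the half turn fixes the centre -/
theorem stab_v1 {w : Wh} (h : Ph w v1 = v1) : w = 1 ∨ w = wl none := by
  have key : ∀ l : List (Fin 6), Ph (wev (l.map some)) v1 = v1 → wev (l.map some) = 1 := by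
    intro l hl
    obtain ⟨l', h1, h2⟩ := exists_up l
    rw [h2] at hl ⊢
    cases h1 with
    | nil => rfl
    | cons s l'' _ hs =>
      have := congrFun hl s
      simp only [List.map_cons, wev_cons, Ph_mul, Ph_wl, rf, if_true, v1] at this
      linarith
  obtain ⟨l, rfl | rfl⟩ := w_form w
  · exact Or.inl (key l h)
  · rw [Ph_mul, Ph_wl] at h
    exact Or.inr (by rw [key l h, one_mul])

/-- the linear relations between the wall coordinates -/
def Con (u : Fin 6 → ℤ) : Prop := u 1 = u 3 + u 4 - u 0 ∧ u 5 = u 2 + u 3 - u 0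

/-- the Lorentz form -/
def lor (u u' : Fin 6 → ℤ) : ℤ :=
  u 0 * u' 0 + u 2 * u' 2 + u 4 * u' 4 - (u 2 + u 3 + u 4) * (u' 2 + u' 3 + u' 4)

theorem Con.rf {u : Fin 6 → ℤ} (h : Con u) (e : Option (Fin 6)) : Con (rf e u) := by
  obtain ⟨h1, h2⟩ := h
  rcases e with _ | s
  · constructor <;> simp [TorsW2.rf, sw] <;> linarith
  · fin_cases s <;> constructor <;> simp [TorsW2.rf, cm] <;> linarith

theorem lor_rf {u u' : Fin 6 → ℤ} (h : Con u) (h' : Con u') (e : Option (Fin 6)) :
    lor (rf e u) (rf e u') = lor u u' := by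
  obtain ⟨h1, h2⟩ := h
  obtain ⟨h3, h4⟩ := h'
  rcases e with _ | s
  · simp [lor, rf, sw, h1, h2, h3, h4]; ring
  · fin_cases s <;> simp [lor, rf, cm, h1, h2, h3, h4] <;> ring

theorem Con.Ph {u : Fin 6 → ℤ} (h : Con u) (w : Wh) : Con (Ph w u) := by
  induction w using w_induction with
  | h1 => simpa using h
  | hm e w ih => rw [Ph_mul, Ph_wl]; exact ih.rf e

theorem lor_Ph {u u' : Fin 6 → ℤ} (h : Con u) (h' : Con u') (w : Wh) :
    lor (Ph w u) (Ph w u') = lor u u' := by
  induction w using w_induction with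
  | h1 => simp
  | hm e w ih => rw [Ph_mul, Ph_wl, Ph_mul, Ph_wl, lor_rf (h.Ph w) (h'.Ph w), ih]

/-- the forward light cone -/
def Fut (u : Fin 6 → ℤ) : Prop := Con u ∧ lor u u = 0 ∧ 0 ≤ u 2 + u 3 + u 4

theorem cone_le {x y z τ : ℤ} (h : x * x + y * y + z * z - τ * τ = 0) (h0 : 0 ≤ τ) :
    x + y + z ≤ 2 * τ ∧ 2 * (x + y) ≤ 3 * τ ∧ 2 * (y + z) ≤ 3 * τ ∧ 2 * (x + z) ≤ 3 * τ := by
  refine ⟨?_, ?_, ?_, ?_⟩ <;> by_contra hc <;>
    nlinarith [sq_nonneg (x - y), sq_nonneg (y - z), sq_nonneg (x - z), sq_nonneg x, sq_nonneg y,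
      sq_nonneg z]

theorem Fut.rf {u : Fin 6 → ℤ} (h : Fut u) (e : Option (Fin 6)) : Fut (rf e u) := by
  refine ⟨h.1.rf e, by rw [lor_rf h.1 h.1, h.2.1], ?_⟩
  obtain ⟨⟨h1, h2⟩, h3, h4⟩ := h
  obtain ⟨a1, a2, a3, a4⟩ := cone_le h3 h4
  rcases e with _ | s
  · simp [TorsW2.rf, sw]; linarith
  · fin_cases s <;> simp [TorsW2.rf, cm] <;> linarith

theorem descent (u : Fin 6 → ℤ) (h : Fut u) : ∃ w : Wh, Fut (Ph w u) ∧ ∀ s, 0 ≤ Ph w u s := by
  induction hn : (u 0 + u 1 + u 2 + u 3 + u 4 + u 5).toNat using Nat.strong_induction_on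
    generalizing u with
  | _ n ih =>
    by_cases hu : ∀ s, 0 ≤ u s
    · exact ⟨1, by simpa using h, by simpa using hu⟩
    · push Not at hu
      obtain ⟨s, hs⟩ := hu
      have h' := h.rf (some s)
      obtain ⟨w, hw⟩ := ih _ (by
        have e : rf (some s) u 0 + rf (some s) u 1 + rf (some s) u 2 + rf (some s) u 3 +
            rf (some s) u 4 + rf (some s) u 5 = u 0 + u 1 + u 2 + u 3 + u 4 + u 5 + 2 * u s := by
          fin_cases s <;> simp [rf, cm] <;> ring
        obtain ⟨⟨h1, h2⟩, h3, h4⟩ := h'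
        have := (cone_le h3 h4).1
        omega) (rf (some s) u) h' rfl
      exact ⟨w * wl (some s), by rwa [Ph_mul, Ph_wl]⟩

/-- the two kinds of ideal vertices -/
def vtx : Bool → Fin 6 → ℤ
  | true => ![0, 0, 1, 0, 0, 1]
  | false => ![1, 0, 0, 1, 0, 0]

theorem to_vertex (u : Fin 6 → ℤ) (h : Fut u) :
    ∃ (w : Wh) (k : Bool) (n : ℤ), Ph w u = n • vtx k := by
  obtain ⟨w, ⟨⟨h1, h2⟩, h3, -⟩, h4⟩ := descent u h
  set x := Ph w u with hx
  have p0 := h4 0
  have p1 := h4 1
  have p2 := h4 2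
  have p3 := h4 3
  have p4 := h4 4
  have p5 := h4 5
  simp only [lor] at h3
  have hd : x 0 = x 3 := by
    rcases lt_trichotomy (x 0) (x 3) with h | h | h
    · nlinarith [mul_nonneg p0 p2, mul_nonneg p0 p4, mul_nonneg p2 p4]
    · exact h
    · nlinarith [mul_nonneg p1 p3, mul_nonneg p1 p5, mul_nonneg p3 p5]
  have e : x 0 * x 2 + x 0 * x 4 + x 2 * x 4 = 0 := by rw [← hd] at h3; linarith
  have q1 : x 0 * x 2 = 0 := by nlinarith [mul_nonneg p0 p2, mul_nonneg p0 p4, mul_nonneg p2 p4]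
  have q2 : x 0 * x 4 = 0 := by nlinarith [mul_nonneg p0 p2, mul_nonneg p0 p4, mul_nonneg p2 p4]
  have q3 : x 2 * x 4 = 0 := by linarith
  by_cases z0 : x 0 = 0
  · by_cases z2 : x 2 = 0
    · refine ⟨wl none * w, false, x 4, ?_⟩
      rw [Ph_mul, Ph_wl, ← hx]
      funext t
      fin_cases t <;> simp [rf, sw, vtx] <;> omega
    · have z4 : x 4 = 0 := by simpa [z2] using q3
      refine ⟨w, true, x 2, ?_⟩
      rw [← hx]
      funext t
      fin_cases t <;> simp [vtx] <;> omega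
  · have z2 : x 2 = 0 := by simpa [z0] using q1
    have z4 : x 4 = 0 := by simpa [z0] using q2
    refine ⟨w, false, x 0, ?_⟩
    rw [← hx]
    funext t
    fin_cases t <;> simp [vtx] <;> omega

/-- the four walls through an ideal vertex: two parallel pairs -/
def wal : Bool → Fin 4 → Fin 6
  | true => ![0, 1, 4, 3]
  | false => ![1, 2, 4, 5]

/-- first cusp translation -/
def T1 (k : Bool) : Wh := wev [some (wal k 1), some (wal k 0)]

/-- second cusp translation -/
def T2 (k : Bool) : Wh := wev [some (wal k 3), some (wal k 2)]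

/-- finitely many representatives of the cusp group modulo translations -/
def fw (k : Bool) (ε : Bool × Bool × Bool) : List (Option (Fin 6)) :=
  (if ε.1 then [some (wal k 0)] else []) ++ (if ε.2.1 then [some (wal k 2)] else []) ++
    (if ε.2.2 then [none] else [])

/-- points of the horosphere -/
def Hor (k : Bool) (u : Fin 6 → ℤ) : Prop :=
  Con u ∧ lor u u = -6 ∧ u (wal k 0) + u (wal k 1) = 2

theorem Hor.ext {k : Bool} {u u' : Fin 6 → ℤ} (h : Hor k u) (h' : Hor k u')
    (e0 : u (wal k 0) = u' (wal k 0)) (e2 : u (wal k 2) = u' (wal k 2)) : u = u' := by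
  obtain ⟨⟨h1, h2⟩, h3, h4⟩ := h
  obtain ⟨⟨h5, h6⟩, h7, h8⟩ := h'
  cases k <;> simp [wal, lor] at * <;> funext t
  · have a2 : u 2 = u' 2 := by omega
    have a3 : u 3 = u 0 + u 1 - u 4 := by omega
    have a4 : u' 3 = u' 0 + u 1 - u 4 := by omega
    have a5 : u' 2 = 2 - u 1 := by omega
    have a0 : u 0 = u' 0 := by
      rw [a2, a3, a5] at h3
      rw [← e2, a4, a5] at h7
      linarith
    fin_cases t <;> simp <;> omega
  · have a3 : u 3 = 2 - u 4 := by omega
    have a4 : u' 3 = 2 - u 4 := by omega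
    have a2 : u 2 = u' 2 := by
      rw [a3] at h3
      rw [← e2, ← e0, a4] at h7
      linarith
    fin_cases t <;> simp <;> omega

theorem transl_pow {k : Bool} {T : Wh} {a b : ℤ}
    (hT : ∀ u, Hor k u → Hor k (Ph T u) ∧ Ph T u (wal k 0) = u (wal k 0) + a ∧
      Ph T u (wal k 2) = u (wal k 2) + b)
    (hT' : ∀ u, Hor k u → Hor k (Ph T⁻¹ u)) (n : ℤ) (u : Fin 6 → ℤ) (hu : Hor k u) :
    Hor k (Ph (T ^ n) u) ∧ Ph (T ^ n) u (wal k 0) = u (wal k 0) + n * a ∧
      Ph (T ^ n) u (wal k 2) = u (wal k 2) + n * b := by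
  induction n using Int.induction_on with
  | zero => simpa using hu
  | succ n ih =>
    rw [add_comm (n : ℤ), zpow_one_add, Ph_mul]
    obtain ⟨a1, a2, a3⟩ := hT _ ih.1
    exact ⟨a1, by rw [a2, ih.2.1]; ring, by rw [a3, ih.2.2]; ring⟩
  | pred n ih =>
    have e : T ^ (-(n : ℤ) - 1) = T⁻¹ * T ^ (-(n : ℤ)) := by group
    have h1 := hT' _ ih.1
    obtain ⟨-, a2, a3⟩ := hT _ h1
    rw [← Ph_mul, ← Ph_mul, mul_inv_cancel, one_mul] at a2 a3
    rw [e, Ph_mul]
    exact ⟨h1, by linarith [ih.2.1], by linarith [ih.2.2]⟩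

theorem Hor.wal {k : Bool} {u : Fin 6 → ℤ} (h : Hor k u) (i : Fin 4) :
    Hor k (rf (some (wal k i)) u) := by
  refine ⟨h.1.rf _, by rw [lor_rf h.1 h.1, h.2.1], ?_⟩
  have := h.2.2
  cases k <;> fin_cases i <;> simp [TorsW2.wal, rf, cm] at this ⊢ <;> omega

theorem hor_v1 (k : Bool) : Hor k v1 := by
  refine ⟨⟨?_, ?_⟩, ?_, ?_⟩ <;> simp [v1, lor]

/-- the stabiliser of an ideal vertex -/
theorem stab_vtx {k : Bool} {y : Wh} (h : Ph y (vtx k) = vtx k) :
    ∃ (a b : ℤ) (ε : Bool × Bool × Bool), y = T1 k ^ a * T2 k ^ b * wev (fw k ε) := by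
  have hk : Con (vtx k) := by cases k <;> constructor <;> simp [vtx]
  have hy : Hor k (Ph y v1) := by
    refine ⟨(hor_v1 k).1.Ph y, by rw [lor_Ph (hor_v1 k).1 (hor_v1 k).1, (hor_v1 k).2.1], ?_⟩
    have e := lor_Ph hk (hor_v1 k).1 y
    obtain ⟨c1, c2⟩ := (hor_v1 k).1.Ph y
    rw [h] at e
    cases k <;> simp [lor, vtx, v1, wal] at e ⊢ <;> omega
  have t1 := transl_pow (k := k) (T := T1 k) (a := 4) (b := 0) (fun u hu => by
    simp only [T1, Ph_wev, List.foldr]
    refine ⟨(hu.wal 0).wal 1, ?_⟩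
    have := hu.2.2
    cases k <;> simp [wal, rf, cm] at this ⊢ <;> omega) (fun u hu => by
    simp only [T1, ← wev_reverse, Ph_wev]
    exact (hu.wal 1).wal 0)
  have t2 := transl_pow (k := k) (T := T2 k) (a := 0) (b := 4) (fun u hu => by
    simp only [T2, Ph_wev, List.foldr]
    refine ⟨(hu.wal 2).wal 3, ?_⟩
    obtain ⟨⟨c1, c2⟩, -, c3⟩ := hu
    cases k <;> simp [wal, rf, cm] at c3 ⊢ <;> omega) (fun u hu => by
    simp only [T2, ← wev_reverse, Ph_wev]
    exact (hu.wal 3).wal 2)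
  have odd4 : ∀ z : ℤ, Odd z → ∃ (a : ℤ) (ε : Bool), z = (if ε then -1 else 1) + a * 4 := by
    rintro z ⟨m, rfl⟩
    rcases Int.even_or_odd' m with ⟨a, rfl | rfl⟩
    · exact ⟨a, false, by simp; ring⟩
    · exact ⟨a + 1, true, by simp; ring⟩
  obtain ⟨a, ε₁, ha⟩ := odd4 _ (Ph_odd y (wal k 0))
  obtain ⟨b, ε₂, hb⟩ := odd4 _ (Ph_odd y (wal k 2))
  have f0 : Hor k (Ph (wev (fw k (ε₁, ε₂, false))) v1) ∧
      Ph (wev (fw k (ε₁, ε₂, false))) v1 (wal k 0) = (if ε₁ then -1 else 1) ∧
      Ph (wev (fw k (ε₁, ε₂, false))) v1 (wal k 2) = (if ε₂ then -1 else 1) := by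
    rw [Ph_wev]
    unfold Hor Con
    clear ha hb t1 t2 hy hk h
    revert k ε₁ ε₂
    decide
  obtain ⟨b1, b2, b3⟩ := t2 b _ f0.1
  obtain ⟨a1, a2, a3⟩ := t1 a _ b1
  have e := a1.ext hy (by rw [a2, b2, f0.2.1, ha]; ring) (by rw [a3, b3, f0.2.2, hb]; ring)
  rw [← Ph_mul, ← Ph_mul] at e
  have : Ph ((T1 k ^ a * T2 k ^ b * wev (fw k (ε₁, ε₂, false)))⁻¹ * y) v1 = v1 := by
    rw [Ph_mul, ← e, ← Ph_mul, inv_mul_cancel]
    simp
  rcases stab_v1 this with h1 | h1
  · exact ⟨a, b, (ε₁, ε₂, false), (inv_mul_eq_one.1 h1).symm⟩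
  · refine ⟨a, b, (ε₁, ε₂, true), ?_⟩
    rw [inv_mul_eq_iff_eq_mul] at h1
    rw [h1, mul_assoc]
    congr 1
    simp [fw, wev, mul_assoc]

end TorsW2
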