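import Pool.Agent.Lib.MP_004c47_gt.DefsW2

/-! Two facts of commutative algebra. -/

namespace TorsW2

open MvPolynomial

theorem exists_left_inv {R ι κ : Type} [CommRing R] [IsDomain R] [Fintype ι] [Fintype κ]
    (A : ι → κ → R) (hA : ∀ v : κ → R, (∀ i, ∑ j, A i j * v j = 0) → v = 0) :
    ∃ D : R, D ≠ 0 ∧ ∀ j : κ, (D • sg j : κ → R) ∈ Submodule.span R (Set.range A) := by
  classical
  let K := FractionRing R
  have hinj : Function.Injective (algebraMap R K) := IsFractionRing.injective R K
  let B : Matrix ι κ K := fun i j => algebraMap R K (A i j)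
  have hker : LinearMap.ker (Matrix.toLin' B) = ⊥ := by
    refine LinearMap.ker_eq_bot'.2 fun v hv => ?_
    obtain ⟨b, hb⟩ := IsLocalization.exist_integer_multiples_of_finite (nonZeroDivisors R) v
    choose w hw using hb
    have h0 : w = 0 := hA w fun i => hinj (by
      have e := congrFun hv i
      simp only [Matrix.toLin'_apply, Matrix.mulVec, dotProduct, B, Pi.zero_apply] at e
      simp only [map_sum, map_mul, hw, map_zero, mul_smul_comm, ← Finset.smul_sum, e, smul_zero])
    funext j
    have e := hw j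
    rw [h0, Pi.zero_apply, map_zero, Algebra.smul_def, eq_comm, mul_eq_zero] at e
    exact e.resolve_left ((map_ne_zero_iff _ hinj).2 (nonZeroDivisors.coe_ne_zero b))
  obtain ⟨g, hg⟩ := LinearMap.exists_leftInverse_of_injective _ hker
  have hE : LinearMap.toMatrix' g * B = 1 := by
    rw [← LinearMap.toMatrix'_toLin' B, ← LinearMap.toMatrix'_comp, hg, LinearMap.toMatrix'_id]
  obtain ⟨b, hb⟩ := IsLocalization.exist_integer_multiples_of_finite (nonZeroDivisors R)
    fun p : κ × ι => LinearMap.toMatrix' g p.1 p.2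
  choose E hE' using hb
  refine ⟨b, nonZeroDivisors.coe_ne_zero b, fun j => ?_⟩
  have : ((b : R) • sg j : κ → R) = ∑ i, E (j, i) • A i := by
    funext k
    apply hinj
    have e := congrFun (congrFun hE j) k
    rw [Matrix.mul_apply, Matrix.one_apply] at e
    simp only [Finset.sum_apply, Pi.smul_apply, smul_eq_mul, map_sum, map_mul, hE', smul_mul_assoc,
      ← Finset.smul_sum]
    change _ = (b : R) • ∑ i, LinearMap.toMatrix' g j i * B i k
    rw [e, Algebra.smul_def, sg]
    by_cases h : k = j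
    · simp [h]
    · simp [h, Ne.symm h]
  rw [this]
  exact Submodule.sum_mem _ fun i _ =>
    Submodule.smul_mem _ _ (Submodule.subset_span ⟨i, rfl⟩)

namespace Homog

theorem coeff_aeval {σ A : Type} [CommRing A] (y : σ → A) (n : ℕ) (p : MvPolynomial σ ℤ) :
    (aeval (fun s => (Polynomial.C (y s) * Polynomial.X : Polynomial A)) p).coeff n =
      aeval y (homogeneousComponent n p) := by
  induction p using MvPolynomial.induction_on' with
  | monomial d c =>
    have e : aeval (fun s => (Polynomial.C (y s) * Polynomial.X : Polynomial A)) (monomial d c) =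
        Polynomial.C (aeval y (monomial d c)) * Polynomial.X ^ d.degree := by
      simp only [aeval_monomial, Finsupp.prod, mul_pow, Finset.prod_mul_distrib,
        Finset.prod_pow_eq_pow_sum, Finsupp.degree_apply, map_mul, map_prod, map_pow,
        algebraMap_int_eq, eq_intCast, map_intCast, mul_assoc]
    rw [e, homogeneousComponent_of_mem (isHomogeneous_monomial c rfl), Polynomial.coeff_C_mul_X_pow]
    split_ifs <;> simp
  | add p q hp hq => simp only [map_add, Polynomial.coeff_add, hp, hq]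

theorem indep {σ A : Type} [CommRing A] (y : σ → A)
    (h : ∀ (n : ℕ) (p : MvPolynomial σ ℤ), p.IsHomogeneous n → aeval y p = 0 → p = 0) :
    AlgebraicIndependent ℤ fun s => (Polynomial.C (y s) * Polynomial.X : Polynomial A) := by
  refine algebraicIndependent_iff.2 fun p hp => ?_
  rw [← sum_homogeneousComponent p]
  refine Finset.sum_eq_zero fun n _ => h n _ (homogeneousComponent_isHomogeneous n p) ?_
  rw [← coeff_aeval, hp, Polynomial.coeff_zero]

theorem exists_indep {σ A : Type} [Finite σ] [Nonempty σ] [CommRing A] [IsDomain A] (y : σ → A)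
    (hy : Algebra.adjoin ℤ (Set.range y) = ⊤)
    (h : ∀ (n : ℕ) (p : MvPolynomial σ ℤ), p.IsHomogeneous n → aeval y p = 0 → p = 0) :
    ∃ s : σ, AlgebraicIndependent ℤ fun u : {t // t ≠ s} => y u := by
  have : FaithfulSMul ℤ A := (faithfulSMul_iff_algebraMap_injective ℤ A).2
    ((injective_iff_map_eq_zero _).2 fun c hc =>
      C_injective σ ℤ (by rw [h 0 (C c) (isHomogeneous_C σ c) (by rwa [aeval_C]), map_zero]))
  have : Algebra.IsAlgebraic (Algebra.adjoin ℤ (Set.range y)) A :=
    ⟨fun a => isAlgebraic_algebraMap (⟨a, hy ▸ Algebra.mem_top⟩ : Algebra.adjoin ℤ (Set.range y))⟩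
  obtain ⟨t, ht, hb⟩ := exists_isTranscendenceBasis_subset (R := ℤ) (Set.range y)
  have h1 := (indep y h).cardinalMk_le_trdeg
  rw [← trdeg_add_eq ℤ A, Polynomial.trdeg_of_isDomain, ← hb.cardinalMk_eq_trdeg] at h1
  choose j hj using fun a : t => ht a.2
  have hinj : Function.Injective j := fun a c e => Subtype.ext (by rw [← hj, ← hj, e])
  have : Finite t := Finite.of_injective j hinj
  have h2 : Nat.card σ ≤ Nat.card t + 1 := by
    rw [← Nat.cast_card, ← Nat.cast_card] at h1
    exact_mod_cast h1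
  have h3 := Set.ncard_add_ncard_compl (Set.range j)
  rw [Set.ncard_range_of_injective hinj] at h3
  obtain ⟨s, hs⟩ := (Set.ncard_le_one_iff_subset_singleton (s := (Set.range j)ᶜ)).1 (by omega)
  have h4 : ∀ u : {t // t ≠ s}, ∃ a, j a = u := fun u => by
    by_contra e
    exact u.2 (hs e)
  choose k hk using h4
  refine ⟨s, ?_⟩
  have e : (fun u : {t // t ≠ s} => y u) = ((↑) : t → A) ∘ k := by
    funext u
    rw [Function.comp_apply, ← hj, hk]
  rw [e]
  exact hb.1.comp k fun u v e => Subtype.ext (by rw [← hk, ← hk, e])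

end Homog

theorem exists_homog {σ : Type} [Finite σ] [Nonempty σ] (I : Ideal (MvPolynomial σ ℤ))
    (h : ∀ s : σ, ∃ p : MvPolynomial {t // t ≠ s} ℤ, p ≠ 0 ∧ rename Subtype.val p ∈ I) :
    ∃ r ∈ I, r ≠ 0 ∧ ∃ n, r.IsHomogeneous n := by
  by_contra hc
  let S : Submonoid (MvPolynomial σ ℤ) :=
    { carrier := {r | r ≠ 0 ∧ ∃ n, r.IsHomogeneous n}
      mul_mem' := fun ⟨a, m, hm⟩ ⟨c, n, hn⟩ => ⟨mul_ne_zero a c, m + n, hm.mul hn⟩
      one_mem' := ⟨one_ne_zero, 0, isHomogeneous_one σ ℤ⟩ }
  obtain ⟨P, hP, hI, hd⟩ := I.exists_le_prime_disjoint S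
    (Set.disjoint_left.2 fun r h1 h2 => hc ⟨r, h1, h2⟩)
  have he : ∀ p : MvPolynomial σ ℤ,
      aeval (fun s => Ideal.Quotient.mk P (X s)) p = Ideal.Quotient.mk P p := fun p =>
    DFunLike.congr_fun (aeval_unique (Ideal.Quotient.mkₐ ℤ P)).symm p
  obtain ⟨s, hs⟩ := Homog.exists_indep (fun s => Ideal.Quotient.mk P (X s)) (by
    rw [Algebra.adjoin_range_eq_range_aeval, AlgHom.range_eq_top]
    intro a
    obtain ⟨p, rfl⟩ := Ideal.Quotient.mk_surjective a
    exact ⟨p, he p⟩) fun n p hn h0 => by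
      by_contra e
      exact Set.disjoint_left.1 hd (Ideal.Quotient.eq_zero_iff_mem.1 ((he p).symm.trans h0))
        ⟨e, n, hn⟩
  obtain ⟨p, h1, h2⟩ := h s
  refine h1 (algebraicIndependent_iff.1 hs p ?_)
  have e := Ideal.Quotient.eq_zero_iff_mem.2 (hI h2)
  rwa [← he, aeval_rename] at e

end TorsW2
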