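import Mathlib

/-! Right-angled Coxeter groups by their universal property; doubling along a generator. -/

namespace TorsTower37

universe u

/-- `W` is the right-angled Coxeter group of the graph `adj` with generators `s`. -/
structure RA (W : Type u) [Group W] {V : Type} (adj : V → V → Prop) (s : V → W) : Prop where
  symm : ∀ a b, adj a b → adj b a
  gen : Subgroup.closure (Set.range s) = ⊤
  sq : ∀ a, s a * s a = 1
  comm : ∀ a b, adj a b → s a * s b = s b * s a
  lift : ∀ (A : Type) [Group A] (f : V → A), (∀ a, f a * f a = 1) →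
    (∀ a b, adj a b → f a * f b = f b * f a) → ∃ φ : W →* A, ∀ a, φ (s a) = f a

variable {W : Type u} [Group W] {V : Type} {adj : V → V → Prop} {s : V → W}

theorem RA.inv (h : RA W adj s) (a : V) : (s a)⁻¹ = s a :=
  inv_eq_of_mul_eq_one_right (h.sq a)

theorem RA.induction (h : RA W adj s) {p : W → Prop} (h1 : p 1)
    (hm : ∀ a w, p w → p (s a * w)) (w : W) : p w := by
  have hw : w ∈ Subgroup.closure (Set.range s) := by rw [h.gen]; trivial
  induction hw using Subgroup.closure_induction_left with
  | one => exact h1
  | mul_left x hx y _ ih => obtain ⟨a, rfl⟩ := hx; exact hm a y ih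
  | inv_mul_cancel x hx y _ ih => obtain ⟨a, rfl⟩ := hx; rw [h.inv]; exact hm a y ih

theorem RA.word (h : RA W adj s) (w : W) : ∃ l : List V, (l.map s).prod = w := by
  induction w using h.induction with
  | h1 => exact ⟨[], rfl⟩
  | hm a w ih => obtain ⟨l, rfl⟩ := ih; exact ⟨a :: l, by simp⟩

/-- permutations of `X × A` commuting with right multiplication in `A` -/
def Eqv (X A : Type) [Group A] : Subgroup (Equiv.Perm (X × A)) where
  carrier := {π | ∀ x a k, π (x, a * k) = ((π (x, a)).1, (π (x, a)).2 * k)}
  one_mem' := by intro x a k; simp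
  mul_mem' := by
    intro π σ hπ hσ x a k
    simp only [Equiv.Perm.mul_apply]
    rw [hσ, hπ]
  inv_mem' := by
    intro π hπ x a k
    apply π.injective
    rw [hπ]
    simp

theorem Eqv.apply {X A : Type} [Group A] (π : Eqv X A) (x : X) (a : A) :
    π.1 (x, a) = ((π.1 (x, 1)).1, (π.1 (x, 1)).2 * a) := by
  have := π.2 x 1 a
  rwa [one_mul] at this

/-- the involution `(x, a) ↦ (m x, c x * a)` -/
def cocyc {X A : Type} [Group A] (m : X → X) (c : X → A) (hm : ∀ x, m (m x) = x)
    (hc : ∀ x, c (m x) * c x = 1) : Eqv X A :=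
  ⟨Function.Involutive.toPerm (fun p : X × A => (m p.1, c p.1 * p.2))
    (by intro p; simp [hm, ← mul_assoc, hc]), by
    intro x a k; simp [mul_assoc]⟩

@[simp] theorem cocyc_apply {X A : Type} [Group A] (m : X → X) (c : X → A) (hm : ∀ x, m (m x) = x)
    (hc : ∀ x, c (m x) * c x = 1) (x : X) (a : A) :
    (cocyc m c hm hc).1 (x, a) = (m x, c x * a) := rfl

theorem Eqv.ext' {X A : Type} [Group A] {π σ : Eqv X A} (h : ∀ x, π.1 (x, 1) = σ.1 (x, 1)) :
    π = σ := by
  apply Subtype.ext
  apply Equiv.ext
  rintro ⟨x, a⟩
  rw [Eqv.apply π, Eqv.apply σ, h]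

theorem cocyc_sq {X A : Type} [Group A] (m : X → X) (c : X → A) (hm : ∀ x, m (m x) = x)
    (hc : ∀ x, c (m x) * c x = 1) : cocyc m c hm hc * cocyc m c hm hc = 1 := by
  apply Eqv.ext'
  intro x
  simp [hm, hc]

/-- the cocycle at a fixed base point is multiplicative -/
theorem Eqv.mul_snd {X A : Type} [Group A] (π σ : Eqv X A) (x : X) (hσ : (σ.1 (x, 1)).1 = x) :
    ((π * σ).1 (x, 1)).2 = (π.1 (x, 1)).2 * (σ.1 (x, 1)).2 := by
  have : σ.1 (x, 1) = (x, (σ.1 (x, 1)).2) := Prod.ext hσ rfl
  simp only [Subgroup.coe_mul, Equiv.Perm.mul_apply]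
  rw [this, Eqv.apply π]

section Double

open Classical

variable (adj) in
/-- vertices of the double along `v` -/
def DV (v : V) : Type := {p : V × Bool // p.1 ≠ v ∧ (p.2 = true → ¬ adj v p.1)}

noncomputable instance [Finite V] (v : V) : Finite (DV adj v) := by
  unfold DV; infer_instance

/-- adjacency in the double -/
def dadj (v : V) (p q : DV adj v) : Prop :=
  adj p.1.1 q.1.1 ∧ (p.1.2 = q.1.2 ∨ adj v p.1.1 ∨ adj v q.1.1)

/-- the vertex over `t` on sheet `b` -/
noncomputable def dmk (v t : V) (ht : t ≠ v) (b : Bool) : DV adj v :=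
  ⟨(t, b && !decide (adj v t)), ht, by
    intro h h'; simp [h'] at h⟩

/-- generator of the double, as an element of `W` -/
def dgen (s : V → W) (v : V) (p : DV adj v) : W :=
  if p.1.2 then s v * s p.1.1 * s v else s p.1.1

theorem dgen_dmk (h : RA W adj s) (v t : V) (ht : t ≠ v) (b : Bool) :
    dgen s v (dmk (adj := adj) v t ht b) = if b then s v * s t * s v else s t := by
  unfold dgen dmk
  by_cases ha : adj v t
  · cases b
    · simp
    · simp [ha]
      rw [h.comm v t ha, mul_assoc, h.sq, mul_one]
  · cases b <;> simp [ha]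

theorem RA.exists_chi (h : RA W adj s) (v : V) :
    ∃ χ : W →* ℤˣ, ∀ a, χ (s a) = if a = v then -1 else 1 := by
  apply h.lift
  · intro a; split_ifs <;> simp
  · intro a b _; exact mul_comm _ _

/-- rewriting of a word in the generators of the double -/
noncomputable def drw (v : V) : Bool → List V → List (DV adj v)
  | _, [] => []
  | b, t :: l => if ht : t = v then drw v (!b) l else dmk v t ht b :: drw v b l

theorem drw_length (v : V) (b : Bool) (l : List V) :
    (drw (adj := adj) v b l).length + l.count v = l.length := by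
  induction l generalizing b with
  | nil => simp [drw]
  | cons t l ih =>
    unfold drw
    by_cases ht : t = v
    · subst ht; simp [← ih (!b)]; ring
    · simp only [ht, dif_neg, not_false_eq_true, List.length_cons]
      rw [List.count_cons_of_ne ht, ← ih b]; ring

theorem drw_prod (h : RA W adj s) (v : V) (b : Bool) (l : List V) :
    ∃ c : Bool, (if b then s v else 1) * (l.map s).prod =
      ((drw (adj := adj) v b l).map (dgen s v)).prod * (if c then s v else 1) := by
  induction l generalizing b with
  | nil => exact ⟨b, by simp [drw]⟩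
  | cons t l ih =>
    unfold drw
    by_cases ht : t = v
    · subst ht
      obtain ⟨c, hc⟩ := ih (!b)
      refine ⟨c, ?_⟩
      simp only [dif_pos]
      rw [← hc]
      cases b
      · simp
      · simp [← mul_assoc, h.sq]
    · obtain ⟨c, hc⟩ := ih b
      refine ⟨c, ?_⟩
      simp only [ht, dif_neg, not_false_eq_true, List.map_cons, List.prod_cons]
      rw [mul_assoc, ← hc, dgen_dmk h]
      cases b
      · simp
      · simp only [if_true, mul_assoc]
        rw [← mul_assoc (s v) (s v), h.sq, one_mul]

theorem chi_dgen {v : V} {χ : W →* ℤˣ} (hχ : ∀ a, χ (s a) = if a = v then -1 else 1)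
    (p : DV adj v) : χ (dgen s v p) = 1 := by
  unfold dgen
  split_ifs <;> simp [hχ, p.2.1]

theorem chi_drw {v : V} {χ : W →* ℤˣ} (hχ : ∀ a, χ (s a) = if a = v then -1 else 1)
    (l : List (DV adj v)) : χ ((l.map (dgen s v)).prod) = 1 := by
  induction l with
  | nil => simp
  | cons p l ih => simp only [List.map_cons, List.prod_cons, map_mul, chi_dgen hχ, ih, one_mul]

/-- a word in the kernel of `χ` is the rewritten word -/
theorem drw_eq (h : RA W adj s) {v : V} {χ : W →* ℤˣ}
    (hχ : ∀ a, χ (s a) = if a = v then -1 else 1) (l : List V)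
    (hl : χ (l.map s).prod = 1) :
    (l.map s).prod = ((drw (adj := adj) v false l).map (dgen s v)).prod := by
  obtain ⟨c, hc⟩ := drw_prod h v false l
  simp only [Bool.false_eq_true, if_false, one_mul] at hc
  cases c
  · simpa using hc
  · exfalso
    rw [hc, map_mul, chi_drw hχ] at hl
    simp [hχ] at hl

/-- the kernel of `χ` is the right-angled Coxeter group of the double -/
theorem RA.double (h : RA W adj s) {v : V} {χ : W →* ℤˣ}
    (hχ : ∀ a, χ (s a) = if a = v then -1 else 1) :
    RA χ.ker (dadj (adj := adj) v) (fun p => ⟨dgen s v p, chi_dgen hχ p⟩) where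
  symm := by
    intro p q ⟨h1, h2⟩
    refine ⟨h.symm _ _ h1, ?_⟩
    rcases h2 with h2 | h2 | h2
    · exact Or.inl h2.symm
    · exact Or.inr (Or.inr h2)
    · exact Or.inr (Or.inl h2)
  gen := by
    rw [eq_top_iff]
    rintro ⟨w, hw⟩ -
    obtain ⟨l, rfl⟩ := h.word w
    have e := drw_eq h hχ l hw
    have : (⟨(l.map s).prod, hw⟩ : χ.ker) =
        ((drw (adj := adj) v false l).map
          (fun p => (⟨dgen s v p, chi_dgen hχ p⟩ : χ.ker))).prod := by
      apply Subtype.ext
      simp only [e]
      rw [Subgroup.val_list_prod, List.map_map]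
      rfl
    rw [this]
    apply Subgroup.list_prod_mem
    intro x hx
    obtain ⟨p, -, rfl⟩ := List.mem_map.1 hx
    exact Subgroup.subset_closure ⟨p, rfl⟩
  sq := by
    intro p
    apply Subtype.ext
    simp only [Subgroup.coe_mul, Subgroup.coe_one, dgen]
    split_ifs
    · calc s v * s p.1.1 * s v * (s v * s p.1.1 * s v)
          = s v * s p.1.1 * (s v * s v) * s p.1.1 * s v := by group
        _ = s v * (s p.1.1 * s p.1.1) * s v := by rw [h.sq]; group
        _ = 1 := by rw [h.sq, mul_one, h.sq]
    · exact h.sq _
  comm := by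
    intro p q ⟨h1, h2⟩
    apply Subtype.ext
    have key : ∀ t t', adj t t' → s v * s t * s v * (s v * s t' * s v) =
        s v * s t' * s v * (s v * s t * s v) := by
      intro t t' ht
      calc s v * s t * s v * (s v * s t' * s v) = s v * s t * (s v * s v) * s t' * s v := by group
        _ = s v * (s t * s t') * s v := by rw [h.sq]; group
        _ = s v * s t' * (s v * s v) * s t * s v := by rw [h.sq, h.comm t t' ht]; group
        _ = _ := by group
    have fix : ∀ t, adj v t → s v * s t * s v = s t := by
      intro t ht; rw [h.comm v t ht, mul_assoc, h.sq, mul_one]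
    simp only [Subgroup.coe_mul, dgen]
    by_cases hp : p.1.2 = true <;> by_cases hq : q.1.2 = true
    · simp only [hp, hq, if_true]; exact key _ _ h1
    · have hq' : adj v q.1.1 := by
        rcases h2 with h2 | h2 | h2
        · exact absurd (h2 ▸ hp) hq
        · exact absurd h2 (p.2.2 hp)
        · exact h2
      simp only [hp, hq, if_true, Bool.false_eq_true, if_false]
      have := key _ _ h1
      rwa [fix _ hq'] at this
    · have hp' : adj v p.1.1 := by
        rcases h2 with h2 | h2 | h2
        · exact absurd (h2 ▸ hq) hp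
        · exact h2
        · exact absurd h2 (q.2.2 hq)
      simp only [hp, hq, if_true, Bool.false_eq_true, if_false]
      have := key _ _ h1
      rwa [fix _ hp'] at this
    · simp only [hp, hq, Bool.false_eq_true, if_false]; exact h.comm _ _ h1
  lift := by
    intro A _ f hsq hcomm
    let g : V → Eqv Bool A := fun t =>
      if ht : t = v then cocyc (fun b => !b) (fun _ => 1) (by simp) (by simp)
      else cocyc id (fun b => f (dmk v t ht b)) (by simp) (fun b => hsq _)
    have gv : ∀ b a, (g v).1 (b, a) = (!b, a) := by intro b a; simp [g]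
    have gt : ∀ t (ht : t ≠ v) b a, (g t).1 (b, a) = (b, f (dmk v t ht b) * a) := by
      intro t ht b a; simp [g, ht]
    have dfix : ∀ t (ht : t ≠ v), adj v t → ∀ b, dmk (adj := adj) v t ht (!b) = dmk v t ht b := by
      intro t ht ha b; simp [dmk, ha]
    obtain ⟨ρ, hρ⟩ := h.lift (Eqv Bool A) g
      (by
        intro a
        by_cases ha : a = v
        · simp only [g, ha, dif_pos]; exact cocyc_sq _ _ _ _
        · simp only [g, ha, dif_neg, not_false_eq_true]; exact cocyc_sq _ _ _ _)
      (by
        intro a b hab
        apply Eqv.ext'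
        intro x
        simp only [Subgroup.coe_mul, Equiv.Perm.mul_apply]
        by_cases ha : a = v <;> by_cases hb : b = v
        · rw [ha, hb]
        · subst ha; rw [gt b hb, gv, gv, gt b hb, dfix b hb hab]
        · subst hb; rw [gt a ha, gv, gv, gt a ha, dfix a ha (h.symm _ _ hab)]
        · rw [gt b hb, gt a ha, gt a ha, gt b hb, ← mul_assoc, ← mul_assoc, hcomm]
          refine ⟨hab, ?_⟩
          by_cases h1 : adj v a
          · exact Or.inr (Or.inl h1)
          · by_cases h2 : adj v b
            · exact Or.inr (Or.inr h2)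
            · left; simp [dmk, h1, h2])
    have hfst : ∀ w b, ((ρ w).1 (b, 1)).1 = if χ w = 1 then b else !b := by
      intro w
      induction w using h.induction with
      | h1 => intro b; simp
      | hm a w ih =>
        intro b
        rw [map_mul, map_mul, hρ, hχ]
        simp only [Subgroup.coe_mul, Equiv.Perm.mul_apply]
        have e : (ρ w).1 (b, 1) = (if χ w = 1 then b else !b, ((ρ w).1 (b, 1)).2) :=
          Prod.ext (ih b) rfl
        rw [e]
        by_cases ha : a = v
        · subst ha
          rw [gv]
          rcases Int.units_eq_one_or (χ w) with h1 | h1 <;> simp [h1]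
        · rw [gt a ha]; simp [ha]
    refine ⟨⟨⟨fun w => ((ρ w.1).1 (false, 1)).2, by simp⟩, ?_⟩, ?_⟩
    · intro x y
      simp only [Subgroup.coe_mul, map_mul]
      apply Eqv.mul_snd
      rw [hfst]
      have : χ y.1 = 1 := y.2
      simp [this]
    · intro p
      obtain ⟨⟨t, b⟩, ht, hb⟩ := p
      show ((ρ (dgen s v ⟨(t, b), ht, hb⟩)).1 (false, 1)).2 = _
      unfold dgen
      cases b
      · simp only [Bool.false_eq_true, if_false]
        rw [hρ, gt t ht, mul_one]
        congr 1
      · simp only [if_true, map_mul, hρ, Subgroup.coe_mul, Equiv.Perm.mul_apply]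
        rw [gv, gt t ht, gv, mul_one]
        show f (dmk v t ht true) = _
        congr 1
        apply Subtype.ext
        have := hb rfl
        simp at this
        simp [dmk, this]

end Double

end TorsTower37
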