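import Pool.Agent.Lib.MP_004c47_gt.DefsW2
import Pool.Agent.Lib.MP_004c47_gt.Racg37

/-! Wall labels: the signed action of the extended reflection group on the link of the cusp and
the cocycle counting walls. -/

namespace TorsW2

open TorsTower37

section Signed

variable {L : Type}

/-- signed permutations act on integer vectors -/
instance eqvAct : DistribMulAction (Eqv L ℤˣ) (L → ℤ) where
  smul P f := fun x => ((P⁻¹.1 (x, 1)).2 : ℤ) * f (P⁻¹.1 (x, 1)).1
  one_smul f := by
    funext x
    show (((1 : Eqv L ℤˣ)⁻¹.1 (x, 1)).2 : ℤ) * f ((1 : Eqv L ℤˣ)⁻¹.1 (x, 1)).1 = f x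
    simp
  mul_smul P Q f := by
    funext x
    show (((P * Q)⁻¹.1 (x, 1)).2 : ℤ) * f ((P * Q)⁻¹.1 (x, 1)).1 =
      ((P⁻¹.1 (x, 1)).2 : ℤ) * (((Q⁻¹.1 ((P⁻¹.1 (x, 1)).1, 1)).2 : ℤ) *
        f (Q⁻¹.1 ((P⁻¹.1 (x, 1)).1, 1)).1)
    have : (P * Q)⁻¹.1 (x, 1) = Q⁻¹.1 ((P⁻¹.1 (x, 1)).1, (P⁻¹.1 (x, 1)).2) := by
      rw [mul_inv_rev]; rfl
    rw [this, Eqv.apply Q⁻¹]
    simp only [Units.val_mul]
    ring
  smul_zero P := by
    funext x
    show ((P⁻¹.1 (x, 1)).2 : ℤ) * 0 = 0
    simp
  smul_add P f g := by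
    funext x
    show ((P⁻¹.1 (x, 1)).2 : ℤ) * (f _ + g _) = _ * f _ + _ * g _
    ring

theorem eqv_smul_apply (P : Eqv L ℤˣ) (f : L → ℤ) (x : L) :
    (P • f) x = ((P⁻¹.1 (x, 1)).2 : ℤ) * f (P⁻¹.1 (x, 1)).1 := rfl

theorem eqv_fst_mul (P Q : Eqv L ℤˣ) (x : L) :
    ((P * Q).1 (x, 1)).1 = (P.1 ((Q.1 (x, 1)).1, 1)).1 := by
  have : (P * Q).1 (x, 1) = P.1 ((Q.1 (x, 1)).1, (Q.1 (x, 1)).2) := rfl
  rw [this, Eqv.apply P]

theorem eqv_fst_inj (P : Eqv L ℤˣ) {x y : L} (h : (P.1 (x, 1)).1 = (P.1 (y, 1)).1) : x = y := by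
  have := congrArg (fun z => (P⁻¹.1 (z, 1)).1) h
  simpa only [← eqv_fst_mul, inv_mul_cancel, OneMemClass.coe_one, Equiv.Perm.coe_one, id] using this

theorem eqv_smul_sg (P : Eqv L ℤˣ) (l : L) :
    P • (sg l : L → ℤ) = ((P.1 (l, 1)).2 : ℤ) • sg (P.1 (l, 1)).1 := by
  funext x
  rw [eqv_smul_apply, Pi.smul_apply, smul_eq_mul]
  by_cases hx : x = (P.1 (l, 1)).1
  · have h1 : P⁻¹.1 ((P.1 (l, 1)).1, (P.1 (l, 1)).2) = (l, 1) := by simp
    rw [Eqv.apply P⁻¹, ← hx, Prod.mk.injEq] at h1
    have h2 : (P⁻¹.1 (x, 1)).2 = (P.1 (l, 1)).2 := by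
      rw [eq_inv_of_mul_eq_one_left h1.2, Int.units_inv_eq_self]
    rw [h1.1, h2]
    simp [sg, hx]
  · have : (P⁻¹.1 (x, 1)).1 ≠ l := by
      rintro rfl
      apply hx
      rw [← eqv_fst_mul, mul_inv_cancel]
      rfl
    rw [sg, sg, if_neg hx, if_neg this, mul_zero, mul_zero]

end Signed

section Lab

variable {P Q : Type} [CommRing P] [CommRing Q] (par : P →+* ZMod 2)

/-- action of the generators on the labels -/
def kap : Option (Fin 6) → P × Q → P × Q
  | none, x => (1 - x.1, 1 - x.2)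
  | some i, x => (if i = 0 then -x.1 else if i = 1 then 2 - x.1 else x.1,
      if i = 4 then -x.2 else if i = 3 then 2 - x.2 else x.2)

/-- action of the generators on the two types of labels -/
def kT : Option (Fin 6) → ZMod 2 → ZMod 2
  | none, z => 1 - z
  | some _, z => z

/-- signs of the generators on the two types of labels -/
def sT : Option (Fin 6) → ZMod 2 → ℤˣ
  | none, _ => 1
  | some i, z => if (z = 0 ∧ (i = 1 ∨ i = 2 ∨ i = 3)) ∨ (z = 1 ∧ (i = 0 ∨ i = 4 ∨ i = 5))
      then -1 else 1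

theorem kap_kap (e : Option (Fin 6)) (x : P × Q) : kap e (kap e x) = x := by
  rcases e with _ | i
  · simp [kap]
  · fin_cases i <;> simp [kap]

theorem par_kap (e : Option (Fin 6)) (x : P × Q) : par (kap e x).1 = kT e (par x.1) := by
  have h2 : par 2 = 0 := by rw [map_ofNat]; rfl
  rcases e with _ | i
  · simp [kap, kT]
  · fin_cases i <;> simp [kap, kT, h2]

variable (Q) in
/-- the signed permutations of the generators -/
def piE (e : Option (Fin 6)) : Eqv (P × Q) ℤˣ :=
  cocyc (kap e) (fun x => sT e (par x.1)) (kap_kap e) (by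
    intro x
    rw [par_kap]
    generalize par x.1 = z
    revert e z
    decide)

theorem piE_apply (e : Option (Fin 6)) (x : P × Q) (u : ℤˣ) :
    (piE Q par e).1 (x, u) = (kap e x, sT e (par x.1) * u) := rfl

theorem piE_sq (e : Option (Fin 6)) : (piE Q par e : Eqv (P × Q) ℤˣ) * piE Q par e = 1 :=
  cocyc_sq _ _ _ _

theorem piE_inv (e : Option (Fin 6)) : (piE Q par e : Eqv (P × Q) ℤˣ)⁻¹ = piE Q par e :=
  inv_eq_of_mul_eq_one_right (piE_sq par e)

variable (Q) in
theorem exists_pi : ∃ π : Wh →* Eqv (P × Q) ℤˣ, ∀ e, π (wl e) = piE Q par e := by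
  apply wlift _ (piE_sq par)
  · intro i j hij
    apply Eqv.ext'
    intro x
    simp only [Subgroup.coe_mul, Equiv.Perm.mul_apply, piE_apply, par_kap, Prod.mk.injEq]
    constructor
    · fin_cases i <;> fin_cases j <;> simp [kap, cm] at hij ⊢
    · simp [kT, mul_comm]
  · intro i
    apply Eqv.ext'
    intro x
    simp only [Subgroup.coe_mul, Equiv.Perm.mul_apply, piE_apply, par_kap, Prod.mk.injEq]
    constructor
    · fin_cases i <;> simp [kap, sw] <;> ring
    · generalize par x.1 = z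
      revert i z
      decide

variable (Q) in
/-- the signed action on labels -/
noncomputable def piW : Wh →* Eqv (P × Q) ℤˣ := (exists_pi Q par).choose

theorem piW_wl (e : Option (Fin 6)) : (piW Q par (wl e) : Eqv (P × Q) ℤˣ) = piE Q par e :=
  (exists_pi Q par).choose_spec e

theorem piW_cons (e : Option (Fin 6)) (u : List (Option (Fin 6))) (y : (P × Q) × ℤˣ) :
    (piW Q par (wev (e :: u))).1 y = (piE Q par e).1 ((piW Q par (wev u)).1 y) := by
  rw [wev_cons, map_mul, piW_wl]; rfl

theorem piW_nil (y : (P × Q) × ℤˣ) : (piW Q par (wev [])).1 y = y := by simp [wev]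

theorem piW_wc (x : P × Q) : (piW Q par wc).1 (x, 1) = ((x.1 + 1, x.2 + 1), 1) := by
  simp only [wc, piW_cons, piW_nil, piE_apply, par_kap, Prod.mk.injEq]
  refine ⟨by simp [kap]; constructor <;> ring, ?_⟩
  generalize par x.1 = z
  revert z
  decide

theorem piW_wt (x : P × Q) : (piW Q par wt).1 (x, 1) = ((-1 - x.1, x.2 - 1), 1) := by
  simp only [wt, piW_cons, piW_nil, piE_apply, par_kap, Prod.mk.injEq]
  refine ⟨by simp [kap]; ring, ?_⟩
  generalize par x.1 = z
  revert z
  decide

theorem piW_mer (x : P × Q) : (piW Q par (mer wc wt)).1 (x, 1) = ((x.1 - 2, x.2 + 2), 1) := by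
  rw [mer_w]
  simp only [piW_cons, piW_nil, piE_apply, par_kap, Prod.mk.injEq]
  refine ⟨by simp [kap]; ring, ?_⟩
  generalize par x.1 = z
  revert z
  decide

theorem piW_wA (x : P × Q) : (piW Q par wA).1 (x, 1) = ((x.1 + 4, x.2), 1) := by
  simp only [wA, piW_cons, piW_nil, piE_apply, par_kap, Prod.mk.injEq]
  refine ⟨by simp [kap]; ring, ?_⟩
  generalize par x.1 = z
  revert z
  decide

theorem piW_wB (x : P × Q) : (piW Q par wB).1 (x, 1) = ((x.1, x.2 + 4), 1) := by
  simp only [wB, piW_cons, piW_nil, piE_apply, par_kap, Prod.mk.injEq]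
  refine ⟨by simp [kap]; ring, ?_⟩
  generalize par x.1 = z
  revert z
  decide

theorem pow_transl {w : Wh} {u : P} {v : Q}
    (hw : ∀ x : P × Q, (piW Q par w).1 (x, 1) = ((x.1 + u, x.2 + v), 1)) (n : ℤ) (x : P × Q) :
    (piW Q par (w ^ n)).1 (x, 1) = ((x.1 + n * u, x.2 + n * v), 1) := by
  induction n using Int.induction_on generalizing x with
  | zero => simp
  | succ n ih =>
    rw [zpow_add_one, map_mul, Subgroup.coe_mul, Equiv.Perm.mul_apply, hw, ih]
    push_cast
    congr 2 <;> ring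
  | pred n ih =>
    have h1 : (piW Q par w⁻¹).1 (x, 1) = ((x.1 - u, x.2 - v), 1) := by
      rw [map_inv, Subgroup.coe_inv, Equiv.Perm.inv_eq_iff_eq, hw]
      simp
    rw [zpow_sub_one, map_mul, Subgroup.coe_mul, Equiv.Perm.mul_apply, h1, ih]
    push_cast
    congr 2 <;> ring

/-- wall crossed by a generator -/
noncomputable def vE : Option (Fin 6) → (P × Q → ℤ)
  | none => 0
  | some i => if i = 2 then sg (0, 0) else if i = 5 then sg (1, 1) else 0

theorem piE_sg (e : Option (Fin 6)) (l : P × Q) :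
    piE Q par e • (sg l : P × Q → ℤ) = (sT e (par l.1) : ℤ) • sg (kap e l) := by
  rw [eqv_smul_sg, piE_apply, mul_one]

variable (Q) in
/-- the affine action of a generator -/
noncomputable def affE (e : Option (Fin 6)) : Equiv.Perm (P × Q → ℤ) :=
  (MulAction.toPerm (piE Q par e)).trans (Equiv.addRight (vE e))

theorem affE_apply (e : Option (Fin 6)) (f : P × Q → ℤ) :
    affE Q par e f = piE Q par e • f + vE e := rfl

variable (Q) in
theorem exists_aff : ∃ Φ : Wh →* Equiv.Perm (P × Q → ℤ), ∀ e, Φ (wl e) = affE Q par e := by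
  have h2 : (2 : P) - 1 = 1 := by ring
  have h2' : (2 : Q) - 1 = 1 := by ring
  apply wlift
  · intro e
    ext1 f
    simp only [Equiv.Perm.mul_apply, affE_apply, smul_add, ← mul_smul, piE_sq, one_smul,
      Equiv.Perm.one_apply, add_assoc, add_eq_left]
    rcases e with _ | i
    · simp [vE]
    · fin_cases i <;> simp [vE, piE_sg, kap, sT]
  · intro i j hij
    ext1 f
    have := congrArg (piW Q par) (wl_comm i j hij)
    simp only [map_mul, piW_wl] at this
    simp only [Equiv.Perm.mul_apply, affE_apply, smul_add, ← mul_smul, this, add_assoc,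
      add_right_inj]
    fin_cases i <;> fin_cases j <;> simp [cm] at hij <;>
      simp [vE, piE_sg, kap, sT, h2, h2', add_comm]
  · intro i
    ext1 f
    have := congrArg (piW Q par) (wl_sw i)
    simp only [map_mul, piW_wl] at this
    simp only [Equiv.Perm.mul_apply, affE_apply, smul_add, ← mul_smul, this, add_assoc,
      add_right_inj]
    fin_cases i <;> simp [vE, piE_sg, kap, sT, sw]

variable (Q) in
/-- the cocycle counting the walls crossed, label by label -/
noncomputable def th (w : Wh) : P × Q → ℤ := (exists_aff Q par).choose w 0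

theorem aff_apply (w : Wh) (f : P × Q → ℤ) :
    (exists_aff Q par).choose w f = piW Q par w • f + th Q par w := by
  induction w using w_induction generalizing f with
  | h1 => simp [th]
  | hm e w ih =>
    have hs := (exists_aff Q par).choose_spec e
    rw [th, map_mul, map_mul, Equiv.Perm.mul_apply, Equiv.Perm.mul_apply, hs, ih, ih, piW_wl,
      affE_apply, affE_apply, mul_smul]
    simp [add_assoc]

theorem th_mul (w w' : Wh) : (th Q par (w * w') : P × Q → ℤ) = th Q par w + piW Q par w • th Q par w' := by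
  rw [th, map_mul, Equiv.Perm.mul_apply, aff_apply, add_comm]
  rfl

theorem th_one : (th Q par 1 : P × Q → ℤ) = 0 := by simp [th]

theorem th_wl (e : Option (Fin 6)) : (th Q par (wl e) : P × Q → ℤ) = vE e := by
  rw [th, (exists_aff Q par).choose_spec e, affE_apply]
  simp

theorem th_cons (e : Option (Fin 6)) (u : List (Option (Fin 6))) :
    (th Q par (wev (e :: u)) : P × Q → ℤ) = vE e + piE Q par e • th Q par (wev u) := by
  rw [wev_cons, th_mul, th_wl, piW_wl]

theorem th_nil : (th Q par (wev []) : P × Q → ℤ) = 0 := by simp [wev, th_one]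

theorem th_wc : (th Q par wc : P × Q → ℤ) = 0 := by simp [wc, th_cons, th_nil, vE]

theorem th_wt : (th Q par wt : P × Q → ℤ) = sg (0, 0) := by simp [wt, th_cons, th_nil, vE]

theorem th_wA : (th Q par wA : P × Q → ℤ) = 0 := by simp [wA, th_cons, th_nil, vE]

theorem th_wB : (th Q par wB : P × Q → ℤ) = 0 := by simp [wB, th_cons, th_nil, vE]

theorem th_mer : (th Q par (mer wc wt) : P × Q → ℤ) = 0 := by
  rw [mer_w]; simp [th_cons, th_nil, vE]

theorem th_pow {w : Wh} (h : (th Q par w : P × Q → ℤ) = 0) (n : ℕ) :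
    (th Q par (w ^ n) : P × Q → ℤ) = 0 := by
  induction n with
  | zero => simp [th_one]
  | succ n ih => rw [pow_succ, th_mul, ih, h]; simp

theorem th_inv (w : Wh) : (th Q par w⁻¹ : P × Q → ℤ) = -(piW Q par w⁻¹ • th Q par w) := by
  have := th_mul (Q := Q) par w⁻¹ w
  rw [inv_mul_cancel, th_one] at this
  exact eq_neg_of_add_eq_zero_left this.symm

variable [Fintype P] [Fintype Q]

/-- number of walls of one type -/
def cnt (k : ℕ) (z : ZMod 2) (f : P × Q → ℤ) : ZMod k :=
  ∑ l, if par l.1 = z then (f l : ZMod k) else 0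

theorem cnt_piE (k : ℕ) (e : Option (Fin 6)) (z : ZMod 2) (f : P × Q → ℤ) :
    cnt par k z (piE Q par e • f) = ((sT e z : ℤ) : ZMod k) * cnt par k (kT e z) f := by
  unfold cnt
  rw [Finset.mul_sum, ← Equiv.sum_comp (Function.Involutive.toPerm (kap e) (kap_kap e))]
  refine Finset.sum_congr rfl fun l _ => ?_
  have hk : ∀ a b, kT e a = b ↔ a = kT e b := by revert e; decide
  simp only [Function.Involutive.coe_toPerm, eqv_smul_apply, piE_inv, piE_apply, kap_kap, par_kap,
    hk, mul_one]
  split_ifs with h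
  · have : kT e (kT e z) = z := (hk _ _).2 rfl
    rw [h, this]
    push_cast
    rfl
  · simp

/-- the invariant lattice -/
def Lam (m k : ℕ) : AddSubgroup (P × Q → ℤ) where
  carrier := {f | (∀ l, (f l : ZMod m) = 0) ∧ ∀ z, cnt par k z f = 0}
  zero_mem' := by simp [cnt]
  add_mem' := by
    rintro f g ⟨h1, h2⟩ ⟨h3, h4⟩
    refine ⟨fun l => by simp [h1, h3], fun z => ?_⟩
    have : cnt par k z (f + g) = cnt par k z f + cnt par k z g := by
      simp only [cnt, ← Finset.sum_add_distrib]
      refine Finset.sum_congr rfl fun l _ => ?_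
      split_ifs <;> simp
    rw [this, h2, h4, add_zero]
  neg_mem' := by
    rintro f ⟨h1, h2⟩
    refine ⟨fun l => by simp [h1], fun z => ?_⟩
    have : cnt par k z (-f) = -cnt par k z f := by
      simp only [cnt, ← Finset.sum_neg_distrib]
      refine Finset.sum_congr rfl fun l _ => ?_
      split_ifs <;> simp
    rw [this, h2, neg_zero]

theorem Lam_smul (m k : ℕ) (w : Wh) {f : P × Q → ℤ} (hf : f ∈ Lam par m k) :
    piW Q par w • f ∈ Lam par m k := by
  induction w using w_induction with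
  | h1 => simpa using hf
  | hm e w ih =>
    rw [map_mul, mul_smul, piW_wl]
    refine ⟨fun l => ?_, fun z => by rw [cnt_piE, ih.2, mul_zero]⟩
    rw [eqv_smul_apply, Int.cast_mul, ih.1, mul_zero]

theorem Lam_smul_iff (m k : ℕ) (w : Wh) {f : P × Q → ℤ} :
    piW Q par w • f ∈ Lam par m k ↔ f ∈ Lam par m k := by
  refine ⟨fun h => ?_, Lam_smul par m k w⟩
  have := Lam_smul par m k w⁻¹ h
  rwa [← mul_smul, ← map_mul, inv_mul_cancel, map_one, one_smul] at this

/-- the type of a label -/
def bT (k : ℕ) (l : P × Q) : ZMod k := if par l.1 = 0 then 1 else 0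

/-- reduction to the deck group -/
noncomputable def pr (m k : ℕ) : (P × Q → ℤ) →+ (P × Q → ZMod m) × ZMod k × ZMod k where
  toFun f := ∑ l, f l • lab m k (bT par k) l
  map_zero' := by simp
  map_add' f g := by simp [add_smul, Finset.sum_add_distrib]

omit [CommRing Q] in
theorem pr_sg (m k : ℕ) (l : P × Q) : pr par m k (sg l) = lab m k (bT par k) l := by
  show ∑ l', (sg l : P × Q → ℤ) l' • lab m k (bT par k) l' = _
  rw [Finset.sum_eq_single l (fun b _ hb => by simp [sg, hb]) (by simp)]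
  simp [sg]

omit [CommRing Q] in
theorem pr_eq_zero (m k : ℕ) (f : P × Q → ℤ) : pr par m k f = 0 ↔ f ∈ Lam par m k := by
  have e1 : (pr par m k f).1 = fun l => (f l : ZMod m) := by
    funext l
    show (∑ l', f l' • lab m k (bT par k) l').1 l = _
    rw [Prod.fst_sum, Finset.sum_apply, Finset.sum_eq_single l
      (fun b _ hb => by simp [lab, sg, hb.symm]) (by simp)]
    simp [lab, sg]
  have e2 : (pr par m k f).2.1 = cnt par k 0 f + cnt par k 1 f := by
    show (∑ l', f l' • lab m k (bT par k) l').2.1 = _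
    rw [Prod.snd_sum, Prod.fst_sum, cnt, cnt, ← Finset.sum_add_distrib]
    refine Finset.sum_congr rfl fun l _ => ?_
    have : ∀ z : ZMod 2, z = 0 ∨ z = 1 := by decide
    rcases this (par l.1) with h | h <;> simp [lab, h]
  have e3 : (pr par m k f).2.2 = cnt par k 0 f := by
    show (∑ l', f l' • lab m k (bT par k) l').2.2 = _
    rw [Prod.snd_sum, Prod.snd_sum, cnt]
    refine Finset.sum_congr rfl fun l _ => ?_
    simp [lab, bT]
  constructor
  · intro h
    rw [h] at e1 e2 e3
    refine ⟨fun l => (congrFun e1 l).symm, fun z => ?_⟩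
    have : ∀ z : ZMod 2, z = 0 ∨ z = 1 := by decide
    rcases this z with rfl | rfl
    · exact e3.symm
    · rw [← e3] at e2
      simpa using e2.symm
  · rintro ⟨h1, h2⟩
    refine Prod.ext ?_ (Prod.ext ?_ ?_)
    · rw [e1]; exact funext h1
    · rw [e2, h2, h2]; simp
    · rw [e3, h2]; rfl

end Lab

end TorsW2
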