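import Pool.Agent.Lib.MP_004c47_gt.DefsW2

/-! Finite quotients of the extended reflection group with cusp translations of coprime orders. -/

namespace TorsW2

namespace Resid

/-- constant part of the Cartan matrix -/
def c0 : Fin 6 → Fin 6 → ℤ :=
  ![![2, 0, 0, 0, 0, -2], ![0, 2, -2, 0, 0, 0], ![0, -2, 2, -2, 0, 0],
    ![0, 0, -2, 2, 0, 0], ![0, 0, 0, 0, 2, -2], ![-2, 0, 0, 0, -2, 2]]

/-- position of the first parameter -/
def cx : Fin 6 → Fin 6 → ℤ :=
  ![![0, 1, 0, 0, 0, 0], ![1, 0, 0, 0, 0, 0], ![0, 0, 0, 0, 0, 0],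
    ![0, 0, 0, 0, 0, 0], ![0, 0, 0, 0, 0, 0], ![0, 0, 0, 0, 0, 0]]

/-- position of the second parameter -/
def cy : Fin 6 → Fin 6 → ℤ :=
  ![![0, 0, 0, 0, 0, 0], ![0, 0, 0, 0, 0, 0], ![0, 0, 0, 0, 0, 0],
    ![0, 0, 0, 0, 1, 0], ![0, 0, 0, 1, 0, 0], ![0, 0, 0, 0, 0, 0]]

variable {O O' : Type*} [CommRing O] [CommRing O']

/-- the Cartan matrix with two parameters -/
def car (x y : O) (i j : Fin 6) : O := c0 i j - cx i j * x - cy i j * y

theorem car_self (x y : O) (s : Fin 6) : car x y s s = 2 := by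
  have h : ∀ s, c0 s s = 2 ∧ cx s s = 0 ∧ cy s s = 0 := by decide
  simp [car, h s]

theorem car_cm (x y : O) {s t : Fin 6} (hc : cm s t = true) :
    car x y s t = 0 ∧ car x y t s = 0 := by
  have h : ∀ s t, cm s t = true → c0 s t = 0 ∧ cx s t = 0 ∧ cy s t = 0 ∧
      c0 t s = 0 ∧ cx t s = 0 ∧ cy t s = 0 := by decide
  simp [car, h s t hc]

theorem car_sw (x y : O) (s t : Fin 6) : car x y s (sw t) = car x y (sw s) t := by
  have h : ∀ s t, c0 s (sw t) = c0 (sw s) t ∧ cx s (sw t) = cx (sw s) t ∧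
      cy s (sw t) = cy (sw s) t := by decide
  simp [car, h s t]

theorem sw_sw (s : Fin 6) : sw (sw s) = s := by
  revert s
  decide

theorem car_two (s t : Fin 6) :
    car (2 : ℤ) 2 s t = if s = t then 2 else if cm s t then 0 else -2 := by
  revert s t
  decide

/-- the action of the generators on vectors -/
def ract (x y : O) : Option (Fin 6) → (Fin 6 → O) → Fin 6 → O
  | none, v => fun t => v (sw t)
  | some s, v => fun t => v t - car x y s t * v s

theorem ract_invol (x y : O) (a : Option (Fin 6)) : Function.Involutive (ract x y a) := by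
  intro v
  funext t
  cases a with
  | none => simp only [ract, sw_sw]
  | some s =>
    simp only [ract, car_self]
    ring

theorem exists_rho (x y : O) :
    ∃ ρ : Wh →* Equiv.Perm (Fin 6 → O), ∀ a v, ρ (wl a) v = ract x y a v := by
  obtain ⟨ρ, h⟩ := wlift (fun a => (ract_invol x y a).toPerm)
    (fun a => Equiv.ext fun v => ract_invol x y a v)
    (fun i j hc => Equiv.ext fun v => funext fun t => by
      simp only [Equiv.Perm.mul_apply, Function.Involutive.coe_toPerm, ract, car_cm x y hc]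
      ring)
    (fun i => Equiv.ext fun v => funext fun t => by
      simp only [Equiv.Perm.mul_apply, Function.Involutive.coe_toPerm, ract, car_sw, sw_sw])
  exact ⟨ρ, fun a v => by rw [h]; rfl⟩

/-- the representation -/
noncomputable def rho (x y : O) : Wh →* Equiv.Perm (Fin 6 → O) := (exists_rho x y).choose

theorem rho_wl (x y : O) (a : Option (Fin 6)) (v : Fin 6 → O) :
    rho x y (wl a) v = ract x y a v := (exists_rho x y).choose_spec a v

theorem rho_map (φ : O →+* O') (x y : O) (w : Wh) (v : Fin 6 → O) (t : Fin 6) :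
    φ (rho x y w v t) = rho (φ x) (φ y) w (fun i => φ (v i)) t := by
  induction w using w_induction generalizing t with
  | h1 => simp
  | hm a w ih =>
    simp only [map_mul, Equiv.Perm.mul_apply, rho_wl]
    cases a with
    | none => exact ih _
    | some s => simp only [ract, car, map_sub, map_mul, map_intCast, ih]

/-- the vector attached to a word -/
noncomputable def vec (l : List (Fin 6)) : Fin 6 → ℤ := rho 2 2 (wev (l.map some)) fun _ => 1

theorem vec_nil (t : Fin 6) : vec [] t = 1 := by simp [vec, wev]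

theorem vec_of_eq {l m : List (Fin 6)} {s : Fin 6}
    (h : wev (l.map some) = wl (some s) * wev (m.map some)) (t : Fin 6) :
    vec l t = vec m t - (if s = t then 2 else if cm s t then 0 else -2) * vec m s := by
  rw [vec, h, map_mul, Equiv.Perm.mul_apply, rho_wl, ← car_two]
  rfl

theorem vec_cons (s : Fin 6) (m : List (Fin 6)) (t : Fin 6) :
    vec (s :: m) t = vec m t - (if s = t then 2 else if cm s t then 0 else -2) * vec m s :=
  vec_of_eq (l := s :: m) (wev_cons _ _) t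

theorem vec_odd (l : List (Fin 6)) (t : Fin 6) : vec l t % 2 = 1 := by
  induction l with
  | nil => rw [vec_nil]; rfl
  | cons s m ih =>
    rw [vec_cons]
    split_ifs <;> omega

/-- words in which every letter meets a positive entry -/
inductive Up : List (Fin 6) → Prop
  | nil : Up []
  | cons (s : Fin 6) (m : List (Fin 6)) : Up m → 0 < vec m s → Up (s :: m)

theorem cm_symm (s t : Fin 6) : cm s t = cm t s := by
  revert s t
  decide

theorem Up.add_pos {l : List (Fin 6)} (h : Up l) {s t : Fin 6} (h1 : s ≠ t)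
    (h2 : ¬cm s t = true) : 0 < vec l s + vec l t := by
  induction h with
  | nil => simp [vec_nil]
  | cons r m _ hr ih =>
    rw [vec_cons, vec_cons]
    by_cases a1 : r = s
    · subst a1
      rw [if_pos rfl, if_neg h1, if_neg h2]
      omega
    by_cases a2 : r = t
    · subst a2
      rw [if_pos rfl, if_neg a1, cm_symm, if_neg h2]
      omega
    rw [if_neg a1, if_neg a2]
    split_ifs <;> omega

theorem Up.exists_of_neg {l : List (Fin 6)} (h : Up l) {s : Fin 6} (hs : vec l s < 0) :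
    ∃ m, Up m ∧ wev (l.map some) = wl (some s) * wev (m.map some) := by
  induction h with
  | nil => simp [vec_nil] at hs
  | cons t m hm ht ih =>
    by_cases a1 : t = s
    · subst a1
      exact ⟨m, hm, wev_cons _ _⟩
    have a2 : cm t s = true := by
      by_contra a2
      have a3 := (Up.cons t m hm ht).add_pos a1 a2
      rw [vec_cons t m t, if_pos rfl] at a3
      omega
    rw [vec_cons, if_neg a1, if_pos a2, zero_mul, sub_zero] at hs
    obtain ⟨k, hk, e⟩ := ih hs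
    refine ⟨t :: k, Up.cons t k hk ?_, ?_⟩
    · rwa [vec_of_eq e, if_neg (Ne.symm a1), cm_symm, if_pos a2, zero_mul, sub_zero] at ht
    · simp only [List.map_cons, wev_cons]
      rw [e, ← mul_assoc, ← mul_assoc, wl_comm t s a2]

theorem exists_up (l : List (Fin 6)) : ∃ m, Up m ∧ wev (l.map some) = wev (m.map some) := by
  induction l with
  | nil => exact ⟨[], Up.nil, rfl⟩
  | cons s l ih =>
    obtain ⟨m, hm, e⟩ := ih
    by_cases h : 0 < vec m s
    · exact ⟨s :: m, Up.cons s m hm h, by simp only [List.map_cons, wev_cons, e]⟩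
    · obtain ⟨k, hk, e'⟩ := hm.exists_of_neg (s := s) (by have := vec_odd m s; omega)
      refine ⟨k, hk, ?_⟩
      rw [List.map_cons, wev_cons, e, e', ← mul_assoc, wl_sq, one_mul]

theorem faithful (l : List (Fin 6)) (h : wev (l.map some) ≠ 1) :
    ∃ t, rho (2 : ℤ) 2 (wev (l.map some)) (fun _ => 1) t ≠ 1 := by
  obtain ⟨m, hm, e⟩ := exists_up l
  rw [e] at h ⊢
  cases hm with
  | nil => exact absurd rfl h
  | cons s m _ hs =>
    refine ⟨s, fun a => ?_⟩
    have a1 := vec_cons s m s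
    rw [if_pos rfl, vec, a] at a1
    omega

theorem eigen_pow {X : Type*} (U : Equiv.Perm X) (f : X → O) (c : O)
    (h : ∀ v, f (U v) = c * f v) (n : ℕ) (v : X) : f ((U ^ n) v) = c ^ n * f v := by
  induction n with
  | zero => simp
  | succ n ih => rw [pow_succ', Equiv.Perm.mul_apply, h, ih, pow_succ', mul_assoc]

section Field

variable {F : Type*} [Field F]

theorem pow_A {ξ ζ : F} (y : F) (h0 : ξ * ζ = 1) (h1 : ξ ≠ ζ) {n : ℕ} (hn : ξ ^ n = 1) :
    rho (ξ + ζ) y (wA ^ n) = 1 := by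
  have hζ : ζ ^ n = 1 := by rw [← one_mul (ζ ^ n), ← hn, ← mul_pow, h0, hn, one_pow]
  have hU : ∀ v t, rho (ξ + ζ) y wA v t = ract (ξ + ζ) y (some 1) (ract (ξ + ζ) y (some 0)
      (ract (ξ + ζ) y (some 1) (ract (ξ + ζ) y (some 0) v))) t := fun v t => by
    simp [wA, wev, rho_wl]
  have hd : ξ - ζ ≠ 0 := sub_ne_zero.2 h1
  rw [map_pow]
  refine Equiv.ext fun v => ?_
  have e1 := eigen_pow (rho (ξ + ζ) y wA) (fun v => ξ * v 0 + v 1) (ξ ^ 4) (fun v => by
    simp [hU, ract, car, c0, cx, cy]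
    grind) n v
  have e2 := eigen_pow (rho (ξ + ζ) y wA) (fun v => ζ * v 0 + v 1) (ζ ^ 4) (fun v => by
    simp [hU, ract, car, c0, cx, cy]
    grind) n v
  have e3 := eigen_pow (rho (ξ + ζ) y wA)
    (fun v => ((ξ + ζ) ^ 2 - 4) * v 5 - 4 * v 0 - 2 * (ξ + ζ) * v 1) 1 (fun v => by
    simp [hU, ract, car, c0, cx, cy]
    ring) n v
  have e4 := eigen_pow (rho (ξ + ζ) y wA)
    (fun v => ((ξ + ζ) ^ 2 - 4) * v 2 - 4 * v 1 - 2 * (ξ + ζ) * v 0) 1 (fun v => by
    simp [hU, ract, car, c0, cx, cy]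
    ring) n v
  have e5 := eigen_pow (rho (ξ + ζ) y wA) (fun v => v 3) 1 (fun v => by
    simp [hU, ract, car, c0, cx, cy]) n v
  have e6 := eigen_pow (rho (ξ + ζ) y wA) (fun v => v 4) 1 (fun v => by
    simp [hU, ract, car, c0, cx, cy]) n v
  rw [← pow_mul, mul_comm 4, pow_mul, hn, one_pow, one_mul] at e1
  rw [← pow_mul, mul_comm 4, pow_mul, hζ, one_pow, one_mul] at e2
  rw [one_pow, one_mul] at e3 e4 e5 e6
  generalize (rho (ξ + ζ) y wA ^ n) v = u at e1 e2 e3 e4 e5 e6
  have a0 : u 0 = v 0 := mul_left_cancel₀ hd (by linear_combination e1 - e2)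
  have a1 : u 1 = v 1 := by linear_combination e1 - ξ * a0
  have a5 : u 5 = v 5 := mul_left_cancel₀ (mul_ne_zero hd hd)
    (by linear_combination e3 + 4 * a0 + 2 * (ξ + ζ) * a1 - 4 * (u 5 - v 5) * h0)
  have a2 : u 2 = v 2 := mul_left_cancel₀ (mul_ne_zero hd hd)
    (by linear_combination e4 + 4 * a1 + 2 * (ξ + ζ) * a0 - 4 * (u 2 - v 2) * h0)
  funext t
  fin_cases t
  exacts [a0, a1, a2, e5, e6, a5]

theorem pow_B {ξ ζ : F} (x : F) (h0 : ξ * ζ = 1) (h1 : ξ ≠ ζ) {n : ℕ} (hn : ξ ^ n = 1) :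
    rho x (ξ + ζ) (wB ^ n) = 1 := by
  have hζ : ζ ^ n = 1 := by rw [← one_mul (ζ ^ n), ← hn, ← mul_pow, h0, hn, one_pow]
  have hU : ∀ v t, rho x (ξ + ζ) wB v t = ract x (ξ + ζ) (some 3) (ract x (ξ + ζ) (some 4)
      (ract x (ξ + ζ) (some 3) (ract x (ξ + ζ) (some 4) v))) t := fun v t => by
    simp [wB, wev, rho_wl]
  have hd : ξ - ζ ≠ 0 := sub_ne_zero.2 h1
  rw [map_pow]
  refine Equiv.ext fun v => ?_
  have e1 := eigen_pow (rho x (ξ + ζ) wB) (fun v => ξ * v 4 + v 3) (ξ ^ 4) (fun v => by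
    simp [hU, ract, car, c0, cx, cy]
    grind) n v
  have e2 := eigen_pow (rho x (ξ + ζ) wB) (fun v => ζ * v 4 + v 3) (ζ ^ 4) (fun v => by
    simp [hU, ract, car, c0, cx, cy]
    grind) n v
  have e3 := eigen_pow (rho x (ξ + ζ) wB)
    (fun v => ((ξ + ζ) ^ 2 - 4) * v 5 - 4 * v 4 - 2 * (ξ + ζ) * v 3) 1 (fun v => by
    simp [hU, ract, car, c0, cx, cy]
    ring) n v
  have e4 := eigen_pow (rho x (ξ + ζ) wB)
    (fun v => ((ξ + ζ) ^ 2 - 4) * v 2 - 4 * v 3 - 2 * (ξ + ζ) * v 4) 1 (fun v => by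
    simp [hU, ract, car, c0, cx, cy]
    ring) n v
  have e5 := eigen_pow (rho x (ξ + ζ) wB) (fun v => v 0) 1 (fun v => by
    simp [hU, ract, car, c0, cx, cy]) n v
  have e6 := eigen_pow (rho x (ξ + ζ) wB) (fun v => v 1) 1 (fun v => by
    simp [hU, ract, car, c0, cx, cy]) n v
  rw [← pow_mul, mul_comm 4, pow_mul, hn, one_pow, one_mul] at e1
  rw [← pow_mul, mul_comm 4, pow_mul, hζ, one_pow, one_mul] at e2
  rw [one_pow, one_mul] at e3 e4 e5 e6
  generalize (rho x (ξ + ζ) wB ^ n) v = u at e1 e2 e3 e4 e5 e6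
  have a0 : u 4 = v 4 := mul_left_cancel₀ hd (by linear_combination e1 - e2)
  have a1 : u 3 = v 3 := by linear_combination e1 - ξ * a0
  have a5 : u 5 = v 5 := mul_left_cancel₀ (mul_ne_zero hd hd)
    (by linear_combination e3 + 4 * a0 + 2 * (ξ + ζ) * a1 - 4 * (u 5 - v 5) * h0)
  have a2 : u 2 = v 2 := mul_left_cancel₀ (mul_ne_zero hd hd)
    (by linear_combination e4 + 4 * a1 + 2 * (ξ + ζ) * a0 - 4 * (u 2 - v 2) * h0)
  funext t
  fin_cases t
  exacts [e5, e6, a2, a1, a0, a5]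

/-- traces of roots of unity of `p`-power order -/
def trs (F : Type*) [Field F] (p : ℕ) : Set F :=
  {x | ∃ (ξ ζ : F) (a : ℕ), ξ * ζ = 1 ∧ ξ ≠ ζ ∧ ξ ^ p ^ a = 1 ∧ x = ξ + ζ}

theorem trs_infinite [IsAlgClosed F] {p : ℕ} (hp : 2 ≤ p) (h : (p : F) ≠ 0) :
    (trs F p).Infinite := by
  have hex : ∀ a : ℕ, ∃ ξ : F, IsPrimitiveRoot ξ (p ^ (a + 2)) := fun a => by
    have : NeZero ((p ^ (a + 2) : ℕ) : F) := ⟨by rw [Nat.cast_pow]; exact pow_ne_zero _ h⟩
    exact HasEnoughRootsOfUnity.exists_primitiveRoot F (p ^ (a + 2))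
  choose ξ hξ using hex
  have h4 : ∀ a : ℕ, 2 < p ^ (a + 2) := fun a =>
    lt_of_lt_of_le (by norm_num : 2 < 2 ^ 2)
      ((Nat.pow_le_pow_left hp 2).trans (Nat.pow_le_pow_right (by omega) (by omega)))
  have h0 : ∀ a, ξ a ≠ 0 := fun a => (hξ a).ne_zero (by have := h4 a; omega)
  refine Set.infinite_of_injective_forall_mem (f := fun a => ξ a + (ξ a)⁻¹) (fun a b e => ?_)
    fun a => ⟨ξ a, (ξ a)⁻¹, a + 2, mul_inv_cancel₀ (h0 a), fun e => ?_, (hξ a).pow_eq_one, rfl⟩
  · have e1 : (ξ a - ξ b) * (ξ a - (ξ b)⁻¹) = 0 := by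
      have a1 := mul_inv_cancel₀ (h0 a)
      have a2 := mul_inv_cancel₀ (h0 b)
      simp only at e
      linear_combination ξ a * e - a1 + a2
    have e2 : IsPrimitiveRoot (ξ a) (p ^ (b + 2)) := by
      rcases mul_eq_zero.1 e1 with e2 | e2 <;> rw [sub_eq_zero.1 e2]
      exacts [hξ b, (hξ b).inv]
    have := Nat.pow_right_injective hp ((hξ a).unique e2)
    omega
  · refine (hξ a).pow_ne_one_of_pos_of_lt two_ne_zero (h4 a) ?_
    rw [sq]
    nth_rewrite 2 [e]
    exact mul_inv_cancel₀ (h0 a)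

end Field

theorem exists_wev (w : Wh) : ∃ u, w = wev u := by
  induction w using w_induction with
  | h1 => exact ⟨[], rfl⟩
  | hm a w ih =>
    obtain ⟨u, rfl⟩ := ih
    exact ⟨a :: u, (wev_cons a u).symm⟩

theorem resid_odd (l : List (Fin 6)) : ∃ N : Subgroup Wh, N.Normal ∧ N.FiniteIndex ∧ PC N ∧
    wev (l.map some) * wl none ∉ N := by
  obtain ⟨ε, hε⟩ := wlift (K := ℤˣ) (fun a => a.elim (-1) fun _ => 1)
    (fun a => by cases a <;> simp) (fun _ _ _ => rfl) fun _ => by simp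
  have h : ∀ l : List (Fin 6), ε (wev (l.map some)) = 1 := fun l => by
    induction l with
    | nil => exact map_one ε
    | cons s l ih => simp [wev_cons, ih, hε]
  refine ⟨ε.ker, inferInstance, inferInstance, ⟨0, 0, ?_, ?_⟩, fun e => ?_⟩
  · rw [pow_zero, pow_one]
    exact h [1, 0, 1, 0]
  · rw [pow_zero, pow_one]
    exact h [3, 4, 3, 4]
  · rw [MonoidHom.mem_ker, map_mul, h, hε] at e
    exact absurd e (by decide)

theorem resid_even (w : Wh) (t : Fin 6) (h : rho (2 : ℤ) 2 w (fun _ => 1) t ≠ 1) :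
    ∃ N : Subgroup Wh, N.Normal ∧ N.FiniteIndex ∧ PC N ∧ w ∉ N := by
  obtain ⟨l, hl, hp⟩ := Nat.exists_infinite_primes
    ((rho (2 : ℤ) 2 w (fun _ => 1) t - 1).natAbs + 4)
  have := Fact.mk hp
  let F := AlgebraicClosure (ZMod l)
  have hc : ∀ p : ℕ, 0 < p → p < 4 → (p : F) ≠ 0 := fun p h1 h2 e =>
    absurd (Nat.le_of_dvd h1 ((CharP.cast_eq_zero_iff F l p).1 e)) (by omega)
  have h1 : rho (2 : F) 2 w (fun _ => 1) t ≠ 1 := fun e => by
    have a1 := rho_map (Int.castRingHom F) 2 2 w (fun _ => 1) t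
    simp only [map_ofNat, map_one, e] at a1
    have a2 : ((rho (2 : ℤ) 2 w (fun _ => 1) t - 1 : ℤ) : F) = 0 := by
      rw [Int.cast_sub, Int.cast_one, sub_eq_zero]
      exact a1
    have a3 := Nat.le_of_dvd (Int.natAbs_pos.2 (sub_ne_zero.2 h))
      (Int.natCast_dvd.1 ((CharP.intCast_eq_zero_iff F l _).1 a2))
    omega
  have hev : ∀ z : Fin 2 → F, MvPolynomial.eval z (rho (MvPolynomial.X 0) (MvPolynomial.X 1) w
      (fun _ => 1) t) = rho (z 0) (z 1) w (fun _ => 1) t := fun z => by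
    rw [rho_map]
    simp only [MvPolynomial.eval_X, map_one]
  have h2 : ∃ x ∈ trs F 2, ∃ y ∈ trs F 3, rho x y w (fun _ => 1) t ≠ 1 := by
    by_contra hne
    push Not at hne
    have a1 : rho (MvPolynomial.X 0) (MvPolynomial.X 1) w (fun _ => 1) t =
        (1 : MvPolynomial (Fin 2) F) :=
      MvPolynomial.funext_set ![trs F 2, trs F 3] (fun i => by
        fin_cases i
        exacts [trs_infinite le_rfl (hc 2 (by norm_num) (by norm_num)),
          trs_infinite (by norm_num) (hc 3 (by norm_num) (by norm_num))]) fun z hz => by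
        rw [hev, map_one]
        exact hne _ (hz 0 trivial) _ (hz 1 trivial)
    have a2 := hev fun _ => 2
    rw [a1, map_one] at a2
    exact h1 a2.symm
  obtain ⟨x, ⟨ξ, ζ, a, a1, a2, a3, hx⟩, y, ⟨ξ', ζ', b, b1, b2, b3, hy⟩, h3⟩ := h2
  let A := Algebra.adjoin (ZMod l) ({x, y} : Set F)
  have : Module.Finite (ZMod l) A := Algebra.finite_adjoin_of_finite_of_isIntegral
    (Set.toFinite _) fun z _ => Algebra.IsIntegral.isIntegral z
  have : Finite A := Module.finite_of_finite (ZMod l)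
  let x' : A := ⟨x, Algebra.subset_adjoin (by simp)⟩
  let y' : A := ⟨y, Algebra.subset_adjoin (by simp)⟩
  have hn : ∀ g v s, ((rho x' y' g v s : A) : F) = rho x y g (fun i => (v i : F)) s :=
    fun g v s => rho_map A.val.toRingHom x' y' g v s
  have hk : ∀ g, rho x y g = 1 → g ∈ (rho x' y').ker := fun g e =>
    Equiv.ext fun v => funext fun s => Subtype.ext (by rw [hn, e]; rfl)
  refine ⟨(rho x' y').ker, inferInstance, inferInstance, ⟨a, b, hk _ ?_, hk _ ?_⟩, fun e => h3 ?_⟩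
  · rw [hx]
    exact pow_A y a1 a2 a3
  · rw [hy]
    exact pow_B x b1 b2 b3
  · have a4 := hn w (fun _ => 1) t
    rw [MonoidHom.mem_ker.1 e] at a4
    exact a4.symm

end Resid

theorem resid (w : Wh) (hw : w ≠ 1) :
    ∃ N : Subgroup Wh, N.Normal ∧ N.FiniteIndex ∧ PC N ∧ w ∉ N := by
  obtain ⟨u, rfl⟩ := Resid.exists_wev w
  rw [wnorm_spec] at hw ⊢
  split_ifs at hw ⊢
  · exact Resid.resid_odd _
  · rw [mul_one] at hw ⊢
    obtain ⟨t, ht⟩ := Resid.faithful _ hw
    exact Resid.resid_even _ t ht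

end TorsW2
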