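import Pool.Agent.Lib.MP_004c47_gt.StepW2
import Pool.Agent.Lib.MP_004c47_gt.ResidW2

/-! The tower. -/

namespace TorsW2

theorem main_surj : ∃ w : ℕ → Wh, Function.Surjective w := by
  have : Countable Wh := by
    refine Function.Surjective.countable (f := wev) fun w => ?_
    induction w using w_induction with
    | h1 => exact ⟨[], by simp [wev]⟩
    | hm a w ih =>
      obtain ⟨u, rfl⟩ := ih
      exact ⟨a :: u, wev_cons a u⟩
  exact exists_surjective_nat Wh

/-- isomorphic commutative groups have equivalent torsion subgroups -/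
def main_tors {A B : Type*} [CommGroup A] [CommGroup B] (e : A ≃* B) :
    CommGroup.torsion A ≃ CommGroup.torsion B :=
  e.toEquiv.subtypeEquiv fun _ => (e.injective.isOfFinOrder_iff (f := e.toMonoidHom)).symm

/-- admissible subgroups -/
def MainOK (N : Subgroup Wh) : Prop := N.Normal ∧ N.FiniteIndex ∧ PC N

theorem main_step (N : Subgroup Wh) (h : MainOK N) (w : Wh) (ε : ℝ) (hε : 0 < ε) :
    ∃ N' : Subgroup Wh, MainOK N' ∧ N' ≤ N ∧ (w ∈ N' → w = 1) ∧
      Finite (CommGroup.torsion (Abelianization N')) ∧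
      Real.log (Nat.card (CommGroup.torsion (Abelianization N'))) ≤ ε * N'.index := by
  obtain ⟨h1, h2, h3⟩ := h
  by_cases hw : w = 1
  · obtain ⟨N', a1, a2, a3, a4, a5, a6⟩ := step N h1 h2 h3 ε hε
    exact ⟨N', ⟨a2, a3, a4⟩, a1, fun _ => hw, a5, a6⟩
  · obtain ⟨M, m1, m2, m3, m4⟩ := resid w hw
    obtain ⟨N', a1, a2, a3, a4, a5, a6⟩ :=
      step (N ⊓ M) inferInstance inferInstance (h3.inf m3) ε hε
    exact ⟨N', ⟨a2, a3, a4⟩, a1.trans inf_le_left, fun h => absurd (a1 h).2 m4, a5, a6⟩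

theorem main_chain (N₀ : Subgroup Wh) (h : MainOK N₀) (w : ℕ → Wh) :
    ∃ T : ℕ → Subgroup Wh, T 0 ≤ N₀ ∧ (∀ i, T (i + 1) ≤ T i) ∧ ∀ i, MainOK (T i) ∧
      (w i ∈ T i → w i = 1) ∧ Finite (CommGroup.torsion (Abelianization (T i))) ∧
      Real.log (Nat.card (CommGroup.torsion (Abelianization (T i)))) ≤
        1 / ((i : ℝ) + 1) * (T i).index := by
  choose nx n1 n2 n3 using fun (N : {N // MainOK N}) (i : ℕ) =>
    main_step N.1 N.2 (w i) (1 / ((i : ℝ) + 1)) Nat.one_div_pos_of_nat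
  let T : ℕ → {N // MainOK N} := fun i => Nat.rec ⟨N₀, h⟩ (fun i N => ⟨nx N i, n1 N i⟩) i
  exact ⟨fun i => nx (T i) i, n2 (T 0) 0, fun i => n2 (T (i + 1)) (i + 1),
    fun i => ⟨n1 (T i) i, n3 (T i) i⟩⟩

theorem tower_of_embed {G : Type} [Group G] [Infinite G] (j : G →* Wh)
    (hj : Function.Injective j) (N₀ : Subgroup Wh) (hn : N₀.Normal) (hf : N₀.FiniteIndex)
    (hC : PC N₀) (hr : N₀ ≤ j.range) :
    ∃ N : ℕ → Subgroup G, (∀ i, (N i).Normal) ∧ (∀ i, (N i).FiniteIndex) ∧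
      (∀ i, N (i + 1) ≤ N i) ∧ (⨅ i, N i) = ⊥ ∧
      Filter.Tendsto (fun i => (N i).index) Filter.atTop Filter.atTop ∧
      (∀ i, Finite (CommGroup.torsion (Abelianization (N i)))) ∧
      Filter.Tendsto (fun i => Real.log (Nat.card (CommGroup.torsion (Abelianization (N i)))) /
        ((N i).index : ℝ)) Filter.atTop (nhds 0) := by
  obtain ⟨w, hw⟩ := main_surj
  obtain ⟨T, h0, hs, hT⟩ := main_chain N₀ ⟨hn, hf, hC⟩ w
  have hle : ∀ i, T i ≤ j.range := fun i =>
    (antitone_nat_of_succ_le hs (Nat.zero_le i)).trans (h0.trans hr)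
  have hidx : ∀ i, ((T i).comap j).index * j.range.index = (T i).index := fun i => by
    rw [Subgroup.index_comap, Subgroup.relIndex_mul_index (hle i)]
  have hfin : ∀ i, ((T i).comap j).FiniteIndex := fun i =>
    ⟨fun h => (hT i).1.2.1.index_ne_zero (by rw [← hidx, h, zero_mul])⟩
  have eqv : ∀ i, CommGroup.torsion (Abelianization ((T i).comap j)) ≃
      CommGroup.torsion (Abelianization (T i)) := fun i =>
    main_tors (((Subgroup.equivMapOfInjective _ j hj).trans
      (MulEquiv.subgroupCongr (Subgroup.map_comap_eq_self (hle i)))).abelianizationCongr)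
  have hsucc : ∀ i, (T (i + 1)).comap j ≤ (T i).comap j := fun i => Subgroup.comap_mono (hs i)
  have hbot : (⨅ i, (T i).comap j) = ⊥ := by
    refine eq_bot_iff.2 fun g hg => ?_
    obtain ⟨i, hi⟩ := hw (j g)
    have h1 : j g ∈ T i := Subgroup.mem_iInf.1 hg i
    rw [← hi] at h1
    exact hj ((hi.symm.trans ((hT i).2.1 h1)).trans (map_one j).symm)
  refine ⟨fun i => (T i).comap j, fun i => (hT i).1.1.comap j, hfin, hsucc, hbot,
    TorsTower37.index_tendsto _ hfin hsucc hbot, fun i => (eqv i).finite_iff.2 (hT i).2.2.1, ?_⟩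
  have lim := (tendsto_one_div_add_atTop_nhds_zero_nat (𝕜 := ℝ)).mul_const (j.range.index : ℝ)
  rw [zero_mul] at lim
  refine squeeze_zero (fun i => div_nonneg (Real.log_natCast_nonneg _) (Nat.cast_nonneg _))
    (fun i => ?_) lim
  have h0 : (0 : ℝ) < ((T i).comap j).index :=
    Nat.cast_pos.2 (Nat.pos_of_ne_zero (hfin i).index_ne_zero)
  rw [div_le_iff₀ h0, Nat.card_congr (eqv i), mul_assoc, ← Nat.cast_mul, mul_comm j.range.index,
    hidx]
  exact (hT i).2.2.2

theorem main : ∃ N : ℕ → Subgroup TorsTower37.Gm, (∀ i, (N i).Normal) ∧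
      (∀ i, (N i).FiniteIndex) ∧ (∀ i, N (i + 1) ≤ N i) ∧ (⨅ i, N i) = ⊥ ∧
      Filter.Tendsto (fun i => (N i).index) Filter.atTop Filter.atTop ∧
      (∀ i, Finite (CommGroup.torsion (Abelianization (N i)))) ∧
      Filter.Tendsto (fun i => Real.log (Nat.card (CommGroup.torsion (Abelianization (N i)))) /
        ((N i).index : ℝ)) Filter.atTop (nhds 0) := by
  have : Infinite TorsTower37.Gm :=
    Infinite.of_injective _ (SemidirectProduct.inr_injective (N := TorsTower37.F3))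
  obtain ⟨j, hj, N₀, hn, hf, hC, hr⟩ := embed_gm
  exact tower_of_embed j hj N₀ hn hf hC hr

end TorsW2
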