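import Pool.Agent.Lib.MP_004c47_gt.StepC45
import Pool.Agent.Lib.MP_004c47_gt.MainW2

/-! The cofinal tower. -/

namespace TorsW2

theorem wh_fg : Group.FG Wh :=
  Group.fg_iff.2 ⟨Set.range (PresentedGroup.of : _ → Wh), PresentedGroup.closure_range_of _,
    Set.finite_range _⟩

theorem enum_fi : ∃ H : ℕ → Subgroup Wh, (∀ i, (H i).Normal ∧ (H i).FiniteIndex) ∧
    ∀ K : Subgroup Wh, K.FiniteIndex → ∃ i, H i ≤ K := by
  classical
  obtain ⟨w, hw⟩ := main_surj
  have : Countable Wh := hw.countable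
  obtain ⟨S, hS⟩ := exists_surjective_nat (Finset Wh)
  refine ⟨fun i => if (Subgroup.closure (S i : Set Wh)).FiniteIndex then
    (Subgroup.closure (S i : Set Wh)).normalCore else ⊤, fun i => ?_, fun K hK => ?_⟩
  · simp only
    split_ifs with h
    · exact ⟨inferInstance, inferInstance⟩
    · exact ⟨inferInstance, inferInstance⟩
  · have := wh_fg
    obtain ⟨T, hT⟩ := (Group.fg_iff_subgroup_fg K).1 (Subgroup.fg_of_index_ne_zero K)
    obtain ⟨i, rfl⟩ := hS T
    refine ⟨i, ?_⟩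
    simp only
    rw [hT, if_pos hK]
    exact K.normalCore_le

theorem chainC (N₀ : Subgroup Wh) (hn : N₀.Normal) (hf : N₀.FiniteIndex) :
    ∃ T : ℕ → Subgroup Wh, T 0 ≤ N₀ ∧ (∀ i, T (i + 1) ≤ T i) ∧
      (∀ K : Subgroup Wh, K.FiniteIndex → ∃ i, T i ≤ K) ∧ ∀ i, ((T i).Normal ∧ (T i).FiniteIndex) ∧
      Finite (CommGroup.torsion (Abelianization (T i))) ∧
      Real.log (Nat.card (CommGroup.torsion (Abelianization (T i)))) ≤
        1 / ((i : ℝ) + 1) * (T i).index := by
  obtain ⟨H, hH, hK⟩ := enum_fi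
  choose nx n1 n2 n3 n4 using fun (N : {N : Subgroup Wh // N.Normal ∧ N.FiniteIndex}) (i : ℕ) =>
    stepC (N.1 ⊓ H i) (by have := N.2.1; have := (hH i).1; infer_instance)
      (by have := N.2.2; have := (hH i).2; infer_instance) (1 / ((i : ℝ) + 1))
      Nat.one_div_pos_of_nat
  let T : ℕ → {N : Subgroup Wh // N.Normal ∧ N.FiniteIndex} := fun i =>
    Nat.rec ⟨N₀, hn, hf⟩ (fun i N => ⟨nx N i, n2 N i, n3 N i⟩) i
  refine ⟨fun i => nx (T i) i, (n1 (T 0) 0).trans inf_le_left,
    fun i => (n1 (T (i + 1)) (i + 1)).trans inf_le_left, fun K h => ?_,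
    fun i => ⟨⟨n2 (T i) i, n3 (T i) i⟩, n4 (T i) i⟩⟩
  obtain ⟨i, hi⟩ := hK K h
  exact ⟨i, (n1 (T i) i).trans (inf_le_right.trans hi)⟩

theorem towerC {G : Type} [Group G] [Infinite G] (j : G →* Wh)
    (hj : Function.Injective j) (hr : j.range.FiniteIndex) :
    ∃ N : ℕ → Subgroup G, (∀ i, (N i).Normal) ∧ (∀ i, (N i).FiniteIndex) ∧
      (∀ i, N (i + 1) ≤ N i) ∧ (⨅ i, N i) = ⊥ ∧
      Filter.Tendsto (fun i => (N i).index) Filter.atTop Filter.atTop ∧
      (∀ H : Subgroup G, H.FiniteIndex → ∃ i, N i ≤ H) ∧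
      (∀ i, Finite (CommGroup.torsion (Abelianization (N i)))) ∧
      Filter.Tendsto (fun i => Real.log (Nat.card (CommGroup.torsion (Abelianization (N i)))) /
        ((N i).index : ℝ)) Filter.atTop (nhds 0) := by
  obtain ⟨T, h0, hs, hK, hT⟩ := chainC j.range.normalCore inferInstance inferInstance
  have hle : ∀ i, T i ≤ j.range := fun i =>
    (antitone_nat_of_succ_le hs (Nat.zero_le i)).trans (h0.trans j.range.normalCore_le)
  have hidx : ∀ i, ((T i).comap j).index * j.range.index = (T i).index := fun i => by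
    rw [Subgroup.index_comap, Subgroup.relIndex_mul_index (hle i)]
  have hfin : ∀ i, ((T i).comap j).FiniteIndex := fun i =>
    ⟨fun h => (hT i).1.2.index_ne_zero (by rw [← hidx, h, zero_mul])⟩
  have eqv : ∀ i, CommGroup.torsion (Abelianization ((T i).comap j)) ≃
      CommGroup.torsion (Abelianization (T i)) := fun i =>
    main_tors (((Subgroup.equivMapOfInjective _ j hj).trans
      (MulEquiv.subgroupCongr (Subgroup.map_comap_eq_self (hle i)))).abelianizationCongr)
  have hsucc : ∀ i, (T (i + 1)).comap j ≤ (T i).comap j := fun i => Subgroup.comap_mono (hs i)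
  have hbot : (⨅ i, (T i).comap j) = ⊥ := by
    refine eq_bot_iff.2 fun g hg => ?_
    by_contra hne
    obtain ⟨M, -, m2, -, m4⟩ := resid (j g) fun e => hne (hj (e.trans (map_one j).symm))
    obtain ⟨i, hi⟩ := hK M m2
    exact m4 (hi (Subgroup.mem_iInf.1 hg i))
  refine ⟨fun i => (T i).comap j, fun i => (hT i).1.1.comap j, hfin, hsucc, hbot,
    TorsTower37.index_tendsto _ hfin hsucc hbot, fun H hH => ?_,
    fun i => (eqv i).finite_iff.2 (hT i).2.1, ?_⟩
  · obtain ⟨i, hi⟩ := hK (H.map j) ⟨by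
      rw [Subgroup.index_map_of_injective H hj]
      exact mul_ne_zero hH.1 hr.1⟩
    exact ⟨i, (Subgroup.comap_mono hi).trans (Subgroup.comap_map_eq_self_of_injective hj H).le⟩
  have lim := (tendsto_one_div_add_atTop_nhds_zero_nat (𝕜 := ℝ)).mul_const (j.range.index : ℝ)
  rw [zero_mul] at lim
  refine squeeze_zero (fun i => div_nonneg (Real.log_natCast_nonneg _) (Nat.cast_nonneg _))
    (fun i => ?_) lim
  have h0 : (0 : ℝ) < ((T i).comap j).index :=
    Nat.cast_pos.2 (Nat.pos_of_ne_zero (hfin i).index_ne_zero)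
  rw [div_le_iff₀ h0, Nat.card_congr (eqv i), mul_assoc, ← Nat.cast_mul, mul_comm j.range.index,
    hidx]
  exact (hT i).2.2

theorem mainC : ∃ N : ℕ → Subgroup TorsTower37.Gm, (∀ i, (N i).Normal) ∧
      (∀ i, (N i).FiniteIndex) ∧ (∀ i, N (i + 1) ≤ N i) ∧ (⨅ i, N i) = ⊥ ∧
      Filter.Tendsto (fun i => (N i).index) Filter.atTop Filter.atTop ∧
      (∀ H : Subgroup TorsTower37.Gm, H.FiniteIndex → ∃ i, N i ≤ H) ∧
      (∀ i, Finite (CommGroup.torsion (Abelianization (N i)))) ∧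
      Filter.Tendsto (fun i => Real.log (Nat.card (CommGroup.torsion (Abelianization (N i)))) /
        ((N i).index : ℝ)) Filter.atTop (nhds 0) := by
  have : Infinite TorsTower37.Gm :=
    Infinite.of_injective _ (SemidirectProduct.inr_injective (N := TorsTower37.F3))
  obtain ⟨j, hj, N₀, -, hf, -, hr⟩ := embed_gm
  exact towerC j hj (Subgroup.finiteIndex_of_le hr)

end TorsW2
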