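import Pool.Agent.Lib.MP_004c47_gt.EmbedW2
import Pool.Agent.Lib.MP_004c47_gt.GeomW2
import Pool.Agent.Lib.MP_004c47_gt.GaussW2

/-! The monodromy `σ₁² σ₂⁻²` has no periodic conjugacy class except the peripheral ones. -/

namespace TorsW2

open TorsTower37 SemidirectProduct

theorem exists_jG : ∃ j : MT psi →* Wh, (∀ w, j (mtE psi w) = wev (trH genGm w)) ∧
    Function.Injective j := by
  obtain ⟨j, h1, h2, -⟩ := embed_gen psi_of psi_inv_of genGm 0 repGm mvGm tabGm
    (by decide +kernel) (by decide +kernel) (by decide +kernel) (by decide +kernel)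
    (by decide +kernel) (by decide +kernel) rfl (by decide +kernel) (by decide +kernel)
    (by decide +kernel)
  exact ⟨j, h1, h2⟩

/-- the embedding of the mapping torus group -/
noncomputable def jG : MT psi →* Wh := exists_jG.choose

theorem jG_mtE (w : List (Option (Fin 3) × Bool)) : jG (mtE psi w) = wev (trH genGm w) :=
  exists_jG.choose_spec.1 w

theorem jG_inj : Function.Injective jG := exists_jG.choose_spec.2

theorem jG_gen (e : Option (Fin 3)) : jG (mtL psi (e, true)) = wev (genGm e) := by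
  rw [← mtE_single, jG_mtE]
  simp [trH]

theorem coset (w : Wh) : ∃ c g, w = wev (repGm c) * jG g := by
  have h8 : ∀ e x, wnorm (e :: repGm x ++
      (repGm (mvGm e x) ++ trH genGm (tabGm e x)).reverse) = ([], false) := by decide +kernel
  induction w using w_induction with
  | h1 => exact ⟨0, 1, by simp [repGm, wev]⟩
  | hm a w ih =>
    obtain ⟨c, g, hg⟩ := ih
    refine ⟨mvGm a c, mtE psi (tabGm a c) * g, ?_⟩
    rw [map_mul, jG_mtE, ← mul_assoc, ← wev_append, ← wev_eq _ _ (h8 a c), wev_cons, mul_assoc,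
      ← hg]

theorem jG_run (g : MT psi) (l : List (Option (Fin 6))) (h : jG g = wev l) :
    l.foldr mvGm 0 = 0 := by
  have h2 : ∀ e x, mvGm e (mvGm e x) = x := by decide
  obtain ⟨π, hπ⟩ := wlift (fun e => Function.Involutive.toPerm (mvGm e) (h2 e))
    (fun a => Equiv.ext (h2 a))
    (fun i k h => Equiv.ext fun x => by
      show mvGm (some i) (mvGm (some k) x) = mvGm (some k) (mvGm (some i) x)
      revert i k x
      decide)
    (fun i => Equiv.ext fun x => by
      show mvGm none (mvGm (some i) x) = mvGm (some (sw i)) (mvGm none x)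
      revert i x
      decide)
  have hl : ∀ l x, π (wev l) x = l.foldr mvGm x := by
    intro l x
    induction l with
    | nil => simp [wev]
    | cons e l ih => rw [wev_cons, map_mul, Equiv.Perm.mul_apply, ih, hπ]; rfl
  rw [← hl, ← h]
  refine mt_top ((MulAction.stabilizer (Equiv.Perm (Fin 16)) 0).comap (π.comp jG)) (fun e => ?_) g
  show π (jG _) 0 = 0
  rw [jG_gen, hl]
  revert e
  decide

/-- the images of the generators in `SL₂(ℤ[i])` -/
def genS : Option (Fin 3) → S2
  | some 0 => ⟨⟨0, 1⟩, ⟨-1, -1⟩, ⟨1, 1⟩, ⟨-2, -1⟩, by decide⟩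
  | some 1 => ⟨⟨1, 0⟩, ⟨0, -2⟩, ⟨0, 0⟩, ⟨1, 0⟩, by decide⟩
  | some 2 => ⟨⟨-2, -1⟩, ⟨-1, 1⟩, ⟨-1, 1⟩, ⟨0, 1⟩, by decide⟩
  | none => ⟨⟨1, 0⟩, ⟨0, 0⟩, ⟨0, -2⟩, ⟨1, 0⟩, by decide⟩

/-- the point of the light cone given by a vector -/
def cvE (v : GaussianInt × GaussianInt) : Fin 6 → ℤ :=
  ![2 * (v.1 * star v.2).re, 2 * v.2.norm - 2 * (v.1 * star v.2).re, v.1.norm - v.2.norm,
    2 * v.2.norm - 2 * (v.1 * star v.2).im, 2 * (v.1 * star v.2).im,
    v.1.norm - 2 * (v.1 * star v.2).re - 2 * (v.1 * star v.2).im + v.2.norm]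

theorem exists_R : ∃ R : MT psi →* S2,
    ∀ g v, Ph (jG g) (cvE v) = cvE (S2.app (RingHom.id _) (R g) v) := by
  obtain ⟨R, h1, h2⟩ := mt_lift (φ := psi) (FreeGroup.lift fun i => genS (some i)) (genS none) (by
    intro i
    rw [psi_of]
    fin_cases i <;>
      simp only [psiW, evF, fL, List.map_cons, List.map_nil, List.prod_cons, List.prod_nil,
        if_true, Bool.false_eq_true, if_false, map_mul, map_inv, map_one,
        FreeGroup.lift_apply_of] <;> decide +kernel)
  let S : Subgroup (MT psi) :=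
    { carrier := {g | ∀ v, Ph (jG g) (cvE v) = cvE (S2.app (RingHom.id _) (R g) v)}
      one_mem' := fun v => by simp [S2.app_one]
      mul_mem' := fun ha hb v => by rw [map_mul, Ph_mul, hb, ha, map_mul, S2.app_mul]
      inv_mem' := fun {a} ha v => by
        have := ha (S2.app (RingHom.id _) (R a⁻¹) v)
        rw [← S2.app_mul, ← map_mul, mul_inv_cancel, map_one, S2.app_one] at this
        rw [← this, ← Ph_mul, ← map_mul, inv_mul_cancel]
        simp }
  refine ⟨R, mt_top S fun e v => ?_⟩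
  have : R (mtL psi (e, true)) = genS e := by
    cases e <;> simp [mtL, h1, h2, fL]
  rw [jG_gen, this, Ph_wev]
  funext t
  rcases e with _ | e
  · fin_cases t <;> simp [genGm, genS, rf, cm, cvE, S2.app, Zsqrtd.norm] <;> ring
  · fin_cases e <;> fin_cases t <;> simp [genGm, genS, rf, cm, cvE, S2.app, Zsqrtd.norm] <;> ring

theorem cvE_fut (v : GaussianInt × GaussianInt) : Fut (cvE v) := by
  refine ⟨⟨?_, ?_⟩, ?_, ?_⟩ <;> simp [cvE, lor, Zsqrtd.norm]
  · ring
  · ring
  · nlinarith [mul_self_nonneg v.1.re, mul_self_nonneg v.1.im, mul_self_nonneg v.2.re,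
      mul_self_nonneg v.2.im]

theorem cvE_ne {v : GaussianInt × GaussianInt} (h : v ≠ 0) : cvE v ≠ 0 := by
  intro h0
  have h2 := congrFun h0 2
  have h3 := congrFun h0 3
  have h4 := congrFun h0 4
  simp only [cvE, Matrix.cons_val, Pi.zero_apply] at h2 h3 h4
  have a1 : v.1.norm = 0 := by linarith
  have a2 : v.2.norm = 0 := by linarith
  exact h (Prod.ext (GaussianInt.norm_eq_zero.1 a1) (GaussianInt.norm_eq_zero.1 a2))

theorem eq_one_of_fix {g : MT psi} (h : ∀ v, Ph (jG g) (cvE v) = cvE v) : g = 1 := by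
  have e : (2 : ℤ) • v1 = (1 : ℤ) • cvE (⟨1, 1⟩, 1) +
      (1 : ℤ) • ((2 : ℤ) • cvE (1, 0) + (1 : ℤ) • cvE (0, 1)) := by decide
  have h1 : Ph (jG g) v1 = v1 := by
    have := Ph_smul (jG g) 2 v1
    rw [e, Ph_lin, Ph_lin, h, h, h, ← e] at this
    exact (smul_right_injective _ two_ne_zero this).symm
  rcases stab_v1 h1 with h2 | h2
  · exact jG_inj (by rw [h2, map_one])
  · have := h (0, 1)
    rw [h2, Ph_wl] at this
    exact absurd this (by decide)

theorem fix_of_trace {X : S2} (h : (X.a + X.d) ^ 2 = 4) :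
    ∃ v, v ≠ 0 ∧ cvE (S2.app (RingHom.id _) X v) = cvE v := by
  have key : ∀ ε : GaussianInt, ε * ε = 1 → X.a + X.d = 2 * ε →
      ∃ v, v ≠ 0 ∧ S2.app (RingHom.id _) X v = ε • v := by
    intro ε h1 h2
    by_cases h0 : ((X.b, ε - X.a) : GaussianInt × GaussianInt) = 0
    · simp only [Prod.mk_eq_zero] at h0
      refine ⟨(0, 1), by simp, ?_⟩
      simp only [S2.app, RingHom.id_apply, Prod.smul_mk, smul_eq_mul]
      ext1
      · linear_combination h0.1
      · linear_combination h2 + h0.2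
    · refine ⟨_, h0, ?_⟩
      simp only [S2.app, RingHom.id_apply, Prod.smul_mk, smul_eq_mul]
      ext1
      · ring
      · linear_combination ε * h2 - X.det + h1
  have : (X.a + X.d - 2) * (X.a + X.d + 2) = 0 := by linear_combination h
  rcases mul_eq_zero.1 this with h1 | h1
  · obtain ⟨v, h2, h3⟩ := key 1 (by simp) (by linear_combination h1)
    exact ⟨v, h2, by rw [h3, one_smul]⟩
  · obtain ⟨v, h2, h3⟩ := key (-1) (by simp) (by linear_combination h1)
    exact ⟨v, h2, by rw [h3]; simp [cvE]⟩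

/-- the loops around the four punctures -/
def bdW : Fin 4 → List (Fin 3 × Bool) :=
  ![[(0, true)], [(1, true)], [(2, true)], [(2, false), (1, false), (0, false)]]

/-- conjugating elements for the images of the puncture loops -/
def cjW : Fin 4 → List (Fin 3 × Bool) :=
  ![[(1, false), (0, false)], [(0, false), (2, true)],
    [(0, true), (1, true), (0, false), (2, true)], []]

/-- generators of the four peripheral subgroups -/
def peW (i : Fin 4) : Bool → List (Option (Fin 3) × Bool)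
  | true => (bdW i).map fun a => (some a.1, a.2)
  | false => ((cjW i).map fun a => (some a.1, a.2)) ++ [(none, true)]

/-- position of the four cusps -/
def cuR : Fin 4 → List (Option (Fin 6)) := ![[], [], [none], [some 2]]

/-- type of the four cusps -/
def cuK : Fin 4 → Bool := ![false, true, false, true]

/-- words in the peripheral generators, read in the reflection group -/
def peT (i : Fin 4) : List (Bool × Bool) → List (Option (Fin 6))
  | [] => []
  | a :: l => (if a.2 then trH genGm (peW i a.1) else (trH genGm (peW i a.1)).reverse) ++ peT i l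

theorem pe_true (i : Fin 4) : mtE psi (peW i true) = inl (evF (bdW i)) := by
  simp only [mtE, peW, evF, map_list_prod, List.map_map]
  rfl

theorem pe_false (i : Fin 4) : mtE psi (peW i false) = inl (evF (cjW i)) * mtS psi := by
  rw [peW, mtE_append, mtE_single]
  simp only [mtE, evF, map_list_prod, List.map_map]
  rfl

theorem pe_comm (i : Fin 4) : Commute (mtE psi (peW i true)) (mtE psi (peW i false)) := by
  show _ = _
  rw [← mtE_append, ← mtE_append]
  exact mtE_eq psi_of psi_inv_of _ _ (by revert i; decide +kernel)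

theorem stab_cusp (i : Fin 4) (g : MT psi)
    (h : Ph (jG g) (Ph (wev (cuR i).reverse) (vtx (cuK i))) =
      Ph (wev (cuR i).reverse) (vtx (cuK i))) :
    ∃ p q : ℤ, g = mtE psi (peW i true) ^ p * mtE psi (peW i false) ^ q := by
  let S : Subgroup (MT psi) :=
    { carrier := {g | ∃ p q : ℤ, g = mtE psi (peW i true) ^ p * mtE psi (peW i false) ^ q}
      one_mem' := ⟨0, 0, by simp⟩
      mul_mem' := by
        rintro _ _ ⟨p, q, rfl⟩ ⟨p', q', rfl⟩
        exact ⟨p + p', q + q', by
          rw [((pe_comm i).zpow_zpow p' q).symm.mul_mul_mul_comm, zpow_add, zpow_add]⟩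
      inv_mem' := by
        rintro _ ⟨p, q, rfl⟩
        exact ⟨-p, -q, by rw [((pe_comm i).zpow_zpow p q).eq, mul_inv_rev, zpow_neg, zpow_neg]⟩ }
  have hS : ∀ l, ∃ s ∈ S, jG s = wev (peT i l) := by
    intro l
    induction l with
    | nil => exact ⟨1, one_mem S, by simp [peT, wev]⟩
    | cons a l ih =>
      obtain ⟨s, hs, e⟩ := ih
      have m : mtE psi (peW i a.1) ∈ S := by
        cases a.1
        · exact ⟨0, 1, by simp⟩
        · exact ⟨1, 0, by simp⟩
      rw [peT, wev_append, ← e]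
      split_ifs
      · exact ⟨_, mul_mem m hs, by rw [map_mul, jG_mtE]⟩
      · exact ⟨_, mul_mem (inv_mem m) hs, by rw [map_mul, map_inv, jG_mtE, wev_reverse]⟩
  have fin : ∀ (i : Fin 4) (u : List (Option (Fin 6))), u ∈ [[], [1, 0], [3, 2], [1, 0, 3, 2],
      [1, 0, 1, 0], [3, 2, 3, 2]].map (List.map fun t => some (wal (cuK i) t)) → ∀ ε,
      ((cuR i).reverse ++ (u ++ fw (cuK i) ε) ++ cuR i).foldr mvGm 0 = 0 →
      ∃ l ∈ [[], [(true, true)], [(true, false)], [(false, true)], [(true, false), (false, true)],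
        [(true, true), (false, true)], [(true, true), (false, false)],
        [(false, true), (false, true)], [(true, false), (true, false)]],
      wnorm ((cuR i).reverse ++ (u ++ fw (cuK i) ε) ++ cuR i ++ (peT i l).reverse) =
        ([], false) := by decide +kernel
  set r := wev (cuR i) with hr
  set k := cuK i with hk
  have hy : Ph (r * jG g * r⁻¹) (vtx k) = vtx k := by
    rw [wev_reverse] at h
    rw [Ph_mul, Ph_mul, h, ← Ph_mul, mul_inv_cancel]
    simp
  obtain ⟨a, b, ε, hy⟩ := stab_vtx hy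
  have sq : ∀ u ∈ [[1, 0, 1, 0], [3, 2, 3, 2]].map (List.map fun t => some (wal k t)),
      ∃ s ∈ S, jG s = r⁻¹ * wev u * r := by
    intro u hu
    obtain ⟨l, -, hl⟩ := fin i u (List.map_subset _ (by decide) hu) (false, false, false) (by
      rw [hk] at hu
      clear * - hu
      revert i u
      decide +kernel)
    obtain ⟨s, hs, e⟩ := hS l
    refine ⟨s, hs, ?_⟩
    rw [e, ← wev_eq _ _ hl]
    simp [wev_append, wev_reverse, fw, ← hr, mul_assoc]
  obtain ⟨A, hA, eA⟩ := sq (List.map (fun t => some (wal k t)) [1, 0, 1, 0]) (by simp)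
  obtain ⟨B, hB, eB⟩ := sq (List.map (fun t => some (wal k t)) [3, 2, 3, 2]) (by simp)
  have e1 : wev (List.map (fun t => some (wal k t)) [1, 0, 1, 0]) = T1 k ^ (2 : ℤ) := by
    rw [zpow_two]; simp [T1, wev, mul_assoc]
  have e2 : wev (List.map (fun t => some (wal k t)) [3, 2, 3, 2]) = T2 k ^ (2 : ℤ) := by
    rw [zpow_two]; simp [T2, wev, mul_assoc]
  have hc : Commute (T1 k) (T2 k) := by
    show _ = _
    simp only [T1, T2, ← wev_append]
    cases k <;> exact wev_eq _ _ (by decide)
  have rem : ∃ u ∈ [[], [1, 0], [3, 2], [1, 0, 3, 2]].map (List.map fun t => some (wal k t)),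
      T1 k ^ (a % 2) * T2 k ^ (b % 2) = wev u := by
    rcases Int.emod_two_eq_zero_or_one a with h1 | h1 <;>
      rcases Int.emod_two_eq_zero_or_one b with h2 | h2 <;> simp [h1, h2, T1, T2, wev, mul_assoc]
  obtain ⟨u, hu, eu⟩ := rem
  have e3 : jG ((A ^ (a / 2) * B ^ (b / 2))⁻¹ * g) =
      wev ((cuR i).reverse ++ (u ++ fw k ε) ++ cuR i) := by
    rw [wev_append, wev_append, wev_append, wev_reverse, ← hr, ← eu, map_mul, map_inv, map_mul,
      map_zpow, map_zpow, eA, eB, e1, e2, inv_mul_eq_iff_eq_mul, show jG g =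
        r⁻¹ * (T1 k ^ a * T2 k ^ b * wev (fw k ε)) * r by rw [← hy]; group]
    have e4 : T1 k ^ a * T2 k ^ b = T1 k ^ (2 * (a / 2)) * T2 k ^ (2 * (b / 2)) *
        (T1 k ^ (a % 2) * T2 k ^ (b % 2)) := by
      rw [(hc.zpow_zpow _ _).symm.mul_mul_mul_comm, ← zpow_add, ← zpow_add, Int.mul_ediv_add_emod,
        Int.mul_ediv_add_emod]
    have e5 : ∀ (y : Wh) (n : ℤ), (r⁻¹ * y * r) ^ n = r⁻¹ * y ^ n * r := fun y n => by
      simpa using conj_zpow (a := r⁻¹) (b := y) (i := n)
    rw [e4, e5, e5, zpow_mul, zpow_mul]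
    group
  obtain ⟨l, -, hl⟩ := fin i u (List.map_subset _ (by decide) hu) ε (jG_run _ _ e3)
  obtain ⟨s, hs, e⟩ := hS l
  have : (A ^ (a / 2) * B ^ (b / 2))⁻¹ * g = s := jG_inj (by rw [e3, e, wev_eq _ _ hl])
  rw [inv_mul_eq_iff_eq_mul] at this
  exact this ▸ mul_mem (mul_mem (zpow_mem hA _) (zpow_mem hB _)) hs

theorem to_cusp (u : Fin 6 → ℤ) (h : Fut u) : ∃ (g : MT psi) (i : Fin 4) (n : ℤ),
    Ph (jG g) u = n • Ph (wev (cuR i).reverse) (vtx (cuK i)) := by
  obtain ⟨w, k, n, hw⟩ := to_vertex u h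
  obtain ⟨c, g, rfl⟩ := coset w
  obtain ⟨i, l, -, e⟩ : ∃ (i : Fin 4), ∃ l ∈ [[], [(some 2, false)], [(some 1, true)],
      [(some 1, true), (some 2, true)], [(some 1, true), (some 2, true), (some 1, true)]],
      (trH genGm l ++ (repGm c).reverse).foldr rf (vtx k) =
        (cuR i).reverse.foldr rf (vtx (cuK i)) := by
    clear hw
    revert c k
    decide +kernel
  refine ⟨mtE psi l * g, i, n, ?_⟩
  rw [← Ph_wev, ← Ph_wev] at e
  rw [← e, ← Ph_smul, ← hw, ← Ph_mul, wev_append, wev_reverse, map_mul, jG_mtE]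
  simp [mul_assoc]

theorem psi_bd (i : Fin 4) : IsConj (psi (evF (bdW i))) (evF (bdW i)) := by
  have := (pe_comm i).eq
  rw [pe_true, pe_false, mul_assoc, mtS_conj, ← mul_assoc, ← mul_assoc, mul_left_inj, ← map_mul,
    ← map_mul] at this
  exact isConj_iff.2 ⟨evF (cjW i), by rw [← inl_injective this]; group⟩

theorem periodic (x : F3) (m : ℕ) (hm : 0 < m) (h : IsConj ((psi ^ m) x) x) :
    ∃ (i : Fin 4) (k : ℤ), IsConj x (evF (bdW i) ^ k) := by
  by_cases hx : x = 1
  · exact ⟨0, 0, by simp [hx]⟩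
  obtain ⟨R, hR⟩ := exists_R
  obtain ⟨f, hf⟩ := isConj_iff.1 h
  have hc : (inl x : MT psi) * (inl f * inr (Multiplicative.ofAdd (m : ℤ))) =
      inl f * inr (Multiplicative.ofAdd (m : ℤ)) * inl x := by
    have := inl_aut (φ := zpowersHom (MulAut F3) psi) (Multiplicative.ofAdd (m : ℤ)) x
    simp only [zpowersHom_apply, toAdd_ofAdd, zpow_natCast] at this
    conv_lhs => rw [← hf, map_mul, map_mul, this]
    simp [mul_assoc]
  have ht := S2.parabolic (X := R (inl x)) (H := R (inl f * inr (Multiplicative.ofAdd (m : ℤ))))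
    (by rw [← map_mul, hc, map_mul]) (fun p q hpq => by
      have h1 : (inl x : MT psi) ^ p * (inl f * inr (Multiplicative.ofAdd (m : ℤ))) ^ q = 1 :=
        eq_one_of_fix fun v => by rw [hR, map_mul, map_zpow, map_zpow, hpq, S2.app_one]
      have h2 := congrArg (fun g => Multiplicative.toAdd (rightHom g)) h1
      simp [-rightHom_eq_right, hm.ne'] at h2
      rw [h2, zpow_zero, mul_one, ← map_zpow, ← map_one inl] at h1
      exact ⟨by simpa [hx] using inl_injective h1, h2⟩)
  obtain ⟨v, hv, hfix⟩ := fix_of_trace ht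
  rw [← hR] at hfix
  obtain ⟨g, i, n, hg⟩ := to_cusp _ (cvE_fut v)
  have hn : n ≠ 0 := by
    rintro rfl
    apply cvE_ne hv
    apply (Ph (jG g)).injective
    rw [hg, ← zero_smul ℤ (0 : Fin 6 → ℤ), Ph_smul]
    simp
  obtain ⟨p, q, e⟩ := stab_cusp i (g * inl x * g⁻¹) (by
    apply smul_right_injective _ hn
    simp only
    rw [← Ph_smul, ← hg, ← Ph_mul, ← map_mul, inv_mul_cancel_right, map_mul, Ph_mul, hfix])
  have hq : q = 0 := by
    have h2 := congrArg (fun g => Multiplicative.toAdd (rightHom g)) e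
    simpa [-rightHom_eq_right, pe_true, pe_false, mtS, eq_comm] using h2
  rw [hq, zpow_zero, mul_one] at e
  set τ := mtE psi (peW i false) ^ (-Multiplicative.toAdd (rightHom g)) with hτ
  obtain ⟨y, hy⟩ : τ * g ∈ (inl : F3 →* MT psi).range := by
    rw [range_inl_eq_ker_rightHom, MonoidHom.mem_ker]
    apply Multiplicative.toAdd.injective
    simp [-rightHom_eq_right, hτ, pe_false, mtS]
  refine ⟨i, p, isConj_iff.2 ⟨y, inl_injective (φ := zpowersHom (MulAut F3) psi) ?_⟩⟩
  rw [map_mul, map_mul, map_inv, hy, map_zpow, ← pe_true, mul_inv_rev,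
    show τ * g * inl x * (g⁻¹ * τ⁻¹) = τ * (g * inl x * g⁻¹) * τ⁻¹ by group, e, hτ,
    ← ((pe_comm i).zpow_zpow _ _).eq, mul_inv_cancel_right]

end TorsW2
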