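import Pool.Agent.Lib.MP_004c47_gt.SchreierW2

/-! The abelianisation of a point stabiliser embeds in the cokernel of the cellular boundary:
the complex with three kinds of edges and two kinds of two-cells. -/

namespace TorsW2

open Sch64 in
theorem tors_ab_le3 {Γ X Rw J : Type} [Group Γ] [Finite X] [Nonempty X] [Finite Rw] {c t : Γ}
    (hP : Pres Γ c t) (act : X → Γ → X) (act_one : ∀ x, act x 1 = x)
    (act_mul : ∀ x g g', act x (g * g') = act (act x g) g')
    (N : Subgroup Γ) (hN : ∀ x g, act x g = x ↔ g ∈ N)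
    (ft fc fm : X → Rw)
    (hdec : ∀ (Q : Type) (vt vc vm : X → Q),
      ∃ w : Rw → Q, ∀ x, w (ft x) = vt x ∧ w (fc x) = vc x ∧ w (fm x) = vm x)
    (Pc Sc : X → Rw → ℤ)
    (hPc : ∀ x, Pc x = sg (fc x) + sg (ft (act x c)) - sg (ft x) + sg (ft (act x (c * t)))
      - (sg (ft (act x (t * mer c t))) + sg (fm (act x t))) + sg (fc (act x (c * t * t))))
    (hSc : ∀ x, Sc x = sg (fc x) + sg (fm (act x c)) - sg (fm x) - sg (fc (act x (mer c t))))
    (col : J → Rw → ℤ)
    (hc1 : ∀ x, Pc x ∈ Submodule.span ℤ (Set.range col))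
    (hc2 : ∀ x, Sc x ∈ Submodule.span ℤ (Set.range col))
    (hc3 : ∀ j, (∃ x, col j = Pc x) ∨ ∃ x, col j = Sc x) :
    Finite (CommGroup.torsion (Abelianization N)) ∧
      Real.log (Nat.card (CommGroup.torsion (Abelianization N))) * Nat.card X ≤
        N.index * Real.log (Nat.card (torsCoker col)) := by
  classical
  let A : RAct Γ X := ⟨act, act_one, act_mul⟩
  have hN' : ∀ x g, A.act x g = x ↔ g ∈ N := hN
  set S : Submodule ℤ (Rw → ℤ) := Submodule.span ℤ (Set.range col) with hS
  -- the cellular cocycle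
  obtain ⟨ch, hch, hchc, hcht⟩ := exists_coc hP A (M := (Rw → ℤ) ⧸ S)
    (fun x => S.mkQ (sg (fc x))) (fun x => S.mkQ (sg (ft x))) (fun y => S.mkQ (sg (fm y)))
    (fun x => by
      have h0 : S.mkQ (Pc x) = 0 := (Submodule.Quotient.mk_eq_zero S).2 (hc1 x)
      rw [hPc] at h0
      simp only [map_add, map_sub, act_mul] at h0
      simp only [A, act_mul]
      rw [← sub_eq_zero, ← h0]
      abel)
    (fun y => by
      have h0 : S.mkQ (Sc y) = 0 := (Submodule.Quotient.mk_eq_zero S).2 (hc2 y)
      rw [hSc] at h0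
      simp only [map_add, map_sub] at h0
      simp only [A]
      rw [← sub_eq_zero, ← h0]
      abel)
  -- the Schreier cocycle
  obtain ⟨Om, hOm, hOmN⟩ := exists_om A N hN'
  obtain ⟨w, hw⟩ := hdec _ (Om t) (Om c) (Om (mer c t))
  obtain ⟨om, hom⟩ := exists_lin w
  have hker : S ≤ LinearMap.ker om := by
    rw [hS, Submodule.span_le]
    rintro _ ⟨j, rfl⟩
    change om (col j) = 0
    rcases hc3 j with ⟨x, hx⟩ | ⟨x, hx⟩
    · rw [hx, hPc]
      simp only [map_add, map_sub, hom, (hw _).1, (hw _).2.1, (hw _).2.2]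
      have h1 := congrArg (fun g => Om g x) (t_mer_t c t)
      simp only [hOm _ _ x] at h1
      simp only [A, act_mul] at h1 ⊢
      rw [← sub_eq_zero.2 h1.symm]
      abel
    · rw [hx, hSc]
      simp only [map_add, map_sub, hom, (hw _).2.1, (hw _).2.2]
      have h1 := congrArg (fun g => Om g x) hP.comm
      simp only [hOm _ _ x] at h1
      simp only [A] at h1
      rw [← sub_eq_zero.2 h1]
      abel
  let omM : ((Rw → ℤ) ⧸ S) →ₗ[ℤ] _ := S.liftQ om hker
  have hcomp : ∀ g x, omM (ch g x) = Om g x := by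
    intro g x
    have h1 : Coc A (fun g x => omM (ch g x)) := fun g g' x => by
      simp only [hch g g' x, map_add]
    refine congrFun (h1.ext hOm hP.gen ?_ ?_ g) x
    · funext y
      simp only [hchc, omM, Submodule.mkQ_apply, Submodule.liftQ_apply, hom, (hw _).2.1]
    · funext y
      simp only [hcht, omM, Submodule.mkQ_apply, Submodule.liftQ_apply, hom, (hw _).1]
  -- the embedding
  let ψ : Quotient (orb A) → Abelianization N →* Multiplicative ((Rw → ℤ) ⧸ S) := fun q =>
    Abelianization.lift (MonoidHom.mk' (fun n : N => Multiplicative.ofAdd (ch n q.out))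
      (fun n n' => by
        rw [← ofAdd_add, Subgroup.coe_mul, hch, (hN' _ _).2 n.2]))
  have hψ : ∀ q a, omM (ψ q a).toAdd = Pi.single q (Additive.ofMul a) := by
    intro q a
    obtain ⟨n, rfl⟩ : ∃ n, Abelianization.of n = a := Quotient.exists_rep a
    rw [← hOmN, ← hcomp]
    rfl
  have hψt : ∀ q (a : CommGroup.torsion (Abelianization N)),
      (ψ q a).toAdd ∈ Submodule.torsion ℤ ((Rw → ℤ) ⧸ S) := by
    intro q a
    obtain ⟨n, hn, h1⟩ := isOfFinOrder_iff_pow_eq_one.1 a.2
    refine ⟨⟨(n : ℤ), mem_nonZeroDivisors_of_ne_zero (by exact_mod_cast hn.ne')⟩, ?_⟩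
    change (n : ℤ) • (ψ q a).toAdd = 0
    rw [natCast_zsmul, ← toAdd_pow, ← map_pow, h1, map_one, toAdd_one]
  have : Finite (Quotient (orb A)) := Quotient.finite _
  let : Fintype (Quotient (orb A)) := Fintype.ofFinite _
  have : Nonempty (Quotient (orb A)) := ⟨Quotient.mk _ (Classical.arbitrary X)⟩
  let ι : (Quotient (orb A) → CommGroup.torsion (Abelianization N)) → torsCoker col := fun v =>
    ⟨∑ q, (ψ q (v q)).toAdd, Submodule.sum_mem _ fun q _ => hψt q (v q)⟩
  have hι : Function.Injective ι := by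
    intro v v' h
    have h1 := congrArg (fun z : torsCoker col => omM z.1) h
    simp only [ι, map_sum, hψ, Finset.univ_sum_single] at h1
    funext q
    exact Subtype.ext (Additive.ofMul.injective (congrFun h1 q))
  have := finite_torsCoker col
  have hfin : Finite (Quotient (orb A) → CommGroup.torsion (Abelianization N)) :=
    Finite.of_injective ι hι
  have hT : Finite (CommGroup.torsion (Abelianization N)) :=
    Finite.of_injective (fun a (_ : Quotient (orb A)) => a) Function.const_injective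
  refine ⟨hT, ?_⟩
  have h1 := Nat.card_le_card_of_injective ι hι
  rw [Nat.card_fun] at h1
  have h2 : (0 : ℝ) < Nat.card (CommGroup.torsion (Abelianization N)) := by
    exact_mod_cast Nat.card_pos
  have h3 : Real.log ((Nat.card (CommGroup.torsion (Abelianization N)) : ℝ) ^
      Nat.card (Quotient (orb A))) ≤ Real.log (Nat.card (torsCoker col)) :=
    Real.log_le_log (pow_pos h2 _) (by exact_mod_cast h1)
  rw [Real.log_pow] at h3
  rw [card_eq A N hN']
  push_cast
  have h4 : (0 : ℝ) ≤ N.index := Nat.cast_nonneg _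
  nlinarith [mul_le_mul_of_nonneg_left h3 h4]

end TorsW2
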