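import Pool.Agent.Lib.MP_004c47_gt.DualW2

/-! The abelianisation of a point stabiliser embeds in the cokernel of the cellular boundary. -/

namespace TorsW2

namespace Sch64

/-- a right action -/
structure RAct (Γ X : Type) [Group Γ] where
  act : X → Γ → X
  one : ∀ x, act x 1 = x
  mul : ∀ x g g', act x (g * g') = act (act x g) g'

variable {Γ X : Type} [Group Γ]

/-- functions on `X` extended by the acting group -/
@[ext] structure Wr (A : RAct Γ X) (M : Type) where
  f : X → M
  g : Γ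

instance instGroupWr (A : RAct Γ X) (M : Type) [AddCommGroup M] : Group (Wr A M) :=
  letI : Mul (Wr A M) := ⟨fun p q => ⟨fun x => p.f x + q.f (A.act x p.g), p.g * q.g⟩⟩
  letI : One (Wr A M) := ⟨⟨fun _ => 0, 1⟩⟩
  letI : Inv (Wr A M) := ⟨fun p => ⟨fun x => -p.f (A.act x p.g⁻¹), p.g⁻¹⟩⟩
  Group.ofLeftAxioms
    (fun p q r => Wr.ext (funext fun x => by
      change p.f x + q.f (A.act x p.g) + r.f (A.act x (p.g * q.g)) =
        p.f x + (q.f (A.act x p.g) + r.f (A.act (A.act x p.g) q.g))
      rw [A.mul, add_assoc]) (mul_assoc p.g q.g r.g))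
    (fun p => Wr.ext (funext fun x => by
      change 0 + p.f (A.act x 1) = p.f x
      rw [A.one, zero_add]) (one_mul p.g))
    (fun p => Wr.ext (funext fun x => by
      change -p.f (A.act x p.g⁻¹) + p.f (A.act x p.g⁻¹) = 0
      exact neg_add_cancel _) (inv_mul_cancel p.g))

theorem mul_f {A : RAct Γ X} {M : Type} [AddCommGroup M] (p q : Wr A M) (x : X) :
    (p * q).f x = p.f x + q.f (A.act x p.g) := rfl

theorem mul_g {A : RAct Γ X} {M : Type} [AddCommGroup M] (p q : Wr A M) :
    (p * q).g = p.g * q.g := rfl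

/-- the projection to the acting group -/
def prj (A : RAct Γ X) (M : Type) [AddCommGroup M] : Wr A M →* Γ :=
  MonoidHom.mk' (fun p => p.g) (fun _ _ => rfl)

/-- cocycles -/
def Coc (A : RAct Γ X) {M : Type} [AddCommGroup M] (φ : Γ → X → M) : Prop :=
  ∀ g g' x, φ (g * g') x = φ g x + φ g' (A.act x g)

theorem Coc.one {A : RAct Γ X} {M : Type} [AddCommGroup M] {φ : Γ → X → M} (h : Coc A φ)
    (x : X) : φ 1 x = 0 := by
  have := h 1 1 x
  rw [mul_one, A.one] at this
  exact left_eq_add.1 this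

theorem Coc.inv {A : RAct Γ X} {M : Type} [AddCommGroup M] {φ : Γ → X → M} (h : Coc A φ)
    (g : Γ) (x : X) : φ g⁻¹ x = -φ g (A.act x g⁻¹) := by
  have := h g⁻¹ g x
  rw [inv_mul_cancel, h.one] at this
  exact eq_neg_of_add_eq_zero_left this.symm

theorem Coc.pow {A : RAct Γ X} {M : Type} [AddCommGroup M] {φ : Γ → X → M} (h : Coc A φ)
    (g : Γ) (n : ℕ) (x : X) : φ (g ^ n) x = ∑ i ∈ Finset.range n, φ g (A.act x (g ^ i)) := by
  induction n with
  | zero => simp [h.one]
  | succ n ih => rw [pow_succ, h, ih, Finset.sum_range_succ]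

theorem Coc.ext {A : RAct Γ X} {M : Type} [AddCommGroup M] {φ ψ : Γ → X → M} (h : Coc A φ)
    (h' : Coc A ψ) {c t : Γ} (hg : Subgroup.closure {c, t} = ⊤) (hc : φ c = ψ c)
    (ht : φ t = ψ t) (g : Γ) : φ g = ψ g := by
  have hm : g ∈ Subgroup.closure {c, t} := by rw [hg]; trivial
  induction hm using Subgroup.closure_induction with
  | mem x hx =>
    rcases hx with rfl | rfl
    · exact hc
    · exact ht
  | one => funext x; rw [h.one, h'.one]
  | mul x y _ _ hx hy => funext z; rw [h, h', hx, hy]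
  | inv x _ hx => funext z; rw [h.inv, h'.inv, hx]

theorem t_mer_t {K : Type*} [Group K] (c t : K) : t * mer c t * t = c * t * t * c := by
  unfold mer; group

theorem exists_coc {c t : Γ} (hP : Pres Γ c t) (A : RAct Γ X) {M : Type} [AddCommGroup M]
    (pc pt μ : X → M)
    (hrel : ∀ x, pc x + pt (A.act x c) + pt (A.act x (c * t)) + pc (A.act x (c * t * t)) =
      pt x + μ (A.act x t) + pt (A.act x (t * mer c t)))
    (hcomm : ∀ y, pc y + μ (A.act y c) = μ y + pc (A.act y (mer c t))) :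
    ∃ φ : Γ → X → M, Coc A φ ∧ φ c = pc ∧ φ t = pt := by
  let c' : Wr A M := ⟨pc, c⟩
  let t' : Wr A M := ⟨pt, t⟩
  let m' : Wr A M := ⟨μ, mer c t⟩
  have h1 : t' * m' * t' = c' * t' * t' * c' := by
    refine Wr.ext (funext fun x => ?_) (t_mer_t c t)
    simp only [mul_f, mul_g]
    exact (hrel x).symm
  have h2 : m' = mer c' t' := by
    have h3 := t_mer_t c' t'
    rw [← h1] at h3
    exact (mul_left_cancel (mul_right_cancel h3)).symm
  have h4 : c' * mer c' t' = mer c' t' * c' := by
    rw [← h2]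
    exact Wr.ext (funext fun x => hcomm x) hP.comm
  obtain ⟨F, hc, ht⟩ := hP.lift (Wr A M) c' t' h4
  have h5 : (prj A M).comp F = MonoidHom.id Γ := by
    apply MonoidHom.eq_of_eqOn_dense hP.gen
    rintro x (rfl | rfl)
    · simp only [MonoidHom.comp_apply, hc]; rfl
    · simp only [MonoidHom.comp_apply, ht]; rfl
  have h6 : ∀ g, (F g).g = g := fun g => DFunLike.congr_fun h5 g
  refine ⟨fun g => (F g).f, fun g g' x => ?_, congrArg Wr.f hc, congrArg Wr.f ht⟩
  simp only [map_mul, mul_f, h6]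

/-- the orbit relation -/
def orb (A : RAct Γ X) : Setoid X where
  r x y := ∃ g, A.act x g = y
  iseqv := ⟨fun x => ⟨1, A.one x⟩,
    fun {x y} ⟨g, h⟩ => ⟨g⁻¹, by rw [← h, ← A.mul, mul_inv_cancel, A.one]⟩,
    fun {x y z} ⟨g, h⟩ ⟨g', h'⟩ => ⟨g * g', by rw [A.mul, h, h']⟩⟩

theorem orb_act (A : RAct Γ X) (x : X) (g : Γ) :
    Quotient.mk (orb A) (A.act x g) = Quotient.mk (orb A) x :=
  (Quotient.sound (s := orb A) ⟨g, rfl⟩).symm

theorem exists_tau (A : RAct Γ X) (x : X) :
    ∃ g, A.act (Quotient.mk (orb A) x).out g = x :=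
  Quotient.exact (s := orb A) (Quotient.out_eq _)

theorem card_eq (A : RAct Γ X) (N : Subgroup Γ) (hN : ∀ x g, A.act x g = x ↔ g ∈ N) :
    Nat.card X = Nat.card (Quotient (orb A)) * N.index := by
  rw [Subgroup.index, ← Nat.card_prod]
  symm
  let f : Quotient (orb A) × (Γ ⧸ N) → X := fun p => A.act p.1.out p.2.out
  apply Nat.card_eq_of_bijective f
  constructor
  · rintro ⟨q, a⟩ ⟨q', a'⟩ h
    simp only [f] at h
    have h1 : q = q' := by
      have := congrArg (Quotient.mk (orb A)) h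
      rwa [orb_act, orb_act, Quotient.out_eq, Quotient.out_eq] at this
    subst h1
    have h2 : a.out⁻¹ * a'.out ∈ N := by
      rw [← hN (A.act q.out a.out), ← A.mul, mul_inv_cancel_left, h]
    have h3 : a = a' := by
      rw [← QuotientGroup.out_eq' a, ← QuotientGroup.out_eq' a']
      exact QuotientGroup.eq.2 h2
    rw [h3]
  · intro x
    obtain ⟨g, hg⟩ := exists_tau A x
    refine ⟨(Quotient.mk (orb A) x, (g : Γ ⧸ N)), ?_⟩
    obtain ⟨n, hn⟩ := QuotientGroup.mk_out_eq_mul N g
    simp only [f]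
    rw [hn, A.mul, hg, (hN x n).2 n.2]

open Classical in
/-- the class in the abelianisation, extended by zero -/
noncomputable def ab (N : Subgroup Γ) (g : Γ) : Additive (Abelianization N) :=
  if h : g ∈ N then Additive.ofMul (Abelianization.of ⟨g, h⟩) else 0

theorem ab_mem (N : Subgroup Γ) (g : N) :
    ab N g = Additive.ofMul (Abelianization.of g) := by
  unfold ab
  rw [dif_pos g.2]

theorem ab_mul (N : Subgroup Γ) {a b : Γ} (ha : a ∈ N) (hb : b ∈ N) :
    ab N (a * b) = ab N a + ab N b := by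
  have := ab_mem N (⟨a, ha⟩ * ⟨b, hb⟩)
  rw [map_mul, ofMul_mul, ← ab_mem, ← ab_mem] at this
  exact this

theorem ab_conj (N : Subgroup Γ) {a b : Γ} (ha : a ∈ N) (hb : b ∈ N) :
    ab N (a * b * a⁻¹) = ab N b := by
  have h1 := ab_mul N (mul_mem (mul_mem ha hb) (inv_mem ha)) ha
  rw [inv_mul_cancel_right, ab_mul N ha hb, add_comm] at h1
  exact (add_right_cancel h1).symm

open Classical in
theorem exists_om (A : RAct Γ X) (N : Subgroup Γ) (hN : ∀ x g, A.act x g = x ↔ g ∈ N) :
    ∃ Om : Γ → X → (Quotient (orb A) → Additive (Abelianization N)), Coc A Om ∧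
      ∀ (n : N) (q : Quotient (orb A)),
        Om n q.out = Pi.single q (Additive.ofMul (Abelianization.of n)) := by
  choose τ hτ using exists_tau A
  have hmem : ∀ g x, τ x * g * (τ (A.act x g))⁻¹ ∈ N := by
    intro g x
    rw [← hN (Quotient.mk (orb A) x).out, A.mul, A.mul, hτ]
    have h1 := hτ (A.act x g)
    rw [orb_act] at h1
    conv_lhs => arg 2; rw [← h1]
    rw [← A.mul, mul_inv_cancel, A.one]
  refine ⟨fun g x => Pi.single (Quotient.mk (orb A) x) (ab N (τ x * g * (τ (A.act x g))⁻¹)),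
    fun g g' x => ?_, fun n q => ?_⟩
  · simp only
    rw [orb_act, ← Pi.single_add, ← ab_mul N (hmem g x) (hmem g' _), A.mul]
    congr 2
    group
  · simp only
    have h1 := hτ q.out
    rw [Quotient.out_eq] at h1
    rw [Quotient.out_eq, (hN _ _).2 n.2, ab_conj N ((hN _ _).1 h1) n.2, ab_mem]

theorem exists_lin {Rw V : Type} [Finite Rw] [AddCommGroup V] (w : Rw → V) :
    ∃ om : (Rw → ℤ) →ₗ[ℤ] V, ∀ r, om (sg r) = w r := by
  classical
  refine ⟨(Pi.basisFun ℤ Rw).constr ℤ w, fun r => ?_⟩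
  rw [sg_eq_single, ← Pi.basisFun_apply, Module.Basis.constr_basis]

end Sch64

open Sch64 in
theorem tors_ab_le {Γ X Rw : Type} [Group Γ] [Finite X] [Nonempty X] [Finite Rw] {c t : Γ}
    (hP : Pres Γ c t) (act : X → Γ → X) (act_one : ∀ x, act x 1 = x)
    (act_mul : ∀ x g g', act x (g * g') = act (act x g) g')
    (N : Subgroup Γ) (hN : ∀ x g, act x g = x ↔ g ∈ N)
    (e : ℕ) (hM : mer c t * (c ^ e)⁻¹ ∈ N)
    (ft fc fm : X → Rw) (hm : ∀ x, fm (act x c) = fm x)
    (hdec : ∀ (Q : Type) (vt vc vm : X → Q), (∀ x, vm (act x c) = vm x) →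
      ∃ w : Rw → Q, ∀ x, w (ft x) = vt x ∧ w (fc x) = vc x ∧ w (fm x) = vm x)
    (col : X → Rw → ℤ)
    (hcol : ∀ x, col x = sg (fc x) + sg (ft (act x c)) - sg (ft x) + sg (ft (act x (c * t)))
      - (sg (ft (act x (t * mer c t))) + ∑ i ∈ Finset.range e, sg (fc (act x (t * c ^ i)))
        + sg (fm (act x t))) + sg (fc (act x (c * t * t)))) :
    Finite (CommGroup.torsion (Abelianization N)) ∧
      Real.log (Nat.card (CommGroup.torsion (Abelianization N))) * Nat.card X ≤
        N.index * Real.log (Nat.card (torsCoker col)) := by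
  classical
  let A : RAct Γ X := ⟨act, act_one, act_mul⟩
  have hN' : ∀ x g, A.act x g = x ↔ g ∈ N := hN
  set S : Submodule ℤ (Rw → ℤ) := Submodule.span ℤ (Set.range col) with hS
  have hmer : ∀ y, act y (mer c t) = act y (c ^ e) := by
    intro y
    conv_lhs => rw [← inv_mul_cancel_right (mer c t) (c ^ e), act_mul, (hN y _).2 hM]
  -- the cellular cocycle
  obtain ⟨ch, hch, hchc, hcht⟩ := exists_coc hP A (M := (Rw → ℤ) ⧸ S)
    (fun x => S.mkQ (sg (fc x))) (fun x => S.mkQ (sg (ft x)))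
    (fun y => ∑ i ∈ Finset.range e, S.mkQ (sg (fc (act y (c ^ i)))) + S.mkQ (sg (fm y)))
    (fun x => by
      have h0 : S.mkQ (col x) = 0 :=
        (Submodule.Quotient.mk_eq_zero S).2 (Submodule.subset_span ⟨x, rfl⟩)
      rw [hcol] at h0
      simp only [map_add, map_sub, map_sum, act_mul] at h0
      simp only [A, act_mul]
      rw [← sub_eq_zero, ← h0]
      abel)
    (fun y => by
      simp only [A]
      rw [hm, hmer]
      have h1 := Finset.sum_range_succ (fun i => S.mkQ (sg (fc (act y (c ^ i))))) e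
      have h2 := Finset.sum_range_succ' (fun i => S.mkQ (sg (fc (act y (c ^ i))))) e
      simp only [pow_zero, act_one, pow_succ', act_mul] at h2
      rw [h2] at h1
      rw [← add_assoc, add_comm (S.mkQ (sg (fc y))), h1]
      abel)
  -- the Schreier cocycle
  obtain ⟨Om, hOm, hOmN⟩ := exists_om A N hN'
  have hcn : c * (mer c t * (c ^ e)⁻¹) = mer c t * (c ^ e)⁻¹ * c := by
    rw [← mul_assoc, hP.comm, mul_assoc, mul_assoc]
    congr 1
    exact ((Commute.refl c).pow_right e).inv_right.eq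
  obtain ⟨w, hw⟩ := hdec _ (Om t) (Om c) (Om (mer c t * (c ^ e)⁻¹)) (fun x => by
    have h1 := hOm c (mer c t * (c ^ e)⁻¹) x
    have h2 := hOm (mer c t * (c ^ e)⁻¹) c x
    rw [(hN' x _).2 hM, ← hcn, h1, add_comm] at h2
    exact add_right_cancel h2)
  obtain ⟨om, hom⟩ := exists_lin w
  have hOmm : ∀ y, Om (mer c t) y = ∑ i ∈ Finset.range e, Om c (act y (c ^ i)) +
      Om (mer c t * (c ^ e)⁻¹) y := by
    intro y
    conv_lhs => rw [← inv_mul_cancel_right (mer c t) (c ^ e), hOm, (hN' y _).2 hM, hOm.pow]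
    exact add_comm _ _
  have hker : S ≤ LinearMap.ker om := by
    rw [hS, Submodule.span_le]
    rintro _ ⟨x, rfl⟩
    change om (col x) = 0
    rw [hcol]
    simp only [map_add, map_sub, map_sum, hom, (hw _).1, (hw _).2.1, (hw _).2.2]
    have h1 := congrArg (fun g => Om g x) (t_mer_t c t)
    simp only [hOm _ _ x, hOmm] at h1
    simp only [A, act_mul] at h1 ⊢
    rw [← sub_eq_zero.2 h1.symm]
    abel
  let omM : ((Rw → ℤ) ⧸ S) →ₗ[ℤ] _ := S.liftQ om hker
  have hcomp : ∀ g x, omM (ch g x) = Om g x := by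
    intro g x
    have h1 : Coc A (fun g x => omM (ch g x)) := fun g g' x => by
      simp only [hch g g' x, map_add]
    refine congrFun (h1.ext hOm hP.gen ?_ ?_ g) x
    · funext y
      simp only [hchc, omM, Submodule.mkQ_apply, Submodule.liftQ_apply, hom, (hw _).2.1]
    · funext y
      simp only [hcht, omM, Submodule.mkQ_apply, Submodule.liftQ_apply, hom, (hw _).1]
  -- the embedding
  let ψ : Quotient (orb A) → Abelianization N →* Multiplicative ((Rw → ℤ) ⧸ S) := fun q =>
    Abelianization.lift (MonoidHom.mk' (fun n : N => Multiplicative.ofAdd (ch n q.out))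
      (fun n n' => by
        rw [← ofAdd_add, Subgroup.coe_mul, hch, (hN' _ _).2 n.2]))
  have hψ : ∀ q a, omM (ψ q a).toAdd = Pi.single q (Additive.ofMul a) := by
    intro q a
    obtain ⟨n, rfl⟩ : ∃ n, Abelianization.of n = a := Quotient.exists_rep a
    rw [← hOmN, ← hcomp]
    rfl
  have hψt : ∀ q (a : CommGroup.torsion (Abelianization N)),
      (ψ q a).toAdd ∈ Submodule.torsion ℤ ((Rw → ℤ) ⧸ S) := by
    intro q a
    obtain ⟨n, hn, h1⟩ := isOfFinOrder_iff_pow_eq_one.1 a.2
    refine ⟨⟨(n : ℤ), mem_nonZeroDivisors_of_ne_zero (by exact_mod_cast hn.ne')⟩, ?_⟩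
    change (n : ℤ) • (ψ q a).toAdd = 0
    rw [natCast_zsmul, ← toAdd_pow, ← map_pow, h1, map_one, toAdd_one]
  have : Finite (Quotient (orb A)) := Quotient.finite _
  let : Fintype (Quotient (orb A)) := Fintype.ofFinite _
  have : Nonempty (Quotient (orb A)) := ⟨Quotient.mk _ (Classical.arbitrary X)⟩
  let ι : (Quotient (orb A) → CommGroup.torsion (Abelianization N)) → torsCoker col := fun v =>
    ⟨∑ q, (ψ q (v q)).toAdd, Submodule.sum_mem _ fun q _ => hψt q (v q)⟩
  have hι : Function.Injective ι := by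
    intro v v' h
    have h1 := congrArg (fun z : torsCoker col => omM z.1) h
    simp only [ι, map_sum, hψ, Finset.univ_sum_single] at h1
    funext q
    exact Subtype.ext (Additive.ofMul.injective (congrFun h1 q))
  have := finite_torsCoker col
  have hfin : Finite (Quotient (orb A) → CommGroup.torsion (Abelianization N)) :=
    Finite.of_injective ι hι
  have hT : Finite (CommGroup.torsion (Abelianization N)) :=
    Finite.of_injective (fun a (_ : Quotient (orb A)) => a) Function.const_injective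
  refine ⟨hT, ?_⟩
  have h1 := Nat.card_le_card_of_injective ι hι
  rw [Nat.card_fun] at h1
  have h2 : (0 : ℝ) < Nat.card (CommGroup.torsion (Abelianization N)) := by
    exact_mod_cast Nat.card_pos
  have h3 : Real.log ((Nat.card (CommGroup.torsion (Abelianization N)) : ℝ) ^
      Nat.card (Quotient (orb A))) ≤ Real.log (Nat.card (torsCoker col)) :=
    Real.log_le_log (pow_pos h2 _) (by exact_mod_cast h1)
  rw [Real.log_pow] at h3
  rw [card_eq A N hN']
  push_cast
  have h4 : (0 : ℝ) ≤ N.index := Nat.cast_nonneg _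
  nlinarith [mul_le_mul_of_nonneg_left h3 h4]

end TorsW2
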