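import Pool.Agent.Lib.MP_004c47_gt.CoreW2
import Pool.Agent.Lib.MP_004c47_gt.SchreierW2
import Pool.Agent.Lib.MP_004c47_gt.EmbedW2
import Pool.Agent.Lib.MP_004c47_gt.LabelW2

/-! One step of the tower. -/

namespace TorsW2

open TorsTower37

theorem torsion_equiv {A B : Type*} [Group A] [Group B] (e : A ≃* B) :
    Nonempty (CommGroup.torsion (Abelianization A) ≃ CommGroup.torsion (Abelianization B)) := by
  refine ⟨Equiv.subtypeEquiv e.abelianizationCongr.toEquiv fun a => ?_⟩
  exact (e.abelianizationCongr.injective.isOfFinOrder_iff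
    (f := e.abelianizationCongr.toMonoidHom)).symm

/-- cusp translations of coprime orders make the cusp group cyclic -/
theorem cyc_of_coprime {G : Type} [Group G] {c M : G} (hc : c * M = M * c) {p q : ℕ}
    (hp : 0 < p) (hq : 0 < q) (hpq : Nat.Coprime p q) (hA : (c * c * M⁻¹) ^ p = 1) (hB : (c * c * M) ^ q = 1) :
    (∃ e : ℕ, M = c ^ e) ∧ ∀ n : ℤ, ((4 * p : ℕ) : ℤ) ∣ n → ((4 * q : ℕ) : ℤ) ∣ n → c ^ n = 1 := by
  have h1 : Commute c M := hc
  have hAB : Commute (c * c * M⁻¹) (c * c * M) :=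
    (((Commute.refl c).mul_right (Commute.refl c)).mul_right h1).mul_left
      (((Commute.refl c).mul_right (Commute.refl c)).mul_right h1) |>.mul_left
      (((h1.symm.inv_left.mul_right h1.symm.inv_left)).mul_right (Commute.refl M).inv_left)
  have h4 : c * c * M⁻¹ * (c * c * M) = c ^ 4 := by
    have : M⁻¹ * (c * c) = c * c * M⁻¹ := (h1.symm.inv_left.mul_right h1.symm.inv_left).eq
    calc c * c * M⁻¹ * (c * c * M) = c * c * (M⁻¹ * (c * c)) * M := by group
      _ = c ^ 4 := by rw [this]; simp [pow_succ, mul_assoc]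
  constructor
  · obtain ⟨n, hn1, hn2⟩ := Nat.chineseRemainder hpq 0 1
    have e1 : (c * c * M⁻¹) ^ (n + p * q) = 1 := by
      obtain ⟨k, hk⟩ := (Nat.modEq_zero_iff_dvd.1 hn1)
      rw [hk, ← mul_add, pow_mul, hA, one_pow]
    have e2 : (c * c * M) ^ (n + p * q) = c * c * M := by
      rw [pow_add, mul_comm p q, pow_mul, hB, one_pow, mul_one,
        pow_eq_pow_of_modEq hn2 hB, pow_one]
    have hpos : 0 < n + p * q := by positivity
    refine ⟨4 * (n + p * q) - 2, ?_⟩
    have e3 : c ^ (4 * (n + p * q)) = c * c * M := by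
      rw [pow_mul, ← h4, hAB.mul_pow, e1, e2, one_mul]
    have e4 : c ^ (4 * (n + p * q)) = c * c * c ^ (4 * (n + p * q) - 2) := by
      rw [← pow_two, ← pow_add]; congr 1; omega
    rw [e4] at e3
    exact (mul_left_cancel e3).symm
  · rintro n ⟨a, ha⟩ ⟨b, hb⟩
    push_cast at ha hb
    have e1 : (c * c * M⁻¹) ^ (p * a : ℤ) = 1 := by rw [zpow_mul, zpow_natCast, hA, one_zpow]
    have e2 : (c * c * M) ^ (p * a : ℤ) = 1 := by
      rw [show (p * a : ℤ) = q * b by linarith, zpow_mul, zpow_natCast, hB, one_zpow]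
    rw [ha, mul_assoc, zpow_mul, zpow_ofNat, ← h4, hAB.mul_zpow, e1, e2, one_mul]

theorem step (N : Subgroup Wh) (hn : N.Normal) (hf : N.FiniteIndex) (hN : PC N) (ε : ℝ)
    (hε : 0 < ε) :
    ∃ N' : Subgroup Wh, N' ≤ N ∧ N'.Normal ∧ N'.FiniteIndex ∧ PC N' ∧
      Finite (CommGroup.torsion (Abelianization N')) ∧
      Real.log (Nat.card (CommGroup.torsion (Abelianization N'))) ≤ ε * N'.index := by
  classical
  obtain ⟨Γ, _, c, t, j, hP, hj, hjc, hjt, N₀, hn0, hf0, hC0, hr0⟩ := embed_wh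
  obtain ⟨a, b, hA, hB⟩ := hN.inf hC0
  have hp : NeZero (4 * 2 ^ a) := ⟨by positivity⟩
  have hq : NeZero (4 * 3 ^ b) := ⟨by positivity⟩
  let par : ZMod (4 * 2 ^ a) →+* ZMod 2 := ZMod.castHom ⟨2 * 2 ^ a, by ring⟩ (ZMod 2)
  let W := ZMod (4 * 2 ^ a) × ZMod (4 * 3 ^ b)
  let π : Wh →* Eqv W ℤˣ := piW (ZMod (4 * 3 ^ b)) par
  let θ : Wh → W → ℤ := th (ZMod (4 * 3 ^ b)) par
  let N₂ : Subgroup Wh := N ⊓ N₀ ⊓ π.ker
  have hn2 : N₂.Normal := inferInstance
  have hf2 : N₂.FiniteIndex := inferInstance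
  have hA2 : wA ^ 2 ^ a ∈ N₂ := by
    refine ⟨hA, ?_⟩
    apply Eqv.ext'
    intro x
    have := pow_transl (u := 4) (v := 0) par (w := wA) (by simp [piW_wA]) ((2 ^ a : ℕ) : ℤ) x
    rw [zpow_natCast] at this
    have h0 : ((4 * 2 ^ a : ℕ) : ZMod (4 * 2 ^ a)) = 0 := ZMod.natCast_self _
    rw [this]
    push_cast at h0 ⊢
    simp [mul_comm _ (4 : ZMod (4 * 2 ^ a)), h0]
  have hB2 : wB ^ 3 ^ b ∈ N₂ := by
    refine ⟨hB, ?_⟩
    apply Eqv.ext'
    intro x
    have := pow_transl (u := 0) (v := 4) par (w := wB) (by simp [piW_wB]) ((3 ^ b : ℕ) : ℤ) x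
    rw [zpow_natCast] at this
    have h0 : ((4 * 3 ^ b : ℕ) : ZMod (4 * 3 ^ b)) = 0 := ZMod.natCast_self _
    rw [this]
    push_cast at h0 ⊢
    simp [mul_comm _ (4 : ZMod (4 * 3 ^ b)), h0]
  let K : Subgroup Γ := N₂.comap j
  have hKn : K.Normal := inferInstance
  have hKf : K.FiniteIndex :=
    ⟨by rw [Subgroup.index_comap]; exact Subgroup.FiniteIndex.index_ne_zero⟩
  let G := Γ ⧸ K
  let mk : Γ →* G := QuotientGroup.mk' K
  have mk_eq : ∀ γ, mk γ = 1 ↔ j γ ∈ N₂ := fun γ => QuotientGroup.eq_one_iff γ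
  have mk_surj : Function.Surjective mk := QuotientGroup.mk'_surjective K
  let πG : G →* Eqv W ℤˣ := QuotientGroup.lift K (π.comp j) (fun γ hγ => hγ.2)
  have πG_mk : ∀ γ, πG (mk γ) = π (j γ) := fun γ => rfl
  let h : G → W := fun g => ((πG g).1 ((0, 0), 1)).1
  have h_mul : ∀ g u, h (g * u) = ((πG g).1 (h u, 1)).1 := fun g u => by
    simp only [h, map_mul, eqv_fst_mul]
  have hjM : j (mer c t) = mer wc wt := by rw [map_mer, hjc, hjt]
  obtain ⟨⟨e, he⟩, hord⟩ := cyc_of_coprime (c := mk c) (M := mer (mk c) (mk t))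
    (by rw [← map_mer, ← map_mul, hP.comm, map_mul]) (p := 2 ^ a) (q := 3 ^ b) (by positivity)
    (by positivity)    (Nat.Coprime.pow _ _ (by norm_num))
    (by
      rw [← map_mer, ← map_inv, ← map_mul, ← map_mul, ← map_pow, mk_eq, map_pow, map_mul, map_mul,
        map_inv, hjM, hjc, ← wA_eq]
      exact hA2)
    (by
      rw [← map_mer, ← map_mul, ← map_mul, ← map_pow, mk_eq, map_pow, map_mul, map_mul,
        hjM, hjc, ← wB_eq]
      exact hB2)
  have πc : ∀ x : W, (πG (mk c)).1 (x, 1) = ((x.1 + 1, x.2 + 1), 1) := fun x => by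
    rw [πG_mk, hjc]; exact piW_wc par x
  have πt : ∀ x : W, (πG (mk t)).1 (x, 1) = ((-1 - x.1, x.2 - 1), 1) := fun x => by
    rw [πG_mk, hjt]; exact piW_wt par x
  have πM : ∀ x : W, (πG (mer (mk c) (mk t))).1 (x, 1) = ((x.1 - 2, x.2 + 2), 1) := fun x => by
    rw [← map_mer, πG_mk, hjM]; exact piW_mer par x
  have hc : ∀ n : ℤ, h (mk c ^ n) = ((n : ZMod _), (n : ZMod _)) := by
    intro n
    have := pow_transl par (w := wc) (piW_wc par) n ((0, 0) : W)
    simp only [h]
    rw [← map_zpow, πG_mk, map_zpow, hjc, this]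
    simp
  have h1 : h 1 = (0, 0) := by simp [h]
  have L : Level (mk c) (mk t) e h :=
    { hM := he
      h1 := fun g => by
        have : h (mk c * mk t) = h 1 := by
          rw [h_mul, πc, h1]
          simp only [h, πt]
          simp
        rw [mul_assoc, h_mul, this, ← h_mul, mul_one]
      h2 := fun g => by
        have : h (mk t * mer (mk c) (mk t)) = h (mk c) := by
          rw [h_mul, πt]
          simp only [h, πM, πc]
          congr 1 <;> ring
        rw [mul_assoc, h_mul, this, ← h_mul]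
      sep := fun g u hu hg => by
        obtain ⟨n, rfl⟩ := hu
        rw [h_mul] at hg
        have := eqv_fst_inj _ hg
        rw [hc] at this
        obtain ⟨e1, e2⟩ := Prod.mk.inj this
        rw [ZMod.intCast_zmod_eq_zero_iff_dvd] at e1 e2
        exact hord n e1 e2
      ne := fun h0 => by
        have := hc 1
        rw [h0, one_zpow, h1, Prod.mk.injEq, eq_comm, ZMod.intCast_zmod_eq_zero_iff_dvd] at this
        have h3 := Int.le_of_dvd one_pos this.1
        have : (1 : ℤ) ≤ 2 ^ a := one_le_pow₀ (by norm_num)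
        push_cast at h3
        linarith }
  obtain ⟨m, k, hm, hk, hcore⟩ := core L ε hε
  have : NeZero m := ⟨hm.ne'⟩
  have : NeZero k := ⟨hk.ne'⟩
  let A := (W → ZMod m) × ZMod k × ZMod k
  let α : W → A := lab m k (bT par k)
  let N' : Subgroup Wh :=
    { carrier := {w | w ∈ N₂ ∧ θ w ∈ Lam par m k}
      one_mem' := ⟨one_mem _, by simp [θ, th_one]⟩
      mul_mem' := fun {w w'} hw hw' => ⟨mul_mem hw.1 hw'.1, by
        simp only [θ, th_mul]
        exact add_mem hw.2 (Lam_smul par m k _ hw'.2)⟩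
      inv_mem' := fun {w} hw => ⟨inv_mem hw.1, by
        simp only [θ, th_inv]
        exact neg_mem (Lam_smul par m k _ hw.2)⟩ }
  have hn' : N'.Normal := ⟨fun w hw u => ⟨hn2.conj_mem w hw.1 u, by
    have h0 : π w = 1 := hw.1.2
    have : θ (u * w * u⁻¹) = π u • θ w := by
      simp only [θ, th_mul, th_inv, map_mul, smul_neg, ← mul_smul]
      simp only [π] at h0
      rw [h0, mul_one, ← map_mul, mul_inv_cancel, map_one, one_smul]
      abel
    rw [this]
    exact Lam_smul par m k _ hw.2⟩⟩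
  have hr' : N' ≤ j.range := fun w hw => hr0 hw.1.1.2
  let act : A × G → Γ → A × G := fun x γ => (x.1 + pr par m k (πG x.2 • θ (j γ)), x.2 * mk γ)
  have act_one : ∀ x, act x 1 = x := fun x => by simp [act, θ, th_one]
  have act_mul : ∀ x g g', act x (g * g') = act (act x g) g' := fun x g g' => by
    simp only [act, θ, map_mul, th_mul, smul_add, map_add, πG_mk, mul_smul, add_assoc, mul_assoc, π]
  have hact : ∀ x γ, act x γ = x ↔ γ ∈ N'.comap j := by
    rintro ⟨x, g⟩ γ
    obtain ⟨γ₀, rfl⟩ := mk_surj g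
    simp only [act, Prod.mk.injEq, add_eq_left, mul_eq_left, mk_eq, πG_mk, π, Subgroup.mem_comap]
    exact and_comm.trans (and_congr_right fun _ =>
      (pr_eq_zero par m k _).trans (Lam_smul_iff par m k _))
  have unsg : ∀ g : G, ∀ l : W, ((πG g).1 (l, 1)).2 = 1 := by
    intro g
    obtain ⟨γ, rfl⟩ := mk_surj g
    have hγ : γ ∈ Subgroup.closure {c, t} := by rw [hP.gen]; trivial
    induction hγ using Subgroup.closure_induction with
    | mem x hx =>
      rcases hx with rfl | rfl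
      · intro l; rw [πc]
      · intro l; rw [πt]
    | one => simp
    | mul x y _ _ hx hy =>
      intro l
      rw [map_mul, map_mul, Subgroup.coe_mul, Equiv.Perm.mul_apply]
      have : (πG (mk y)).1 (l, 1) = (((πG (mk y)).1 (l, 1)).1, 1) := Prod.ext rfl (hy l)
      rw [this, hx]
    | inv x _ hx =>
      intro l
      have e1 : (πG (mk x)).1 (((πG (mk x))⁻¹.1 (l, 1)).1, ((πG (mk x))⁻¹.1 (l, 1)).2) = (l, 1) := by
        simp
      rw [Eqv.apply, hx, one_mul] at e1
      rw [map_inv, map_inv]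
      exact congrArg Prod.snd e1
  have act_c : ∀ x, act x c = (x.1, x.2 * mk c) := fun x => by simp [act, θ, hjc, th_wc]
  have act_cp : ∀ x (i : ℕ), act x (c ^ i) = (x.1, x.2 * mk c ^ i) := fun x i => by
    simp [act, θ, hjc, th_pow par (th_wc par)]
  have act_M : ∀ x, act x (mer c t) = (x.1, x.2 * mer (mk c) (mk t)) := fun x => by
    simp only [act, θ, hjM, th_mer, smul_zero, map_zero, add_zero, map_mer]
  have act_t : ∀ x, act x t = (x.1 + α (h x.2), x.2 * mk t) := fun x => by
    simp only [act, θ, hjt, th_wt, eqv_smul_sg, unsg, Units.val_one, one_smul, α, h]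
    congr 2
    exact pr_sg par m k _
  obtain ⟨hfin, hle⟩ := tors_ab_le hP act act_one act_mul (N'.comap j) hact e
    (by
      rw [← hact (0, 1), act_mul, act_M, he, ← act_cp (0, 1), ← act_mul, mul_inv_cancel, act_one])
    (fun x => (x.1, rt (mk c) x.2)) (fun x => (x.1, rc (mk c) x.2)) (fun x => (x.1, rm (mk c) x.2))
    (fun x => by
      rw [act_c]
      simp [rm])
    (by
      intro Q vt vc vm hvm
      refine ⟨fun r => match r.2 with
        | .inl g => vt (r.1, g)
        | .inr (.inl g) => vc (r.1, g)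
        | .inr (.inr v) => vm (r.1, v.out), fun x => ⟨rfl, rfl, ?_⟩⟩
      obtain ⟨⟨_, n, rfl⟩, hu⟩ := QuotientGroup.mk_out_eq_mul (Subgroup.zpowers (mk c)) x.2
      show vm (x.1, (x.2 : G ⧸ Subgroup.zpowers (mk c)).out) = vm x
      rw [hu]
      show vm (x.1, x.2 * mk c ^ n) = vm (x.1, x.2)
      clear hu
      induction n using Int.induction_on with
      | zero => simp
      | succ n ih => rw [← ih, ← hvm (x.1, x.2 * mk c ^ (n : ℤ)), act_c, zpow_add_one, mul_assoc]
      | pred n ih =>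
        rw [← ih, ← hvm (x.1, x.2 * mk c ^ (-(n : ℤ) - 1)), act_c, zpow_sub_one]
        simp [mul_assoc])
    (colX (mk c) (mk t) e h α)
    (fun x => by simp only [colX, act_mul, act_c, act_cp, act_M, act_t, L.h1])
  have hX : (0 : ℝ) < Nat.card (A × G) := by exact_mod_cast Nat.card_pos
  have hKi : (N'.comap j).FiniteIndex := by
    refine ⟨fun h0 => ?_⟩
    have : Finite (Γ ⧸ N'.comap j) := by
      refine Finite.of_injective (β := A × G)
        (Quotient.lift (fun γ => act (0, 1) γ⁻¹) fun γ γ' hγ => ?_) ?_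
      · have := (hact (0, 1) _).2 (QuotientGroup.leftRel_apply.1 hγ)
        calc act (0, 1) γ⁻¹ = act (act (0, 1) (γ⁻¹ * γ')) γ'⁻¹ := by
              rw [← act_mul, mul_inv_cancel_right]
          _ = _ := by rw [this]
      · intro u v
        induction u using QuotientGroup.induction_on with | _ γ => ?_
        induction v using QuotientGroup.induction_on with | _ γ' => ?_
        intro huv
        have huv' : act (0, 1) γ⁻¹ = act (0, 1) γ'⁻¹ := huv
        rw [QuotientGroup.eq, ← hact (0, 1), act_mul, huv', ← act_mul, inv_mul_cancel, act_one]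
    exact Subgroup.index_ne_zero_of_finite h0
  have hidx : (N'.comap j).index * j.range.index = N'.index := by
    rw [Subgroup.index_comap, Subgroup.relIndex_mul_index hr']
  have hri : j.range.index ≠ 0 := (Subgroup.finiteIndex_of_le hr0).index_ne_zero
  have eqv : N'.comap j ≃* N' :=
    ((N'.comap j).equivMapOfInjective j hj).trans
      (MulEquiv.subgroupCongr (Subgroup.map_comap_eq_self hr'))
  obtain ⟨τ⟩ := torsion_equiv eqv
  refine ⟨N', fun w hw => hw.1.1.1, hn', ⟨by rw [← hidx]; exact mul_ne_zero hKi.1 hri⟩,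
    ⟨a, b, ⟨hA2, ?_⟩, ⟨hB2, ?_⟩⟩, Finite.of_equiv _ τ, ?_⟩
  · simp [θ, th_pow par (th_wA par)]
  · simp [θ, th_pow par (th_wB par)]
  · rw [← Nat.card_congr τ]
    have e1 := hcore (ZMod k) (bT par k)
    have e2 : Real.log (Nat.card (CommGroup.torsion (Abelianization (N'.comap j)))) ≤
        ε * (N'.comap j).index := by
      refine le_of_mul_le_mul_right (hle.trans ?_) hX
      calc _ ≤ ((N'.comap j).index : ℝ) * (ε * Nat.card (A × G)) :=
            mul_le_mul_of_nonneg_left e1 (Nat.cast_nonneg _)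
        _ = _ := by ring
    refine e2.trans (mul_le_mul_of_nonneg_left ?_ hε.le)
    rw [← hidx]
    exact_mod_cast Nat.le_mul_of_pos_right _ (Nat.pos_of_ne_zero hri)

end TorsW2
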