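import Pool.Agent.Lib.MP_004c47_gt.CutC45
import Pool.Agent.Lib.MP_004c47_gt.SchC45
import Pool.Agent.Lib.MP_004c47_gt.StepW2

/-! One step of the cofinal tower. -/

namespace TorsW2

open TorsTower37 MvPolynomial

section Cover

variable {G W A : Type} [Group G] [AddCommGroup A] (a : W → A) (σ : W → Prop)

open Classical in
/-- the level on the starting side of a wall -/
noncomputable def loA (l : W) : A := if σ l then 0 else a l

open Classical in
/-- the level on the far side of a wall -/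
noncomputable def hiA (l : W) : A := if σ l then a l else 0

theorem evA_one (z : A) : evA a 1 z = sg 0 z := by
  have : (1 : MvPolynomial W ℤ) = monomial 0 1 := rfl
  rw [this, evA_monomial, one_smul, map_zero]

theorem evA_lo (l : W) (w : MvPolynomial W ℤ) (z : A) :
    evA a (lo σ l * w) z = evA a w (z - loA a σ l) := by
  unfold lo loA
  split_ifs
  · rw [one_mul, sub_zero]
  · exact evA_X_mul a l w z

theorem evA_hi (l : W) (w : MvPolynomial W ℤ) (z : A) :
    evA a (hi σ l * w) z = evA a w (z - hiA a σ l) := by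
  unfold hi hiA
  split_ifs
  · exact evA_X_mul a l w z
  · rw [one_mul, sub_zero]

theorem evA_lo' (l : W) (z : A) : evA a (lo σ l) z = sg 0 (z - loA a σ l) := by
  rw [← mul_one (lo σ l), evA_lo, evA_one]

theorem evA_hi' (l : W) (z : A) : evA a (hi σ l) z = sg 0 (z - hiA a σ l) := by
  rw [← mul_one (hi σ l), evA_hi, evA_one]

theorem sg_mul_sg {Y : Type} (e r : Y) (x y : A) :
    (sg e r : ℤ) * sg 0 (y - x) = sg (x, e) (y, r) := by
  by_cases h : r = e
  · rw [show (sg e r : ℤ) = 1 by simp [sg, h], one_mul]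
    exact sg_congr (by simp [h, sub_eq_zero])
  · simp [sg, h]

theorem cov_cell (c t : G) (h : G → W) (rep : G → Prop) (x : A) (g : G) :
    cov a (Dm c t h σ rep) (x, .inl g) =
      sg (x + loA a σ (h (g * c)) + loA a σ (h g), ec g) + sg (x + loA a σ (h g), et (g * c))
        - sg (x + loA a σ (h (g * c)), et g) + sg (x + hiA a σ (h (g * c)), et (g * c * t))
        - (sg (x + hiA a σ (h g), et (g * t * mer c t))
          + sg (x + loA a σ (h (g * c)) + hiA a σ (h g), em (g * t)))
        + sg (x + hiA a σ (h (g * c)) + hiA a σ (h g), ec (g * c * t * t)) := by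
  funext ⟨y, r⟩
  simp only [cov, Dm, cell, map_add, map_sub, map_zsmul, Pi.add_apply, Pi.sub_apply,
    Pi.smul_apply, smul_eq_mul, evA_lo, evA_hi, evA_lo', evA_hi', sub_sub, sg_mul_sg, add_assoc]

theorem cov_sqr (c t : G) (h : G → W) (rep : G → Prop) (x : A) (g : {g // ¬ rep g}) :
    cov a (Dm c t h σ rep) (x, .inr g) =
      sg (x, ec g.1) + sg (x, em (g.1 * c)) - sg (x, em g.1) - sg (x, ec (g.1 * mer c t)) := by
  funext ⟨y, r⟩
  simp only [cov, Dm, sqr, map_add, map_sub, map_zsmul, Pi.add_apply, Pi.sub_apply,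
    Pi.smul_apply, smul_eq_mul, evA_one, sg_mul_sg]

theorem sqr_span [Finite G] {V : Type} [AddCommGroup V] (S : AddSubgroup V) (c M : G)
    (u v : G → V) (g : G)
    (h : ∀ w ∈ Subgroup.closure {c, M}, w ≠ 1 →
      u (g * w) + v (g * w * c) - v (g * w) - u (g * w * M) ∈ S) :
    u g + v (g * c) - v g - u (g * M) ∈ S := by
  classical
  set H := Subgroup.closure {c, M}
  have := Fintype.ofFinite H
  have hc : c ∈ H := Subgroup.subset_closure (by simp)
  have hM : M ∈ H := Subgroup.subset_closure (by simp)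
  have e1 : ∑ w : H, v (g * w * c) = ∑ w : H, v (g * w) := by
    rw [← Equiv.sum_comp (Equiv.mulRight (⟨c, hc⟩ : H)) fun w => v (g * w)]
    simp [mul_assoc]
  have e2 : ∑ w : H, u (g * w * M) = ∑ w : H, u (g * w) := by
    rw [← Equiv.sum_comp (Equiv.mulRight (⟨M, hM⟩ : H)) fun w => u (g * w)]
    simp [mul_assoc]
  have e3 : ∑ w : H, (u (g * w) + v (g * w * c) - v (g * w) - u (g * w * M)) = 0 := by
    rw [Finset.sum_sub_distrib, Finset.sum_sub_distrib, Finset.sum_add_distrib, e1, e2]
    abel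
  rw [← Finset.add_sum_erase _ _ (Finset.mem_univ 1), add_eq_zero_iff_eq_neg] at e3
  simp only [OneMemClass.coe_one, mul_one] at e3
  rw [e3]
  exact neg_mem (sum_mem fun w hw => h w w.2 fun e => (Finset.mem_erase.1 hw).1 (Subtype.ext e))

end Cover

section Lat

variable {W : Type} (σ : W → Prop) (m k : ℕ)

/-- the labels of the covers that are used -/
noncomputable def labC : W → (W → ZMod m) × ZMod k × (W → ZMod k) := lab m k fun l => sg l

/-- the invariant lattice -/
def LamC : AddSubgroup (W → ℤ) where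
  carrier := {f | ∀ l, (f l : ZMod m) = 0 ∧ (f l : ZMod k) = 0}
  zero_mem' := by simp
  add_mem' := fun h1 h2 l => by simp [(h1 l).1, (h1 l).2, (h2 l).1, (h2 l).2]
  neg_mem' := fun h1 l => by simp [(h1 l).1, (h1 l).2]

theorem LamC_smul (P : Eqv W ℤˣ) {f : W → ℤ} (hf : f ∈ LamC m k) : P • f ∈ LamC m k := fun l => by
  rw [eqv_smul_apply, Int.cast_mul, Int.cast_mul, (hf _).1, (hf _).2, mul_zero, mul_zero]
  exact ⟨rfl, rfl⟩

theorem LamC_smul_iff (P : Eqv W ℤˣ) {f : W → ℤ} : P • f ∈ LamC m k ↔ f ∈ LamC m k := by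
  refine ⟨fun h => ?_, LamC_smul m k P⟩
  have := LamC_smul m k P⁻¹ h
  rwa [inv_smul_smul] at this

variable [Fintype W]

/-- reduction to the deck group -/
noncomputable def prC : (W → ℤ) →+ (W → ZMod m) × ZMod k × (W → ZMod k) where
  toFun f := ∑ l, f l • (hiA (labC m k) σ l - loA (labC m k) σ l)
  map_zero' := by simp
  map_add' f g := by simp [add_smul, Finset.sum_add_distrib]

theorem prC_sg (l : W) : prC σ m k (sg l) = hiA (labC m k) σ l - loA (labC m k) σ l := by
  show ∑ l', (sg l : W → ℤ) l' • (hiA (labC m k) σ l' - loA (labC m k) σ l') = _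
  rw [Finset.sum_eq_single l (fun b _ hb => by simp [sg, hb]) (by simp)]
  simp [sg]

theorem prC_eq_zero (f : W → ℤ) : prC σ m k f = 0 ↔ f ∈ LamC m k := by
  classical
  let ε : W → ℤ := fun l => if σ l then 1 else -1
  have e0 : prC σ m k f = ∑ l, (f l * ε l) • labC m k l := by
    refine Finset.sum_congr rfl fun l _ => ?_
    by_cases hs : σ l <;> simp [hiA, loA, ε, hs]
  have e1 : ∀ l, (prC σ m k f).1 l = (f l : ZMod m) * ε l := fun l => by
    rw [e0, Prod.fst_sum, Finset.sum_apply, Finset.sum_eq_single l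
      (fun b _ hb => by simp [labC, lab, sg, hb.symm]) (by simp)]
    simp [labC, lab, sg]
  have e2 : (prC σ m k f).2.1 = ∑ l, (f l : ZMod k) * ε l := by
    rw [e0, Prod.snd_sum, Prod.fst_sum]
    exact Finset.sum_congr rfl fun l _ => by simp [labC, lab]
  have e3 : ∀ l, (prC σ m k f).2.2 l = (f l : ZMod k) * ε l := fun l => by
    rw [e0, Prod.snd_sum, Prod.snd_sum, Finset.sum_apply, Finset.sum_eq_single l
      (fun b _ hb => by simp [labC, lab, sg, hb.symm]) (by simp)]
    simp [labC, lab, sg]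
  constructor
  · intro h l
    have a1 := e1 l
    have a3 := e3 l
    rw [h] at a1 a3
    by_cases hs : σ l
    · simp only [ε, hs, if_true, Int.cast_one, mul_one] at a1 a3
      exact ⟨a1.symm, a3.symm⟩
    · simp only [ε, hs, if_false, Int.cast_neg, Int.cast_one, mul_neg, mul_one] at a1 a3
      exact ⟨neg_eq_zero.1 a1.symm, neg_eq_zero.1 a3.symm⟩
  · intro h
    refine Prod.ext (funext fun l => ?_) (Prod.ext ?_ (funext fun l => ?_))
    · rw [e1, (h l).1, zero_mul]; rfl
    · rw [e2]
      exact Finset.sum_eq_zero fun l _ => by rw [(h l).2, zero_mul]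
    · rw [e3, (h l).2, zero_mul]; rfl

end Lat

theorem stepC (N : Subgroup Wh) (hn : N.Normal) (hf : N.FiniteIndex) (ε : ℝ) (hε : 0 < ε) :
    ∃ N' : Subgroup Wh, N' ≤ N ∧ N'.Normal ∧ N'.FiniteIndex ∧
      Finite (CommGroup.torsion (Abelianization N')) ∧
      Real.log (Nat.card (CommGroup.torsion (Abelianization N'))) ≤ ε * N'.index := by
  classical
  obtain ⟨Γ, _, c, t, j, hP, hj, hjc, hjt, N₀, hn0, hf0, -, hr0⟩ := embed_wh
  obtain ⟨p, hp0, hA, hB⟩ : ∃ p : ℕ, p ≠ 0 ∧ wA ^ p ∈ N ⊓ N₀ ∧ wB ^ p ∈ N ⊓ N₀ :=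
    ⟨(N ⊓ N₀).index, Subgroup.FiniteIndex.index_ne_zero, Subgroup.pow_index_mem _ _,
      Subgroup.pow_index_mem _ _⟩
  have hp : NeZero (4 * p) := ⟨by positivity⟩
  let par : ZMod (4 * p) →+* ZMod 2 := ZMod.castHom ⟨2 * p, by ring⟩ (ZMod 2)
  let W := ZMod (4 * p) × ZMod (4 * p)
  let π : Wh →* Eqv W ℤˣ := piW (ZMod (4 * p)) par
  let θ : Wh → W → ℤ := th (ZMod (4 * p)) par
  let N₂ : Subgroup Wh := N ⊓ N₀ ⊓ π.ker
  have hn2 : N₂.Normal := inferInstance
  have hf2 : N₂.FiniteIndex := inferInstance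
  have h4p : (p : ZMod (4 * p)) * 4 = 0 := by
    have h0 : ((4 * p : ℕ) : ZMod (4 * p)) = 0 := ZMod.natCast_self _
    push_cast at h0
    exact (mul_comm _ _).trans h0
  have πA : ∀ (k : ℕ) (x : W), (π (wA ^ k)).1 (x, 1) = ((x.1 + k * 4, x.2), 1) := fun k x => by
    have := pow_transl (u := 4) (v := 0) par (w := wA) (by simp [piW_wA]) (k : ℤ) x
    rw [zpow_natCast] at this
    rw [this]
    simp
  have hA2 : wA ^ p ∈ N₂ := by
    refine ⟨hA, ?_⟩
    apply Eqv.ext'
    intro x
    rw [πA, h4p]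
    simp
  have hB2 : wB ^ p ∈ N₂ := by
    refine ⟨hB, ?_⟩
    apply Eqv.ext'
    intro x
    have := pow_transl (u := 0) (v := 4) par (w := wB) (by simp [piW_wB]) (p : ℤ) x
    rw [zpow_natCast] at this
    rw [this]
    simp [h4p]
  let K : Subgroup Γ := N₂.comap j
  have hKn : K.Normal := inferInstance
  have hKf : K.FiniteIndex :=
    ⟨by rw [Subgroup.index_comap]; exact Subgroup.FiniteIndex.index_ne_zero⟩
  let G := Γ ⧸ K
  let mk : Γ →* G := QuotientGroup.mk' K
  have mk_eq : ∀ γ, mk γ = 1 ↔ j γ ∈ N₂ := fun γ => QuotientGroup.eq_one_iff γ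
  have mk_surj : Function.Surjective mk := QuotientGroup.mk'_surjective K
  let πG : G →* Eqv W ℤˣ := QuotientGroup.lift K (π.comp j) (fun γ hγ => hγ.2)
  have πG_mk : ∀ γ, πG (mk γ) = π (j γ) := fun γ => rfl
  let h : G → W := fun g => ((πG g).1 ((0, 0), 1)).1
  have h_mul : ∀ g u, h (g * u) = ((πG g).1 (h u, 1)).1 := fun g u => by
    simp only [h, map_mul, eqv_fst_mul]
  have hjM : j (mer c t) = mer wc wt := by rw [map_mer, hjc, hjt]
  have hcm : mk c * mer (mk c) (mk t) = mer (mk c) (mk t) * mk c := by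
    rw [← map_mer, ← map_mul, hP.comm, map_mul]
  have eA : ∀ k : ℕ, (mk c * mk c * (mer (mk c) (mk t))⁻¹) ^ k =
      mk ((c * c * (mer c t)⁻¹) ^ k) := fun k => by
    rw [map_pow, map_mul, map_mul, map_inv, map_mer]
  have jA : ∀ k : ℕ, j ((c * c * (mer c t)⁻¹) ^ k) = wA ^ k := fun k => by
    rw [map_pow, map_mul, map_mul, map_inv, hjM, hjc, ← wA_eq]
  have oA : (mk c * mk c * (mer (mk c) (mk t))⁻¹) ^ p = 1 := by
    rw [eA, mk_eq, jA]
    exact hA2
  have oB : (mk c * mk c * mer (mk c) (mk t)) ^ p = 1 := by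
    rw [← map_mer, ← map_mul, ← map_mul, ← map_pow, mk_eq, map_pow, map_mul, map_mul,
      hjM, hjc, ← wB_eq]
    exact hB2
  have πc : ∀ x : W, (πG (mk c)).1 (x, 1) = ((x.1 + 1, x.2 + 1), 1) := fun x => by
    rw [πG_mk, hjc]; exact piW_wc par x
  have πt : ∀ x : W, (πG (mk t)).1 (x, 1) = ((-1 - x.1, x.2 - 1), 1) := fun x => by
    rw [πG_mk, hjt]; exact piW_wt par x
  have πM : ∀ x : W, (πG (mer (mk c) (mk t))).1 (x, 1) = ((x.1 - 2, x.2 + 2), 1) := fun x => by
    rw [← map_mer, πG_mk, hjM]; exact piW_mer par x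
  have h1 : h 1 = (0, 0) := by simp [h]
  have tr : ∀ g : G, ∃ d, ∀ l : W, ((πG g).1 (l, 1)).1.2 = l.2 + d := by
    intro g
    obtain ⟨γ, rfl⟩ := mk_surj g
    have hγ : γ ∈ Subgroup.closure {c, t} := by rw [hP.gen]; trivial
    induction hγ using Subgroup.closure_induction with
    | mem x hx =>
      rcases hx with rfl | rfl
      · exact ⟨1, fun l => by rw [πc]⟩
      · exact ⟨-1, fun l => by rw [πt]; ring⟩
    | one => exact ⟨0, by simp⟩
    | mul x y _ _ hx hy =>
      obtain ⟨d, hd⟩ := hx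
      obtain ⟨d', hd'⟩ := hy
      exact ⟨d' + d, fun l => by rw [map_mul, map_mul, eqv_fst_mul, hd, hd', add_assoc]⟩
    | inv x _ hx =>
      obtain ⟨d, hd⟩ := hx
      refine ⟨-d, fun l => ?_⟩
      have e1 := hd ((πG (mk x))⁻¹.1 (l, 1)).1
      rw [← eqv_fst_mul, mul_inv_cancel] at e1
      rw [map_inv, map_inv, ← sub_eq_add_neg, eq_sub_iff_add_eq, ← e1]
      rfl
  let H : Subgroup G := Subgroup.closure {mk c, mer (mk c) (mk t)}
  let rep : G → Prop := fun g => g = (g : G ⧸ H).out
  have L : Lev (mk c) (mk t) (4 * p) h Prod.snd rep :=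
    { comm := hcm
      h1 := fun g => by
        have : h (mk c * mk t) = h 1 := by
          rw [h_mul, πc, h1]
          simp only [h, πt]
          simp
        rw [mul_assoc, h_mul, this, ← h_mul, mul_one]
      h2 := fun g => by
        have : h (mk t * mer (mk c) (mk t)) = h (mk c) := by
          rw [h_mul, πt]
          simp only [h, πM, πc]
          congr 1 <;> ring
        rw [mul_assoc, h_mul, this, ← h_mul]
      zc := fun g => by
        obtain ⟨d, hd⟩ := tr g
        rw [h_mul, hd]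
        simp only [h, hd, πc]
        ring
      zt := fun g => by
        obtain ⟨d, hd⟩ := tr g
        rw [h_mul, hd]
        simp only [h, hd, πt]
        ring
      pos := hp.1
      one := by
        have : Fact (1 < 4 * p) := ⟨by omega⟩
        exact one_ne_zero
      cn := by
        have h1 : Commute (mk c) (mer (mk c) (mk t)) := hcm
        have h2 : Commute (mk c * mk c) (mer (mk c) (mk t)) := h1.mul_left h1
        have hAB : Commute (mk c * mk c * (mer (mk c) (mk t))⁻¹)
            (mk c * mk c * mer (mk c) (mk t)) :=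
          ((Commute.refl _).mul_right h2).mul_left
            (h2.symm.inv_left.mul_right (Commute.refl _).inv_left)
        have h4 : mk c * mk c * (mer (mk c) (mk t))⁻¹ * (mk c * mk c * mer (mk c) (mk t)) =
            mk c ^ 4 := by
          rw [h2.eq, mul_assoc, inv_mul_cancel_left]
          simp [pow_succ, mul_assoc]
        rw [pow_mul, ← h4, hAB.mul_pow, oA, oB, one_mul]
      sep := fun g k hg => by
        rw [mul_assoc, h_mul, h_mul g] at hg
        have e1 := eqv_fst_inj _ hg
        rw [h_mul, eA, πG_mk, jA, πA] at e1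
        have e2 : ((k * 4 : ℕ) : ZMod (4 * p)) = 0 := by
          push_cast
          exact add_eq_left.1 (congrArg Prod.fst e1)
        rw [ZMod.natCast_eq_zero_iff, mul_comm k] at e2
        obtain ⟨i, rfl⟩ := Nat.dvd_of_mul_dvd_mul_left (by norm_num) e2
        rw [pow_mul, oA, one_pow]
      mark := fun g => by
        obtain ⟨u, hu⟩ := QuotientGroup.mk_out_eq_mul H g
        refine ⟨u, u.2, ?_⟩
        show g * u = ((g * u : G) : G ⧸ H).out
        rw [QuotientGroup.mk_mul_of_mem g u.2, hu] }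
  have := Fintype.ofFinite G
  let σ : W → Prop := fun l => l.2 = 0
  obtain ⟨m, k, hm, hk, hcore⟩ := coreA L.good (ε / 2) (by positivity)
  have : NeZero m := ⟨hm.ne'⟩
  have : NeZero k := ⟨hk.ne'⟩
  let A := (W → ZMod m) × ZMod k × (W → ZMod k)
  let α : W → A := labC m k
  let N' : Subgroup Wh :=
    { carrier := {w | w ∈ N₂ ∧ θ w ∈ LamC m k}
      one_mem' := ⟨one_mem _, by simp [θ, th_one]⟩
      mul_mem' := fun {w w'} hw hw' => ⟨mul_mem hw.1 hw'.1, by
        simp only [θ, th_mul]
        exact add_mem hw.2 (LamC_smul m k _ hw'.2)⟩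
      inv_mem' := fun {w} hw => ⟨inv_mem hw.1, by
        simp only [θ, th_inv]
        exact neg_mem (LamC_smul m k _ hw.2)⟩ }
  have hn' : N'.Normal := ⟨fun w hw u => ⟨hn2.conj_mem w hw.1 u, by
    have h0 : π w = 1 := hw.1.2
    have : θ (u * w * u⁻¹) = π u • θ w := by
      simp only [θ, th_mul, th_inv, map_mul, smul_neg, ← mul_smul]
      simp only [π] at h0
      rw [h0, mul_one, ← map_mul, mul_inv_cancel, map_one, one_smul]
      abel
    rw [this]
    exact LamC_smul m k _ hw.2⟩⟩
  have hr' : N' ≤ j.range := fun w hw => hr0 hw.1.1.2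
  let act : A × G → Γ → A × G := fun x γ => (x.1 + prC σ m k (πG x.2 • θ (j γ)), x.2 * mk γ)
  have act_one : ∀ x, act x 1 = x := fun x => by simp [act, θ, th_one]
  have act_mul : ∀ x g g', act x (g * g') = act (act x g) g' := fun x g g' => by
    simp only [act, θ, map_mul, th_mul, smul_add, map_add, πG_mk, mul_smul, add_assoc, mul_assoc, π]
  have hact : ∀ x γ, act x γ = x ↔ γ ∈ N'.comap j := by
    rintro ⟨x, g⟩ γ
    obtain ⟨γ₀, rfl⟩ := mk_surj g
    simp only [act, Prod.mk.injEq, add_eq_left, mul_eq_left, mk_eq, πG_mk, π, Subgroup.mem_comap]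
    exact and_comm.trans (and_congr_right fun _ =>
      (prC_eq_zero σ m k _).trans (LamC_smul_iff m k _))
  have unsg : ∀ g : G, ∀ l : W, ((πG g).1 (l, 1)).2 = 1 := by
    intro g
    obtain ⟨γ, rfl⟩ := mk_surj g
    have hγ : γ ∈ Subgroup.closure {c, t} := by rw [hP.gen]; trivial
    induction hγ using Subgroup.closure_induction with
    | mem x hx =>
      rcases hx with rfl | rfl
      · intro l; rw [πc]
      · intro l; rw [πt]
    | one => simp
    | mul x y _ _ hx hy =>
      intro l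
      rw [map_mul, map_mul, Subgroup.coe_mul, Equiv.Perm.mul_apply]
      have : (πG (mk y)).1 (l, 1) = (((πG (mk y)).1 (l, 1)).1, 1) := Prod.ext rfl (hy l)
      rw [this, hx]
    | inv x _ hx =>
      intro l
      have e1 : (πG (mk x)).1 (((πG (mk x))⁻¹.1 (l, 1)).1, ((πG (mk x))⁻¹.1 (l, 1)).2) = (l, 1) := by
        simp
      rw [Eqv.apply, hx, one_mul] at e1
      rw [map_inv, map_inv]
      exact congrArg Prod.snd e1
  have act_c : ∀ x, act x c = (x.1, x.2 * mk c) := fun x => by simp [act, θ, hjc, th_wc]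
  have act_M : ∀ x, act x (mer c t) = (x.1, x.2 * mer (mk c) (mk t)) := fun x => by
    simp only [act, θ, hjM, th_mer, smul_zero, map_zero, add_zero, map_mer]
  have act_t : ∀ x, act x t = (x.1 + (hiA α σ (h x.2) - loA α σ (h x.2)), x.2 * mk t) :=
    fun x => by
      simp only [act, θ, hjt, th_wt, eqv_smul_sg, unsg, Units.val_one, one_smul, α, h]
      congr 2
      exact prC_sg σ m k _
  let ft : A × G → A × Rw3 G := fun x => (x.1 - loA α σ (h x.2), et x.2)
  let fc : A × G → A × Rw3 G := fun x => (x.1, ec x.2)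
  let fm : A × G → A × Rw3 G := fun x => (x.1, em x.2)
  let Pc : A × G → A × Rw3 G → ℤ := fun x =>
    sg (fc x) + sg (ft (act x c)) - sg (ft x) + sg (ft (act x (c * t)))
      - (sg (ft (act x (t * mer c t))) + sg (fm (act x t))) + sg (fc (act x (c * t * t)))
  let Sc : A × G → A × Rw3 G → ℤ := fun x =>
    sg (fc x) + sg (fm (act x c)) - sg (fm x) - sg (fc (act x (mer c t)))
  have eP : ∀ x g, cov α (Dm (mk c) (mk t) h σ rep) (x, .inl g) =
      Pc (x + loA α σ (h (g * mk c)) + loA α σ (h g), g) := fun x g => by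
    rw [cov_cell]
    simp only [Pc, ft, fc, fm, act_mul, act_c, act_M, act_t, L.h1, L.h2]
    generalize loA α σ (h (g * mk c)) = u1
    generalize loA α σ (h g) = u2
    generalize hiA α σ (h (g * mk c)) = v1
    generalize hiA α σ (h g) = v2
    rw [show x + u1 + u2 - u1 = x + u2 by abel, show x + u1 + u2 - u2 = x + u1 by abel,
      show x + u1 + u2 + (v1 - u1) - u2 = x + v1 by abel,
      show x + u1 + u2 + (v2 - u2) - u1 = x + v2 by abel,
      show x + u1 + u2 + (v1 - u1) + (v2 - u2) = x + v1 + v2 by abel,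
      show x + u1 + u2 + (v2 - u2) = x + u1 + v2 by abel]
  have eS : ∀ x g, cov α (Dm (mk c) (mk t) h σ rep) (x, .inr g) = Sc (x, g.1) := fun x g => by
    rw [cov_sqr]
    simp only [Sc, fc, fm, act_c, act_M]
  obtain ⟨hfin, hle⟩ := tors_ab_le3 hP act act_one act_mul (N'.comap j) hact ft fc fm
    (fun Q vt vc vm => ⟨fun r => match r.2 with
        | .inl g => vt (r.1 + loA α σ (h g), g)
        | .inr (.inl g) => vc (r.1, g)
        | .inr (.inr g) => vm (r.1, g), fun x => ⟨by simp [ft, et], rfl, rfl⟩⟩)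
    Pc Sc (fun _ => rfl) (fun _ => rfl) (cov α (Dm (mk c) (mk t) h σ rep))
    (fun x => Submodule.subset_span
      ⟨(x.1 - loA α σ (h x.2) - loA α σ (h (x.2 * mk c)), .inl x.2), by rw [eP]; simp⟩)
    (fun x => by
      by_cases hx : rep x.2
      · simp only [Sc, fc, fm, act_c, act_M]
        refine sqr_span (Submodule.span ℤ (Set.range
          (cov α (Dm (mk c) (mk t) h σ rep)))).toAddSubgroup (mk c) (mer (mk c) (mk t))
          (fun g => sg (x.1, ec g)) (fun g => sg (x.1, em g)) x.2 fun w hw hw1 => ?_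
        have hr : ¬ rep (x.2 * w) := fun e => hw1 (by
          have e1 : x.2 * w = ((x.2 * w : G) : G ⧸ H).out := e
          rw [QuotientGroup.mk_mul_of_mem x.2 hw, ← hx] at e1
          exact mul_eq_left.1 e1)
        exact Submodule.subset_span ⟨(x.1, .inr ⟨_, hr⟩), cov_sqr _ _ _ _ _ _ _ _⟩
      · exact Submodule.subset_span ⟨(x.1, .inr ⟨x.2, hx⟩), eS _ _⟩)
    (by
      rintro ⟨x, g | g⟩
      · exact Or.inl ⟨_, eP x g⟩
      · exact Or.inr ⟨_, eS x g⟩)
  have hX : (0 : ℝ) < Nat.card (A × G) := by exact_mod_cast Nat.card_pos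
  have hKi : (N'.comap j).FiniteIndex := by
    refine ⟨fun h0 => ?_⟩
    have : Finite (Γ ⧸ N'.comap j) := by
      refine Finite.of_injective (β := A × G)
        (Quotient.lift (fun γ => act (0, 1) γ⁻¹) fun γ γ' hγ => ?_) ?_
      · have := (hact (0, 1) _).2 (QuotientGroup.leftRel_apply.1 hγ)
        calc act (0, 1) γ⁻¹ = act (act (0, 1) (γ⁻¹ * γ')) γ'⁻¹ := by
              rw [← act_mul, mul_inv_cancel_right]
          _ = _ := by rw [this]
      · intro u v
        induction u using QuotientGroup.induction_on with | _ γ => ?_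
        induction v using QuotientGroup.induction_on with | _ γ' => ?_
        intro huv
        have huv' : act (0, 1) γ⁻¹ = act (0, 1) γ'⁻¹ := huv
        rw [QuotientGroup.eq, ← hact (0, 1), act_mul, huv', ← act_mul, inv_mul_cancel, act_one]
    exact Subgroup.index_ne_zero_of_finite h0
  have hidx : (N'.comap j).index * j.range.index = N'.index := by
    rw [Subgroup.index_comap, Subgroup.relIndex_mul_index hr']
  have hri : j.range.index ≠ 0 := (Subgroup.finiteIndex_of_le hr0).index_ne_zero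
  have eqv : N'.comap j ≃* N' :=
    ((N'.comap j).equivMapOfInjective j hj).trans
      (MulEquiv.subgroupCongr (Subgroup.map_comap_eq_self hr'))
  obtain ⟨τ⟩ := torsion_equiv eqv
  refine ⟨N', fun w hw => hw.1.1.1, hn', ⟨by rw [← hidx]; exact mul_ne_zero hKi.1 hri⟩,
    Finite.of_equiv _ τ, ?_⟩
  rw [← Nat.card_congr τ]
  have e0 : (Nat.card (A × (G ⊕ {g // ¬ rep g})) : ℝ) ≤ 2 * Nat.card (A × G) := by
    have : Nat.card {g // ¬ rep g} ≤ Nat.card G := Finite.card_subtype_le _
    have e : Nat.card (A × (G ⊕ {g // ¬ rep g})) ≤ 2 * Nat.card (A × G) := by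
      rw [Nat.card_prod, Nat.card_prod A G, Nat.card_sum]
      nlinarith
    exact_mod_cast e
  have e1 := (hcore (W → ZMod k) fun l => sg l).trans
    (mul_le_mul_of_nonneg_left e0 (by positivity))
  have e2 : Real.log (Nat.card (CommGroup.torsion (Abelianization (N'.comap j)))) ≤
      ε * (N'.comap j).index := by
    refine le_of_mul_le_mul_right (hle.trans ?_) hX
    calc _ ≤ ((N'.comap j).index : ℝ) * (ε / 2 * (2 * Nat.card (A × G))) :=
          mul_le_mul_of_nonneg_left e1 (Nat.cast_nonneg _)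
      _ = _ := by ring
  refine e2.trans (mul_le_mul_of_nonneg_left ?_ hε.le)
  rw [← hidx]
  exact_mod_cast Nat.le_mul_of_pos_right _ (Nat.pos_of_ne_zero hri)

end TorsW2
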