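import Pool.Agent.Lib.MP_004c47_gt.Racg37

/-! The commutator subgroup of a right-angled Coxeter group has finite index and
torsion-free abelianisation. -/

namespace TorsTower37

open Classical

universe u

section Moebius
variable {V : Type} {B : Type*} [AddCommGroup B]

/-- Moebius transform on the Boolean lattice -/
noncomputable def moeb (F : Finset V → B) (K : Finset V) : B :=
  ∑ L ∈ K.powerset, ((-1 : ℤ) ^ (K.card + L.card)) • F L

theorem moeb_insert (F : Finset V → B) (K : Finset V) (a : V) (ha : a ∉ K) :
    moeb F (insert a K) = moeb (fun L => F (insert a L) - F L) K := by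
  unfold moeb
  rw [Finset.sum_powerset_insert ha, ← Finset.sum_add_distrib]
  apply Finset.sum_congr rfl
  intro L hL
  have haL : a ∉ L := fun h => ha (Finset.mem_powerset.1 hL h)
  rw [Finset.card_insert_of_notMem ha, Finset.card_insert_of_notMem haL]
  have e1 : (-1 : ℤ) ^ (K.card + 1 + L.card) = -(-1) ^ (K.card + L.card) := by ring
  have e2 : (-1 : ℤ) ^ (K.card + 1 + (L.card + 1)) = (-1) ^ (K.card + L.card) := by ring
  rw [e1, e2, smul_sub, neg_smul]
  abel

theorem moeb_congr {F G : Finset V → B} {K : Finset V} (h : ∀ L ⊆ K, F L = G L) :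
    moeb F K = moeb G K := by
  unfold moeb
  apply Finset.sum_congr rfl
  intro L hL
  rw [h L (Finset.mem_powerset.1 hL)]

theorem sum_moeb (I : Finset V) : ∀ F : Finset V → B, ∑ K ∈ I.powerset, moeb F K = F I := by
  induction I using Finset.induction_on with
  | empty => intro F; simp [moeb]
  | insert a I ha ih =>
    intro F
    rw [Finset.sum_powerset_insert ha, ih]
    have : ∑ K ∈ I.powerset, moeb F (insert a K) =
        ∑ K ∈ I.powerset, moeb (fun L => F (insert a L) - F L) K := by
      apply Finset.sum_congr rfl
      intro K hK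
      exact moeb_insert F K a (fun h => ha (Finset.mem_powerset.1 hK h))
    rw [this, ih]
    abel

end Moebius

variable {W : Type u} [Group W] {V : Type} {adj : V → V → Prop} {s : V → W}

/-- toggling a vertex -/
noncomputable def tog (I : Finset V) (v : V) : Finset V :=
  if v ∈ I then I.erase v else insert v I

theorem mem_tog (I : Finset V) (v u : V) : u ∈ tog I v ↔ if u = v then v ∉ I else u ∈ I := by
  unfold tog
  by_cases h : v ∈ I <;> by_cases e : u = v <;> simp [h, e]

theorem tog_tog (I : Finset V) (v : V) : tog (tog I v) v = I := by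
  ext u
  by_cases e : u = v <;> simp [mem_tog, e]

theorem tog_comm (I : Finset V) (u v : V) : tog (tog I u) v = tog (tog I v) u := by
  ext w
  by_cases e : u = v
  · rw [e]
  · have e' : ¬ v = u := fun h => e h.symm
    by_cases e1 : w = u <;> by_cases e2 : w = v
    · exact absurd (e1.symm.trans e2) e
    · simp [mem_tog, e1, e]
    · simp [mem_tog, e2, e']
    · simp [mem_tog, e1, e2]

variable (adj) in
/-- representative of the component of `v` in the full subgraph on `J` -/
noncomputable def crep (J : Finset V) (v : V) : V :=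
  (Quot.mk (fun a b => a ∈ J ∧ b ∈ J ∧ adj a b) v).out

theorem crep_eq {J : Finset V} {u v : V} (hu : u ∈ J) (hv : v ∈ J) (h : adj u v) :
    crep adj J u = crep adj J v := by
  unfold crep
  rw [Quot.sound (r := fun a b => a ∈ J ∧ b ∈ J ∧ adj a b) ⟨hu, hv, h⟩]

theorem crep_spec {B : Type*} {J : Finset V} (F : V → B)
    (hF : ∀ a b, a ∈ J → b ∈ J → adj a b → F a = F b) (v : V) : F (crep adj J v) = F v := by
  have e : Quot.lift F (fun a b (h : a ∈ J ∧ b ∈ J ∧ adj a b) => hF a b h.1 h.2.1 h.2.2)
      (Quot.mk _ (crep adj J v)) = Quot.lift F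
        (fun a b (h : a ∈ J ∧ b ∈ J ∧ adj a b) => hF a b h.1 h.2.1 h.2.2) (Quot.mk _ v) := by
    unfold crep
    rw [Quot.out_eq]
  exact e

variable (adj) in
/-- class of an edge of the cube in the free abelian group on components -/
noncomputable def del0 (I : Finset V) (v : V) : (Finset V × V) →₀ ℤ :=
  ∑ K ∈ I.powerset, Finsupp.single (insert v K, crep adj (insert v K) v) 1

variable (adj) in
/-- signed class of an edge -/
noncomputable def del (I : Finset V) (v : V) : (Finset V × V) →₀ ℤ :=
  if v ∈ I then - del0 adj (I.erase v) v else del0 adj I v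

theorem del_tog (I : Finset V) (v : V) : del adj (tog I v) v + del adj I v = 0 := by
  unfold del tog
  by_cases h : v ∈ I <;> simp [h]

theorem del0_square (hs : ∀ a b, adj a b → adj b a) {I : Finset V} {u v : V} (hu : u ∉ I)
    (hv : v ∉ I) (h : adj u v) :
    del0 adj (insert u I) v + del0 adj I u = del0 adj (insert v I) u + del0 adj I v := by
  unfold del0
  rw [Finset.sum_powerset_insert hu, Finset.sum_powerset_insert hv]
  have : ∑ K ∈ I.powerset, Finsupp.single (insert v (insert u K),
        crep adj (insert v (insert u K)) v) (1 : ℤ) =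
      ∑ K ∈ I.powerset, Finsupp.single (insert u (insert v K),
        crep adj (insert u (insert v K)) u) (1 : ℤ) := by
    apply Finset.sum_congr rfl
    intro K _
    rw [Finset.insert_comm v u K, crep_eq (u := v) (v := u) (by simp) (by simp) (hs _ _ h)]
  rw [this]
  abel

theorem del_square (hs : ∀ a b, adj a b → adj b a) (I : Finset V) {u v : V} (h : adj u v) :
    del adj (tog I u) v + del adj I u = del adj (tog I v) u + del adj I v := by
  by_cases e : u = v
  · rw [e]
  have e' : ¬ v = u := fun h => e h.symm
  have base := del0_square hs (I := (I.erase u).erase v) (u := u) (v := v) (by simp) (by simp) h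
  by_cases hu : u ∈ I <;> by_cases hv : v ∈ I
  · have a1 : insert u ((I.erase u).erase v) = I.erase v := by
      ext w; by_cases e1 : w = u <;> simp [e1, e, hu]
    have a2 : insert v ((I.erase u).erase v) = I.erase u := by
      ext w; by_cases e1 : w = v <;> simp [e1, e', hv]
    have a3 : (I.erase v).erase u = (I.erase u).erase v := Finset.erase_right_comm
    rw [a1, a2] at base
    simp only [del, tog, hu, hv, if_true, Finset.mem_erase, ne_eq, e, e', not_false_eq_true,
      and_self, a3]
    linear_combination (norm := abel1) base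
  · have a0 : (I.erase u).erase v = I.erase u := by simp [hv]
    have a1 : insert u (I.erase u) = I := Finset.insert_erase hu
    have a2 : (insert v I).erase u = insert v (I.erase u) := by
      ext w; by_cases e1 : w = v <;> simp [e1, e']
    rw [a0, a1] at base
    simp only [del, tog, hu, hv, if_true, if_false, Finset.mem_erase, ne_eq, e, e',
      not_false_eq_true, and_false, Finset.mem_insert, or_true, a2]
    linear_combination (norm := abel1) -base
  · have a0 : (I.erase u).erase v = I.erase v := by simp [hu]
    have a1 : insert v (I.erase v) = I := Finset.insert_erase hv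
    have a2 : (insert u I).erase v = insert u (I.erase v) := by
      ext w; by_cases e1 : w = u <;> simp [e1, e]
    rw [a0, a1] at base
    simp only [del, tog, hu, hv, if_true, if_false, Finset.mem_erase, ne_eq, e, e',
      not_false_eq_true, and_false, Finset.mem_insert, or_true, a2]
    linear_combination (norm := abel1) -base
  · have a0 : (I.erase u).erase v = I := by simp [hu, hv]
    rw [a0] at base
    simp only [del, tog, hu, hv, if_false, Finset.mem_insert, e, e', or_self]
    exact base

/-- a section of the abelianisation -/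
noncomputable def tau (s : V → W) (I : Finset V) : W := (I.toList.map s).prod

theorem of_tau (I : Finset V) :
    Abelianization.of (tau s I) = ∏ v ∈ I, Abelianization.of (s v) := by
  unfold tau
  rw [map_list_prod, List.map_map, Finset.prod_map_toList]
  rfl

theorem of_tau_tog (h : RA W adj s) (I : Finset V) (v : V) :
    Abelianization.of (tau s (tog I v)) = Abelianization.of (s v) * Abelianization.of (tau s I) := by
  rw [of_tau, of_tau]
  unfold tog
  by_cases hv : v ∈ I
  · rw [if_pos hv, ← Finset.mul_prod_erase I _ hv, ← mul_assoc, ← map_mul, h.sq, map_one, one_mul]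
  · rw [if_neg hv, Finset.prod_insert hv]

theorem mem_comm_iff (w : W) : w ∈ commutator W ↔ Abelianization.of w = 1 := by
  rw [← Abelianization.ker_of, MonoidHom.mem_ker]

theorem edge_mem (h : RA W adj s) (I : Finset V) (v : V) :
    (tau s (tog I v))⁻¹ * s v * tau s I ∈ commutator W := by
  rw [mem_comm_iff, map_mul, map_mul, map_inv, of_tau_tog h, mul_assoc, inv_mul_cancel]

/-- class of an edge of the cube in the abelianised commutator subgroup -/
noncomputable def cc (h : RA W adj s) (I : Finset V) (v : V) :
    Additive (Abelianization (commutator W)) :=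
  Additive.ofMul (Abelianization.of ⟨_, edge_mem h I v⟩)

theorem cc_tog (h : RA W adj s) (I : Finset V) (v : V) : cc h (tog I v) v + cc h I v = 0 := by
  unfold cc
  rw [← ofMul_mul, ← map_mul, ← ofMul_one]
  congr 1
  rw [← map_one Abelianization.of]
  congr 1
  apply Subtype.ext
  simp only [Subgroup.coe_mul, Subgroup.coe_one, tog_tog]
  calc (tau s I)⁻¹ * s v * tau s (tog I v) * ((tau s (tog I v))⁻¹ * s v * tau s I)
      = (tau s I)⁻¹ * (s v * s v) * tau s I := by group
    _ = 1 := by rw [h.sq]; group

theorem cc_square (h : RA W adj s) (I : Finset V) {u v : V} (huv : adj u v) :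
    cc h (tog I u) v + cc h I u = cc h (tog I v) u + cc h I v := by
  unfold cc
  rw [← ofMul_mul, ← ofMul_mul, ← map_mul, ← map_mul]
  congr 2
  apply Subtype.ext
  simp only [Subgroup.coe_mul, tog_comm I u v]
  calc (tau s (tog (tog I v) u))⁻¹ * s v * tau s (tog I u) * ((tau s (tog I u))⁻¹ * s u * tau s I)
      = (tau s (tog (tog I v) u))⁻¹ * (s v * s u) * tau s I := by group
    _ = (tau s (tog (tog I v) u))⁻¹ * (s u * s v) * tau s I := by rw [h.comm u v huv]
    _ = _ := by group

/-- value of the retraction on a basis vector -/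
noncomputable def PP (h : RA W adj s) (J : Finset V) (v : V) :
    Additive (Abelianization (commutator W)) :=
  if v ∈ J then moeb (fun I => cc h I v) (J.erase v) else 0

theorem PP_adj (h : RA W adj s) (J : Finset V) (u v : V) (hu : u ∈ J) (hv : v ∈ J)
    (huv : adj u v) : PP h J u = PP h J v := by
  by_cases e : u = v
  · rw [e]
  have e' : ¬ v = u := fun h => e h.symm
  have a1 : J.erase v = insert u ((J.erase u).erase v) := by
    ext w; by_cases e1 : w = u <;> simp [e1, e, hu]
  have a2 : J.erase u = insert v ((J.erase u).erase v) := by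
    ext w; by_cases e1 : w = v <;> simp [e1, e', hv]
  unfold PP
  rw [if_pos hu, if_pos hv, a1]
  conv_lhs => rw [a2]
  rw [moeb_insert _ _ _ (by simp), moeb_insert _ _ _ (by simp)]
  apply moeb_congr
  intro L hL
  have h1 : u ∉ L := fun hh => by simpa using hL hh
  have h2 : v ∉ L := fun hh => by simpa using hL hh
  have := cc_square h L huv
  simp only [tog, h1, h2, if_false] at this
  linear_combination (norm := abel1) -this

/-- the retraction -/
noncomputable def retr (h : RA W adj s) :
    ((Finset V × V) →₀ ℤ) →ₗ[ℤ] Additive (Abelianization (commutator W)) :=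
  Finsupp.linearCombination ℤ (fun p => PP h p.1 p.2)

theorem retr_del0 (h : RA W adj s) (I : Finset V) (v : V) (hv : v ∉ I) :
    retr h (del0 adj I v) = cc h I v := by
  unfold del0
  rw [map_sum, ← sum_moeb I (fun I => cc h I v)]
  apply Finset.sum_congr rfl
  intro K hK
  have hvK : v ∉ K := fun hh => hv (Finset.mem_powerset.1 hK hh)
  unfold retr
  rw [Finsupp.linearCombination_single, one_smul]
  simp only
  rw [crep_spec (PP h (insert v K)) (PP_adj h _)]
  unfold PP
  rw [if_pos (by simp), Finset.erase_insert hvK]

theorem retr_del (h : RA W adj s) (I : Finset V) (v : V) : retr h (del adj I v) = cc h I v := by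
  unfold del
  by_cases hv : v ∈ I
  · rw [if_pos hv, map_neg, retr_del0 h _ _ (by simp)]
    have := cc_tog h I v
    simp only [tog, hv, if_true] at this
    exact neg_eq_of_add_eq_zero_right this
  · rw [if_neg hv, retr_del0 h _ _ hv]

theorem RA.torsionFree (h : RA W adj s) (a : Abelianization (commutator W))
    (ha : IsOfFinOrder a) : a = 1 := by
  let g : V → Eqv (Finset V) (Multiplicative ((Finset V × V) →₀ ℤ)) := fun v =>
    cocyc (fun I => tog I v) (fun I => Multiplicative.ofAdd (del adj I v))
      (fun I => tog_tog I v) (fun I => by rw [← ofAdd_add, del_tog, ofAdd_zero])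
  obtain ⟨ρ, hρ⟩ := h.lift _ g (fun v => cocyc_sq _ _ _ _) (by
    intro u v huv
    apply Eqv.ext'
    intro I
    simp only [Subgroup.coe_mul, Equiv.Perm.mul_apply, g, cocyc_apply, mul_one]
    rw [← ofAdd_add, ← ofAdd_add, del_square h.symm I huv, tog_comm])
  have step : ∀ v w, (ρ (s v * w)).1 (∅, 1) = (tog ((ρ w).1 (∅, 1)).1 v,
      Multiplicative.ofAdd (del adj ((ρ w).1 (∅, 1)).1 v) * ((ρ w).1 (∅, 1)).2) := by
    intro v w
    rw [map_mul, hρ]
    rfl
  have main : ∀ w, ∃ hm : (tau s ((ρ w).1 (∅, 1)).1)⁻¹ * w ∈ commutator W,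
      retr h (Multiplicative.toAdd ((ρ w).1 (∅, 1)).2) =
        Additive.ofMul (Abelianization.of ⟨_, hm⟩) := by
    intro w
    induction w using h.induction with
    | h1 =>
      refine ⟨by simp [tau], ?_⟩
      have : (⟨(tau s ((ρ 1).1 (∅, 1)).1)⁻¹ * 1, by simp [tau]⟩ : commutator W) = 1 := by
        apply Subtype.ext; simp [tau]
      rw [this]
      simp
    | hm v w ih =>
      obtain ⟨hm, ih⟩ := ih
      have e : (tau s ((ρ (s v * w)).1 (∅, 1)).1)⁻¹ * (s v * w) =
          ((tau s (tog ((ρ w).1 (∅, 1)).1 v))⁻¹ * s v * tau s ((ρ w).1 (∅, 1)).1) *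
            ((tau s ((ρ w).1 (∅, 1)).1)⁻¹ * w) := by
        rw [step]; group
      have hm' : (tau s ((ρ (s v * w)).1 (∅, 1)).1)⁻¹ * (s v * w) ∈ commutator W := by
        rw [e]; exact mul_mem (edge_mem h _ _) hm
      refine ⟨hm', ?_⟩
      have e2 : (⟨_, hm'⟩ : commutator W) = ⟨_, edge_mem h ((ρ w).1 (∅, 1)).1 v⟩ * ⟨_, hm⟩ :=
        Subtype.ext e
      rw [e2, map_mul Abelianization.of, ofMul_mul, ← ih, step]
      simp only [toAdd_mul, toAdd_ofAdd, map_add, retr_del]
      rfl
  have fst : ∀ n ∈ commutator W, ((ρ n).1 (∅, 1)).1 = ∅ := by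
    intro n hn
    apply Finset.eq_empty_of_forall_notMem
    intro v hv
    obtain ⟨χ, hχ⟩ := h.exists_chi v
    have key : ∀ w, v ∈ ((ρ w).1 (∅, 1)).1 ↔ χ w = -1 := by
      intro w
      induction w using h.induction with
      | h1 => simp
      | hm a w ih =>
        rw [step, map_mul, hχ]
        simp only [mem_tog]
        by_cases e : v = a
        · subst e
          rw [if_pos rfl, if_pos rfl, ih]
          rcases Int.units_eq_one_or (χ w) with h1 | h1 <;> simp [h1]
        · rw [if_neg e, if_neg (fun hh => e hh.symm), one_mul, ih]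
    have : χ n = 1 := Abelianization.commutator_subset_ker χ hn
    rw [key, this] at hv
    exact absurd hv (by decide)
  let D : commutator W →* Multiplicative ((Finset V × V) →₀ ℤ) :=
    ⟨⟨fun n => ((ρ n.1).1 (∅, 1)).2, by simp⟩, by
      intro x y
      simp only [Subgroup.coe_mul, map_mul]
      exact Eqv.mul_snd _ _ _ (fst _ y.2)⟩
  have back : ∀ b : Abelianization (commutator W),
      retr h (Multiplicative.toAdd (Abelianization.lift D b)) = Additive.ofMul b := by
    intro b
    obtain ⟨n, rfl⟩ := QuotientGroup.mk_surjective b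
    obtain ⟨hm, e⟩ := main n.1
    have e2 : (⟨_, hm⟩ : commutator W) = n := by
      apply Subtype.ext
      simp [fst _ n.2, tau]
    rw [e2] at e
    exact e
  have hfin : IsOfFinOrder (Abelianization.lift D a) := MonoidHom.isOfFinOrder _ ha
  have h1 : Abelianization.lift D a = 1 := by
    obtain ⟨k, hk, hpow⟩ := isOfFinOrder_iff_pow_eq_one.1 hfin
    have : k • Multiplicative.toAdd (Abelianization.lift D a) = 0 := by
      rw [← toAdd_pow, hpow, toAdd_one]
    have h2 : Multiplicative.toAdd (Abelianization.lift D a) = 0 := by
      ext p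
      have := DFunLike.congr_fun this p
      simp only [Finsupp.coe_smul, Pi.smul_apply, nsmul_eq_mul, Finsupp.coe_zero, Pi.zero_apply,
        mul_eq_zero, Nat.cast_eq_zero] at this
      rcases this with h | h
      · omega
      · simpa using h
    exact Multiplicative.toAdd.injective h2
  have := back a
  rw [h1, toAdd_one, map_zero] at this
  exact (Additive.ofMul.injective this).symm

theorem RA.finiteIndex [Finite V] (h : RA W adj s) : (commutator W).FiniteIndex := by
  have := Fintype.ofFinite V
  have : Finite (W ⧸ commutator W) := by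
    apply Finite.of_surjective (fun I : Finset V => (Abelianization.of (tau s I) : W ⧸ commutator W))
    intro b
    obtain ⟨w, rfl⟩ := QuotientGroup.mk_surjective b
    induction w using h.induction with
    | h1 => exact ⟨∅, by simp [tau]; rfl⟩
    | hm v w ih =>
      obtain ⟨I, hI⟩ := ih
      refine ⟨tog I v, ?_⟩
      simp only at hI ⊢
      rw [of_tau_tog h, hI]
      rfl
  exact Subgroup.finiteIndex_of_finite_quotient

end TorsTower37
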