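import Pool.Agent.Lib.MP_004c47_gt.TorsFree37

/-! An exhausting chain of iterated doubles, and the tower of their commutator subgroups. -/

namespace TorsTower37

open Classical

universe u

variable {E : Type u} [Group E]

/-- `H` is a right-angled Coxeter group on finitely many generators -/
def Good (H : Subgroup E) : Prop :=
  ∃ (W : Type u) (_ : Group W) (V : Type) (_ : Finite V) (adj : V → V → Prop) (s : V → W),
    RA W adj s ∧ ∃ j : W →* E, Function.Injective j ∧ j.range = H

/-- one step of the chain -/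
def Step (H H' : Subgroup E) : Prop :=
  Good H' ∧ H' ≤ H ∧ (∀ h ∈ H, ∀ x ∈ H', h * x * h⁻¹ ∈ H') ∧ H'.relIndex H ≠ 0

theorem Step.refl {H : Subgroup E} (h : Good H) : Step H H :=
  ⟨h, le_rfl, fun _ ha _ hx => mul_mem (mul_mem ha hx) (inv_mem ha), by simp⟩

theorem kill (n : ℕ) : ∀ (W : Type u) (_ : Group W) (V : Type) (_ : Finite V)
    (adj : V → V → Prop) (s : V → W) (_ : RA W adj s) (j : W →* E) (_ : Function.Injective j)
    (l : List V), l.length ≤ n → (l.map s).prod ≠ 1 →
    ∃ H', Relation.ReflTransGen Step j.range H' ∧ j (l.map s).prod ∉ H' := by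
  induction n with
  | zero =>
    intro W _ V _ adj s h j hj l hl hne
    have : l = [] := List.length_eq_zero_iff.1 (Nat.le_zero.1 hl)
    simp [this] at hne
  | succ n ih =>
    intro W _ V _ adj s h j hj l hl hne
    cases l with
    | nil => simp at hne
    | cons v l' =>
      obtain ⟨χ, hχ⟩ := h.exists_chi v
      have hd := h.double hχ
      have hj' : Function.Injective (j.comp χ.ker.subtype) :=
        hj.comp Subtype.val_injective
      have hr : (j.comp χ.ker.subtype).range = χ.ker.map j := by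
        rw [MonoidHom.range_comp, Subgroup.range_subtype]
      have hstep : Step j.range (j.comp χ.ker.subtype).range := by
        refine ⟨⟨χ.ker, inferInstance, DV adj v, inferInstance, _, _, hd, _, hj', rfl⟩, ?_, ?_, ?_⟩
        · rw [hr]; exact Subgroup.map_le_range _ _
        · rw [hr]
          rintro _ ⟨a, rfl⟩ _ ⟨x, hx, rfl⟩
          refine ⟨a * x * a⁻¹, (MonoidHom.normal_ker χ).conj_mem x hx a, by simp⟩
        · rw [hr, MonoidHom.range_eq_map, Subgroup.relIndex_map_map_of_injective _ _ hj,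
            Subgroup.relIndex_top_right]
          exact Subgroup.FiniteIndex.index_ne_zero
      by_cases hc : χ ((v :: l').map s).prod = 1
      · have e := drw_eq h hχ (v :: l') hc
        have hlen : (drw (adj := adj) v false (v :: l')).length ≤ n := by
          have := drw_length (adj := adj) v false (v :: l')
          simp only [List.count_cons_self, List.length_cons] at this hl
          omega
        have e2 : (((drw (adj := adj) v false (v :: l')).map
            (fun p => (⟨dgen s v p, chi_dgen hχ p⟩ : χ.ker))).prod : W) =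
              ((v :: l').map s).prod := by
          rw [e, Subgroup.val_list_prod, List.map_map]
          rfl
        obtain ⟨H', h1, h2⟩ := ih χ.ker inferInstance (DV adj v) inferInstance _ _ hd _ hj'
          (drw (adj := adj) v false (v :: l')) hlen (by
            intro hh
            apply hne
            rw [← e2, hh]; rfl)
        refine ⟨H', Relation.ReflTransGen.head hstep h1, ?_⟩
        rw [← e2]
        exact h2
      · refine ⟨_, Relation.ReflTransGen.single hstep, ?_⟩
        rw [hr]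
        rintro ⟨x, hx, hxe⟩
        exact hc (hj hxe ▸ hx)

theorem kill' {H : Subgroup E} (hH : Good H) (x : E) (hx : x ≠ 1) :
    ∃ H', Relation.ReflTransGen Step H H' ∧ x ∉ H' := by
  by_cases hm : x ∈ H
  · obtain ⟨W, _, V, _, adj, s, h, j, hj, rfl⟩ := hH
    obtain ⟨w, rfl⟩ := hm
    obtain ⟨l, rfl⟩ := h.word w
    exact kill l.length W _ V inferInstance adj s h j hj l le_rfl
      (fun hh => hx (by rw [hh, map_one]))
  · exact ⟨H, Relation.ReflTransGen.refl, hm⟩

/-- flattening finite chains into one sequence -/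
theorem exists_seq {α : Type*} (r : α → α → Prop) (Q : α → Prop) (P : ℕ → α → Prop)
    (hQ : ∀ a b, r a b → Q b) (hrefl : ∀ a, Q a → r a a)
    (hP : ∀ a k, Q a → ∃ b, Relation.ReflTransGen r a b ∧ P k b) (a0 : α) (h0 : Q a0) :
    ∃ f : ℕ → α, f 0 = a0 ∧ (∀ n, r (f n) (f (n + 1))) ∧ ∀ k, ∃ n, P k (f n) := by
  let R : ℕ → ℕ → α → Prop := fun k d => Nat.rec (fun a => P k a)
    (fun _ R a => ∃ b, r a b ∧ R b) d
  have hR : ∀ a k, Q a → ∃ d, R k d a := by
    intro a k ha
    obtain ⟨b, h1, h2⟩ := hP a k ha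
    clear ha
    induction h1 using Relation.ReflTransGen.head_induction_on with
    | refl => exact ⟨0, h2⟩
    | head h _ ih => obtain ⟨d, hd⟩ := ih; exact ⟨d + 1, _, h, hd⟩
  have nxt : ∀ p : {p : α × ℕ × ℕ // Q p.1 ∧ R p.2.1 p.2.2 p.1},
      ∃ q : {p : α × ℕ × ℕ // Q p.1 ∧ R p.2.1 p.2.2 p.1}, r p.1.1 q.1.1 ∧
        ((p.1.2.2 = 0 ∧ q.1.2.1 = p.1.2.1 + 1) ∨
          (p.1.2.2 = q.1.2.2 + 1 ∧ q.1.2.1 = p.1.2.1)) := by
    rintro ⟨⟨a, k, d⟩, ha, hd⟩
    cases d with
    | zero =>
      obtain ⟨d', hd'⟩ := hR a (k + 1) ha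
      exact ⟨⟨(a, k + 1, d'), ha, hd'⟩, hrefl a ha, Or.inl ⟨rfl, rfl⟩⟩
    | succ d =>
      obtain ⟨b, hb, hd'⟩ := hd
      exact ⟨⟨(b, k, d), hQ a b hb, hd'⟩, hb, Or.inr ⟨rfl, rfl⟩⟩
  choose nx hnx using nxt
  obtain ⟨d0, hd0⟩ := hR a0 0 h0
  let st : ℕ → {p : α × ℕ × ℕ // Q p.1 ∧ R p.2.1 p.2.2 p.1} :=
    fun n => Nat.rec ⟨(a0, 0, d0), h0, hd0⟩ (fun _ p => nx p) n
  have hst : ∀ n, st (n + 1) = nx (st n) := fun n => rfl
  have down : ∀ d n, (st n).1.2.2 = d → ∃ m, (st m).1.2.1 = (st n).1.2.1 ∧ (st m).1.2.2 = 0 := by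
    intro d
    induction d with
    | zero => intro n hn; exact ⟨n, rfl, hn⟩
    | succ d ih =>
      intro n hn
      rcases (hnx (st n)).2 with ⟨h1, -⟩ | ⟨h1, h2⟩
      · omega
      · obtain ⟨m, hm1, hm2⟩ := ih (n + 1) (by rw [hst]; omega)
        exact ⟨m, by rw [hm1, hst, h2], hm2⟩
  have reach : ∀ k, ∃ m, (st m).1.2.1 = k ∧ (st m).1.2.2 = 0 := by
    intro k
    induction k with
    | zero => exact down _ 0 rfl
    | succ k ih =>
      obtain ⟨m, hm1, hm2⟩ := ih
      obtain ⟨m', h1, h2⟩ := down _ (m + 1) rfl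
      refine ⟨m', ?_, h2⟩
      rw [h1, hst]
      rcases (hnx (st m)).2 with ⟨-, h4⟩ | ⟨h3, -⟩
      · omega
      · omega
  refine ⟨fun n => (st n).1.1, rfl, fun n => (hnx (st n)).1, fun k => ?_⟩
  obtain ⟨m, h1, h2⟩ := reach k
  have := (st m).2.2
  rw [h1, h2] at this
  exact ⟨m, this⟩

theorem chain {H0 : Subgroup E} (hH : Good H0) :
    ∃ H : ℕ → Subgroup E, H 0 = H0 ∧ (∀ n, Step (H n) (H (n + 1))) ∧
      ∀ x, (∀ n, x ∈ H n) → x = 1 := by
  obtain ⟨W, _, V, _, adj, s, h, j, hj, rfl⟩ := id hH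
  obtain ⟨e, he⟩ := exists_surjective_nat (List V)
  obtain ⟨H, h0, h1, h2⟩ := exists_seq (Step (E := E)) Good
    (fun k K => j ((e k).map s).prod = 1 ∨ j ((e k).map s).prod ∉ K)
    (fun _ _ h => h.1) (fun _ h => Step.refl h) (by
      intro a k ha
      by_cases hx : j ((e k).map s).prod = 1
      · exact ⟨a, Relation.ReflTransGen.refl, Or.inl hx⟩
      · obtain ⟨b, h1, h2⟩ := kill' ha _ hx
        exact ⟨b, h1, Or.inr h2⟩) j.range hH
  refine ⟨H, h0, h1, fun x hx => ?_⟩
  have := hx 0
  rw [h0] at this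
  obtain ⟨w, rfl⟩ := this
  obtain ⟨l, rfl⟩ := h.word w
  obtain ⟨k, rfl⟩ := he l
  obtain ⟨n, hn⟩ := h2 k
  exact hn.resolve_right (fun hh => hh (hx n))

theorem Good.comm {H : Subgroup E} (hH : Good H) :
    (⁅H, H⁆ : Subgroup E).relIndex H ≠ 0 ∧
      ∀ a : Abelianization (⁅H, H⁆ : Subgroup E), IsOfFinOrder a → a = 1 := by
  obtain ⟨W, _, V, _, adj, s, h, j, hj, rfl⟩ := hH
  have e : (⁅j.range, j.range⁆ : Subgroup E) = (commutator W).map j := by
    rw [commutator_def, Subgroup.map_commutator, ← MonoidHom.range_eq_map]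
  rw [e]
  constructor
  · rw [MonoidHom.range_eq_map, Subgroup.relIndex_map_map_of_injective _ _ hj,
      Subgroup.relIndex_top_right]
    exact h.finiteIndex.index_ne_zero
  · intro a ha
    let φ := ((commutator W).equivMapOfInjective j hj).abelianizationCongr
    have := h.torsionFree (φ.symm a) (MonoidHom.isOfFinOrder φ.symm.toMonoidHom ha)
    simpa using this

/-- the tower in a group `G` that embeds in `E` over the commutator subgroup of `H0` -/
theorem tower {G : Type*} [Group G] {H0 : Subgroup E} (hH : Good H0) [H0.FiniteIndex]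
    [H0.Normal] (ι : G →* E) (hι : Function.Injective ι) (hle : ⁅H0, H0⁆ ≤ ι.range) :
    ∃ Γ : ℕ → Subgroup G, (Γ 0).Normal ∧ (∀ n, (Γ n).FiniteIndex) ∧ (∀ n, Γ (n + 1) ≤ Γ n) ∧
      (∀ n, ((Γ (n + 1)).subgroupOf (Γ n)).Normal) ∧ (⨅ n, Γ n) = ⊥ ∧
      ∀ n, ∀ a : Abelianization (Γ n), IsOfFinOrder a → a = 1 := by
  obtain ⟨H, h0, h1, h2⟩ := chain hH
  have good : ∀ n, Good (H n) := by
    intro n
    cases n with
    | zero => rw [h0]; exact hH
    | succ n => exact (h1 n).1
  have fin : ∀ n, (H n).index ≠ 0 := by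
    intro n
    induction n with
    | zero => rw [h0]; exact Subgroup.FiniteIndex.index_ne_zero
    | succ n ih =>
      rw [← Subgroup.relIndex_mul_index (h1 n).2.1]
      exact mul_ne_zero (h1 n).2.2.2 ih
  have cle : ∀ n, (⁅H n, H n⁆ : Subgroup E) ≤ H n := fun n => Subgroup.commutator_le_self _
  have le0 : ∀ n, H n ≤ H0 := by
    intro n
    induction n with
    | zero => rw [h0]
    | succ n ih => exact (h1 n).2.1.trans ih
  refine ⟨fun n => (⁅H n, H n⁆ : Subgroup E).comap ι, ?_, ?_, ?_, ?_, ?_, ?_⟩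
  · simp only [h0]; infer_instance
  · intro n
    have : (⁅H n, H n⁆ : Subgroup E).FiniteIndex := ⟨by
      rw [← Subgroup.relIndex_mul_index (cle n)]
      exact mul_ne_zero (good n).comm.1 (fin n)⟩
    refine ⟨?_⟩
    rw [Subgroup.index_comap]
    exact Subgroup.FiniteIndex.index_ne_zero
  · intro n
    exact Subgroup.comap_mono (Subgroup.commutator_mono (h1 n).2.1 (h1 n).2.1)
  · intro n
    refine ⟨fun x hx g => ?_⟩
    rw [Subgroup.mem_subgroupOf, Subgroup.mem_comap] at hx ⊢
    have hg : ι g.1 ∈ H n := cle n g.2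
    have : (⁅H (n + 1), H (n + 1)⁆ : Subgroup E).map (MulAut.conj (ι g.1)).toMonoidHom ≤
        ⁅H (n + 1), H (n + 1)⁆ := by
      rw [Subgroup.map_commutator]
      have : (H (n + 1)).map (MulAut.conj (ι g.1)).toMonoidHom ≤ H (n + 1) := by
        rintro _ ⟨y, hy, rfl⟩
        exact (h1 n).2.2.1 _ hg _ hy
      exact Subgroup.commutator_mono this this
    have := this ⟨_, hx, rfl⟩
    simpa using this
  · rw [eq_bot_iff]
    intro x hx
    rw [Subgroup.mem_iInf] at hx
    have : ι x = 1 := h2 _ (fun n => cle n (hx n))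
    rw [Subgroup.mem_bot]
    exact hι (by rw [this, map_one])
  · intro n a ha
    have e : ((⁅H n, H n⁆ : Subgroup E).comap ι).map ι = ⁅H n, H n⁆ :=
      Subgroup.map_comap_eq_self ((Subgroup.commutator_mono (le0 n) (le0 n)).trans hle)
    let φ := ((((⁅H n, H n⁆ : Subgroup E).comap ι).equivMapOfInjective ι hι).trans
      (MulEquiv.subgroupCongr e)).abelianizationCongr
    have := (good n).comm.2 (φ a) (MonoidHom.isOfFinOrder φ.toMonoidHom ha)
    simpa using this

/-- the indices of an exhausting chain in an infinite group tend to infinity -/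
theorem index_tendsto {G : Type*} [Group G] [Infinite G] (Γ : ℕ → Subgroup G)
    (hf : ∀ n, (Γ n).FiniteIndex) (hle : ∀ n, Γ (n + 1) ≤ Γ n) (hb : (⨅ n, Γ n) = ⊥) :
    Filter.Tendsto (fun n => (Γ n).index) Filter.atTop Filter.atTop := by
  have anti : Antitone Γ := antitone_nat_of_succ_le hle
  rw [Filter.tendsto_atTop_atTop]
  intro N
  let e : Fin N → G := fun i => Infinite.natEmbedding G i
  have he : Function.Injective e := fun i j h => Fin.ext ((Infinite.natEmbedding G).injective h)
  have : ∀ p : Fin N × Fin N, ∃ n, (e p.1)⁻¹ * e p.2 ∈ Γ n → p.1 = p.2 := by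
    intro p
    by_contra hh
    push Not at hh
    have : (e p.1)⁻¹ * e p.2 ∈ ⨅ n, Γ n := Subgroup.mem_iInf.2 fun n => (hh n).1
    rw [hb, Subgroup.mem_bot, inv_mul_eq_one] at this
    exact (hh 0).2 (he this)
  choose m hm using this
  refine ⟨Finset.univ.sup m, fun n hn => ?_⟩
  have := hf n
  have inj : Function.Injective (fun i => (e i : G ⧸ Γ n)) := by
    intro i j hij
    rw [QuotientGroup.eq] at hij
    exact hm (i, j) (anti ((Finset.le_sup (Finset.mem_univ (i, j))).trans hn) hij)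
  have := Nat.card_le_card_of_injective _ inj
  simpa [Subgroup.index] using this

end TorsTower37
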